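import Pool.Agent.Work.MP_122e00_nt.WR.AllR
import Pool.Agent.Work.MP_122e00_nt.Strip.I_Pb
import Pool.Agent.Work.MP_122e00_nt.Strip.I_Do
import Pool.Agent.Work.MP_122e00_nt.Strip.I_Me
import Pool.Agent.Work.MP_122e00_nt.Strip.I_Ca
import Pool.Agent.Work.MP_122e00_nt.Strip.I_Cb
import Pool.Agent.Work.MP_122e00_nt.Strip.I_Ch
import Pool.Agent.Work.MP_122e00_nt.Strip.I_Ta
import Pool.Agent.Work.MP_122e00_nt.Strip.I_Sq
import Pool.Agent.Work.MP_122e00_nt.Strip.I_Ae
import Pool.Agent.Work.MP_122e00_nt.Strip.I_Cn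
import Pool.Agent.Work.MP_122e00_nt.Strip.I_Lm
import Pool.Agent.Work.MP_122e00_nt.Strip.I_Bn
import Pool.Agent.Work.MP_122e00_nt.Strip.I_Fa
import Pool.Agent.Work.MP_122e00_nt.Strip.I_Im
import Pool.Agent.Work.MP_122e00_nt.Strip.I_Pt
import Pool.Agent.Work.MP_122e00_nt.Strip.I_Su
import Pool.Agent.Work.MP_122e00_nt.Strip.I_On
import Pool.Agent.Work.MP_122e00_nt.Strip.I_Fp
import Pool.Agent.Work.MP_122e00_nt.Strip.I_Tw
import Pool.Agent.Work.MP_122e00_nt.Strip.I_St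

set_option autoImplicit false

/-!
# The Weil region: the sharp theorem, without hypotheses
-/

namespace Pool.Agent.Work.MP_122e00_nt.Strip

open Two Gen Pool.Agent.Work.MP_122e00_nt.Core Pool.Agent.Work.MP_122e00_nt.WR

theorem mBn : claimBn := prBn (prSq prTa) Two.prfT8
theorem mLm : claimLm := prLm (prAe Two.prfL6) prCn Two.prfT8
theorem mCh : claimCh := prCh prCa (prCb Gen.prfB8)
theorem mFa : claimFa := prFa mLm mBn mCh Gen.mB9
theorem mMe : claimMe := prMe Gen.mM3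
theorem mDo : claimDo := prDo Gen.prfG2 Gen.mB2 Gen.prfB3 Gen.mB5 (prPb Gen.prfB0 Gen.prfB4)
theorem mTw : claimTw := prTw Gen.prfB3 Gen.prfB10 mDo mMe mFa prIm mBn prFp mC5
theorem mSt : claimSt := prSt (prSu prPt mC8) prOn mTw

end Pool.Agent.Work.MP_122e00_nt.Strip

namespace Pool.Agent.Work.MP_122e00_nt.WR

theorem strip : StStrip := Strip.mSt

/-- The sharp theorem. -/
theorem sharp : StSharp := sharp_of strip

end Pool.Agent.Work.MP_122e00_nt.WR
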