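import Pool.Agent.Work.MP_122e00_nt.Core.Stmts

set_option autoImplicit false

/-!
# The Weil region: definitions and interfaces

`r = s + 1`.  Positions: a factorisation `n = a_1 ⋯ a_s a_{s+1}` is given by `a : Fin s → ℕ` with
`∏ a ∣ n`; its position is `lg X a`.
-/

namespace Pool.Agent.Work.MP_122e00_nt.WR

open Finset Filter Topology MeasureTheory

open scoped ArithmeticFunction.zeta

open Two Gen Pool.Agent.Work.MP_122e00_nt.Core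

/-- The half open box of positions. -/
def hb {s : ℕ} (α β : Fin s → ℝ) : Set (Fin s → ℝ) := {y | ∀ i, α i < y i ∧ y i ≤ β i}

open Classical in
/-- The number of `(n, a, b)`, `1 ≤ n ≤ X`, `∏ a ∣ n`, `∏ b ∣ n - z`, with position in `A`. -/
noncomputable def PC (s : ℕ) (X : ℝ) (z : ℤ) (A : Set ((Fin s → ℝ) × (Fin s → ℝ))) : ℝ :=
  ∑ n ∈ Finset.Icc 1 ⌊X⌋₊, ((((tup s X ×ˢ tup s X).filter (fun p =>
    (∏ i, p.1 i) ∣ n ∧ ((∏ i, p.2 i : ℕ) : ℤ) ∣ (n : ℤ) - z ∧ (lg X p.1, lg X p.2) ∈ A)).card : ℕ) : ℝ)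

/-- The linear conditions of the Weil region: `q ^ (3/2) c < X` and `q ^ (1/2) c b < X`, where
`q = a_1 ⋯ a_s`, `b = b_{i0}`, `c` = the product of the other `b_i`. -/
def LW {s : ℕ} (i0 : Fin s) (x y : Fin s → ℝ) : Prop :=
  3 / 2 * ∑ i, x i + (∑ i, y i - y i0) < 1 ∧ 1 / 2 * ∑ i, x i + ∑ i, y i < 1

/-- OUTPUT OF PARTS K AND C (helper21): the number of points in a box of the Weil region. The lower
ends `α i`, `γ i` may be negative: then `a i = 1` is included. -/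
def StBox : Prop := ∀ (s h : ℕ) (z : ℤ) (i0 : Fin s) (α β γ δ : Fin s → ℝ), h ≠ 0 → z.natAbs = h →
  (∀ i, 0 ≤ β i ∧ α i ≤ β i) → (∀ i, 0 ≤ δ i ∧ γ i ≤ δ i) → LW i0 β δ →
  Tendsto (fun X : ℝ => PC s X z (hb α β ×ˢ hb γ δ) / (X * (Real.log X) ^ (2 * s))) atTop
    (𝓝 (Csing s h * ((∏ i, (β i - max (α i) 0)) * ∏ i, (δ i - max (γ i) 0))))

/-- The fundamental domain: `x i0` is the largest of the `x i`, the last coordinate `1 - ∑ x` is at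
least `x i0` and at most `1 / 2`. -/
def Dm {s : ℕ} (i0 : Fin s) : Set (Fin s → ℝ) :=
  {x | (∀ i, 0 ≤ x i) ∧ (∀ i, x i ≤ x i0) ∧ x i0 ≤ 1 - ∑ i, x i ∧ 1 - ∑ i, x i ≤ 1 / 2}

/-- The mixed condition with margin `δ`. -/
def WD {s : ℕ} (i0 : Fin s) (δ : ℝ) (x y : Fin s → ℝ) : Prop :=
  3 * ∑ i, x i + 2 * (∑ i, y i - y i0) ≤ 2 - δ

/-- The part of the Weil region outside the region of level `1 / 2`, in the fundamental domain. -/
def TD {s : ℕ} (i0 : Fin s) (δ : ℝ) : Set ((Fin s → ℝ) × (Fin s → ℝ)) :=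
  {p | p.1 ∈ Dm i0 ∧ p.2 ∈ Dm i0 ∧ (WD i0 δ p.1 p.2 ∨ WD i0 δ p.2 p.1)}

/-- The proportion of the complement of the core. -/
noncomputable def kap (s : ℕ) (i0 : Fin s) (δ : ℝ) : ℝ :=
  1 - (1 - ((s : ℝ) + 1) / 2 ^ s) ^ 2 +
    (((s : ℝ) + 1) * s * s.factorial) ^ 2 * volume.real (TD i0 δ)

/-- The core: all factors are `< X ^ (1/2)`, and the mixed conditions. -/
def IsCore (s : ℕ) (δ X : ℝ) (v w : Fin (s + 1) → ℕ) : Prop :=
  (∀ i, (v i : ℝ) ^ 2 < X) ∧ (∀ i, (w i : ℝ) ^ 2 < X) ∧ ∀ i j k, i ≠ j →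
    ((w i : ℝ) * w j) ^ 2 * (v k : ℝ) ^ 3 ≤ X ^ (3 + δ) ∧
    ((v i : ℝ) * v j) ^ 2 * (w k : ℝ) ^ 3 ≤ X ^ (3 + δ)

open Classical in
/-- The number of pairs of factorisations of `n`, `n + h`, `n ≤ X`, in the core. -/
noncomputable def coreS (s h : ℕ) (δ X : ℝ) : ℝ :=
  ∑ n ∈ Finset.Icc 1 ⌊X⌋₊, ((((Nat.finMulAntidiag (s + 1) n ×ˢ Nat.finMulAntidiag (s + 1) (n + h)).filter
    (fun p => IsCore s δ X p.1 p.2)).card : ℕ) : ℝ)

/-- The main theorem with a margin `δ > 0`. -/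
def StMain : Prop := ∀ (s h : ℕ) (i0 : Fin s) (δ : ℝ), h ≠ 0 → 0 < δ →
  Tendsto (fun X : ℝ => (DS s h 0 ⌊X⌋₊ - coreS s h δ X) / (X * (Real.log X) ^ (2 * s))) atTop
    (𝓝 (kap s i0 δ * (Csing s h / (s.factorial : ℝ) ^ 2)))

/-- The sharp main theorem. -/
def StSharp : Prop := ∀ (s h : ℕ) (i0 : Fin s), h ≠ 0 →
  Tendsto (fun X : ℝ => (DS s h 0 ⌊X⌋₊ - coreS s h 0 X) / (X * (Real.log X) ^ (2 * s))) atTop
    (𝓝 (kap s i0 0 * (Csing s h / (s.factorial : ℝ) ^ 2)))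

/-- PHASE 2: the joint strip. -/
def StStrip : Prop := ∀ (s h : ℕ) (ε : ℝ), 1 ≤ s → h ≠ 0 → 0 < ε → ∃ δ : ℝ, 0 < δ ∧
  ∀ᶠ X : ℝ in atTop, coreS s h δ X - coreS s h 0 X ≤ ε * (X * (Real.log X) ^ (2 * s))

/-- PART V: the proportion for `r = 3` and `r = 4` (computed exactly by a computer program). -/
def StV3 : Prop := ∀ i0 : Fin 2, kap 2 i0 0 = 1737 / 1792
def StV4 : Prop := ∀ i0 : Fin 3, kap 3 i0 0 = 4996861 / 6322176

end Pool.Agent.Work.MP_122e00_nt.WR
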