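import Pool.Agent.Work.MP_122e00_nt.WR.StmtsC

set_option autoImplicit false

/-!
# The Weil region, item C0: short blocks
-/

namespace Pool.Agent.Work.MP_122e00_nt.WRK

open Finset Filter Topology

namespace ItC0

/-- the end points of the blocks -/
noncomputable def tt (lam : ℝ) (A B : ℕ) : ℕ → ℕ
  | 0 => A
  | i + 1 => min B ⌊lam * ((tt lam A B i : ℝ) + 1)⌋₊

theorem tt_succ (lam : ℝ) (A B i : ℕ) :
    tt lam A B (i + 1) = min B ⌊lam * ((tt lam A B i : ℝ) + 1)⌋₊ := rfl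

theorem tt_le (lam : ℝ) (A B : ℕ) (hAB : A ≤ B) (i : ℕ) : tt lam A B i ≤ B := by
  cases i with
  | zero => exact hAB
  | succ i =>
    rw [tt_succ]
    exact min_le_left _ _

theorem tt_mono (lam : ℝ) (hlam : 1 < lam) (A B : ℕ) (hAB : A ≤ B) (i : ℕ) :
    tt lam A B i ≤ tt lam A B (i + 1) := by
  rw [tt_succ]
  refine le_min (tt_le lam A B hAB i) ?_
  refine Nat.le_floor ?_
  have h : (0 : ℝ) ≤ (tt lam A B i : ℝ) := Nat.cast_nonneg _
  nlinarith

theorem tt_step (lam : ℝ) (hlam : 1 < lam) (A B : ℕ) (i : ℕ) :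
    (tt lam A B (i + 1) : ℝ) ≤ lam * ((tt lam A B i : ℝ) + 1) := by
  rw [tt_succ]
  have h : (0 : ℝ) ≤ (tt lam A B i : ℝ) := Nat.cast_nonneg _
  have h1 : ((min B ⌊lam * ((tt lam A B i : ℝ) + 1)⌋₊ : ℕ) : ℝ) ≤
      ((⌊lam * ((tt lam A B i : ℝ) + 1)⌋₊ : ℕ) : ℝ) := by
    exact_mod_cast min_le_right _ _
  exact h1.trans (Nat.floor_le (by positivity))

theorem tt_pow (lam : ℝ) (hlam : 1 < lam) (A B : ℕ) (hAB : A ≤ B) (i : ℕ) :
    tt lam A B i < B → lam ^ i ≤ (tt lam A B i : ℝ) + 1 := by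
  induction i with
  | zero =>
    intro _
    have h : (0 : ℝ) ≤ (tt lam A B 0 : ℝ) := Nat.cast_nonneg _
    rw [pow_zero]
    linarith
  | succ i ih =>
    intro h
    have h1 := ih (lt_of_le_of_lt (tt_mono lam hlam A B hAB i) h)
    have h2 : tt lam A B (i + 1) = ⌊lam * ((tt lam A B i : ℝ) + 1)⌋₊ := by
      rw [tt_succ] at h ⊢
      rcases min_choice B ⌊lam * ((tt lam A B i : ℝ) + 1)⌋₊ with h3 | h3
      · rw [h3] at h
        exact absurd h (lt_irrefl _)
      · exact h3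
    have h3 := Nat.lt_floor_add_one (lam * ((tt lam A B i : ℝ) + 1))
    rw [← h2] at h3
    have h4 : lam * lam ^ i ≤ lam * ((tt lam A B i : ℝ) + 1) :=
      mul_le_mul_of_nonneg_left h1 (by linarith)
    rw [pow_succ, mul_comm]
    linarith

end ItC0

open ItC0 in
theorem prfC0 : claimC0 := by
  intro lam hlam A B hAB
  have hl : 0 < Real.log lam := Real.log_pos hlam
  have hB : 0 ≤ Real.log ((B : ℝ) + 1) := Real.log_nonneg (by
    have : (0 : ℝ) ≤ B := Nat.cast_nonneg _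
    linarith)
  refine ⟨⌊Real.log ((B : ℝ) + 1) / Real.log lam⌋₊ + 1, tt lam A B, rfl, ?_,
    monotone_nat_of_le_succ (tt_mono lam hlam A B hAB), tt_step lam hlam A B, ?_⟩
  · refine le_antisymm (tt_le lam A B hAB _) ?_
    by_contra hcon
    rw [not_le] at hcon
    have h1 := tt_pow lam hlam A B hAB _ hcon
    have h2 : ((tt lam A B (⌊Real.log ((B : ℝ) + 1) / Real.log lam⌋₊ + 1) : ℕ) : ℝ) + 1 ≤
        (B : ℝ) + 1 := by
      have : ((tt lam A B (⌊Real.log ((B : ℝ) + 1) / Real.log lam⌋₊ + 1) : ℕ) : ℝ) ≤ (B : ℝ) := by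
        exact_mod_cast hcon.le
      linarith
    have h3 := Real.log_le_log (pow_pos (by linarith) _) (h1.trans h2)
    rw [Real.log_pow] at h3
    have h4 := Nat.lt_floor_add_one (Real.log ((B : ℝ) + 1) / Real.log lam)
    rw [div_lt_iff₀ hl] at h4
    push_cast at h3
    linarith
  · unfold JJ
    push_cast
    have := Nat.floor_le (div_nonneg hB hl.le)
    linarith

end Pool.Agent.Work.MP_122e00_nt.WRK
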