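import Pool.Agent.Work.MP_122e00_nt.WR.StmtsC

set_option autoImplicit false

/-!
# The Weil region, part C, item C1: one block
-/

namespace Pool.Agent.Work.MP_122e00_nt.WRK

open Finset Filter Topology

namespace JC1

theorem Fh_nn (h g : ℕ) : 0 ≤ Fh h g := by
  change (0 : ℝ) ≤ if g ∣ h then (g : ℝ) else 0
  split_ifs
  · positivity
  · exact le_refl _

theorem EE_nn (h q R : ℕ) (L : ℝ) (hq : 1 ≤ q) (hL : 0 ≤ L) : 0 ≤ EE h q R L 1 := by
  unfold EE
  have h1 : 0 ≤ Real.log q := Real.log_nonneg (by exact_mod_cast hq)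
  have h2 : (0 : ℝ) ≤ q := Nat.cast_nonneg q
  positivity

theorem card_prod (q m A B A' B' : ℕ) (z : ℤ) :
    (((Finset.Ioc A B) ×ˢ (Finset.Ioc A' B')).filter
        (fun p : ℕ × ℕ => (q : ℤ) ∣ ((m * p.1 * p.2 : ℕ) : ℤ) + z)).card =
    ∑ x ∈ Finset.Ioc A B, ((Finset.Ioc A' B').filter
      (fun y : ℕ => (q : ℤ) ∣ ((m * x * y : ℕ) : ℤ) + z)).card := by
  rw [card_filter, sum_product]
  apply sum_congr rfl
  intro x _
  rw [card_filter]

/-- upper injection -/
theorem up (h q m A B N x : ℕ) (z : ℤ) (hm : 1 ≤ m) (hx : x ∈ Ioc A B) (hz : z.natAbs = h) :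
    ((Finset.Ioc h N).filter (fun n : ℕ => q ∣ n ∧ ((m * x : ℕ) : ℤ) ∣ (n : ℤ) - z)).card ≤
    ((Finset.Ioc 0 ((N + h) / (m * (A + 1)))).filter
      (fun y : ℕ => (q : ℤ) ∣ ((m * x * y : ℕ) : ℤ) + z)).card := by
  rw [mem_Ioc] at hx
  have hmx : 0 < m * x := Nat.mul_pos (by omega) (by omega)
  have key : ∀ n ∈ (Finset.Ioc h N).filter (fun n : ℕ => q ∣ n ∧ ((m * x : ℕ) : ℤ) ∣ (n : ℤ) - z),
      (((m * x * (((n : ℤ) - z) / ((m * x : ℕ) : ℤ)).toNat : ℕ) : ℕ) : ℤ) = (n : ℤ) - z := by
    intro n hn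
    rw [mem_filter, mem_Ioc] at hn
    obtain ⟨⟨h1, h2⟩, h3, h4⟩ := hn
    obtain ⟨c, hc⟩ := h4
    have hpos : 0 < (n : ℤ) - z := by omega
    have hmx' : (0 : ℤ) < ((m * x : ℕ) : ℤ) := by exact_mod_cast hmx
    have hc0 : 0 < c := by
      rw [hc] at hpos
      exact (pos_iff_pos_of_mul_pos hpos).1 hmx'
    rw [hc, Int.mul_ediv_cancel_left _ hmx'.ne', Nat.cast_mul, Int.toNat_of_nonneg hc0.le]
  apply Finset.card_le_card_of_injOn (fun n : ℕ => (((n : ℤ) - z) / ((m * x : ℕ) : ℤ)).toNat)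
  · intro n hn
    have hk := key n hn
    rw [mem_coe, mem_filter, mem_Ioc] at hn
    obtain ⟨⟨h1, h2⟩, h3, h4⟩ := hn
    rw [mem_coe, mem_filter, mem_Ioc]
    beta_reduce
    set y := (((n : ℤ) - z) / ((m * x : ℕ) : ℤ)).toNat with hy
    have hy0 : 0 < y := by
      rcases Nat.eq_zero_or_pos y with h0 | h0
      · rw [h0] at hk
        push_cast at hk
        omega
      · exact h0
    refine ⟨⟨hy0, ?_⟩, ?_⟩
    · rw [Nat.le_div_iff_mul_le (Nat.mul_pos (by omega) (by omega))]
      have h5 : m * x * y ≤ N + h := by omega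
      have h6 : y * (m * (A + 1)) ≤ m * x * y := by
        have : m * (A + 1) ≤ m * x := Nat.mul_le_mul_left _ (by omega)
        calc y * (m * (A + 1)) ≤ y * (m * x) := Nat.mul_le_mul_left _ this
          _ = m * x * y := by ring
      omega
    · rw [hk]
      have : (n : ℤ) - z + z = (n : ℤ) := by ring
      rw [this]
      exact_mod_cast h3
  · intro n hn n' hn' he
    have hk := key n hn
    have hk' := key n' hn'
    have he' : (((n : ℤ) - z) / ((m * x : ℕ) : ℤ)).toNat = (((n' : ℤ) - z) / ((m * x : ℕ) : ℤ)).toNat := he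
    rw [he', hk'] at hk
    have : (n' : ℤ) = n := by linarith
    exact_mod_cast this.symm

/-- lower injection -/
theorem lo (h q m A B N x : ℕ) (z : ℤ) (hm : 1 ≤ m) (hx : x ∈ Ioc A B) (hz : z.natAbs = h)
    (hN : h < N) :
    ((Finset.Ioc (2 * h) ((N - h) / (m * B))).filter
      (fun y : ℕ => (q : ℤ) ∣ ((m * x * y : ℕ) : ℤ) + z)).card ≤
    ((Finset.Ioc h N).filter (fun n : ℕ => q ∣ n ∧ ((m * x : ℕ) : ℤ) ∣ (n : ℤ) - z)).card := by
  rw [mem_Ioc] at hx
  have hmx : 0 < m * x := Nat.mul_pos (by omega) (by omega)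
  have hmB : 0 < m * B := Nat.mul_pos (by omega) (by omega)
  have key : ∀ y ∈ (Finset.Ioc (2 * h) ((N - h) / (m * B))).filter
      (fun y : ℕ => (q : ℤ) ∣ ((m * x * y : ℕ) : ℤ) + z),
      (((((m * x * y : ℕ) : ℤ) + z).toNat : ℕ) : ℤ) = ((m * x * y : ℕ) : ℤ) + z := by
    intro y hy
    rw [mem_filter, mem_Ioc] at hy
    obtain ⟨⟨h1, h2⟩, h3⟩ := hy
    apply Int.toNat_of_nonneg
    have : y ≤ m * x * y := Nat.le_mul_of_pos_left y hmx
    omega
  apply Finset.card_le_card_of_injOn (fun y : ℕ => (((m * x * y : ℕ) : ℤ) + z).toNat)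
  · intro y hy
    have hk := key y hy
    rw [mem_coe, mem_filter, mem_Ioc] at hy
    obtain ⟨⟨h1, h2⟩, h3⟩ := hy
    rw [mem_coe, mem_filter, mem_Ioc]
    beta_reduce
    set n := (((m * x * y : ℕ) : ℤ) + z).toNat with hn
    have h5 : y ≤ m * x * y := Nat.le_mul_of_pos_left y hmx
    have h6 : m * x * y ≤ N - h := by
      calc m * x * y = y * (m * x) := by ring
        _ ≤ y * (m * B) := Nat.mul_le_mul_left _ (Nat.mul_le_mul_left _ hx.2)
        _ ≤ ((N - h) / (m * B)) * (m * B) := Nat.mul_le_mul_right _ h2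
        _ ≤ N - h := Nat.div_mul_le_self _ _
    refine ⟨⟨by omega, by omega⟩, ?_, ?_⟩
    · rw [← hk] at h3
      exact_mod_cast h3
    · rw [hk]
      refine ⟨(y : ℤ), ?_⟩
      push_cast
      ring
  · intro y hy y' hy' he
    have hk := key y hy
    have hk' := key y' hy'
    have he' : (((m * x * y : ℕ) : ℤ) + z).toNat = (((m * x * y' : ℕ) : ℤ) + z).toNat := he
    rw [he', hk'] at hk
    have h7 : ((m * x * y' : ℕ) : ℤ) = ((m * x * y : ℕ) : ℤ) := by linarith
    have h8 : m * x * y' = m * x * y := by exact_mod_cast h7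
    exact (Nat.eq_of_mul_eq_mul_left hmx h8).symm

end JC1

theorem prfC1 : claimC1 := by
  intro hKM h q m A B N R lam z hh hq hm hAB hlam hlam2 hBl hz hR
  have hEE : 0 ≤ EE h q R ((B : ℝ) - A) 1 := JC1.EE_nn h q R _ hq (by
    have : (A : ℝ) ≤ B := by exact_mod_cast hAB
    linarith)
  rcases Nat.eq_or_lt_of_le hAB with hEq | hlt
  · subst hEq
    have h1 : cnt h q m A A N z = 0 := by simp [cnt]
    have h2 : mt h q m A A = 0 := by simp [mt]
    rw [h1, h2]
    constructor
    · push_cast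
      linarith
    · push_cast
      linarith
  -- the main case
  have hq' : (0 : ℝ) < q := by exact_mod_cast hq
  have hm' : (0 : ℝ) < m := by exact_mod_cast hm
  have hm1 : (1 : ℝ) ≤ m := by exact_mod_cast hm
  have hh' : (0 : ℝ) < h := by exact_mod_cast Nat.pos_of_ne_zero hh
  have hlam0 : (0 : ℝ) < lam := by linarith
  have hA1 : (0 : ℝ) < (A : ℝ) + 1 := by positivity
  set S : ℝ := ∑ x ∈ Finset.Ioc A B, Fh h (Nat.gcd q (m * x)) with hS
  have hS0 : 0 ≤ S := sum_nonneg (fun x _ => JC1.Fh_nn _ _)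
  have hSle : S ≤ h * ((B : ℝ) - A) := by
    have h1 : S ≤ ∑ x ∈ Finset.Ioc A B, (h : ℝ) := sum_le_sum (fun x _ => Fh_le h _ hh)
    rw [sum_const, Nat.card_Ioc, nsmul_eq_mul, Nat.cast_sub hAB] at h1
    linarith
  have hx1 : ∀ x ∈ Finset.Ioc A B, (A : ℝ) + 1 ≤ x := by
    intro x hx
    rw [mem_Ioc] at hx
    exact_mod_cast hx.1
  have hx2 : ∀ x ∈ Finset.Ioc A B, (x : ℝ) ≤ lam * (A + 1) := by
    intro x hx
    rw [mem_Ioc] at hx
    have : (x : ℝ) ≤ B := by exact_mod_cast hx.2
    linarith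
  have hB0 : (0 : ℝ) < B := by
    have : 0 < B := by omega
    exact_mod_cast this
  have hB1 : (1 : ℝ) ≤ B := by
    have : 1 ≤ B := by omega
    exact_mod_cast this
  constructor
  · -- lower bound
    rcases Nat.lt_or_ge h N with hN | hN
    swap
    · -- N ≤ h
      have hN' : (N : ℝ) ≤ h := by exact_mod_cast hN
      have h1 : (N : ℝ) / lam * mt h q m A B ≤ h / q * S := by
        unfold mt
        rw [mul_sum, hS, mul_sum]
        apply sum_le_sum
        intro x hx
        have hF := JC1.Fh_nn h (Nat.gcd q (m * x))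
        have hx1' := hx1 x hx
        have hx0 : (0 : ℝ) < x := by linarith
        have hxx : (1 : ℝ) ≤ x := by linarith [(Nat.cast_nonneg A : (0 : ℝ) ≤ A)]
        have e1 : (N : ℝ) / lam ≤ h := by
          rw [div_le_iff₀ hlam0]
          nlinarith
        have e2 : Fh h (Nat.gcd q (m * x)) / ((q : ℝ) * m * x) ≤ Fh h (Nat.gcd q (m * x)) / q := by
          apply div_le_div_of_nonneg_left hF hq'
          have : (1 : ℝ) ≤ m * x := by nlinarith
          nlinarith
        calc (N : ℝ) / lam * (Fh h (Nat.gcd q (m * x)) / ((q : ℝ) * m * x))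
            ≤ h * (Fh h (Nat.gcd q (m * x)) / q) := by
              apply mul_le_mul e1 e2 (by positivity) hh'.le
          _ = h / q * Fh h (Nat.gcd q (m * x)) := by ring
      have h2 : (h : ℝ) / q * S ≤ (h / q) * (h * ((B : ℝ) - A)) :=
        mul_le_mul_of_nonneg_left hSle (by positivity)
      have hBA : (0 : ℝ) ≤ (B : ℝ) - A := by
        have : (A : ℝ) ≤ B := by exact_mod_cast hAB
        linarith
      have h3 : (h / q : ℝ) * (h * ((B : ℝ) - A)) ≤ (1 + 3 * h) * (h / q) * ((B : ℝ) - A) := by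
        have e : (1 + 3 * h) * (h / q) * ((B : ℝ) - A) - (h / q : ℝ) * (h * ((B : ℝ) - A)) =
          (1 + 2 * h) * ((h / q) * ((B : ℝ) - A)) := by ring
        have : 0 ≤ (1 + 2 * (h : ℝ)) * ((h / q) * ((B : ℝ) - A)) := by positivity
        linarith
      have h4 : (0 : ℝ) ≤ (cnt h q m A B N z : ℝ) := Nat.cast_nonneg _
      linarith
    · have hmB : 0 < m * B := Nat.mul_pos (by omega) (by omega)
      have hmB' : (0 : ℝ) < (m : ℝ) * B := by positivity
      set b := (N - h) / (m * B) with hb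
      have hNh : ((N - h : ℕ) : ℝ) = (N : ℝ) - h := Nat.cast_sub hN.le
      have hb1 : ((N : ℝ) - h) / (m * B) < b + 1 := by
        have h1 : N - h < (b + 1) * (m * B) := by
          have := Nat.lt_div_mul_add (a := N - h) hmB
          rw [← hb] at this
          linarith [this]
        have h2 : ((N - h : ℕ) : ℝ) < ((b : ℝ) + 1) * (m * B) := by exact_mod_cast h1
        rw [div_lt_iff₀ hmB']
        linarith
      have hhmB : (h : ℝ) / (m * B) ≤ h := by
        rw [div_le_iff₀ hmB']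
        have : (1 : ℝ) ≤ m * B := by nlinarith
        nlinarith
      have hNx : ∀ x ∈ Finset.Ioc A B, (N : ℝ) / (lam * (m * x)) ≤ N / (m * B) := by
        intro x hx
        have hx1' := hx1 x hx
        apply div_le_div_of_nonneg_left (Nat.cast_nonneg _) hmB'
        have : (B : ℝ) ≤ lam * x := le_trans hBl (mul_le_mul_of_nonneg_left hx1' hlam0.le)
        nlinarith
      have hsplit : ((N : ℝ) - h) / (m * B) = N / (m * B) - h / (m * B) := by ring
      have hBA : (0 : ℝ) ≤ (B : ℝ) - A := by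
        have : (A : ℝ) ≤ B := by exact_mod_cast hAB
        linarith
      have hmt : ∀ K : ℝ, 0 ≤ K → (∀ x ∈ Finset.Ioc A B, (N : ℝ) / (lam * (m * x)) ≤ K) →
          (N : ℝ) / lam * mt h q m A B ≤ K / q * S := by
        intro K _ hK
        unfold mt
        rw [mul_sum, hS, mul_sum]
        apply sum_le_sum
        intro x hx
        have hF := JC1.Fh_nn h (Nat.gcd q (m * x))
        have hx1' := hx1 x hx
        have hx0 : (0 : ℝ) < x := by linarith
        calc (N : ℝ) / lam * (Fh h (Nat.gcd q (m * x)) / ((q : ℝ) * m * x))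
            = (N : ℝ) / (lam * (m * x)) * (Fh h (Nat.gcd q (m * x)) / q) := by
              field_simp
          _ ≤ K * (Fh h (Nat.gcd q (m * x)) / q) :=
              mul_le_mul_of_nonneg_right (hK x hx) (by positivity)
          _ = K / q * Fh h (Nat.gcd q (m * x)) := by ring
      rcases Nat.lt_or_ge b (2 * h) with hb2 | hb2
      · -- b < 2h
        have hb2' : (b : ℝ) + 1 ≤ 2 * h := by exact_mod_cast hb2
        have h1 := hmt (3 * h) (by positivity) (fun x hx => by
          have := hNx x hx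
          linarith)
        have h2 : (3 * (h : ℝ)) / q * S ≤ (3 * h / q) * (h * ((B : ℝ) - A)) :=
          mul_le_mul_of_nonneg_left hSle (by positivity)
        have h3 : (3 * h / q : ℝ) * (h * ((B : ℝ) - A)) ≤ (1 + 3 * h) * (h / q) * ((B : ℝ) - A) := by
          have e : (1 + 3 * h) * (h / q) * ((B : ℝ) - A) - (3 * h / q : ℝ) * (h * ((B : ℝ) - A)) =
            (h / q) * ((B : ℝ) - A) := by ring
          have : 0 ≤ (h / q : ℝ) * ((B : ℝ) - A) := by positivity
          linarith
        have h4 : (0 : ℝ) ≤ (cnt h q m A B N z : ℝ) := Nat.cast_nonneg _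
        linarith
      · -- b ≥ 2h
        have hb2' : (2 * h : ℝ) ≤ b := by exact_mod_cast hb2
        have hP := hKM h hh q m A B (2 * h) b R z hq hAB hb2 hR hz
        rw [abs_le] at hP
        rw [JC1.card_prod] at hP
        have hle : ∑ x ∈ Finset.Ioc A B, ((Finset.Ioc (2 * h) b).filter
            (fun y : ℕ => (q : ℤ) ∣ ((m * x * y : ℕ) : ℤ) + z)).card ≤ cnt h q m A B N z := by
          unfold cnt
          apply sum_le_sum
          intro x hx
          exact JC1.lo h q m A B N x z hm hx hz hN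
        have hle' : ((∑ x ∈ Finset.Ioc A B, ((Finset.Ioc (2 * h) b).filter
            (fun y : ℕ => (q : ℤ) ∣ ((m * x * y : ℕ) : ℤ) + z)).card : ℕ) : ℝ) ≤
            (cnt h q m A B N z : ℝ) := by exact_mod_cast hle
        have h1 : (N : ℝ) / lam * mt h q m A B ≤ ((b : ℝ) - ((2 * h : ℕ) : ℝ) + (1 + 3 * h)) / q * S := by
          apply hmt
          · push_cast
            nlinarith
          · intro x hx
            have := hNx x hx
            push_cast
            linarith
        have h2 : ((b : ℝ) - ((2 * h : ℕ) : ℝ) + (1 + 3 * h)) / q * S =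
            ((b : ℝ) - ((2 * h : ℕ) : ℝ)) / q * S + (1 + 3 * h) / q * S := by ring
        have h3 : (1 + 3 * (h : ℝ)) / q * S ≤ (1 + 3 * h) / q * (h * ((B : ℝ) - A)) :=
          mul_le_mul_of_nonneg_left hSle (by positivity)
        have h4 : (1 + 3 * (h : ℝ)) / q * (h * ((B : ℝ) - A)) = (1 + 3 * h) * (h / q) * ((B : ℝ) - A) := by
          ring
        have h5 := hP.1
        linarith
  · -- upper bound
    set B2 := (N + h) / (m * (A + 1)) with hB2
    have hmA : (0 : ℝ) < (m : ℝ) * (A + 1) := by positivity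
    have hB2' : (B2 : ℝ) ≤ ((N : ℝ) + h) / (m * (A + 1)) := by
      have := @Nat.cast_div_le ℝ _ _ _ (N + h) (m * (A + 1))
      rw [← hB2] at this
      push_cast at this
      exact this
    have hP := hKM h hh q m A B 0 B2 R z hq hAB (Nat.zero_le _) hR hz
    rw [abs_le] at hP
    rw [JC1.card_prod] at hP
    have hle : cnt h q m A B N z ≤ ∑ x ∈ Finset.Ioc A B, ((Finset.Ioc 0 B2).filter
        (fun y : ℕ => (q : ℤ) ∣ ((m * x * y : ℕ) : ℤ) + z)).card := by
      unfold cnt
      apply sum_le_sum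
      intro x hx
      exact JC1.up h q m A B N x z hm hx hz
    have hle' : (cnt h q m A B N z : ℝ) ≤ ((∑ x ∈ Finset.Ioc A B, ((Finset.Ioc 0 B2).filter
        (fun y : ℕ => (q : ℤ) ∣ ((m * x * y : ℕ) : ℤ) + z)).card : ℕ) : ℝ) := by exact_mod_cast hle
    have hBA : (0 : ℝ) ≤ (B : ℝ) - A := by
      have : (A : ℝ) ≤ B := by exact_mod_cast hAB
      linarith
    have h1 : ((B2 : ℝ) - ((0 : ℕ) : ℝ)) / q * S ≤ lam * N * mt h q m A B + 2 * h / q * S := by
      unfold mt
      rw [mul_sum, hS, mul_sum, mul_sum, ← sum_add_distrib]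
      apply sum_le_sum
      intro x hx
      have hF := JC1.Fh_nn h (Nat.gcd q (m * x))
      have hx1' := hx1 x hx
      have hx2' := hx2 x hx
      have hx0 : (0 : ℝ) < x := by linarith
      have hxx : (1 : ℝ) ≤ x := by linarith [(Nat.cast_nonneg A : (0 : ℝ) ≤ A)]
      have hmx : (0 : ℝ) < m * x := by positivity
      have e1 : ((N : ℝ) + h) / (m * (A + 1)) ≤ lam * (N + h) / (m * x) := by
        rw [div_le_div_iff₀ hmA hmx]
        have : (m : ℝ) * x ≤ lam * (m * (A + 1)) := by
          have := mul_le_mul_of_nonneg_left hx2' hm'.le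
          linarith
        have hNh : (0 : ℝ) ≤ (N : ℝ) + h := by positivity
        nlinarith [mul_le_mul_of_nonneg_left this hNh]
      have e2 : lam * (N + h) / (m * x) ≤ lam * N / (m * x) + 2 * h := by
        have e3 : lam * (N + h) / (m * x) = lam * N / (m * x) + lam * h / (m * x) := by ring
        have e4 : lam * h / (m * x) ≤ 2 * h := by
          rw [div_le_iff₀ hmx]
          have : (1 : ℝ) ≤ m * x := by nlinarith
          nlinarith
        linarith
      have e5 : (B2 : ℝ) ≤ lam * N / (m * x) + 2 * h := by linarith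
      have hFq : 0 ≤ Fh h (Nat.gcd q (m * x)) / q := by positivity
      calc ((B2 : ℝ) - ((0 : ℕ) : ℝ)) / q * Fh h (Nat.gcd q (m * x))
          = B2 * (Fh h (Nat.gcd q (m * x)) / q) := by
            push_cast
            ring
        _ ≤ (lam * N / (m * x) + 2 * h) * (Fh h (Nat.gcd q (m * x)) / q) :=
            mul_le_mul_of_nonneg_right e5 hFq
        _ = lam * N * (Fh h (Nat.gcd q (m * x)) / ((q : ℝ) * m * x)) +
            2 * h / q * Fh h (Nat.gcd q (m * x)) := by
            field_simp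
    have h2 : (2 * (h : ℝ)) / q * S ≤ (2 * h / q) * (h * ((B : ℝ) - A)) :=
      mul_le_mul_of_nonneg_left hSle (by positivity)
    have h3 : (2 * h / q : ℝ) * (h * ((B : ℝ) - A)) ≤ (1 + 3 * h) * (h / q) * ((B : ℝ) - A) := by
      have e : (1 + 3 * h) * (h / q) * ((B : ℝ) - A) - (2 * h / q : ℝ) * (h * ((B : ℝ) - A)) =
        (1 + h) * ((h / q) * ((B : ℝ) - A)) := by ring
      have : 0 ≤ (1 + (h : ℝ)) * ((h / q) * ((B : ℝ) - A)) := by positivity
      linarith
    have h5 := hP.2
    linarith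

end Pool.Agent.Work.MP_122e00_nt.WRK
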