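import Pool.Agent.Work.MP_122e00_nt.WR.StmtsC

set_option autoImplicit false

/-!
Item C2 of the block WR: the count on an arbitrary interval, by summing over short blocks.
-/

namespace Pool.Agent.Work.MP_122e00_nt.WRK

open Finset Filter Topology

namespace IC2

lemma cnt_add (h q m N : ℕ) (z : ℤ) {A B C : ℕ} (h1 : A ≤ B) (h2 : B ≤ C) :
    cnt h q m A B N z + cnt h q m B C N z = cnt h q m A C N z := by
  unfold cnt
  exact Finset.sum_Ioc_consecutive _ h1 h2

lemma mt_add (h q m : ℕ) {A B C : ℕ} (h1 : A ≤ B) (h2 : B ≤ C) :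
    mt h q m A B + mt h q m B C = mt h q m A C := by
  unfold mt
  exact Finset.sum_Ioc_consecutive _ h1 h2

lemma EE_add (h q R : ℕ) (L L' J : ℝ) :
    EE h q R L J + EE h q R L' 1 = EE h q R (L + L') (J + 1) := by
  unfold EE
  ring

lemma EE_mono (h q R : ℕ) (hq : 1 ≤ q) (L : ℝ) {J J' : ℝ} (hJ : J ≤ J') :
    EE h q R L J ≤ EE h q R L J' := by
  have h1 : 0 ≤ Real.log q := Real.log_nonneg (by exact_mod_cast hq)
  unfold EE
  refine mul_le_mul_of_nonneg_left ?_ (by positivity)
  have := mul_le_mul_of_nonneg_right hJ (by linarith : (0 : ℝ) ≤ 1 + Real.log q)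
  linarith

end IC2

/-- Item C2. -/
theorem prfC2 : claimC2 := by
  intro hC0 hB h q m A B N R lam z hh hq hm hAB hl hl2 hz hR
  obtain ⟨J, t, t0, tJ, tm, ts, hJ⟩ := hC0 lam hl A B hAB
  have key : ∀ j : ℕ,
      (N : ℝ) / lam * mt h q m A (t j) - (1 + 3 * h) * (h / q) * ((t j : ℝ) - A) -
        EE h q R ((t j : ℝ) - A) j ≤ (cnt h q m A (t j) N z : ℝ) ∧
      (cnt h q m A (t j) N z : ℝ) ≤ lam * N * mt h q m A (t j) +
        (1 + 3 * h) * (h / q) * ((t j : ℝ) - A) + EE h q R ((t j : ℝ) - A) j := by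
    intro j
    induction j with
    | zero =>
      rw [t0]
      have e1 : mt h q m A A = 0 := by unfold mt; simp
      have e2 : cnt h q m A A N z = 0 := by unfold cnt; simp
      have e3 : EE h q R ((A : ℝ) - A) ((0 : ℕ) : ℝ) = 0 := by unfold EE; simp
      rw [e1, e2, e3]
      constructor <;> simp
    | succ j ih =>
      have hA : A ≤ t j := by rw [← t0]; exact tm (Nat.zero_le j)
      have hs : t j ≤ t (j + 1) := tm (Nat.le_succ j)
      obtain ⟨b1, b2⟩ := hB h q m (t j) (t (j + 1)) N R lam z hh hq hm hs hl hl2 (ts j) hz hR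
      obtain ⟨i1, i2⟩ := ih
      have e1 := IC2.mt_add h q m hA hs
      have e2 : (cnt h q m A (t j) N z : ℝ) + (cnt h q m (t j) (t (j + 1)) N z : ℝ) =
          (cnt h q m A (t (j + 1)) N z : ℝ) := by
        exact_mod_cast IC2.cnt_add h q m N z hA hs
      have e3 := IC2.EE_add h q R ((t j : ℝ) - A) ((t (j + 1) : ℝ) - t j) j
      have e4 : ((t j : ℝ) - A) + ((t (j + 1) : ℝ) - t j) = (t (j + 1) : ℝ) - A := by ring
      rw [e4] at e3
      rw [← e2, ← e1]
      push_cast
      rw [← e3]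
      constructor
      · have : (N : ℝ) / lam * (mt h q m A (t j) + mt h q m (t j) (t (j + 1))) -
            (1 + 3 * h) * (h / q) * ((t (j + 1) : ℝ) - A) -
            (EE h q R ((t j : ℝ) - A) j + EE h q R ((t (j + 1) : ℝ) - t j) 1) =
            ((N : ℝ) / lam * mt h q m A (t j) - (1 + 3 * h) * (h / q) * ((t j : ℝ) - A) -
              EE h q R ((t j : ℝ) - A) j) +
            ((N : ℝ) / lam * mt h q m (t j) (t (j + 1)) -
              (1 + 3 * h) * (h / q) * ((t (j + 1) : ℝ) - t j) -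
              EE h q R ((t (j + 1) : ℝ) - t j) 1) := by ring
        rw [this]
        exact add_le_add i1 b1
      · have : lam * N * (mt h q m A (t j) + mt h q m (t j) (t (j + 1))) +
            (1 + 3 * h) * (h / q) * ((t (j + 1) : ℝ) - A) +
            (EE h q R ((t j : ℝ) - A) j + EE h q R ((t (j + 1) : ℝ) - t j) 1) =
            (lam * N * mt h q m A (t j) + (1 + 3 * h) * (h / q) * ((t j : ℝ) - A) +
              EE h q R ((t j : ℝ) - A) j) +
            (lam * N * mt h q m (t j) (t (j + 1)) +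
              (1 + 3 * h) * (h / q) * ((t (j + 1) : ℝ) - t j) +
              EE h q R ((t (j + 1) : ℝ) - t j) 1) := by ring
        rw [this]
        exact add_le_add i2 b2
  obtain ⟨k1, k2⟩ := key J
  rw [tJ] at k1 k2
  have hE := IC2.EE_mono h q R hq ((B : ℝ) - A) hJ
  exact ⟨by linarith, by linarith⟩

end Pool.Agent.Work.MP_122e00_nt.WRK
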