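import Mathlib
import Pool.Agent.Work.MP_122e00_nt.Corr

set_option autoImplicit false

/-!
# The Weil region (cand 202), parts K and C: definitions

`K` = Kloosterman sums to composite moduli and completion (everything here uses the Weil bound only
for prime moduli, `claimWeil`); `C` = counting with arbitrary coefficients, and boxes.
`Fh`, `Csing`, `box`, `Wsum` are those of the landed lower bound.
-/

namespace Pool.Agent.Work.MP_122e00_nt.WRK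

open Finset Filter Topology

/-- The Weil bound for Kloosterman sums modulo a prime (delivered by part W). -/
def claimWeil : Prop := ∀ (p : ℕ) [Fact p.Prime] (a b : ZMod p), a ≠ 0 → b ≠ 0 →
    ‖∑ x : (ZMod p)ˣ, ZMod.stdAddChar (a * (x : ZMod p) + b * ((x⁻¹ : (ZMod p)ˣ) : ZMod p))‖ ≤
      2 * √(p : ℝ)

open Classical in
/-- The sum over the pairs `(x, y)` with `b x y = z` of `ψ₁ y * ψ₂ x`. -/
noncomputable def KK {R : Type} [CommRing R] [Fintype R] (b z : R) (ψ₁ ψ₂ : AddChar R ℂ) : ℂ :=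
  ∑ x : R, ∑ y : R, if b * x * y = z then ψ₁ y * ψ₂ x else 0

/-- The bound for the sums `KK` modulo `q`; `r` is large only if `q` has a large square divisor. -/
def KBd (h q r : ℕ) : Prop := ∀ [NeZero q] (z : ℤ), z.natAbs = h →
    ∀ (b : ZMod q) (ψ₁ ψ₂ : AddChar (ZMod q) ℂ),
    ‖KK b (z : ZMod q) ψ₁ ψ₂‖ ≤
      (Nat.gcd q h : ℝ) ^ 2 * (r : ℝ) ^ 6 * (q.divisors.card : ℝ) *
        ((q : ℝ) / √(orderOf ψ₁ : ℝ))

/-- The additive character `t ↦ e(μ t / q)`. -/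
noncomputable def ech (q : ℕ) [NeZero q] (μ : ZMod q) : AddChar (ZMod q) ℂ :=
  AddChar.mulShift (ZMod.stdAddChar (N := q)) μ

/-- The sum over `x ∈ (A, B]` of `e(-ν x / q)`. -/
noncomputable def hatI (q : ℕ) [NeZero q] (A B : ℕ) (ν : ZMod q) : ℂ :=
  ∑ x ∈ Finset.Ioc A B, ZMod.stdAddChar (-(ν * (x : ZMod q)))

/-- The error term of the completion: interval of length `L`, `J` blocks. -/
noncomputable def EE (h q R : ℕ) (L J : ℝ) : ℝ :=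
  (h : ℝ) ^ 2 * (R : ℝ) ^ 6 * (q.divisors.card : ℝ) ^ 2 * √(q : ℝ) * (1 + Real.log q) *
    (L / q + J * (1 + Real.log q))

/-- `x ∈ (A, B]`, `n ∈ (h, N]` with `q ∣ n` and `m x ∣ n - z`. -/
def cnt (h q m A B N : ℕ) (z : ℤ) : ℕ :=
  ∑ x ∈ Finset.Ioc A B, ((Finset.Ioc h N).filter
    (fun n : ℕ => q ∣ n ∧ ((m * x : ℕ) : ℤ) ∣ (n : ℤ) - z)).card

/-- The main term for one pair `(q, m)`. -/
noncomputable def mt (h q m A B : ℕ) : ℝ :=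
  ∑ x ∈ Finset.Ioc A B, Fh h (Nat.gcd q (m * x)) / ((q : ℝ) * m * x)

/-- The count with coefficients, all `n ∈ [1, N]`. -/
noncomputable def SN (β w : ℕ → ℝ) (N Q M A B : ℕ) (z : ℤ) : ℝ :=
  ∑ q ∈ Finset.Icc 1 Q, ∑ m ∈ Finset.Icc 1 M, β q * w m *
    (∑ x ∈ Finset.Ioc A B, (((Finset.Icc 1 N).filter
      (fun n : ℕ => q ∣ n ∧ ((m * x : ℕ) : ℤ) ∣ (n : ℤ) - z)).card : ℝ))

/-- The main term with coefficients. -/
noncomputable def MT (h : ℕ) (β w : ℕ → ℝ) (Q M A B : ℕ) : ℝ :=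
  ∑ q ∈ Finset.Icc 1 Q, ∑ m ∈ Finset.Icc 1 M, β q * w m * mt h q m A B

/-- Box count: `n ≤ X`, `a₀ ⋯ a_s ∣ n`, `b₀ ⋯ b_s ∣ n - z`, positions of `a`, `b` in the boxes. -/
noncomputable def BC {s : ℕ} (al be ga de : Fin s → ℝ) (X : ℝ) (z : ℤ) : ℕ :=
  ∑ a ∈ box al be X, ∑ b ∈ box ga de X, ((Finset.Icc 1 ⌊X⌋₊).filter
    (fun n : ℕ => (∏ i, a i) ∣ n ∧ ((∏ i, b i : ℕ) : ℤ) ∣ (n : ℤ) - z)).card

/-- The count theorem with coefficients (level `2/3` in the `a` variables, with one free variable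
`x` on the other side). -/
def claimWC : Prop := ∀ (h : ℕ) (θ lam : ℝ), h ≠ 0 → 0 < θ → θ ≤ 1 → 1 < lam → lam ≤ 2 →
    ∃ C : ℝ, ∀ᶠ X : ℝ in atTop, ∀ (Q M A B : ℕ) (β w : ℕ → ℝ) (z : ℤ), A ≤ B →
    (Q : ℝ) ≤ X → (M : ℝ) ≤ X → (B : ℝ) ≤ X → (M : ℝ) * B ≤ X ^ (1 - θ) →
    (Q : ℝ) * √(Q : ℝ) * M ≤ X ^ (1 - θ) → √(Q : ℝ) * M * B ≤ X ^ (1 - θ) →
    (∀ q ∈ Finset.Icc 1 Q, 0 ≤ β q ∧ β q ≤ X ^ (θ / 60)) →
    (∀ m ∈ Finset.Icc 1 M, 0 ≤ w m ∧ w m ≤ X ^ (θ / 60)) → z.natAbs = h →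
    X / lam * MT h β w Q M A B - C * (X / X ^ (θ / 60)) ≤ SN β w ⌊X⌋₊ Q M A B z ∧
    SN β w ⌊X⌋₊ Q M A B z ≤ lam * X * MT h β w Q M A B + C * (X / X ^ (θ / 60))

/-- THE BOX THEOREM of parts K + C: `s + 1 = r - 1` positions on each side (`s = 1` for `r = 3`:
`b 0` is the free variable `x` and `b 1` the other one). -/
def claimWB : Prop := ∀ (s h : ℕ) (al be ga de : Fin (s + 1) → ℝ) (z : ℤ), h ≠ 0 →
    (∀ i, 0 ≤ al i) → (∀ i, al i ≤ be i) → (∀ i, 0 ≤ ga i) → (∀ i, ga i ≤ de i) →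
    3 / 2 * (∑ i, be i) + (∑ i : Fin s, de i.succ) < 1 →
    1 / 2 * (∑ i, be i) + (∑ i, de i) < 1 → z.natAbs = h →
    Tendsto (fun X : ℝ => (BC al be ga de X z : ℝ) / (X * (Real.log X) ^ (2 * (s + 1)))) atTop
      (𝓝 (Csing (s + 1) h * ((∏ i, (be i - al i)) * ∏ i, (de i - ga i))))

end Pool.Agent.Work.MP_122e00_nt.WRK
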