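import Mathlib
import Pool.Agent.Work.MP_122e00_nt.WR.DefsK

set_option autoImplicit false

/-!
# The Weil region (cand 202), part K: Kloosterman sums to composite moduli and completion

Every docstring is the complete proof.  Item `Kx`: file `WR/ItemKx.lean`, theorem
`prfKx : claimKx`.  All items are independent (implications to earlier claims are inside the
statements).
-/

namespace Pool.Agent.Work.MP_122e00_nt.WRK

open Finset Filter Topology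

/-- K1 (EASY): transport of `KK` along a ring isomorphism `e : R ≃+* S`.
PROOF. Unfold `KK`.  Substitute `x ↦ e x`, `y ↦ e y` in the right hand side
(`Equiv.sum_comp e.toEquiv` or `Fintype.sum_equiv`, twice): `e b * e x * e y = e z` iff
`b * x * y = z` (`← map_mul`, injectivity) and `ψ (e.symm (e y)) = ψ y`. -/
def claimK1 : Prop := ∀ (R S : Type) [CommRing R] [CommRing S] [Fintype R] [Fintype S]
    (e : R ≃+* S) (b z : R) (ψ₁ ψ₂ : AddChar R ℂ),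
    KK b z ψ₁ ψ₂ = KK (e b) (e z) (ψ₁.compAddMonoidHom (e.symm : S →+* R).toAddMonoidHom)
      (ψ₂.compAddMonoidHom (e.symm : S →+* R).toAddMonoidHom)

/-- K2 (EASY): `KK` over a product ring is a product.
PROOF. For `x = (x₁, x₂)` one has `(x₁, x₂) = (x₁, 0) + (0, x₂)`, so
`ψ (x₁, x₂) = ψ (x₁, 0) * ψ (0, x₂)` (`AddChar.map_add_eq_mul`), and `b * x * y = z` iff both
components agree (`Prod.ext_iff`).  Hence the general term is the product of the two terms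
(`if p ∧ q then u * v else 0` is `(if p then u else 0) * (if q then v else 0)`); sum over
`S × T` with `Fintype.sum_prod_type` twice, and `Finset.sum_mul_sum`. -/
def claimK2 : Prop := ∀ (S T : Type) [CommRing S] [CommRing T] [Fintype S] [Fintype T]
    (b z : S × T) (ψ₁ ψ₂ : AddChar (S × T) ℂ),
    KK b z ψ₁ ψ₂ =
      KK b.1 z.1 (ψ₁.compAddMonoidHom (AddMonoidHom.inl S T))
        (ψ₂.compAddMonoidHom (AddMonoidHom.inl S T)) *
      KK b.2 z.2 (ψ₁.compAddMonoidHom (AddMonoidHom.inr S T))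
        (ψ₂.compAddMonoidHom (AddMonoidHom.inr S T))

/-- K3 (EASY-MEDIUM): the bound is multiplicative.
PROOF. Let `e := ZMod.chineseRemainder hmn : ZMod (m * n) ≃+* ZMod m × ZMod n`.  By K1 and K2
`KK b z ψ₁ ψ₂ = KK (e b).1 z ψ₁' ψ₂' * KK (e b).2 z ψ₁'' ψ₂''` with
`ψ' := (ψ ∘ e.symm) ∘ inl`, `ψ'' := (ψ ∘ e.symm) ∘ inr` (`e` maps the integer `z` to `(z, z)`:
`map_intCast`, `Prod.fst_intCast`, `Prod.snd_intCast`).  Bound both factors by the hypotheses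
(`NeZero m`, `NeZero n` from `0 < m`, `0 < n`).  The product of the bounds is at most the wanted
bound: `Nat.gcd (m * n) h = gcd m h * gcd n h` (`Nat.Coprime.gcd_mul`; argument order via
`Nat.gcd_comm`), `(m * n).divisors.card = m.divisors.card * n.divisors.card`
(`Nat.Coprime.card_divisors_mul`), and with `a := orderOf ψ₁'`, `c := orderOf ψ₁''` (both
positive: the groups are finite, `orderOf_pos`) one has `orderOf ψ₁ ∣ a * c`
(`orderOf_dvd_of_pow_eq_one`: `(ψ₁ ^ (a * c)) x = ψ₁ x ^ (a * c)`, `AddChar.pow_apply`, and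
`ψ₁ x = ψ₁' (e x).1 * ψ₁'' (e x).2`, whose `a * c`-th power is `1` since `ψ₁' ^ a = 1`,
`ψ₁'' ^ c = 1`), so `orderOf ψ₁ ≤ a * c` and `√(orderOf ψ₁) ≤ √a * √c`, and
`(m / √a) * (n / √c) = m n / (√a √c) ≤ m n / √(orderOf ψ₁)`. -/
def claimK3 : Prop := claimK1 → claimK2 → ∀ (h m n r r' : ℕ), 0 < m → 0 < n →
    Nat.Coprime m n → KBd h m r → KBd h n r' → KBd h (m * n) (r * r')

/-- K4 (EASY-MEDIUM): primes `p` not dividing `h`.
PROOF. `Fact p.Prime`.  `z ≠ 0` in `ZMod p` since `p ∤ h = |z|`.  Here `Nat.gcd p h = 1`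
(coprime), `r = 1`, `p.divisors.card = 2`, so the claim is `‖KK‖ ≤ 2 * (p / √ord ψ₁)`.
If `b = 0` then `b x y = 0 ≠ z` and `KK = 0`.  If `b ≠ 0` then for `x = 0` there is no term, and
for `x ≠ 0` exactly `y = z * b⁻¹ * x⁻¹`, so
`KK = ∑ x : (ZMod p)ˣ, ψ₁ (z b⁻¹ x⁻¹) * ψ₂ x` (`Finset.sum_ite_eq`; sums over `x ≠ 0` and over the
units correspond).  Case `ψ₁ = 1`: order `1`, and the trivial bound is
`‖KK‖ ≤ p - 1 ≤ 2 p` (`‖ψ x‖ = 1`: `AddChar.norm_apply`).  Case `ψ₁ ≠ 1`: `ψ₁ ^ p = 1` (since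
`p • x = 0`), so `orderOf ψ₁ = p` (`orderOf_eq_prime`) and the claim is `‖KK‖ ≤ 2 √p`
(`p / √p = √p`).  Every additive character of `ZMod p` is `t ↦ stdAddChar (c t)` for some `c`:
the map `c ↦ AddChar.mulShift stdAddChar c` is injective (`AddChar.IsPrimitive`,
`ZMod.isPrimitive_stdAddChar`, `AddChar.to_mulShift_inj_of_isPrimitive`) between finite sets of
the same cardinality (`AddChar.card_eq`).  Write `ψ₁` with `c`, `ψ₂` with `d`; `c ≠ 0`.  If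
`d ≠ 0`: `KK = ∑ x : units, stdAddChar (d x + (c z b⁻¹) x⁻¹)`, and `claimWeil` applies.  If
`d = 0`: `KK = ∑ x : units, stdAddChar (c z b⁻¹ x⁻¹) = ∑ x : units, stdAddChar (c' x)`
(`Equiv.inv`), `c' ≠ 0`, which is `0 - 1 = -1` (`AddChar.sum_mulShift` or
`AddChar.sum_eq_zero_of_ne_one`), of norm `1 ≤ 2 √p`. -/
def claimK4 : Prop := claimWeil → ∀ (h p : ℕ), p.Prime → ¬ p ∣ h → KBd h p 1

/-- K5 (EASY): the trivial bound, at prime powers.
PROOF. Put `q = p ^ k`.  All terms have norm at most `1` (`AddChar.norm_apply`), there are `q ^ 2`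
terms: `‖KK‖ ≤ q ^ 2`.  `ψ₁ ^ q = 1` (because `q • x = 0` in `ZMod q`), so
`orderOf ψ₁ ≤ q`, `0 < orderOf ψ₁` and `q / √(orderOf ψ₁) ≥ q / √q = √q ≥ 1`; also
`1 ≤ q.divisors.card`.  It remains that `q ^ 2 ≤ gcd(q, h) ^ 2 * r ^ 6`, `r = p ^ (k / 2)`:
if `k = 1` then `p ∣ h`, `gcd(p, h) = p`, `r = 1`; if `k ≥ 2` then `gcd ≥ 1` and
`r ^ 6 = p ^ (6 * (k / 2)) ≥ p ^ (2 * k)`, as `3 * (k / 2) ≥ k` for `k ≥ 2` (`omega`). -/
def claimK5 : Prop := ∀ (h p k : ℕ), p.Prime → 1 ≤ k → (2 ≤ k ∨ p ∣ h) →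
    KBd h (p ^ k) (p ^ (k / 2))

/-- K6 (EASY): all moduli.
PROOF. Induction on `q` by `Nat.recOnPosPrimePosCoprime` (prime powers `p ^ k` with `k ≥ 1`; `0`;
`1`; products of coprime `a, b > 1`).  `q = 0` is excluded.  `q = 1`: `r = 1`; `KK` has one term
of norm `1`, order of `ψ₁` is `1` (`AddChar (ZMod 1) ℂ` is trivial: `ψ₁ = 1`, or: `ψ₁ ^ 1 = 1`
since every `x = 0`), all the other factors are `1`.  Prime power: if `k = 1` and `p ∤ h` use the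
third hypothesis with `r = 1`; otherwise the fourth one with `r = p ^ (k / 2)`, and
`r * r = p ^ (2 * (k / 2)) ∣ p ^ k`.  Product: `r r'`, `(r r') * (r r') = (r r)(r' r') ∣ a b`. -/
def claimK6 : Prop := ∀ (h : ℕ), h ≠ 0 →
    (∀ (m n r r' : ℕ), 0 < m → 0 < n → Nat.Coprime m n → KBd h m r → KBd h n r' →
      KBd h (m * n) (r * r')) →
    (∀ p : ℕ, p.Prime → ¬ p ∣ h → KBd h p 1) →
    (∀ (p k : ℕ), p.Prime → 1 ≤ k → (2 ≤ k ∨ p ∣ h) → KBd h (p ^ k) (p ^ (k / 2))) →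
    ∀ q : ℕ, 1 ≤ q → ∃ r : ℕ, 1 ≤ r ∧ r * r ∣ q ∧ KBd h q r

/-- K7 (EASY): the order of the character with frequency `μ`.
PROOF. `stdAddChar` is primitive, so `ech q ν = 1` iff `ν = 0`, and `ech q μ ^ k = ech q (k μ)`
(`AddChar.mulShift_mul`-type identities or pointwise: `(ech q μ ^ k) t = stdAddChar (μ t) ^ k =
stdAddChar (k • (μ t))`, `AddChar.map_nsmul_eq_pow`).  Hence `ech q μ ^ k = 1` iff `k μ = 0`, so
`orderOf (ech q μ) = addOrderOf (μ : ZMod q) = q / gcd(q, μ)` (`ZMod.addOrderOf_coe`; or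
`orderOf_dvd_iff_pow_eq_one`, `addOrderOf_dvd_iff_nsmul_eq_zero` and `Nat.dvd_antisymm`).  With
`g := gcd(q, μ)`, `q = g * k`, `k = orderOf`: `q / √k = √(g k) √g · ... `, precisely
`q / √k = g √k`, and `g √k ≤ g √q` since `k ≤ q`. -/
def claimK7 : Prop := ∀ (q : ℕ) [NeZero q] (μ : ℕ),
    (q : ℝ) / √(orderOf (ech q (μ : ZMod q)) : ℝ) ≤ √(q : ℝ) * (Nat.gcd q μ : ℝ)

/-- K8 (EASY): geometric sums.
PROOF. Put `ω := exp (-2 π i μ / q)` (`ZMod.stdAddChar_coe` for the integer `-(μ x)`), so the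
summand is `ω ^ x`, and `ω ≠ 1`.  `(ω - 1) ∑_{x ∈ (A, B]} ω ^ x = ω ^ (B + 1) - ω ^ (A + 1)`
(induction on `B ≥ A`, or `geom_sum_Ico`), of norm at most `2`.  And
`‖ω - 1‖ = 2 |sin (π μ / q)|` (`Complex.norm_exp_I_mul_ofReal_sub_one` or squares), which is at
least `4 min (μ / q, 1 - μ / q)` (`Real.mul_le_sin : 0 ≤ x → x ≤ π / 2 → 2 / π * x ≤ sin x` at
`x = π μ / q` if `2 μ ≤ q`, at `x = π - π μ / q` otherwise, `Real.sin_pi_sub`).  So the sum is at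
most `q / (2 min (μ, q - μ)) ≤ (q / 2) (1 / μ + 1 / (q - μ))`. -/
def claimK8 : Prop := ∀ (q : ℕ) [NeZero q] (A B μ : ℕ), A ≤ B → 1 ≤ μ → μ < q →
    ‖hatI q A B (μ : ZMod q)‖ ≤ (q : ℝ) / 2 * (1 / (μ : ℝ) + 1 / ((q : ℝ) - μ))

/-- K9 (EASY): sums over the frequencies.
PROOF. The reflection `μ ↦ q - μ` is a bijection of `[1, q - 1]` (`Finset.sum_nbij'`) which keeps
`gcd(q, μ)` (`Nat.gcd_sub_self_right`-type lemma) and exchanges `1 / μ` and `1 / (q - μ)`; so the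
first sum is `q ∑_{μ} gcd(q, μ) / μ` and the second `q ∑ 1 / μ`.
`gcd(q, μ) ≤ ∑_{d ∣ q, d ∣ μ} d` (one term of the sum), so
`∑_{1 ≤ μ < q} gcd(q, μ) / μ ≤ ∑_{d ∣ q} ∑_{1 ≤ μ < q, d ∣ μ} d / μ`, and with `μ = d t`,
`1 ≤ t ≤ q`, the inner sum is at most `∑_{t ≤ q} 1 / t ≤ 1 + log q` (`harmonic_le_one_add_log`).
For `q = 1` both sums are empty and the right hand sides are nonnegative. -/
def claimK9 : Prop := ∀ (q : ℕ), 1 ≤ q →
    (∑ μ ∈ Finset.Ico 1 q, (q : ℝ) / 2 * (1 / (μ : ℝ) + 1 / ((q : ℝ) - μ)) *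
      (Nat.gcd q μ : ℝ)) ≤ q * (q.divisors.card : ℝ) * (1 + Real.log q) ∧
    (∑ μ ∈ Finset.Ico 1 q, (q : ℝ) / 2 * (1 / (μ : ℝ) + 1 / ((q : ℝ) - μ))) ≤
      q * (1 + Real.log q)

/-- K10 (EASY-MEDIUM): linear congruences.
PROOF. `g := gcd(q, a)`.  (i) Kernel: `a y = 0` in `ZMod q` iff `q ∣ a * y.val` iff
`q / g ∣ y.val` (`Nat.Coprime.dvd_of_dvd_mul_left` with `gcd(q / g, a / g) = 1`); the residues
`y.val = t * (q / g)`, `t < g`, are `g` in number (bijection with `Finset.range g`).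
(ii) If `g ∣ h` then `g ∣ z`; Bezout (`Nat.gcd_eq_gcd_ab`): `g = q u + a v`, so
`a * (v * (z / g)) = z` in `ZMod q`: there is a solution `y₀`, and `y ↦ y - y₀` is a bijection of
the solutions with the kernel.  (iii) If there is a solution `y` then `(a : ℤ) * y.val ≡ z mod q`,
so `g ∣ z` (it divides `q` and `a`), i.e. `g ∣ h`.  `Fh_apply`. -/
def claimK10 : Prop := ∀ (h q a : ℕ) [NeZero q] (z : ℤ), z.natAbs = h →
    (((Finset.univ : Finset (ZMod q)).filter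
      (fun y : ZMod q => (a : ZMod q) * y = (z : ZMod q))).card : ℝ) = Fh h (Nat.gcd q a)

/-- K11 (EASY): completion of one sum.
PROOF. Expand the right hand side and exchange: `q⁻¹ ∑_{x ∈ (A, B]} ∑_t G t ∑_ν stdAddChar
(ν (t - x))` (`AddChar.map_add_eq_mul`); the inner sum over `ν` is `q` if `t = x` and `0`
otherwise (`AddChar.sum_mulShift` with `ZMod.isPrimitive_stdAddChar`, `ZMod.card`), which leaves
`∑_{x ∈ (A, B]} G x`. -/
def claimK11 : Prop := ∀ (q : ℕ) [NeZero q] (G : ZMod q → ℂ) (A B : ℕ),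
    ∑ x ∈ Finset.Ioc A B, G (x : ZMod q) =
      (q : ℂ)⁻¹ * ∑ ν : ZMod q, hatI q A B ν * ∑ t : ZMod q, G t * ech q ν t

/-- K12 (EASY): the frequency sums with the norms of `hatI`.
PROOF. The sum over `ν : ZMod q` is the sum over `μ ∈ {0, …, q - 1}` (`ZMod.natCast_zmod_val`,
`ν = (ν.val : ZMod q)`; `Finset.sum_nbij'` with `Finset.range q`, or `Fin` casts).  The term
`μ = 0` of the first sum is `‖hatI q A B 0‖ = B - A` (all summands are `stdAddChar 0 = 1`); the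
others are bounded by K8, and K9 (second part) gives `q (1 + log q)`.  In the second sum only
`μ ≠ 0` occurs: K8, K7 and K9 (first part): the terms are at most
`(q / 2) (1 / μ + 1 / (q - μ)) * (√q * gcd(q, μ))`. -/
def claimK12 : Prop := claimK7 → claimK8 → claimK9 → ∀ (q : ℕ) [NeZero q] (A B : ℕ), A ≤ B →
    (∑ ν : ZMod q, ‖hatI q A B ν‖) ≤ ((B : ℝ) - A) + q * (1 + Real.log q) ∧
    (∑ ν ∈ (Finset.univ : Finset (ZMod q)).erase 0, ‖hatI q A B ν‖ *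
      ((q : ℝ) / √(orderOf (ech q ν) : ℝ))) ≤
      √(q : ℝ) * (q * (q.divisors.card : ℝ) * (1 + Real.log q))

/-- KM: the count of the solutions of `m x y + z ≡ 0 mod q` in boxes. -/
def claimKM : Prop := ∀ (h : ℕ), h ≠ 0 → ∀ (q m A B A' B' R : ℕ) (z : ℤ), 1 ≤ q → A ≤ B →
    A' ≤ B' → (∀ r : ℕ, r * r ∣ q → r ≤ R) → z.natAbs = h →
    |((((Finset.Ioc A B) ×ˢ (Finset.Ioc A' B')).filter
        (fun p : ℕ × ℕ => (q : ℤ) ∣ ((m * p.1 * p.2 : ℕ) : ℤ) + z)).card : ℝ) -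
      (((B' : ℝ) - A') / q) * ∑ x ∈ Finset.Ioc A B, Fh h (Nat.gcd q (m * x))| ≤
      EE h q R ((B : ℝ) - A) 1

/-- K13 (MEDIUM): the completion.
PROOF. `NeZero q`.  Let `c := ((-z : ℤ) : ZMod q)`, `G x y := if (m : ZMod q) * x * y = c then 1
else 0` for `x y : ZMod q` (classical `if` as in `KK`).  The number of pairs is
`N = ∑_{x ∈ (A, B]} ∑_{y ∈ (A', B']} G x y` (`q ∣ m x y + z` iff `m x y = -z` in `ZMod q`:
`ZMod.intCast_zmod_eq_zero_iff_dvd`).  For fixed `x`, K11 in `y`: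
`∑_y G x y = q⁻¹ ∑_μ hatI q A' B' μ * ∑_t G x t * ech q μ t`.  The term `μ = 0`:
`hatI q A' B' 0 = B' - A'`, `∑_t G x t = #{t : (m x) t = -z} = Fh h (gcd(q, m x))` (K10 with
`a = m * x` and the integer `-z`).  So `N - ((B' - A') / q) ∑_x Fh h (gcd(q, m x)) =
q⁻¹ ∑_{μ ≠ 0} hatI q A' B' μ * ∑_{x ∈ (A, B]} H μ x`, `H μ x := ∑_t G x t * ech q μ t`.  K11 in `x`
for the function `H μ`: `∑_{x ∈ (A, B]} H μ x = q⁻¹ ∑_ν hatI q A B ν * ∑_s H μ s * ech q ν s`, and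
`∑_s H μ s * ech q ν s = ∑_s ∑_t (if m s t = c then ech q μ t * ech q ν s else 0) =
KK (m : ZMod q) c (ech q μ) (ech q ν)`.  By the second hypothesis there is `r` with `r * r ∣ q`,
so `r ≤ R`, and `‖KK m c (ech q μ) (ech q ν)‖ ≤ gcd(q, h)² r⁶ τ(q) (q / √ord (ech q μ))
≤ h² R⁶ τ(q) (q / √ord (ech q μ))` (`natAbs (-z) = h`, `Nat.gcd_le_right`).  Hence the difference
is at most `q⁻² h² R⁶ τ(q) (∑_{μ ≠ 0} ‖hatI q A' B' μ‖ q / √ord) (∑_ν ‖hatI q A B ν‖)`, and K12 bounds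
the two sums: `q⁻² h² R⁶ τ(q) * √q q τ(q) (1 + log q) * ((B - A) + q (1 + log q)) =
EE h q R (B - A) 1`. -/
def claimK13 : Prop := (∀ h : ℕ, h ≠ 0 → ∀ q : ℕ, 1 ≤ q → ∃ r : ℕ, 1 ≤ r ∧ r * r ∣ q ∧ KBd h q r) →
    claimK10 → claimK11 →
    (∀ (q : ℕ) [NeZero q] (A B : ℕ), A ≤ B →
      (∑ ν : ZMod q, ‖hatI q A B ν‖) ≤ ((B : ℝ) - A) + q * (1 + Real.log q) ∧
      (∑ ν ∈ (Finset.univ : Finset (ZMod q)).erase 0, ‖hatI q A B ν‖ *
        ((q : ℝ) / √(orderOf (ech q ν) : ℝ))) ≤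
        √(q : ℝ) * (q * (q.divisors.card : ℝ) * (1 + Real.log q))) → claimKM

end Pool.Agent.Work.MP_122e00_nt.WRK
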