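import Mathlib
import Pool.Agent.Work.MP_122e00_nt.WR.StmtsK
import Pool.Agent.Work.MP_122e00_nt.Bdx.B07

set_option autoImplicit false

/-!
# The Weil region (cand 202), part C: counting with coefficients, and boxes

Every docstring is the complete proof.  Item `Cx`: file `WR/ItemCx.lean`, theorem
`prfCx : claimCx`.  All items are independent (the earlier claims are hypotheses).
`divisor_bound`, `Fh_le`, `nu`, `sum_nu` (Bdx/B07, Key1) and `tendsto_Wsum`, `pos_of_mem_box`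
(Corr) are available through the import.
-/

namespace Pool.Agent.Work.MP_122e00_nt.WRK

open Finset Filter Topology

/-- The part `n > h` of `SN`. -/
noncomputable def SR (h : ℕ) (β w : ℕ → ℝ) (N Q M A B : ℕ) (z : ℤ) : ℝ :=
  ∑ q ∈ Finset.Icc 1 Q, ∑ m ∈ Finset.Icc 1 M, β q * w m * (cnt h q m A B N z : ℝ)

/-- Moduli with a large square divisor. -/
def Bad (R q : ℕ) : Prop := ∃ r : ℕ, R < r ∧ r * r ∣ q

/-- The number of blocks. -/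
noncomputable def JJ (lam : ℝ) (B : ℕ) : ℝ := Real.log (B + 1) / Real.log lam + 1

/-- The total error for the good moduli. -/
noncomputable def Er (h Q M B R : ℕ) (lam K D : ℝ) : ℝ :=
  K ^ 2 * ((1 + 3 * h) * h * (1 + Real.log Q) * ((M : ℝ) * B) +
    (h : ℝ) ^ 2 * (R : ℝ) ^ 6 * D * (1 + Real.log Q) *
      (2 * (√(Q : ℝ) * M * B) + (Q : ℝ) * √(Q : ℝ) * M * (JJ lam B * (1 + Real.log Q))))

/-- C0 (EASY): short blocks.
PROOF. `t 0 := A`, `t (i + 1) := min B ⌊lam * (t i + 1)⌋₊` (`Nat.rec`).  By induction `t i ≤ B`;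
`⌊lam (t i + 1)⌋₊ ≥ t i + 1` (`Nat.le_floor`, `lam > 1`), so `t i ≤ t (i + 1)`
(`monotone_nat_of_le_succ`), and `t (i + 1) ≤ lam (t i + 1)` (`Nat.floor_le`).  If `t (i + 1) < B`
then `t (i + 1) = ⌊lam (t i + 1)⌋₊ > lam (t i + 1) - 1`; hence by induction, if `t i < B` then
`t i + 1 ≥ lam ^ i` (`t` is monotone, so all earlier values are `< B` too).  Take
`J := ⌊log (B + 1) / log lam⌋₊ + 1`.  If `t J < B` then `B + 1 > t J + 1 ≥ lam ^ J`, so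
`log (B + 1) > J log lam > log (B + 1)`, a contradiction; so `t J = B`.  `J ≤ JJ lam B` by
`Nat.floor_le` (`log (B + 1) ≥ 0`, `log lam > 0`). -/
def claimC0 : Prop := ∀ (lam : ℝ), 1 < lam → ∀ (A B : ℕ), A ≤ B → ∃ (J : ℕ) (t : ℕ → ℕ),
    t 0 = A ∧ t J = B ∧ Monotone t ∧ (∀ i, (t (i + 1) : ℝ) ≤ lam * (t i + 1)) ∧
    (J : ℝ) ≤ JJ lam B

/-- Lower and upper bound for the count on one block `(A, B]`, `B ≤ lam (A + 1)`. -/
def claimBlk : Prop := ∀ (h q m A B N R : ℕ) (lam : ℝ) (z : ℤ), h ≠ 0 → 1 ≤ q → 1 ≤ m →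
    A ≤ B → 1 < lam → lam ≤ 2 → (B : ℝ) ≤ lam * (A + 1) → z.natAbs = h →
    (∀ r : ℕ, r * r ∣ q → r ≤ R) →
    (N : ℝ) / lam * mt h q m A B - (1 + 3 * h) * (h / q) * ((B : ℝ) - A) -
      EE h q R ((B : ℝ) - A) 1 ≤ (cnt h q m A B N z : ℝ) ∧
    (cnt h q m A B N z : ℝ) ≤ lam * N * mt h q m A B + (1 + 3 * h) * (h / q) * ((B : ℝ) - A) +
      EE h q R ((B : ℝ) - A) 1

/-- C1 (MEDIUM): one block.
PROOF. If `A = B` everything is zero except `EE ≥ 0`.  Let `A < B`, so every `x ∈ (A, B]` has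
`1 ≤ A + 1 ≤ x ≤ B ≤ lam (A + 1)`; `0 ≤ Fh h g ≤ h` (`Fh_le`).  `cnt` is the number of the pairs
`(x, n)`, `x ∈ (A, B]`, `h < n ≤ N`, `q ∣ n`, `m x ∣ n - z`.
UPPER: `n - z ≥ n - h ≥ 1`, so `n = m x y + z` with a unique natural `y ≥ 1`, and
`m (A + 1) y ≤ m x y = n - z ≤ N + h`, so `y ≤ B'' := (N + h) / (m (A + 1))` (natural division).
`(x, n) ↦ (x, y)` is injective into the pairs of `(A, B] × (0, B'']` with `q ∣ m x y + z`; KM with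
`A' = 0`: `cnt ≤ (B'' / q) ∑ Fh h (gcd(q, m x)) + EE h q R (B - A) 1`, and
`B'' ≤ (N + h) / (m (A + 1)) ≤ lam (N + h) / (m x) ≤ lam N / (m x) + 2 h` for each `x` of the
block (`x ≤ lam (A + 1)`, `lam ≤ 2`), so the main term is at most
`lam N mt + ∑ (2 h / q) Fh ≤ lam N mt + 2 h (h / q) (B - A)`.
LOWER: if `N ≤ h` then the left side is `≤ 0`: `N / lam * mt ≤ h * ∑ Fh / q ≤ h (h / q) (B - A)`.
Let `N > h`, `b := (N - h) / (m B)` (natural division).  If `b ≥ 2 h`: for `x ∈ (A, B]`,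
`2 h < y ≤ b` with `q ∣ m x y + z`, the integer `n := m x y + z` satisfies
`n ≥ (2 h + 1) - h > h`, `n ≤ m B b + h ≤ N`, so `(x, y) ↦ (x, n)` is an injection into the pairs
counted; KM with `A' = 2 h`, `B' = b`:
`cnt ≥ ((b - 2 h) / q) ∑ Fh - EE`, and for each `x`
`b - 2 h ≥ (N - h) / (m B) - 1 - 2 h ≥ N / (m B) - (1 + 3 h) ≥ N / (lam m x) - (1 + 3 h)`
(`B ≤ lam (A + 1) ≤ lam x`).  So `cnt ≥ N / lam * mt - (1 + 3 h) (∑ Fh) / q - EE`, and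
`∑ Fh ≤ h (B - A)`.  If `b < 2 h`: `b + 1 ≤ 2 h`, so `(N - h) / (m B) < 2 h`,
`N / (lam m x) ≤ N / (m B) < 3 h`, and `N / lam * mt ≤ 3 h (∑ Fh) / q`: the left side is `≤ 0`.
`EE ≥ 0` since `log q ≥ 0`. -/
def claimC1 : Prop := claimKM → claimBlk

/-- The count on an arbitrary interval `(A, B]`. -/
def claimInt : Prop := ∀ (h q m A B N R : ℕ) (lam : ℝ) (z : ℤ), h ≠ 0 → 1 ≤ q → 1 ≤ m →
    A ≤ B → 1 < lam → lam ≤ 2 → z.natAbs = h → (∀ r : ℕ, r * r ∣ q → r ≤ R) →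
    (N : ℝ) / lam * mt h q m A B - (1 + 3 * h) * (h / q) * ((B : ℝ) - A) -
      EE h q R ((B : ℝ) - A) (JJ lam B) ≤ (cnt h q m A B N z : ℝ) ∧
    (cnt h q m A B N z : ℝ) ≤ lam * N * mt h q m A B + (1 + 3 * h) * (h / q) * ((B : ℝ) - A) +
      EE h q R ((B : ℝ) - A) (JJ lam B)

/-- C2 (EASY): sum over the blocks of C0.
PROOF. With `t`, `J` of C0, prove by induction on `j` the two inequalities for `(A, t j]` with
error `(1 + 3 h) (h / q) (t j - A) + EE h q R (t j - A) j`: `cnt` and `mt` are sums over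
`Ioc A (t j)`, `Ioc A (t (j + 1)) = Ioc A (t j) ∪ Ioc (t j) (t (j + 1))`
(`Finset.sum_Ioc_consecutive`), and `EE h q R L j + EE h q R L' 1 = EE h q R (L + L') (j + 1)`
(unfold, ring).  Finally `j = J`, `t J = B` and `EE` is monotone in its last argument (`log q ≥ 0`).
-/
def claimC2 : Prop := claimC0 → claimBlk → claimInt

/-- The count for all good moduli. -/
def claimGood : Prop := ∀ (h Q M A B N R : ℕ) (lam K D : ℝ) (β w : ℕ → ℝ) (z : ℤ), h ≠ 0 →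
    A ≤ B → 1 < lam → lam ≤ 2 → z.natAbs = h →
    (∀ q ∈ Finset.Icc 1 Q, 0 ≤ β q ∧ β q ≤ K) → (∀ m ∈ Finset.Icc 1 M, 0 ≤ w m ∧ w m ≤ K) →
    (∀ q ∈ Finset.Icc 1 Q, (q.divisors.card : ℝ) ^ 2 ≤ D) →
    (∀ q ∈ Finset.Icc 1 Q, β q ≠ 0 → ∀ r : ℕ, r * r ∣ q → r ≤ R) →
    (N : ℝ) / lam * MT h β w Q M A B - Er h Q M B R lam K D ≤ SR h β w N Q M A B z ∧
    SR h β w N Q M A B z ≤ lam * N * MT h β w Q M A B + Er h Q M B R lam K D

/-- C3 (EASY-MEDIUM): sum over `q` and `m`.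
PROOF. Multiply `claimInt` by `β q * w m ≥ 0` (if `β q = 0` both sides are `0`) and sum: the main
terms give `MT`.  It remains to bound `∑_{q ≤ Q} ∑_{m ≤ M} β q w m ((1 + 3 h) (h / q) (B - A) +
EE h q R (B - A) (JJ lam B))` by `Er`: `β q w m ≤ K ^ 2`, `B - A ≤ B`, the number of `m` is `M`,
`∑_{q ≤ Q} 1 / q ≤ 1 + log Q` (`harmonic_le_one_add_log`), and for `1 ≤ q ≤ Q`
`EE h q R (B - A) J ≤ h² R⁶ D (1 + log Q) (B √q / q + √q J (1 + log Q))` with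
`∑_{q ≤ Q} √q / q ≤ 2 √Q` (induction: `1 / √(q + 1) ≤ 2 (√(q + 1) - √q)`) and
`∑_{q ≤ Q} √q ≤ Q √Q`.  `JJ lam B ≥ 0`.  For `Q = 0` or `M = 0` the sums are empty and
`Er ≥ 0` (for `Q = 0`: `log 0 = 0`, `√0 = 0`; then only `K² (1 + 3 h) h M B ≥ 0` is left). -/
def claimC3 : Prop := claimInt → claimGood

/-- C4 (EASY-MEDIUM): the bad moduli, count.
PROOF. The left side is the number of the quadruples `(q, m, x, n)`, i.e. (exchange the sums,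
`Finset.sum_comm`, `Finset.card_filter`) `∑_{h < n ≤ N} #{q bad : q ∣ n} * #{(m, x) : m x ∣ n - z}`.
For `n > h` the number `n' := n - z` is a positive integer `≤ N + h`; `(m, x)` with
`m x ∣ n'` are pairs of divisors of `n'`: at most `τ(n')² ≤ D²`; `#{q : q ∣ n} ≤ τ(n) ≤ D`; and if
some bad `q` divides `n` then `r * r ∣ n` with `r > R`.  The number of `n ∈ [1, N]` with
`r * r ∣ n` for some `r > R` is at most `∑_{R < r ≤ N} N / (r * r) ≤ N / R`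
(`r ≤ r * r ≤ n ≤ N`; `Nat.card_multiples`-type bound; `∑_{R < r ≤ N} 1 / r² ≤ 1 / R - 1 / N`, by
induction, `1 / r² ≤ 1 / (r - 1) - 1 / r`).  (If `N = 0` both sides are `0`; otherwise
`D ≥ τ(1) = 1`.) -/
def claimC4 : Prop := ∀ (h Q M A B N R : ℕ) (D : ℝ) (z : ℤ), z.natAbs = h → 1 ≤ R →
    (∀ n : ℕ, n ≠ 0 → n ≤ N + h → (n.divisors.card : ℝ) ≤ D) →
    (open Classical in ∑ q ∈ (Finset.Icc 1 Q).filter (Bad R), ∑ m ∈ Finset.Icc 1 M,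
      (cnt h q m A B N z : ℝ)) ≤ D ^ 3 * ((N : ℝ) / R)

/-- C5 (EASY): the bad moduli, main term, and the size of the main term.
PROOF. `0 ≤ Fh h g ≤ h` (`Fh_le`), so `mt h q m A B ≤ h * (1 / q) * (1 / m) * ∑_{x ∈ (A, B]} 1 / x`,
and `∑_{x ∈ (A, B]} 1 / x ≤ ∑_{1 ≤ x ≤ B} 1 / x ≤ 1 + log B` (`harmonic_le_one_add_log`), similarly
for `m` and `q`: second claim.  First claim: `∑_{q ≤ Q, bad} 1 / q ≤ ∑_{R < r ≤ Q} ∑_{k ≤ Q}
1 / (r * r * k)` (each bad `q ≤ Q` is `r * r * k` with `R < r`, `r ≤ Q`, `1 ≤ k ≤ Q`: the indicator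
of `Bad` is at most `∑_{R < r ≤ Q} [r * r ∣ q]`), and `∑_{R < r ≤ Q} 1 / (r * r) ≤ 1 / R`.  (The
logarithms of `0` are `0`, the sums are empty then.) -/
def claimC5 : Prop := ∀ (h Q M A B R : ℕ), h ≠ 0 → 1 ≤ R →
    ((open Classical in ∑ q ∈ (Finset.Icc 1 Q).filter (Bad R), ∑ m ∈ Finset.Icc 1 M,
      mt h q m A B) ≤
        h * ((1 + Real.log Q) * (1 + Real.log M) * (1 + Real.log B)) / R) ∧
    (∑ q ∈ Finset.Icc 1 Q, ∑ m ∈ Finset.Icc 1 M, mt h q m A B) ≤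
      h * ((1 + Real.log Q) * (1 + Real.log M) * (1 + Real.log B))

/-- C6 (EASY): the terms with `n ≤ h`.
PROOF. `Icc 1 N` is the disjoint union of its part `n ≤ h` and (contained in) `Ioc h N`; precisely
`card (filter (Icc 1 N)) ≤ card (filter (Ioc h N)) + card (filter (Icc 1 h))` and
`Ioc h N ⊆ Icc 1 N`; the weights are nonnegative.  The part `n ≤ h`: drop the condition on
`m x`: `∑_q ∑_m β q w m ∑_x #{1 ≤ n ≤ h : q ∣ n} ≤ K ^ 2 * M * (B - A) * ∑_{1 ≤ n ≤ h} #{q ∣ n}`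
and `#{q : q ∣ n} ≤ n ≤ h`. -/
def claimC6 : Prop := ∀ (h Q M A B N : ℕ) (K : ℝ) (β w : ℕ → ℝ) (z : ℤ),
    (∀ q ∈ Finset.Icc 1 Q, 0 ≤ β q ∧ β q ≤ K) → (∀ m ∈ Finset.Icc 1 M, 0 ≤ w m ∧ w m ≤ K) →
    SR h β w N Q M A B z ≤ SN β w N Q M A B z ∧
    SN β w N Q M A B z ≤ SR h β w N Q M A B z + K ^ 2 * ((h : ℝ) ^ 2 * ((M : ℝ) * B))

/-- C7 (MEDIUM): the count theorem with coefficients.
PROOF. `P := X ^ (θ / 60) ≥ 1`, `R := ⌈P ^ 8⌉₊`, so `1 ≤ R`, `P ^ 8 ≤ R ≤ 2 P ^ 8`; `N := ⌊X⌋₊`,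
`X - 1 ≤ N ≤ X`; `L := 1 + log X`.  `X ^ (1 - θ) = X / P ^ 60`.  For large `X` (these are the only
conditions): `X ≥ 3`, `h ≤ X`, `L ^ 3 ≤ P`, `L (2 + (log (2 X) / log lam + 1) L) ≤ P`, and
`τ(n) ^ 3 ≤ P` for all `1 ≤ n ≤ 2 X` (`divisor_bound 3` with exponent `θ / 120`, applied at `2 X`:
`(2 X) ^ (θ / 120) ≤ X ^ (θ / 60)`); so with `D := P`: `τ(q) ^ 2 ≤ D` for `q ≤ Q ≤ X`, and with
`D' := P ^ (1/3)`, or directly `D' ^ 3 = P`, C4 applies.  Split `β = βg + βb`,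
`βb q := if Bad R q then β q else 0` (classical); `SR` and `MT` are linear in `β`
(`MT h β = MT h βg + MT h βb`).  `MT h β ≤ P² h L³` and `MT h βb ≤ P² h L³ / R ≤ h L³ / P ^ 6` (C5:
`β q w m ≤ P²`, `Q, M, B ≤ X`), `0 ≤ SR h βb ≤ P² * P * N / R ≤ X / P ^ 5` (C4), and
`Er h Q M B R lam P P ≤ P² (X / P ^ 60) ((1 + 3 h) h L + 64 h² P ^ 48 P (L (2 + JJ lam B L)))
≤ C₁ X / P ^ 8` (the three hypotheses on `M B`, `√Q M B`, `Q √Q M`; `JJ lam B ≤ log (2 X) /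
log lam + 1`).
LOWER: `SN ≥ SR h β ≥ SR h βg ≥ N / lam * MT h βg - Er ≥ N / lam * MT h β - N * MT h βb - Er`, and
`N / lam * MT ≥ X / lam * MT - MT`, so `SN ≥ X / lam * MT h β - P² h L³ - X h L³ / P ^ 6 - Er`;
`P² h L³ ≤ h P³ ≤ h X / P` (as `P ^ 4 = X ^ (θ / 15) ≤ X`) and `X h L³ / P ^ 6 ≤ h X / P ^ 5`.
UPPER: `SN ≤ SR h βg + SR h βb + P² h² (M B) ≤ lam N MT h βg + Er + X / P ^ 5 + h² X / P ^ 58`
`≤ lam X MT h β + …`.  Every error is `≤ C X / P` (`C := 2 h + C₁ + 1 + h²` or so). -/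
def claimC7 : Prop := claimGood → claimC4 → claimC5 → claimC6 → claimWC

/-- Boxes, for one `lam`. -/
def claimBox : Prop := ∀ (s h : ℕ) (al be ga de : Fin (s + 1) → ℝ) (z : ℤ) (lam : ℝ), h ≠ 0 →
    (∀ i, 0 ≤ al i) → (∀ i, al i ≤ be i) → (∀ i, 0 ≤ ga i) → (∀ i, ga i ≤ de i) →
    3 / 2 * (∑ i, be i) + (∑ i : Fin s, de i.succ) < 1 →
    1 / 2 * (∑ i, be i) + (∑ i, de i) < 1 → z.natAbs = h → 1 < lam → lam ≤ 2 →
    ∃ C κ : ℝ, 0 < κ ∧ ∀ᶠ X : ℝ in atTop,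
      X / lam * Wsum h al be ga de X - C * (X / X ^ κ) ≤ (BC al be ga de X z : ℝ) ∧
      (BC al be ga de X z : ℝ) ≤ lam * X * Wsum h al be ga de X + C * (X / X ^ κ)

/-- C8 (MEDIUM): from coefficients to boxes.
PROOF. Choose `θ ∈ (0, 1]` with `3/2 ∑ be + ∑ de (succ) ≤ 1 - θ` and `1/2 ∑ be + ∑ de ≤ 1 - θ`
(`θ := min` of the two gaps, `≤ 1` as all exponents are `≥ 0`); `κ := θ / 60`.  For `X ≥ 1` large:
`Q := ∏ i, ⌊X ^ be i⌋₊`, `M := ∏ i : Fin s, ⌊X ^ de i.succ⌋₊`, `A := ⌊X ^ ga 0⌋₊`,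
`B := ⌊X ^ de 0⌋₊`, so `Q ≤ X ^ (∑ be)`, `M ≤ X ^ (∑ de succ)`, `B ≤ X ^ de 0`
(`Finset.prod_le_prod`, `Real.rpow_sum_of_pos` or `← Real.rpow_add`), and `√Q = Q ^ (1/2)`: the
inequalities `Q, M, B ≤ X`, `M B`, `Q √Q M`, `√Q M B ≤ X ^ (1 - θ)` follow from the inequalities
between the exponents (`Fin.sum_univ_succ`).  `β q := nu (box al be X) q`,
`w m := nu (box (fun i => ga i.succ) (fun i => de i.succ) X) m` (`nu` of Key1).  For `q ≥ 1` the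
tuples with product `q` consist of divisors of `q`: `nu ≤ τ(q) ^ (s + 1)` (resp. `τ(m) ^ s`)
`≤ X ^ (θ / 60)` for `1 ≤ q ≤ X` by `divisor_bound (s + 1)` (`divisor_bound s`).  `SN β w ⌊X⌋₊ Q M A B z
= BC`: apply `sum_nu` for `q` (all products of the box are in `Icc 1 Q`: `pos_of_mem_box`,
`Finset.prod_le_prod'`) and for `m`, and decompose `b ∈ box ga de X` as `Fin.cons x b'`,
`x ∈ Ioc A B` (`Fin.consEquiv`, or `Finset.sum_bij'` with `b ↦ (b 0, fun i => b i.succ)`;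
`Fin.prod_univ_succ` gives `∏ b = x * ∏ b'`).  In the same way `MT h β w Q M A B = Wsum h al be ga de X`
(`∏ (1 / a i) = 1 / ∏ a i`). -/
def claimC8 : Prop := claimWC → claimBox

/-- C9 (EASY): the limit.
PROOF. `be i ≤ 1` and `de i ≤ 1` follow from the two inequalities (all entries are `≥ 0`), so
`tendsto_Wsum` gives `Wsum / (log X) ^ (2 (s + 1)) → L := Csing * (∏ (be - al) * ∏ (de - ga))`.
`L ≥ 0` (limit of nonnegative numbers, or not needed: use `|L|`).  For `ε > 0` choose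
`lam ∈ (1, 2]` with `(lam - 1) * (|L| + 1) < ε / 4` and `(1 - 1 / lam) * (|L| + 1) < ε / 4`; divide
`claimBox` by `X (log X) ^ (2 (s + 1))`: the error term is
`C / (X ^ κ (log X) ^ (2 (s + 1))) → 0`.  So the quotient is eventually within `ε` of `L`
(`tendsto_order` or `Metric.tendsto_atTop`). -/
def claimC9 : Prop := claimBox → claimWB

end Pool.Agent.Work.MP_122e00_nt.WRK
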