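import Mathlib
import Pool.Agent.Work.MP_122e00_nt.WR.StmtsC

set_option autoImplicit false

/-!
# The Weil region, part C, item C3: sum over `q` and `m`
-/

namespace Pool.Agent.Work.MP_122e00_nt.WRK

open Finset

namespace C3

theorem sum_inv (Q : ℕ) : ∑ q ∈ Finset.Icc 1 Q, 1 / (q : ℝ) ≤ 1 + Real.log Q := by
  have h := harmonic_le_one_add_log Q
  rw [harmonic_eq_sum_Icc] at h
  push_cast at h
  refine le_trans (le_of_eq ?_) h
  exact Finset.sum_congr rfl fun q _ => one_div _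

theorem sum_sqrt_div (Q : ℕ) : ∑ q ∈ Finset.Icc 1 Q, √(q : ℝ) / q ≤ 2 * √(Q : ℝ) := by
  induction Q with
  | zero =>
    rw [Finset.Icc_eq_empty (by omega), Finset.sum_empty]
    positivity
  | succ n ih =>
    rw [Finset.sum_Icc_succ_top (by omega)]
    have ha : √(n : ℝ) ^ 2 = n := Real.sq_sqrt (Nat.cast_nonneg n)
    have hb : √((n + 1 : ℕ) : ℝ) ^ 2 = n + 1 := by
      rw [Real.sq_sqrt (Nat.cast_nonneg _)]
      push_cast
      ring
    set a := √(n : ℝ)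
    set b := √((n + 1 : ℕ) : ℝ) with hbdef
    have hb0 : 0 < b := Real.sqrt_pos.2 (by positivity)
    have h1 : b / ((n + 1 : ℕ) : ℝ) ≤ 2 * (b - a) := by
      push_cast
      rw [← hb, div_le_iff₀ (by positivity)]
      nlinarith [mul_nonneg hb0.le (sq_nonneg (b - a))]
    linarith

theorem sum_sqrt (Q : ℕ) : ∑ q ∈ Finset.Icc 1 Q, √(q : ℝ) ≤ (Q : ℝ) * √(Q : ℝ) := by
  have h := Finset.sum_le_card_nsmul (Finset.Icc 1 Q) (fun q : ℕ => √(q : ℝ)) (√(Q : ℝ))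
    fun q hq => Real.sqrt_le_sqrt (Nat.cast_le.2 (Finset.mem_Icc.1 hq).2)
  rwa [Nat.card_Icc, Nat.add_sub_cancel, nsmul_eq_mul] at h

/-- the error for one modulus -/
noncomputable def er (h q R : ℕ) (lam : ℝ) (A B : ℕ) : ℝ :=
  (1 + 3 * h) * (h / q) * ((B : ℝ) - A) + EE h q R ((B : ℝ) - A) (JJ lam B)

theorem JJ_nonneg {lam : ℝ} (hlam : 1 < lam) (B : ℕ) : 0 ≤ JJ lam B := by
  have h1 : 0 < Real.log lam := Real.log_pos hlam
  have h2 : 0 ≤ Real.log ((B : ℝ) + 1) := Real.log_nonneg (by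
    have : (0 : ℝ) ≤ B := Nat.cast_nonneg B
    linarith)
  unfold JJ
  positivity

theorem er_nonneg (h q R : ℕ) {lam : ℝ} (hlam : 1 < lam) {A B : ℕ} (hAB : A ≤ B) :
    0 ≤ er h q R lam A B := by
  have hJ := JJ_nonneg hlam B
  have hL : (0 : ℝ) ≤ (B : ℝ) - A := sub_nonneg.2 (Nat.cast_le.2 hAB)
  have hlog : 0 ≤ Real.log (q : ℝ) := Real.log_natCast_nonneg q
  unfold er EE
  positivity

theorem er_le (h q R Q : ℕ) {lam D : ℝ} (hlam : 1 < lam) {A B : ℕ} (hAB : A ≤ B) (hq : 1 ≤ q)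
    (hqQ : q ≤ Q) (hD : (q.divisors.card : ℝ) ^ 2 ≤ D) :
    er h q R lam A B ≤ ((1 + 3 * h) * h * B) * (1 / (q : ℝ)) +
      ((h : ℝ) ^ 2 * (R : ℝ) ^ 6 * D * (1 + Real.log Q)) *
        ((B : ℝ) * (√(q : ℝ) / q) + (JJ lam B * (1 + Real.log Q)) * √(q : ℝ)) := by
  have hJ := JJ_nonneg hlam B
  have hL : (0 : ℝ) ≤ (B : ℝ) - A := sub_nonneg.2 (Nat.cast_le.2 hAB)
  have hA : (0 : ℝ) ≤ A := Nat.cast_nonneg A
  have hLB : (B : ℝ) - A ≤ B := by linarith
  have hq0 : (0 : ℝ) < q := by exact_mod_cast hq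
  have hlog : 0 ≤ Real.log (q : ℝ) := Real.log_natCast_nonneg q
  have hlogQ : Real.log (q : ℝ) ≤ Real.log Q := Real.log_le_log hq0 (Nat.cast_le.2 hqQ)
  have hD0 : 0 ≤ D := le_trans (by positivity) hD
  unfold er EE
  refine add_le_add ?_ ?_
  · have e1 : ((1 + 3 * h) * h * B) * (1 / (q : ℝ)) = (1 + 3 * h) * (h / q) * (B : ℝ) := by
      ring
    rw [e1]
    exact mul_le_mul_of_nonneg_left hLB (by positivity)
  · have h1 : (h : ℝ) ^ 2 * (R : ℝ) ^ 6 * (q.divisors.card : ℝ) ^ 2 * √(q : ℝ) *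
        (1 + Real.log q) ≤ (h : ℝ) ^ 2 * (R : ℝ) ^ 6 * D * √(q : ℝ) * (1 + Real.log Q) := by
      gcongr
    have h2 : ((B : ℝ) - A) / q + JJ lam B * (1 + Real.log q) ≤
        (B : ℝ) / q + JJ lam B * (1 + Real.log Q) := by
      gcongr
    calc (h : ℝ) ^ 2 * (R : ℝ) ^ 6 * (q.divisors.card : ℝ) ^ 2 * √(q : ℝ) *
        (1 + Real.log q) * (((B : ℝ) - A) / q + JJ lam B * (1 + Real.log q)) ≤
        ((h : ℝ) ^ 2 * (R : ℝ) ^ 6 * D * √(q : ℝ) * (1 + Real.log Q)) *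
          ((B : ℝ) / q + JJ lam B * (1 + Real.log Q)) := by
          refine mul_le_mul h1 h2 (by positivity) ?_
          have : 0 ≤ Real.log (Q : ℝ) := hlog.trans hlogQ
          positivity
      _ = _ := by ring

theorem sum_er (h R Q : ℕ) {lam D : ℝ} (hlam : 1 < lam) {A B : ℕ} (hAB : A ≤ B) (hQ : 1 ≤ Q)
    (hD : ∀ q ∈ Finset.Icc 1 Q, (q.divisors.card : ℝ) ^ 2 ≤ D) :
    ∑ q ∈ Finset.Icc 1 Q, er h q R lam A B ≤ (1 + 3 * h) * h * (1 + Real.log Q) * B +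
      ((h : ℝ) ^ 2 * (R : ℝ) ^ 6 * D * (1 + Real.log Q)) *
        (2 * √(Q : ℝ) * B + (Q : ℝ) * √(Q : ℝ) * (JJ lam B * (1 + Real.log Q))) := by
  have hJ := JJ_nonneg hlam B
  have hlogQ : 0 ≤ Real.log (Q : ℝ) := Real.log_natCast_nonneg Q
  have hD0 : 0 ≤ D := le_trans (by positivity) (hD 1 (Finset.mem_Icc.2 ⟨le_rfl, hQ⟩))
  calc ∑ q ∈ Finset.Icc 1 Q, er h q R lam A B ≤ ∑ q ∈ Finset.Icc 1 Q,
      (((1 + 3 * h) * h * B) * (1 / (q : ℝ)) +
      ((h : ℝ) ^ 2 * (R : ℝ) ^ 6 * D * (1 + Real.log Q)) *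
        ((B : ℝ) * (√(q : ℝ) / q) + (JJ lam B * (1 + Real.log Q)) * √(q : ℝ))) :=
        Finset.sum_le_sum fun q hq => er_le h q R Q hlam hAB (Finset.mem_Icc.1 hq).1
          (Finset.mem_Icc.1 hq).2 (hD q hq)
    _ = ((1 + 3 * h) * h * B) * ∑ q ∈ Finset.Icc 1 Q, (1 / (q : ℝ)) +
      ((h : ℝ) ^ 2 * (R : ℝ) ^ 6 * D * (1 + Real.log Q)) *
        ((B : ℝ) * (∑ q ∈ Finset.Icc 1 Q, √(q : ℝ) / q) +
          (JJ lam B * (1 + Real.log Q)) * ∑ q ∈ Finset.Icc 1 Q, √(q : ℝ)) := by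
        rw [Finset.sum_add_distrib, ← Finset.mul_sum, ← Finset.mul_sum, Finset.sum_add_distrib,
          ← Finset.mul_sum, ← Finset.mul_sum]
    _ ≤ ((1 + 3 * h) * h * B) * (1 + Real.log Q) +
      ((h : ℝ) ^ 2 * (R : ℝ) ^ 6 * D * (1 + Real.log Q)) *
        ((B : ℝ) * (2 * √(Q : ℝ)) + (JJ lam B * (1 + Real.log Q)) * ((Q : ℝ) * √(Q : ℝ))) := by
        have h1 := sum_inv Q
        have h2 := sum_sqrt_div Q
        have h3 := sum_sqrt Q
        gcongr
    _ = _ := by ring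

end C3

theorem prfC3 : claimC3 := by
  intro hInt h Q M A B N R lam K D β w z hh hAB hlam hlam2 hz hβ hw hD hR
  rcases Nat.eq_zero_or_pos Q with rfl | hQ
  · have hE : 0 ≤ Er h 0 M B R lam K D := by
      unfold Er
      rw [Nat.cast_zero, Real.log_zero, Real.sqrt_zero]
      have : K ^ 2 * ((1 + 3 * (h : ℝ)) * h * (1 + 0) * ((M : ℝ) * B) +
        (h : ℝ) ^ 2 * (R : ℝ) ^ 6 * D * (1 + 0) *
        (2 * (0 * M * B) + 0 * 0 * M * (JJ lam B * (1 + 0)))) =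
        K ^ 2 * ((1 + 3 * (h : ℝ)) * h * ((M : ℝ) * B)) := by ring
      rw [this]
      positivity
    have hS : SR h β w N 0 M A B z = 0 := by
      unfold SR
      rw [Finset.Icc_eq_empty (by omega), Finset.sum_empty]
    have hM : MT h β w 0 M A B = 0 := by
      unfold MT
      rw [Finset.Icc_eq_empty (by omega), Finset.sum_empty]
    rw [hS, hM]
    constructor <;> linarith
  have hpt : ∀ q ∈ Finset.Icc 1 Q, ∀ m ∈ Finset.Icc 1 M,
      (N : ℝ) / lam * (β q * w m * mt h q m A B) - β q * w m * C3.er h q R lam A B ≤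
        β q * w m * (cnt h q m A B N z : ℝ) ∧
      β q * w m * (cnt h q m A B N z : ℝ) ≤
        lam * N * (β q * w m * mt h q m A B) + β q * w m * C3.er h q R lam A B := by
    intro q hq m hm
    have hc : 0 ≤ β q * w m := mul_nonneg (hβ q hq).1 (hw m hm).1
    by_cases hb : β q = 0
    · rw [hb]
      constructor
      · simp
      · simp
    · obtain ⟨h1, h2⟩ := hInt h q m A B N R lam z hh (Finset.mem_Icc.1 hq).1
        (Finset.mem_Icc.1 hm).1 hAB hlam hlam2 hz (hR q hq hb)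
      have h3 := mul_le_mul_of_nonneg_left h1 hc
      have h4 := mul_le_mul_of_nonneg_left h2 hc
      unfold C3.er
      constructor
      · refine le_trans (le_of_eq ?_) h3
        ring
      · refine le_trans h4 (le_of_eq ?_)
        ring
  have hE : ∑ q ∈ Finset.Icc 1 Q, ∑ m ∈ Finset.Icc 1 M, β q * w m * C3.er h q R lam A B ≤
      Er h Q M B R lam K D := by
    have h1 : ∀ q ∈ Finset.Icc 1 Q, ∀ m ∈ Finset.Icc 1 M,
        β q * w m * C3.er h q R lam A B ≤ K ^ 2 * C3.er h q R lam A B := by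
      intro q hq m hm
      have h2 : β q * w m ≤ K * K := mul_le_mul (hβ q hq).2 (hw m hm).2 (hw m hm).1
        ((hβ q hq).1.trans (hβ q hq).2)
      rw [pow_two]
      exact mul_le_mul_of_nonneg_right h2 (C3.er_nonneg h q R hlam hAB)
    calc ∑ q ∈ Finset.Icc 1 Q, ∑ m ∈ Finset.Icc 1 M, β q * w m * C3.er h q R lam A B ≤
        ∑ q ∈ Finset.Icc 1 Q, ∑ m ∈ Finset.Icc 1 M, K ^ 2 * C3.er h q R lam A B :=
          Finset.sum_le_sum fun q hq => Finset.sum_le_sum fun m hm => h1 q hq m hm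
      _ = K ^ 2 * M * ∑ q ∈ Finset.Icc 1 Q, C3.er h q R lam A B := by
          rw [Finset.mul_sum]
          refine Finset.sum_congr rfl fun q _ => ?_
          rw [Finset.sum_const, Nat.card_Icc, Nat.add_sub_cancel, nsmul_eq_mul]
          ring
      _ ≤ K ^ 2 * M * ((1 + 3 * h) * h * (1 + Real.log Q) * B +
          ((h : ℝ) ^ 2 * (R : ℝ) ^ 6 * D * (1 + Real.log Q)) *
          (2 * √(Q : ℝ) * B + (Q : ℝ) * √(Q : ℝ) * (JJ lam B * (1 + Real.log Q)))) :=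
          mul_le_mul_of_nonneg_left (C3.sum_er h R Q hlam hAB hQ hD) (by positivity)
      _ = Er h Q M B R lam K D := by
          unfold Er
          ring
  constructor
  · have h1 : (N : ℝ) / lam * MT h β w Q M A B -
        ∑ q ∈ Finset.Icc 1 Q, ∑ m ∈ Finset.Icc 1 M, β q * w m * C3.er h q R lam A B ≤
        SR h β w N Q M A B z := by
      unfold MT SR
      rw [Finset.mul_sum, ← Finset.sum_sub_distrib]
      refine Finset.sum_le_sum fun q hq => ?_
      rw [Finset.mul_sum, ← Finset.sum_sub_distrib]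
      exact Finset.sum_le_sum fun m hm => (hpt q hq m hm).1
    linarith
  · have h1 : SR h β w N Q M A B z ≤ lam * N * MT h β w Q M A B +
        ∑ q ∈ Finset.Icc 1 Q, ∑ m ∈ Finset.Icc 1 M, β q * w m * C3.er h q R lam A B := by
      unfold MT SR
      rw [Finset.mul_sum, ← Finset.sum_add_distrib]
      refine Finset.sum_le_sum fun q hq => ?_
      rw [Finset.mul_sum, ← Finset.sum_add_distrib]
      exact Finset.sum_le_sum fun m hm => (hpt q hq m hm).2
    linarith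

end Pool.Agent.Work.MP_122e00_nt.WRK
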