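import Pool.Agent.Work.MP_122e00_nt.WR.StmtsC

set_option autoImplicit false

/-!
# The Weil region, item C4: the bad moduli, count
-/

namespace Pool.Agent.Work.MP_122e00_nt.WRK

open Finset

open Classical in
theorem C4_count (N R : ℕ) (hR : 1 ≤ R) :
    (((Finset.Ioc 0 N).filter (Bad R)).card : ℝ) ≤ (N : ℝ) / R := by
  have hsub : (Finset.Ioc 0 N).filter (Bad R) ⊆
      (Finset.Ioc R N).biUnion fun r => (Finset.Ioc 0 N).filter fun n => r * r ∣ n := by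
    intro n hn
    rw [mem_filter, mem_Ioc] at hn
    obtain ⟨⟨h0, hN⟩, r, hr, hd⟩ := hn
    rw [mem_biUnion]
    refine ⟨r, mem_Ioc.2 ⟨hr, ?_⟩, mem_filter.2 ⟨mem_Ioc.2 ⟨h0, hN⟩, hd⟩⟩
    have h1 : r * r ≤ n := Nat.le_of_dvd h0 hd
    nlinarith
  have h1 : ((Finset.Ioc 0 N).filter (Bad R)).card ≤ ∑ r ∈ Finset.Ioc R N, N / (r * r) := by
    refine (Finset.card_le_card hsub).trans (Finset.card_biUnion_le.trans ?_)
    refine Finset.sum_le_sum fun r _ => ?_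
    rw [Nat.Ioc_filter_dvd_card_eq_div]
  have h2 : (((∑ r ∈ Finset.Ioc R N, N / (r * r) : ℕ)) : ℝ) ≤
      ∑ r ∈ Finset.Ioc R N, (N : ℝ) * ((r : ℝ) ^ 2)⁻¹ := by
    rw [Nat.cast_sum]
    refine Finset.sum_le_sum fun r _ => ?_
    refine Nat.cast_div_le.trans ?_
    rw [div_eq_mul_inv, Nat.cast_mul, pow_two]
  have h3 : ∑ r ∈ Finset.Ioc R N, (N : ℝ) * ((r : ℝ) ^ 2)⁻¹ ≤ (N : ℝ) / R := by
    rw [← Finset.mul_sum, div_eq_mul_inv]
    refine mul_le_mul_of_nonneg_left ?_ (Nat.cast_nonneg N)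
    rcases le_or_gt R N with h | h
    · refine (sum_Ioc_inv_sq_le_sub (by omega) h).trans ?_
      have : (0 : ℝ) ≤ (N : ℝ)⁻¹ := by positivity
      linarith
    · rw [Finset.Ioc_eq_empty (by omega), Finset.sum_empty]
      positivity
  calc (((Finset.Ioc 0 N).filter (Bad R)).card : ℝ)
      ≤ ((∑ r ∈ Finset.Ioc R N, N / (r * r) : ℕ) : ℝ) := by exact_mod_cast h1
    _ ≤ _ := h2.trans h3

theorem C4_sum_mem (S T : Finset ℕ) :
    (∑ q ∈ S, if q ∈ T then (1 : ℝ) else 0) ≤ (T.card : ℝ) := by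
  rw [← Finset.sum_filter, Finset.sum_const, nsmul_eq_mul, mul_one]
  exact_mod_cast Finset.card_le_card fun x hx => (mem_filter.1 hx).2

open Classical in
theorem C4_pt (h Q M A B N R : ℕ) (D : ℝ) (z : ℤ) (hz : z.natAbs = h)
    (hD : ∀ n : ℕ, n ≠ 0 → n ≤ N + h → (n.divisors.card : ℝ) ≤ D) (n : ℕ)
    (hn : n ∈ Finset.Ioc h N) :
    (∑ q ∈ (Finset.Icc 1 Q).filter (Bad R), ∑ m ∈ Finset.Icc 1 M, ∑ x ∈ Finset.Ioc A B,
      if q ∣ n ∧ ((m * x : ℕ) : ℤ) ∣ (n : ℤ) - z then (1 : ℝ) else 0) ≤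
      if Bad R n then D ^ 3 else 0 := by
  rw [mem_Ioc] at hn
  split_ifs with hb
  · obtain ⟨n', hn'⟩ : ∃ n' : ℕ, (n' : ℤ) = (n : ℤ) - z :=
      ⟨((n : ℤ) - z).toNat, by rw [Int.toNat_of_nonneg]; omega⟩
    have hn0 : n' ≠ 0 := by omega
    have hnle : n' ≤ N + h := by omega
    have hD0 : (0 : ℝ) ≤ D := (Nat.cast_nonneg _).trans (hD n (by omega) (by omega))
    have hle : (∑ q ∈ (Finset.Icc 1 Q).filter (Bad R), ∑ m ∈ Finset.Icc 1 M,
        ∑ x ∈ Finset.Ioc A B,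
          if q ∣ n ∧ ((m * x : ℕ) : ℤ) ∣ (n : ℤ) - z then (1 : ℝ) else 0) ≤
        ∑ q ∈ (Finset.Icc 1 Q).filter (Bad R), ∑ m ∈ Finset.Icc 1 M, ∑ x ∈ Finset.Ioc A B,
          (if q ∈ n.divisors then (1 : ℝ) else 0) *
            ((if m ∈ n'.divisors then (1 : ℝ) else 0) *
              (if x ∈ n'.divisors then (1 : ℝ) else 0)) := by
      refine Finset.sum_le_sum fun q _ => Finset.sum_le_sum fun m _ =>
        Finset.sum_le_sum fun x _ => ?_
      split_ifs with h1 h2 h3 h4 <;> try norm_num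
      all_goals
        obtain ⟨h5, h6⟩ := h1
        rw [← hn'] at h6
        have h7 : m * x ∣ n' := by exact_mod_cast h6
        first
        | exact h2 (Nat.mem_divisors.2 ⟨h5, by omega⟩)
        | exact h3 (Nat.mem_divisors.2 ⟨(Dvd.intro _ rfl).trans h7, hn0⟩)
        | exact h4 (Nat.mem_divisors.2 ⟨(Dvd.intro_left _ rfl).trans h7, hn0⟩)
    refine hle.trans ?_
    simp only [← Finset.mul_sum, ← Finset.sum_mul]
    have e1 := (C4_sum_mem ((Finset.Icc 1 Q).filter (Bad R)) n.divisors).trans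
      (hD n (by omega) (by omega))
    have e2 := (C4_sum_mem (Finset.Icc 1 M) n'.divisors).trans (hD n' hn0 hnle)
    have e3 := (C4_sum_mem (Finset.Ioc A B) n'.divisors).trans (hD n' hn0 hnle)
    have p1 : (0 : ℝ) ≤ ∑ q ∈ (Finset.Icc 1 Q).filter (Bad R),
        if q ∈ n.divisors then (1 : ℝ) else 0 :=
      Finset.sum_nonneg fun _ _ => by split_ifs <;> norm_num
    have p2 : (0 : ℝ) ≤ ∑ m ∈ Finset.Icc 1 M, if m ∈ n'.divisors then (1 : ℝ) else 0 :=
      Finset.sum_nonneg fun _ _ => by split_ifs <;> norm_num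
    have p3 : (0 : ℝ) ≤ ∑ x ∈ Finset.Ioc A B, if x ∈ n'.divisors then (1 : ℝ) else 0 :=
      Finset.sum_nonneg fun _ _ => by split_ifs <;> norm_num
    calc _ ≤ D * (D * D) :=
          mul_le_mul e1 (mul_le_mul e2 e3 p3 hD0) (mul_nonneg p2 p3) hD0
      _ = D ^ 3 := by ring
  · refine le_of_eq (Finset.sum_eq_zero fun q hq => Finset.sum_eq_zero fun m _ =>
      Finset.sum_eq_zero fun x _ => if_neg ?_)
    rintro ⟨h1, _⟩
    obtain ⟨r, hr, hd⟩ := (mem_filter.1 hq).2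
    exact hb ⟨r, hr, hd.trans h1⟩

theorem prfC4 : claimC4 := by
  classical
  intro h Q M A B N R D z hz hR hD
  have hcnt : ∀ q m : ℕ, (cnt h q m A B N z : ℝ) = ∑ n ∈ Finset.Ioc h N,
      ∑ x ∈ Finset.Ioc A B,
        if q ∣ n ∧ ((m * x : ℕ) : ℤ) ∣ (n : ℤ) - z then (1 : ℝ) else 0 := by
    intro q m
    rw [Finset.sum_comm, cnt, Nat.cast_sum]
    refine Finset.sum_congr rfl fun x _ => ?_
    rw [← Finset.sum_filter, Finset.sum_const, nsmul_eq_mul, mul_one]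
  have hswap : (∑ q ∈ (Finset.Icc 1 Q).filter (Bad R), ∑ m ∈ Finset.Icc 1 M,
      (cnt h q m A B N z : ℝ)) = ∑ n ∈ Finset.Ioc h N,
      ∑ q ∈ (Finset.Icc 1 Q).filter (Bad R), ∑ m ∈ Finset.Icc 1 M, ∑ x ∈ Finset.Ioc A B,
        if q ∣ n ∧ ((m * x : ℕ) : ℤ) ∣ (n : ℤ) - z then (1 : ℝ) else 0 := by
    rw [Finset.sum_comm (s := Finset.Ioc h N)]
    refine Finset.sum_congr rfl fun q _ => ?_
    rw [Finset.sum_comm (s := Finset.Ioc h N)]
    exact Finset.sum_congr rfl fun m _ => hcnt q m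
  have hmain : (∑ q ∈ (Finset.Icc 1 Q).filter (Bad R), ∑ m ∈ Finset.Icc 1 M,
      (cnt h q m A B N z : ℝ)) ≤ D ^ 3 * ((N : ℝ) / R) := by
    rw [hswap]
    refine (Finset.sum_le_sum fun n hn => C4_pt h Q M A B N R D z hz hD n hn).trans ?_
    rw [← Finset.sum_filter, Finset.sum_const, nsmul_eq_mul, mul_comm]
    rcases Nat.eq_zero_or_pos N with h0 | h0
    · subst h0
      simp
    · have hD1 : (1 : ℝ) ≤ D := by
        have := hD 1 one_ne_zero (by omega)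
        simpa using this
      refine mul_le_mul_of_nonneg_left ?_ (by positivity)
      refine le_trans ?_ (C4_count N R hR)
      exact_mod_cast Finset.card_le_card (Finset.filter_subset_filter _
        (Finset.Ioc_subset_Ioc_left (Nat.zero_le h)))
  exact hmain

end Pool.Agent.Work.MP_122e00_nt.WRK
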