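import Pool.Agent.Work.MP_122e00_nt.WR.StmtsC

set_option autoImplicit false

/-!
# The Weil region, part C, item C6: the terms with small `n`
-/

namespace Pool.Agent.Work.MP_122e00_nt.WRK

open Finset Filter Topology

namespace C6

lemma sub (h N : ℕ) : Finset.Ioc h N ⊆ Finset.Icc 1 N := by
  intro n hn
  have := Finset.mem_Ioc.1 hn
  rw [Finset.mem_Icc]
  omega

lemma card_le (h N q m x : ℕ) (z : ℤ) :
    (((Finset.Icc 1 N).filter
      (fun n : ℕ => q ∣ n ∧ ((m * x : ℕ) : ℤ) ∣ (n : ℤ) - z)).card) ≤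
    (((Finset.Ioc h N).filter
      (fun n : ℕ => q ∣ n ∧ ((m * x : ℕ) : ℤ) ∣ (n : ℤ) - z)).card) +
    ((Finset.Icc 1 h).filter (fun n : ℕ => q ∣ n)).card := by
  refine le_trans (Finset.card_le_card ?_) (Finset.card_union_le _ _)
  intro n hn
  rw [Finset.mem_filter, Finset.mem_Icc] at hn
  rw [Finset.mem_union, Finset.mem_filter, Finset.mem_filter, Finset.mem_Ioc, Finset.mem_Icc]
  by_cases hh : h < n
  · exact Or.inl ⟨⟨hh, hn.1.2⟩, hn.2⟩
  · exact Or.inr ⟨⟨hn.1.1, by omega⟩, hn.2.1⟩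

lemma sum_div (Q h : ℕ) :
    ∑ q ∈ Finset.Icc 1 Q, ((Finset.Icc 1 h).filter (fun n : ℕ => q ∣ n)).card ≤ h ^ 2 := by
  have h1 : ∑ q ∈ Finset.Icc 1 Q, ((Finset.Icc 1 h).filter (fun n : ℕ => q ∣ n)).card =
      ∑ n ∈ Finset.Icc 1 h, ((Finset.Icc 1 Q).filter (fun q : ℕ => q ∣ n)).card := by
    simp only [Finset.card_filter]
    exact Finset.sum_comm
  rw [h1]
  have h2 : ∀ n ∈ Finset.Icc 1 h, ((Finset.Icc 1 Q).filter (fun q : ℕ => q ∣ n)).card ≤ h := by
    intro n hn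
    have hn' := Finset.mem_Icc.1 hn
    have h3 : (Finset.Icc 1 Q).filter (fun q : ℕ => q ∣ n) ⊆ Finset.Icc 1 h := by
      intro q hq
      rw [Finset.mem_filter, Finset.mem_Icc] at hq
      rw [Finset.mem_Icc]
      exact ⟨hq.1.1, (Nat.le_of_dvd (by omega) hq.2).trans hn'.2⟩
    have h4 := Finset.card_le_card h3
    rw [Nat.card_Icc] at h4
    omega
  have h5 := Finset.sum_le_card_nsmul _ _ _ h2
  rw [Nat.card_Icc, smul_eq_mul] at h5
  calc ∑ n ∈ Finset.Icc 1 h, ((Finset.Icc 1 Q).filter (fun q : ℕ => q ∣ n)).card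
      ≤ (h + 1 - 1) * h := h5
    _ = h ^ 2 := by
      rw [Nat.add_sub_cancel]
      ring

end C6

theorem prfC6 : claimC6 := by
  intro h Q M A B N K β w z hβ hw
  constructor
  · unfold SR SN
    refine Finset.sum_le_sum fun q hq => Finset.sum_le_sum fun m hm => ?_
    refine mul_le_mul_of_nonneg_left ?_ (mul_nonneg (hβ q hq).1 (hw m hm).1)
    unfold cnt
    push_cast
    refine Finset.sum_le_sum fun x _ => ?_
    have := Finset.card_le_card (Finset.filter_subset_filter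
      (fun n : ℕ => q ∣ n ∧ ((m * x : ℕ) : ℤ) ∣ (n : ℤ) - z) (C6.sub h N))
    push_cast at this
    exact_mod_cast this
  · set c : ℕ → ℝ := fun q => (((Finset.Icc 1 h).filter (fun n : ℕ => q ∣ n)).card : ℝ) with hc
    have hstep : ∀ q ∈ Finset.Icc 1 Q, ∀ m ∈ Finset.Icc 1 M,
        β q * w m * (∑ x ∈ Finset.Ioc A B, (((Finset.Icc 1 N).filter
          (fun n : ℕ => q ∣ n ∧ ((m * x : ℕ) : ℤ) ∣ (n : ℤ) - z)).card : ℝ)) ≤
        β q * w m * (cnt h q m A B N z : ℝ) + K ^ 2 * (B * c q) := by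
      intro q hq m hm
      have hb0 := mul_nonneg (hβ q hq).1 (hw m hm).1
      have hbK : β q * w m ≤ K ^ 2 := by
        rw [pow_two]
        exact mul_le_mul (hβ q hq).2 (hw m hm).2 (hw m hm).1
          ((hβ q hq).1.trans (hβ q hq).2)
      have h1 : (∑ x ∈ Finset.Ioc A B, (((Finset.Icc 1 N).filter
          (fun n : ℕ => q ∣ n ∧ ((m * x : ℕ) : ℤ) ∣ (n : ℤ) - z)).card : ℝ)) ≤
          (cnt h q m A B N z : ℝ) + B * c q := by
        have h2 : ∀ x ∈ Finset.Ioc A B, (((Finset.Icc 1 N).filter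
            (fun n : ℕ => q ∣ n ∧ ((m * x : ℕ) : ℤ) ∣ (n : ℤ) - z)).card : ℝ) ≤
            (((Finset.Ioc h N).filter
            (fun n : ℕ => q ∣ n ∧ ((m * x : ℕ) : ℤ) ∣ (n : ℤ) - z)).card : ℝ) + c q := by
          intro x _
          simp only [hc]
          exact_mod_cast C6.card_le h N q m x z
        refine (Finset.sum_le_sum h2).trans ?_
        rw [Finset.sum_add_distrib, Finset.sum_const, Nat.card_Ioc, nsmul_eq_mul]
        have hc0 : 0 ≤ c q := by
          rw [hc]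
          positivity
        have hAB : ((B - A : ℕ) : ℝ) ≤ B := by
          exact_mod_cast Nat.sub_le _ _
        have h3 : ((B - A : ℕ) : ℝ) * c q ≤ B * c q := mul_le_mul_of_nonneg_right hAB hc0
        have h4 : (cnt h q m A B N z : ℝ) = ∑ x ∈ Finset.Ioc A B, (((Finset.Ioc h N).filter
            (fun n : ℕ => q ∣ n ∧ ((m * x : ℕ) : ℤ) ∣ (n : ℤ) - z)).card : ℝ) := by
          unfold cnt
          push_cast
          rfl
        rw [h4]
        linarith
      have hc0 : 0 ≤ (B : ℝ) * c q := by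
        rw [hc]
        positivity
      calc β q * w m * (∑ x ∈ Finset.Ioc A B, (((Finset.Icc 1 N).filter
          (fun n : ℕ => q ∣ n ∧ ((m * x : ℕ) : ℤ) ∣ (n : ℤ) - z)).card : ℝ))
          ≤ β q * w m * ((cnt h q m A B N z : ℝ) + B * c q) :=
            mul_le_mul_of_nonneg_left h1 hb0
        _ = β q * w m * (cnt h q m A B N z : ℝ) + (β q * w m) * (B * c q) := by ring
        _ ≤ β q * w m * (cnt h q m A B N z : ℝ) + K ^ 2 * (B * c q) := by
            have := mul_le_mul_of_nonneg_right hbK hc0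
            linarith
    unfold SN SR
    refine (Finset.sum_le_sum fun q hq => Finset.sum_le_sum fun m hm => hstep q hq m hm).trans ?_
    simp only [Finset.sum_add_distrib]
    have h5 : ∑ q ∈ Finset.Icc 1 Q, ∑ _m ∈ Finset.Icc 1 M, K ^ 2 * ((B : ℝ) * c q) =
        K ^ 2 * (M * B) * ∑ q ∈ Finset.Icc 1 Q, c q := by
      rw [Finset.mul_sum]
      refine Finset.sum_congr rfl fun q _ => ?_
      rw [Finset.sum_const, Nat.card_Icc, Nat.add_sub_cancel, nsmul_eq_mul]
      ring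
    rw [h5]
    have h6 : ∑ q ∈ Finset.Icc 1 Q, c q ≤ (h : ℝ) ^ 2 := by
      have := C6.sum_div Q h
      simp only [hc]
      exact_mod_cast this
    have h7 : K ^ 2 * ((M : ℝ) * B) * ∑ q ∈ Finset.Icc 1 Q, c q ≤
        K ^ 2 * ((M : ℝ) * B) * (h : ℝ) ^ 2 :=
      mul_le_mul_of_nonneg_left h6 (by positivity)
    have h8 : K ^ 2 * ((M : ℝ) * B) * (h : ℝ) ^ 2 = K ^ 2 * ((h : ℝ) ^ 2 * ((M : ℝ) * B)) := by
      ring
    linarith

end Pool.Agent.Work.MP_122e00_nt.WRK
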