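import Pool.Agent.Work.MP_122e00_nt.WR.StmtsC

set_option autoImplicit false

/-!
# Item C7: the count theorem with coefficients
-/

namespace Pool.Agent.Work.MP_122e00_nt.WRK

namespace C7

open Finset Filter Topology

lemma Fh_nonneg' (h g : ℕ) : 0 ≤ Fh h g := by
  exact Fh_nonneg h g

lemma mt_nonneg (h q m A B : ℕ) : 0 ≤ mt h q m A B := by
  unfold mt
  exact Finset.sum_nonneg fun x _ => div_nonneg (Fh_nonneg' _ _) (by positivity)

/-- Comparison of a sum with coefficients supported on a decidable set with a filtered sum. -/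
lemma sum_coef_le (Q M : ℕ) (β w : ℕ → ℝ) (f : ℕ → ℕ → ℝ) (K : ℝ) (p : ℕ → Prop)
    [DecidablePred p] (hβ : ∀ q ∈ Finset.Icc 1 Q, 0 ≤ β q ∧ β q ≤ K)
    (hw : ∀ m ∈ Finset.Icc 1 M, 0 ≤ w m ∧ w m ≤ K) (hf : ∀ q m, 0 ≤ f q m) :
    ∑ q ∈ Finset.Icc 1 Q, ∑ m ∈ Finset.Icc 1 M, (if p q then β q else 0) * w m * f q m ≤
      K ^ 2 * ∑ q ∈ (Finset.Icc 1 Q).filter p, ∑ m ∈ Finset.Icc 1 M, f q m := by
  rw [Finset.sum_filter, Finset.mul_sum]
  refine Finset.sum_le_sum fun q hq => ?_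
  split_ifs with h
  · rw [Finset.mul_sum]
    refine Finset.sum_le_sum fun m hm => ?_
    obtain ⟨b0, b1⟩ := hβ q hq
    obtain ⟨w0, w1⟩ := hw m hm
    have : β q * w m ≤ K ^ 2 := by
      rw [sq]
      exact mul_le_mul b1 w1 w0 (b0.trans b1)
    exact mul_le_mul_of_nonneg_right this (hf q m)
  · simp

lemma sum_coef_nonneg (Q M : ℕ) (β w : ℕ → ℝ) (f : ℕ → ℕ → ℝ)
    (hβ : ∀ q ∈ Finset.Icc 1 Q, 0 ≤ β q)
    (hw : ∀ m ∈ Finset.Icc 1 M, 0 ≤ w m) (hf : ∀ q m, 0 ≤ f q m) :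
    0 ≤ ∑ q ∈ Finset.Icc 1 Q, ∑ m ∈ Finset.Icc 1 M, β q * w m * f q m :=
  Finset.sum_nonneg fun q hq => Finset.sum_nonneg fun m hm =>
    mul_nonneg (mul_nonneg (hβ q hq) (hw m hm)) (hf q m)

lemma sum_coef_split (Q M : ℕ) (β w : ℕ → ℝ) (f : ℕ → ℕ → ℝ) (p : ℕ → Prop)
    [DecidablePred p] :
    ∑ q ∈ Finset.Icc 1 Q, ∑ m ∈ Finset.Icc 1 M, β q * w m * f q m =
    ∑ q ∈ Finset.Icc 1 Q, ∑ m ∈ Finset.Icc 1 M, (if p q then 0 else β q) * w m * f q m +
    ∑ q ∈ Finset.Icc 1 Q, ∑ m ∈ Finset.Icc 1 M, (if p q then β q else 0) * w m * f q m := by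
  rw [← Finset.sum_add_distrib]
  refine Finset.sum_congr rfl fun q _ => ?_
  rw [← Finset.sum_add_distrib]
  refine Finset.sum_congr rfl fun m _ => ?_
  split_ifs <;> ring

lemma one_add_log_le {n : ℕ} {X L : ℝ} (hX : 1 ≤ X) (hn : (n : ℝ) ≤ X) (hL : L = 1 + Real.log X) :
    1 + Real.log n ≤ L := by
  rw [hL]
  rcases Nat.eq_zero_or_pos n with h | h
  · subst h
    simpa using Real.log_nonneg hX
  · have : (0 : ℝ) < n := by exact_mod_cast h
    have := Real.log_le_log this hn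
    linarith

lemma one_add_log_nonneg (n : ℕ) : 0 ≤ 1 + Real.log n := by
  have := Real.log_natCast_nonneg n
  linarith

/-- The numerical bound for `Er`. -/
lemma Er_bound {h Q M B R : ℕ} {lam X P L T : ℝ} (hX : 1 ≤ X) (hP : 1 ≤ P) (hL1 : 1 ≤ L)
    (hQL : 1 + Real.log Q ≤ L) (hLP : L ≤ P) (hT : JJ lam B ≤ T) (hJ : 0 ≤ JJ lam B)
    (hLT : L * (2 + T * L) ≤ P)
    (h1 : (M : ℝ) * B ≤ X / P ^ 60) (h2 : (Q : ℝ) * √(Q : ℝ) * M ≤ X / P ^ 60)
    (h3 : √(Q : ℝ) * M * B ≤ X / P ^ 60) (hR : (R : ℝ) ≤ 2 * P ^ 8) :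
    Er h Q M B R lam P P ≤ ((1 + 3 * h) * h + 64 * (h : ℝ) ^ 2) * (X / P ^ 8) := by
  have hP0 : 0 < P := by linarith
  have hX0 : 0 < X := by linarith
  have hY0 : 0 ≤ X / P ^ 60 := by positivity
  have hQ0 := one_add_log_nonneg Q
  have hT0 : 0 ≤ T := hJ.trans hT
  unfold Er
  have hR6 : (R : ℝ) ^ 6 ≤ 64 * P ^ 48 := by
    calc (R : ℝ) ^ 6 ≤ (2 * P ^ 8) ^ 6 := by gcongr
      _ = 64 * P ^ 48 := by ring
  have hin : 2 * (√(Q : ℝ) * M * B) + (Q : ℝ) * √(Q : ℝ) * M * (JJ lam B * (1 + Real.log Q)) ≤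
      (X / P ^ 60) * (2 + T * L) := by
    calc 2 * (√(Q : ℝ) * M * B) + (Q : ℝ) * √(Q : ℝ) * M * (JJ lam B * (1 + Real.log Q))
        ≤ 2 * (X / P ^ 60) + (X / P ^ 60) * (T * L) := by gcongr
      _ = (X / P ^ 60) * (2 + T * L) := by ring
  calc P ^ 2 * ((1 + 3 * h) * h * (1 + Real.log Q) * ((M : ℝ) * B) +
    (h : ℝ) ^ 2 * (R : ℝ) ^ 6 * P * (1 + Real.log Q) *
      (2 * (√(Q : ℝ) * M * B) + (Q : ℝ) * √(Q : ℝ) * M * (JJ lam B * (1 + Real.log Q))))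
      ≤ P ^ 2 * ((1 + 3 * h) * h * P * (X / P ^ 60) +
    (h : ℝ) ^ 2 * (64 * P ^ 48) * P * L * ((X / P ^ 60) * (2 + T * L))) := by
        gcongr
        · exact hQL.trans hLP
    _ = P ^ 2 * ((1 + 3 * h) * h * P * (X / P ^ 60) +
    (h : ℝ) ^ 2 * (64 * P ^ 48) * P * (X / P ^ 60) * (L * (2 + T * L))) := by ring
    _ ≤ P ^ 2 * ((1 + 3 * h) * h * P ^ 50 * (X / P ^ 60) +
    (h : ℝ) ^ 2 * (64 * P ^ 48) * P * (X / P ^ 60) * P) := by
        have : P ≤ P ^ 50 := le_self_pow₀ hP (by norm_num)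
        gcongr
    _ = ((1 + 3 * h) * h + 64 * (h : ℝ) ^ 2) * (X / P ^ 8) := by
        field_simp

open Classical in
/-- The deterministic part. -/
theorem core (hG : claimGood) (hB4 : claimC4) (hM5 : claimC5) (hS6 : claimC6)
    (h Q M A B N R : ℕ) (lam X P L T D' : ℝ) (β w : ℕ → ℝ) (z : ℤ) (hh : h ≠ 0) (hAB : A ≤ B)
    (hl1 : 1 < lam) (hl2 : lam ≤ 2) (hz : z.natAbs = h)
    (hX : 1 ≤ X) (hP : 1 ≤ P) (hPX : P ^ 4 ≤ X) (hN1 : (N : ℝ) ≤ X) (hN2 : X - 1 ≤ N)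
    (hQX : (Q : ℝ) ≤ X) (hMX : (M : ℝ) ≤ X) (hBX : (B : ℝ) ≤ X)
    (h1 : (M : ℝ) * B ≤ X / P ^ 60) (h2 : (Q : ℝ) * √(Q : ℝ) * M ≤ X / P ^ 60)
    (h3 : √(Q : ℝ) * M * B ≤ X / P ^ 60)
    (hβ : ∀ q ∈ Finset.Icc 1 Q, 0 ≤ β q ∧ β q ≤ P)
    (hw : ∀ m ∈ Finset.Icc 1 M, 0 ≤ w m ∧ w m ≤ P)
    (hL : L = 1 + Real.log X) (hL3 : L ^ 3 ≤ P) (hT : JJ lam B ≤ T)
    (hJ : 0 ≤ JJ lam B) (hLT : L * (2 + T * L) ≤ P)
    (hR1 : P ^ 8 ≤ (R : ℝ)) (hR2 : (R : ℝ) ≤ 2 * P ^ 8)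
    (hD : D' ^ 3 = P) (hdiv : ∀ n : ℕ, n ≠ 0 → n ≤ N + h → (n.divisors.card : ℝ) ≤ D')
    (hdq : ∀ q ∈ Finset.Icc 1 Q, (q.divisors.card : ℝ) ^ 2 ≤ P) :
    X / lam * MT h β w Q M A B -
        (2 * h + ((1 + 3 * h) * h + 64 * (h : ℝ) ^ 2) + 1 + (h : ℝ) ^ 2) * (X / P) ≤
      SN β w N Q M A B z ∧
    SN β w N Q M A B z ≤ lam * X * MT h β w Q M A B +
        (2 * h + ((1 + 3 * h) * h + 64 * (h : ℝ) ^ 2) + 1 + (h : ℝ) ^ 2) * (X / P) := by
  have hP0 : 0 < P := by linarith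
  have hX0 : 0 < X := by linarith
  have hL1 : 1 ≤ L := by
    rw [hL]
    linarith [Real.log_nonneg hX]
  have hLP : L ≤ P := (le_self_pow₀ hL1 (by norm_num)).trans hL3
  have hR0 : (0 : ℝ) < R := lt_of_lt_of_le (by positivity) hR1
  have hRn : 1 ≤ R := by
    have : 0 < R := by exact_mod_cast hR0
    omega
  set βb : ℕ → ℝ := fun q => if Bad R q then β q else 0 with hβb
  set βg : ℕ → ℝ := fun q => if Bad R q then 0 else β q with hβg
  -- linearity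
  have eMT : MT h β w Q M A B = MT h βg w Q M A B + MT h βb w Q M A B := by
    unfold MT
    exact sum_coef_split Q M β w (fun q m => mt h q m A B) (Bad R)
  have eSR : SR h β w N Q M A B z = SR h βg w N Q M A B z + SR h βb w N Q M A B z := by
    unfold SR
    exact sum_coef_split Q M β w (fun q m => (cnt h q m A B N z : ℝ)) (Bad R)
  -- signs
  have hβb0 : ∀ q ∈ Finset.Icc 1 Q, 0 ≤ βb q := by
    intro q hq
    simp only [hβb]
    split_ifs
    · exact (hβ q hq).1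
    · exact le_rfl
  have hβg0 : ∀ q ∈ Finset.Icc 1 Q, 0 ≤ βg q ∧ βg q ≤ P := by
    intro q hq
    simp only [hβg]
    split_ifs
    · exact ⟨le_rfl, hP0.le⟩
    · exact hβ q hq
  have hw0 : ∀ m ∈ Finset.Icc 1 M, 0 ≤ w m := fun m hm => (hw m hm).1
  have nMTb : 0 ≤ MT h βb w Q M A B :=
    sum_coef_nonneg Q M βb w (fun q m => mt h q m A B) hβb0 hw0 (fun q m => mt_nonneg _ _ _ _ _)
  have nMTg : 0 ≤ MT h βg w Q M A B :=
    sum_coef_nonneg Q M βg w (fun q m => mt h q m A B) (fun q hq => (hβg0 q hq).1) hw0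
      (fun q m => mt_nonneg _ _ _ _ _)
  have nSRb : 0 ≤ SR h βb w N Q M A B z :=
    sum_coef_nonneg Q M βb w (fun q m => (cnt h q m A B N z : ℝ)) hβb0 hw0
      (fun q m => Nat.cast_nonneg _)
  -- the logarithms
  have lQ := one_add_log_le hX hQX hL
  have lM := one_add_log_le hX hMX hL
  have lB := one_add_log_le hX hBX hL
  have lQ0 := one_add_log_nonneg Q
  have lM0 := one_add_log_nonneg M
  have lB0 := one_add_log_nonneg B
  have hLLL : (1 + Real.log Q) * (1 + Real.log M) * (1 + Real.log B) ≤ L ^ 3 := by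
    calc (1 + Real.log Q) * (1 + Real.log M) * (1 + Real.log B) ≤ L * L * L := by gcongr
      _ = L ^ 3 := by ring
  obtain ⟨m5a, m5b⟩ := hM5 h Q M A B R hh hRn
  -- MT is small
  have bMT : MT h β w Q M A B ≤ P ^ 2 * (h * P) := by
    have e := sum_coef_le Q M β w (fun q m => mt h q m A B) P (fun _ => True) hβ hw
      (fun q m => mt_nonneg _ _ _ _ _)
    simp only [if_true, Finset.filter_true] at e
    refine (le_of_eq rfl).trans (e.trans ?_)
    have : ∑ q ∈ Finset.Icc 1 Q, ∑ m ∈ Finset.Icc 1 M, mt h q m A B ≤ h * P :=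
      m5b.trans (mul_le_mul_of_nonneg_left (hLLL.trans hL3) (Nat.cast_nonneg _))
    exact mul_le_mul_of_nonneg_left this (by positivity)
  have bMTb : MT h βb w Q M A B ≤ P ^ 2 * (h * P / P ^ 8) := by
    have e := sum_coef_le Q M β w (fun q m => mt h q m A B) P (Bad R) hβ hw
      (fun q m => mt_nonneg _ _ _ _ _)
    refine (le_of_eq rfl).trans (e.trans ?_)
    refine mul_le_mul_of_nonneg_left (m5a.trans ?_) (by positivity)
    have : (h : ℝ) * ((1 + Real.log Q) * (1 + Real.log M) * (1 + Real.log B)) ≤ h * P :=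
      mul_le_mul_of_nonneg_left (hLLL.trans hL3) (Nat.cast_nonneg _)
    calc (h : ℝ) * ((1 + Real.log Q) * (1 + Real.log M) * (1 + Real.log B)) / R
        ≤ h * P / R := by gcongr
      _ ≤ h * P / P ^ 8 := by gcongr
  have bSRb : SR h βb w N Q M A B z ≤ P ^ 2 * (P * (X / P ^ 8)) := by
    have e := sum_coef_le Q M β w (fun q m => (cnt h q m A B N z : ℝ)) P (Bad R) hβ hw
      (fun q m => Nat.cast_nonneg _)
    refine (le_of_eq rfl).trans (e.trans ?_)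
    refine mul_le_mul_of_nonneg_left ((hB4 h Q M A B N R D' z hz hRn hdiv).trans ?_) (by positivity)
    rw [hD]
    gcongr
  -- good moduli
  obtain ⟨g1, g2⟩ := hG h Q M A B N R lam P P βg w z hh hAB hl1 hl2 hz hβg0 hw hdq (by
    intro q hq hne r hr
    by_contra hlt
    push Not at hlt
    apply hne
    simp only [hβg]
    rw [if_pos ⟨r, hlt, hr⟩])
  have bEr := Er_bound (h := h) (Q := Q) (M := M) (B := B) (R := R) (lam := lam) hX hP hL1 lQ hLP
    hT hJ hLT h1 h2 h3 hR2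
  obtain ⟨s1, s2⟩ := hS6 h Q M A B N P β w z hβ hw
  -- the sizes
  have p8 : P ≤ P ^ 8 := le_self_pow₀ hP (by norm_num)
  have x8 : X / P ^ 8 ≤ X / P := by gcongr
  have x5 : X / P ^ 5 ≤ X / P := by
    have : P ≤ P ^ 5 := le_self_pow₀ hP (by norm_num)
    gcongr
  have x58 : X / P ^ 58 ≤ X / P := by
    have : P ≤ P ^ 58 := le_self_pow₀ hP (by norm_num)
    gcongr
  have xP3 : P ^ 3 ≤ X / P := by
    rw [le_div_iff₀ hP0]
    calc P ^ 3 * P = P ^ 4 := by ring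
      _ ≤ X := hPX
  have hh0 : (0 : ℝ) ≤ h := Nat.cast_nonneg h
  have bMT' : MT h β w Q M A B ≤ h * (X / P) := by
    refine bMT.trans ?_
    calc P ^ 2 * (h * P) = h * P ^ 3 := by ring
      _ ≤ h * (X / P) := by gcongr
  have bMTb' : X * MT h βb w Q M A B ≤ h * (X / P) := by
    calc X * MT h βb w Q M A B ≤ X * (P ^ 2 * (h * P / P ^ 8)) := by gcongr
      _ = h * (X / P ^ 5) := by field_simp
      _ ≤ h * (X / P) := by gcongr
  have bSRb' : SR h βb w N Q M A B z ≤ X / P := by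
    refine bSRb.trans ?_
    calc P ^ 2 * (P * (X / P ^ 8)) = X / P ^ 5 := by field_simp
      _ ≤ X / P := x5
  have bEr' : Er h Q M B R lam P P ≤ ((1 + 3 * h) * h + 64 * (h : ℝ) ^ 2) * (X / P) :=
    bEr.trans (by gcongr)
  have bS : P ^ 2 * ((h : ℝ) ^ 2 * ((M : ℝ) * B)) ≤ (h : ℝ) ^ 2 * (X / P) := by
    calc P ^ 2 * ((h : ℝ) ^ 2 * ((M : ℝ) * B)) ≤ P ^ 2 * ((h : ℝ) ^ 2 * (X / P ^ 60)) := by gcongr
      _ = (h : ℝ) ^ 2 * (X / P ^ 58) := by field_simp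
      _ ≤ (h : ℝ) ^ 2 * (X / P) := by gcongr
  have hl0 : 0 < lam := by linarith
  have hXP : 0 ≤ X / P := by positivity
  have hN0 : (0 : ℝ) ≤ N := Nat.cast_nonneg N
  have u1 : 0 ≤ (h : ℝ) * (X / P) := by positivity
  have u2 : 0 ≤ (h : ℝ) ^ 2 * (X / P) := by positivity
  have u3 : 0 ≤ ((1 + 3 * h) * h + 64 * (h : ℝ) ^ 2) * (X / P) := by positivity
  have eC : (2 * h + ((1 + 3 * h) * h + 64 * (h : ℝ) ^ 2) + 1 + (h : ℝ) ^ 2) * (X / P) =
      2 * ((h : ℝ) * (X / P)) + ((1 + 3 * h) * h + 64 * (h : ℝ) ^ 2) * (X / P) + X / P +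
        (h : ℝ) ^ 2 * (X / P) := by ring
  rw [eC]
  constructor
  · -- lower bound
    have a1 : (N : ℝ) / lam * MT h βg w Q M A B =
        (N : ℝ) / lam * MT h β w Q M A B - (N : ℝ) / lam * MT h βb w Q M A B := by
      rw [eMT]
      ring
    have a2 : (N : ℝ) / lam * MT h βb w Q M A B ≤ X * MT h βb w Q M A B := by
      have : (N : ℝ) / lam ≤ X := (div_le_self hN0 hl1.le).trans hN1
      gcongr
    have a3 : X / lam * MT h β w Q M A B - MT h β w Q M A B ≤ (N : ℝ) / lam * MT h β w Q M A B := by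
      have hMT0 : 0 ≤ MT h β w Q M A B := by
        rw [eMT]
        linarith
      have : X / lam - 1 ≤ (N : ℝ) / lam := by
        rw [div_sub_one hl0.ne', div_le_div_iff_of_pos_right hl0]
        linarith
      calc X / lam * MT h β w Q M A B - MT h β w Q M A B
          = (X / lam - 1) * MT h β w Q M A B := by ring
        _ ≤ (N : ℝ) / lam * MT h β w Q M A B := mul_le_mul_of_nonneg_right this hMT0
    linarith
  · -- upper bound
    have a1 : lam * N * MT h βg w Q M A B ≤ lam * X * MT h β w Q M A B := by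
      have : MT h βg w Q M A B ≤ MT h β w Q M A B := by
        rw [eMT]
        linarith
      gcongr
    linarith

/-- Powers of the logarithm. -/
lemma log_pow_ev {κ c : ℝ} (hκ : 0 < κ) (hc : 0 < c) :
    ∀ᶠ X : ℝ in atTop, c * (1 + Real.log X) ^ 3 ≤ X ^ κ := by
  have h1 := (isLittleO_log_rpow_rpow_atTop (3 : ℝ) hκ).bound
    (show (0 : ℝ) < 1 / (8 * c) by positivity)
  filter_upwards [h1, eventually_ge_atTop (Real.exp 1)] with X hX hXe
  have hX0 : 0 < X := lt_of_lt_of_le (Real.exp_pos 1) hXe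
  have hl1 : 1 ≤ Real.log X := by
    rw [Real.le_log_iff_exp_le hX0]
    exact hXe
  rw [Real.norm_of_nonneg (by positivity), Real.norm_of_nonneg (by positivity)] at hX
  have e : Real.log X ^ (3 : ℝ) = Real.log X ^ 3 := by
    rw [← Real.rpow_natCast]
    norm_num
  rw [e] at hX
  calc c * (1 + Real.log X) ^ 3 ≤ c * (Real.log X + Real.log X) ^ 3 := by gcongr
    _ = (8 * c) * Real.log X ^ 3 := by ring
    _ ≤ (8 * c) * (1 / (8 * c) * X ^ κ) := by gcongr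
    _ = X ^ κ := by field_simp

end C7

open Filter C7 in
/-- Item C7. -/
theorem prfC7 : claimC7 := by
  intro hG hB4 hM5 hS6
  intro h θ lam hh hθ0 hθ1 hl1 hl2
  have hκ : 0 < θ / 60 := by positivity
  have hll : 0 < Real.log lam := Real.log_pos hl1
  refine ⟨2 * h + ((1 + 3 * h) * h + 64 * (h : ℝ) ^ 2) + 1 + (h : ℝ) ^ 2, ?_⟩
  have hdv := divisor_bound 3 (show 0 < θ / 120 by positivity)
  have hdv2 : ∀ᶠ X : ℝ in atTop, ∀ n : ℕ, n ≠ 0 → (n : ℝ) ≤ 2 * X →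
      ((n.divisors.card : ℝ)) ^ 3 ≤ (2 * X) ^ (θ / 120) :=
    (tendsto_id.const_mul_atTop (show (0 : ℝ) < 2 by norm_num)).eventually hdv
  filter_upwards [hdv2, log_pow_ev hκ (show (0 : ℝ) < 3 + 1 / Real.log lam by positivity),
    eventually_ge_atTop (3 : ℝ), eventually_ge_atTop (h : ℝ)] with X hd hlog hX3 hXh
  intro Q M A B β w z hAB hQX hMX hBX h1 h2 h3 hβ hw hz
  have hX1 : 1 ≤ X := by linarith
  have hX0 : 0 < X := by linarith
  set P : ℝ := X ^ (θ / 60) with hPdef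
  have hP1 : 1 ≤ P := Real.one_le_rpow hX1 hκ.le
  have hP0 : 0 < P := by linarith
  have eX : X ^ (1 - θ) = X / P ^ 60 := by
    rw [Real.rpow_sub hX0, Real.rpow_one, hPdef, ← Real.rpow_natCast, ← Real.rpow_mul hX0.le]
    congr 2
    push_cast
    ring
  rw [eX] at h1 h2 h3
  have hP4 : P ^ 4 ≤ X := by
    calc P ^ 4 = X ^ (θ / 60 * 4) := by
          rw [hPdef, ← Real.rpow_natCast, ← Real.rpow_mul hX0.le]
          norm_num
      _ ≤ X ^ (1 : ℝ) := Real.rpow_le_rpow_of_exponent_le hX1 (by linarith)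
      _ = X := Real.rpow_one X
  set L : ℝ := 1 + Real.log X with hL
  have hlX : 0 ≤ Real.log X := Real.log_nonneg hX1
  have hL1 : 1 ≤ L := by rw [hL]; linarith
  have hil : 0 < 1 / Real.log lam := by positivity
  have hL3 : L ^ 3 ≤ P := by
    refine le_trans ?_ hlog
    have : 0 ≤ L ^ 3 := by positivity
    nlinarith
  have hlogB : Real.log (B + 1) ≤ L := by
    have e1 : Real.log (B + 1) ≤ Real.log (2 * X) := by
      apply Real.log_le_log (by positivity)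
      linarith
    have e2 : Real.log (2 * X) = Real.log 2 + Real.log X := Real.log_mul (by norm_num) hX0.ne'
    have e3 : Real.log 2 ≤ 1 := by
      have := Real.log_le_sub_one_of_pos (show (0 : ℝ) < 2 by norm_num)
      linarith
    rw [hL]
    linarith
  have hJ : JJ lam B ≤ L / Real.log lam + 1 := by
    unfold JJ
    gcongr
  have hJ0 : 0 ≤ JJ lam B := by
    unfold JJ
    have : 0 ≤ Real.log ((B : ℝ) + 1) := Real.log_nonneg (by
      have : (0 : ℝ) ≤ B := Nat.cast_nonneg B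
      linarith)
    positivity
  have hLT : L * (2 + (L / Real.log lam + 1) * L) ≤ P := by
    refine le_trans ?_ hlog
    have a1 : L ≤ L ^ 3 := le_self_pow₀ hL1 (by norm_num)
    have a2 : L ^ 2 ≤ L ^ 3 := pow_le_pow_right₀ hL1 (by norm_num)
    calc L * (2 + (L / Real.log lam + 1) * L) = 2 * L + L ^ 2 + 1 / Real.log lam * L ^ 3 := by
          field_simp
          ring
      _ ≤ 2 * L ^ 3 + L ^ 3 + 1 / Real.log lam * L ^ 3 := by gcongr
      _ = (3 + 1 / Real.log lam) * L ^ 3 := by ring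
  have hR1 : P ^ 8 ≤ (⌈P ^ 8⌉₊ : ℝ) := Nat.le_ceil _
  have hR2 : (⌈P ^ 8⌉₊ : ℝ) ≤ 2 * P ^ 8 := by
    have e1 := (Nat.ceil_lt_add_one (show 0 ≤ P ^ 8 by positivity)).le
    have e2 : 1 ≤ P ^ 8 := one_le_pow₀ hP1
    linarith
  have hD : (P ^ (1 / 3 : ℝ)) ^ 3 = P := by
    rw [← Real.rpow_natCast, ← Real.rpow_mul hP0.le]
    norm_num
  have h2X : (2 * X) ^ (θ / 120) ≤ P := by
    calc (2 * X) ^ (θ / 120) ≤ (X ^ 2) ^ (θ / 120) := by
          apply Real.rpow_le_rpow (by positivity) _ (by positivity)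
          nlinarith
      _ = P := by
          rw [hPdef, ← Real.rpow_natCast, ← Real.rpow_mul hX0.le]
          congr 1
          push_cast
          ring
  have hcube : ∀ n : ℕ, n ≠ 0 → (n : ℝ) ≤ 2 * X → (n.divisors.card : ℝ) ^ 3 ≤ P :=
    fun n hn hnX => (hd n hn hnX).trans h2X
  have hNX : ((⌊X⌋₊ : ℕ) : ℝ) ≤ X := Nat.floor_le hX0.le
  refine core hG hB4 hM5 hS6 h Q M A B ⌊X⌋₊ ⌈P ^ 8⌉₊ lam X P L (L / Real.log lam + 1)
    (P ^ (1 / 3 : ℝ)) β w z hh hAB hl1 hl2 hz hX1 hP1 hP4 hNX (Nat.sub_one_lt_floor X).le hQX hMX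
    hBX h1 h2 h3 hβ hw hL hL3 hJ hJ0 hLT hR1 hR2 hD ?_ ?_
  · intro n hn hnN
    have hn2 : (n : ℝ) ≤ 2 * X := by
      have : (n : ℝ) ≤ (⌊X⌋₊ : ℝ) + h := by exact_mod_cast hnN
      linarith
    refine le_of_pow_le_pow_left₀ (show 3 ≠ 0 by norm_num) (by positivity) ?_
    rw [hD]
    exact hcube n hn hn2
  · intro q hq
    rw [Finset.mem_Icc] at hq
    have hq0 : q ≠ 0 := by omega
    have hq2 : (q : ℝ) ≤ 2 * X := by
      have : (q : ℝ) ≤ Q := by exact_mod_cast hq.2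
      linarith
    refine le_trans ?_ (hcube q hq0 hq2)
    have h1' : (1 : ℝ) ≤ (q.divisors.card : ℝ) := by
      exact_mod_cast Finset.card_pos.2 ⟨1, Nat.one_mem_divisors.2 hq0⟩
    exact pow_le_pow_right₀ h1' (by norm_num)

end Pool.Agent.Work.MP_122e00_nt.WRK
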