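import Pool.Agent.Work.MP_122e00_nt.WR.StmtsD

set_option autoImplicit false

/-!
# The Weil region, item D1: from coefficients to integer boxes
-/

namespace Pool.Agent.Work.MP_122e00_nt.WRK

open Finset Filter Topology

namespace D1

theorem mem_ibox {n : ℕ} {u v a : Fin n → ℕ} : a ∈ ibox u v ↔ ∀ i, u i < a i ∧ a i ≤ v i := by
  unfold ibox
  rw [Fintype.mem_piFinset]
  exact forall_congr' fun i => Finset.mem_Ioc

/-- splitting off the first coordinate of a box -/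
theorem sum_ibox_succ {s : ℕ} (u v : Fin (s + 1) → ℕ) (F : (Fin (s + 1) → ℕ) → ℝ) :
    ∑ b ∈ ibox u v, F b =
      ∑ b' ∈ ibox (fun i : Fin s => u i.succ) (fun i => v i.succ),
        ∑ x ∈ Finset.Ioc (u 0) (v 0), F (Fin.cons x b') := by
  rw [← Finset.sum_product']
  refine Finset.sum_nbij' (fun b => (Fin.tail b, b 0)) (fun p => Fin.cons p.2 p.1) ?_ ?_ ?_ ?_ ?_
  · intro b hb
    rw [mem_ibox] at hb
    rw [Finset.mem_product, mem_ibox, Finset.mem_Ioc]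
    exact ⟨fun i => hb i.succ, hb 0⟩
  · intro p hp
    rw [Finset.mem_product, mem_ibox, Finset.mem_Ioc] at hp
    rw [mem_ibox, Fin.forall_fin_succ]
    exact ⟨hp.2, fun i => hp.1 i⟩
  · intro b _
    exact Fin.cons_self_tail b
  · rintro ⟨b', x⟩ _
    simp only [Fin.tail_cons, Fin.cons_zero]
  · intro b _
    simp only [Fin.cons_self_tail]

theorem prod_le {n : ℕ} (e : Fin n → ℝ) (v : Fin n → ℕ) {X : ℝ} (hX : 1 ≤ X)
    (hv : ∀ i, (v i : ℝ) ≤ X ^ (e i)) : ((∏ i, v i : ℕ) : ℝ) ≤ X ^ (∑ i, e i) := by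
  have hX0 : 0 < X := by linarith
  rw [Real.rpow_sum_of_pos hX0]
  push_cast
  exact Finset.prod_le_prod (fun i _ => Nat.cast_nonneg _) (fun i _ => hv i)

theorem prod_mem_Icc {n : ℕ} (u v : Fin n → ℕ) (a : Fin n → ℕ) (ha : a ∈ ibox u v) :
    ∏ i, a i ∈ Finset.Icc 1 (∏ i, v i) := by
  rw [mem_ibox] at ha
  rw [Finset.mem_Icc]
  exact ⟨Finset.prod_pos (fun i _ => (Nat.zero_le _).trans_lt (ha i).1),
    Finset.prod_le_prod' (fun i _ => (ha i).2)⟩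

/-- double sums with the coefficients `nu` -/
theorem sum_sum {s t : ℕ} (u v : Fin s → ℕ) (u' v' : Fin t → ℕ) (G : ℕ → ℕ → ℝ) :
    ∑ q ∈ Finset.Icc 1 (∏ i, v i), ∑ m ∈ Finset.Icc 1 (∏ i, v' i),
      (nu (ibox u v) q : ℝ) * (nu (ibox u' v') m : ℝ) * G q m =
    ∑ a ∈ ibox u v, ∑ b ∈ ibox u' v', G (∏ i, a i) (∏ i, b i) := by
  have h1 : ∀ q : ℕ, ∑ m ∈ Finset.Icc 1 (∏ i, v' i),
      (nu (ibox u v) q : ℝ) * (nu (ibox u' v') m : ℝ) * G q m =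
      (nu (ibox u v) q : ℝ) * ∑ b ∈ ibox u' v', G q (∏ i, b i) := by
    intro q
    rw [← sum_nu (ibox u' v') _ (fun b hb => prod_mem_Icc u' v' b hb) (G q), Finset.mul_sum]
    exact Finset.sum_congr rfl fun m _ => by ring
  simp_rw [h1]
  exact sum_nu (ibox u v) _ (fun a ha => prod_mem_Icc u v a ha)
    (fun q => ∑ b ∈ ibox u' v', G q (∏ i, b i))

theorem SN_eq {s : ℕ} (a0 a1 b0 b1 : Fin (s + 1) → ℕ) (N : ℕ) (z : ℤ) :
    SN (fun q => (nu (ibox a0 a1) q : ℝ))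
      (fun m => (nu (ibox (fun i : Fin s => b0 i.succ) (fun i => b1 i.succ)) m : ℝ)) N
      (∏ i, a1 i) (∏ i : Fin s, b1 i.succ) (b0 0) (b1 0) z =
      (IC a0 a1 b0 b1 N z : ℝ) := by
  unfold SN IC
  rw [sum_sum a0 a1 (fun i : Fin s => b0 i.succ) (fun i => b1 i.succ)
    (fun q m => ∑ x ∈ Finset.Ioc (b0 0) (b1 0), (((Finset.Icc 1 N).filter
      (fun n : ℕ => q ∣ n ∧ ((m * x : ℕ) : ℤ) ∣ (n : ℤ) - z)).card : ℝ))]
  rw [Nat.cast_sum]
  refine Finset.sum_congr rfl fun a _ => ?_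
  rw [Nat.cast_sum, sum_ibox_succ]
  refine Finset.sum_congr rfl fun b _ => Finset.sum_congr rfl fun x _ => ?_
  rw [Fin.prod_cons, mul_comm x]

theorem MT_eq {s : ℕ} (h : ℕ) (a0 a1 b0 b1 : Fin (s + 1) → ℕ) :
    MT h (fun q => (nu (ibox a0 a1) q : ℝ))
      (fun m => (nu (ibox (fun i : Fin s => b0 i.succ) (fun i => b1 i.succ)) m : ℝ))
      (∏ i, a1 i) (∏ i : Fin s, b1 i.succ) (b0 0) (b1 0) =
      IW h a0 a1 b0 b1 := by
  unfold MT IW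
  rw [sum_sum a0 a1 (fun i : Fin s => b0 i.succ) (fun i => b1 i.succ)
    (fun q m => mt h q m (b0 0) (b1 0))]
  refine Finset.sum_congr rfl fun a _ => ?_
  rw [sum_ibox_succ]
  unfold mt
  refine Finset.sum_congr rfl fun b _ => Finset.sum_congr rfl fun x _ => ?_
  have h1 : ∏ i, (1 / (((Fin.cons x b : Fin (s + 1) → ℕ) i : ℕ) : ℝ)) =
      1 / (x : ℝ) * ∏ i, (1 / (b i : ℝ)) := by
    rw [Fin.prod_univ_succ]
    simp only [Fin.cons_zero, Fin.cons_succ]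
  have h2 : ∀ {t : ℕ} (c : Fin t → ℕ), ∏ i, (1 / (c i : ℝ)) = 1 / ((∏ i, c i : ℕ) : ℝ) := by
    intro t c
    push_cast
    rw [Finset.prod_div_distrib, Finset.prod_const_one]
  rw [Fin.prod_cons, h1, h2, h2, mul_comm x, div_eq_mul_one_div]
  congr 1
  rw [one_div_mul_one_div, one_div_mul_one_div]
  congr 1
  ring

theorem nu_ibox_le {n : ℕ} (u v : Fin n → ℕ) {Q : ℕ} {X κ : ℝ} (hQX : (Q : ℝ) ≤ X)
    (hdiv : ∀ m : ℕ, m ≠ 0 → (m : ℝ) ≤ X → ((m.divisors.card : ℝ)) ^ n ≤ X ^ κ)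
    (q : ℕ) (hq : q ∈ Finset.Icc 1 Q) : (nu (ibox u v) q : ℝ) ≤ X ^ κ := by
  rw [Finset.mem_Icc] at hq
  have hq0 : q ≠ 0 := by omega
  have h1 : nu (ibox u v) q ≤ (q.divisors.card) ^ n :=
    nu_le (fun a ha => (Finset.mem_Icc.mp (prod_mem_Icc u v a ha)).1) q hq0
  calc (nu (ibox u v) q : ℝ) ≤ ((q.divisors.card : ℝ)) ^ n := by exact_mod_cast h1
    _ ≤ X ^ κ := hdiv q hq0 (le_trans (by exact_mod_cast hq.2) hQX)

end D1

/-- D1: from coefficients to integer boxes. -/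
theorem prfD1 : claimD1 := by
  intro hWC s h be de lam hh hbe hde h1 h2 hl hl2
  have hSb : 0 ≤ ∑ i, be i := Finset.sum_nonneg fun i _ => hbe i
  have hSd : 0 ≤ ∑ i : Fin s, de i.succ := Finset.sum_nonneg fun i _ => hde i.succ
  have hd0 := hde 0
  rw [Fin.sum_univ_succ (f := de)] at h2
  obtain ⟨θ, hθ0, hθ1, hθa, hθb⟩ : ∃ θ : ℝ, 0 < θ ∧ θ ≤ 1 ∧
      3 / 2 * (∑ i, be i) + (∑ i : Fin s, de i.succ) ≤ 1 - θ ∧
      1 / 2 * (∑ i, be i) + (de 0 + ∑ i : Fin s, de i.succ) ≤ 1 - θ := by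
    refine ⟨min 1 (min (1 - (3 / 2 * (∑ i, be i) + (∑ i : Fin s, de i.succ)))
      (1 - (1 / 2 * (∑ i, be i) + (de 0 + ∑ i : Fin s, de i.succ)))), ?_, min_le_left _ _, ?_, ?_⟩
    · exact lt_min one_pos (lt_min (by linarith) (by linarith))
    · have := (min_le_right (1 : ℝ) (min (1 - (3 / 2 * (∑ i, be i) + (∑ i : Fin s, de i.succ)))
        (1 - (1 / 2 * (∑ i, be i) + (de 0 + ∑ i : Fin s, de i.succ))))).trans (min_le_left _ _)
      linarith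
    · have := (min_le_right (1 : ℝ) (min (1 - (3 / 2 * (∑ i, be i) + (∑ i : Fin s, de i.succ)))
        (1 - (1 / 2 * (∑ i, be i) + (de 0 + ∑ i : Fin s, de i.succ))))).trans (min_le_right _ _)
      linarith
  obtain ⟨C, hC⟩ := hWC h θ lam hh hθ0 hθ1 hl hl2
  have hκ : 0 < θ / 60 := by positivity
  refine ⟨C, θ / 60, hκ, ?_⟩
  filter_upwards [hC, eventually_ge_atTop 1, divisor_bound (s + 1) hκ, divisor_bound s hκ]
    with X hC hX hd1 hd2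
  intro a0 a1 b0 b1 z hz hb01 ha1 hb1
  have hX0 : 0 < X := by linarith
  have hmono : ∀ {u v : ℝ}, u ≤ v → X ^ u ≤ X ^ v :=
    fun huv => Real.rpow_le_rpow_of_exponent_le hX huv
  have hX1 : ∀ {u : ℝ}, u ≤ 1 → X ^ u ≤ X := by
    intro u hu
    calc X ^ u ≤ X ^ (1 : ℝ) := hmono hu
      _ = X := Real.rpow_one X
  have hQ := D1.prod_le be a1 hX ha1
  have hM := D1.prod_le (fun i : Fin s => de i.succ) (fun i : Fin s => b1 i.succ) hX
    (fun i => hb1 i.succ)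
  have hB : (b1 0 : ℝ) ≤ X ^ (de 0) := hb1 0
  have hsQ : √((∏ i, a1 i : ℕ) : ℝ) ≤ X ^ ((∑ i, be i) / 2) := by
    calc √((∏ i, a1 i : ℕ) : ℝ) ≤ √(X ^ (∑ i, be i)) := Real.sqrt_le_sqrt hQ
      _ = X ^ ((∑ i, be i) / 2) := by
          rw [Real.sqrt_eq_rpow, ← Real.rpow_mul hX0.le]
          congr 1
          ring
  have hp : ∀ u : ℝ, 0 ≤ X ^ u := fun u => Real.rpow_nonneg hX0.le u
  have hQX : ((∏ i, a1 i : ℕ) : ℝ) ≤ X := hQ.trans (hX1 (by linarith))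
  have hMX : ((∏ i : Fin s, b1 i.succ : ℕ) : ℝ) ≤ X := hM.trans (hX1 (by linarith))
  have hmain := hC (∏ i, a1 i) (∏ i : Fin s, b1 i.succ) (b0 0) (b1 0)
    (fun q => (nu (ibox a0 a1) q : ℝ))
    (fun m => (nu (ibox (fun i : Fin s => b0 i.succ) (fun i => b1 i.succ)) m : ℝ)) z hb01
    hQX hMX (hB.trans (hX1 (by linarith))) ?_ ?_ ?_ ?_ ?_ hz
  · rw [D1.MT_eq, D1.SN_eq] at hmain
    exact hmain
  · calc ((∏ i : Fin s, b1 i.succ : ℕ) : ℝ) * (b1 0 : ℝ)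
        ≤ X ^ (∑ i : Fin s, de i.succ) * X ^ (de 0) :=
          mul_le_mul hM hB (Nat.cast_nonneg _) (hp _)
      _ = X ^ ((∑ i : Fin s, de i.succ) + de 0) := (Real.rpow_add hX0 _ _).symm
      _ ≤ X ^ (1 - θ) := hmono (by linarith)
  · calc ((∏ i, a1 i : ℕ) : ℝ) * √((∏ i, a1 i : ℕ) : ℝ) *
          ((∏ i : Fin s, b1 i.succ : ℕ) : ℝ)
        ≤ X ^ (∑ i, be i) * X ^ ((∑ i, be i) / 2) * X ^ (∑ i : Fin s, de i.succ) :=
          mul_le_mul (mul_le_mul hQ hsQ (Real.sqrt_nonneg _) (hp _)) hM (Nat.cast_nonneg _)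
            (mul_nonneg (hp _) (hp _))
      _ = X ^ ((∑ i, be i) + (∑ i, be i) / 2 + ∑ i : Fin s, de i.succ) := by
          rw [Real.rpow_add hX0, Real.rpow_add hX0]
      _ ≤ X ^ (1 - θ) := hmono (by linarith)
  · calc √((∏ i, a1 i : ℕ) : ℝ) * ((∏ i : Fin s, b1 i.succ : ℕ) : ℝ) * (b1 0 : ℝ)
        ≤ X ^ ((∑ i, be i) / 2) * X ^ (∑ i : Fin s, de i.succ) * X ^ (de 0) :=
          mul_le_mul (mul_le_mul hsQ hM (Nat.cast_nonneg _) (hp _)) hB (Nat.cast_nonneg _)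
            (mul_nonneg (hp _) (hp _))
      _ = X ^ ((∑ i, be i) / 2 + (∑ i : Fin s, de i.succ) + de 0) := by
          rw [Real.rpow_add hX0, Real.rpow_add hX0]
      _ ≤ X ^ (1 - θ) := hmono (by linarith)
  · intro q hq
    exact ⟨Nat.cast_nonneg _, D1.nu_ibox_le a0 a1 hQX hd1 q hq⟩
  · intro m hm
    exact ⟨Nat.cast_nonneg _, D1.nu_ibox_le _ _ hMX hd2 m hm⟩

end Pool.Agent.Work.MP_122e00_nt.WRK
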