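import Mathlib
import Pool.Agent.Work.MP_122e00_nt.WR.StmtsC
import Pool.Agent.Work.MP_122e00_nt.WR.Defs

set_option autoImplicit false

/-!
# The Weil region (cand 202), part D: integer boxes, and helper46's interface `WR.StBox`

Every docstring is the complete proof.  Item `Dx`: file `WR/ItemDx.lean`, theorem
`prfDx : claimDx`.  All items are independent (the earlier claims are hypotheses).
-/

namespace Pool.Agent.Work.MP_122e00_nt.WRK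

open Finset Filter Topology MeasureTheory

/-- Integer box. -/
def ibox {s : ℕ} (a0 a1 : Fin s → ℕ) : Finset (Fin s → ℕ) :=
  Fintype.piFinset fun i => Finset.Ioc (a0 i) (a1 i)

/-- Weighted sum over pairs of integer boxes. -/
noncomputable def IW {s : ℕ} (h : ℕ) (a0 a1 b0 b1 : Fin s → ℕ) : ℝ :=
  ∑ a ∈ ibox a0 a1, ∑ b ∈ ibox b0 b1,
    Fh h (Nat.gcd (∏ i, a i) (∏ i, b i)) * ((∏ i, (1 / (a i : ℝ))) * (∏ i, (1 / (b i : ℝ))))

/-- Count over pairs of integer boxes. -/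
def IC {s : ℕ} (a0 a1 b0 b1 : Fin s → ℕ) (N : ℕ) (z : ℤ) : ℕ :=
  ∑ a ∈ ibox a0 a1, ∑ b ∈ ibox b0 b1, ((Finset.Icc 1 N).filter
    (fun n : ℕ => (∏ i, a i) ∣ n ∧ ((∏ i, b i : ℕ) : ℤ) ∣ (n : ℤ) - z)).card

/-- The largest integer of position at most `α i` (it is `0` if `α i < 0` and `X > 1`). -/
noncomputable def lo {s : ℕ} (X : ℝ) (α : Fin s → ℝ) (i : Fin s) : ℕ := ⌊X ^ α i⌋₊

/-- Integer boxes, for one `lam`, uniformly in the endpoints. -/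
def claimIB : Prop := ∀ (s h : ℕ) (be de : Fin (s + 1) → ℝ) (lam : ℝ), h ≠ 0 →
    (∀ i, 0 ≤ be i) → (∀ i, 0 ≤ de i) →
    3 / 2 * (∑ i, be i) + (∑ i : Fin s, de i.succ) < 1 →
    1 / 2 * (∑ i, be i) + (∑ i, de i) < 1 → 1 < lam → lam ≤ 2 →
    ∃ C κ : ℝ, 0 < κ ∧ ∀ᶠ X : ℝ in atTop, ∀ (a0 a1 b0 b1 : Fin (s + 1) → ℕ) (z : ℤ),
      z.natAbs = h → b0 0 ≤ b1 0 →
      (∀ i, (a1 i : ℝ) ≤ X ^ be i) → (∀ i, (b1 i : ℝ) ≤ X ^ de i) →
      X / lam * IW h a0 a1 b0 b1 - C * (X / X ^ κ) ≤ (IC a0 a1 b0 b1 ⌊X⌋₊ z : ℝ) ∧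
      (IC a0 a1 b0 b1 ⌊X⌋₊ z : ℝ) ≤ lam * X * IW h a0 a1 b0 b1 + C * (X / X ^ κ)

/-- D1 (MEDIUM): from coefficients to integer boxes.
PROOF. Choose `θ ∈ (0, 1]` with `3/2 ∑ be + ∑ de (succ) ≤ 1 - θ` and `1/2 ∑ be + ∑ de ≤ 1 - θ`
(`θ := min` of the two gaps, `≤ 1` as all exponents are `≥ 0`); `κ := θ / 60`, `C` of `claimWC`.
For `X ≥ 1` large: `Q := ∏ i, a1 i`, `M := ∏ i : Fin s, b1 i.succ`, `A := b0 0`, `B := b1 0`, so
`Q ≤ X ^ (∑ be)`, `M ≤ X ^ (∑ de succ)`, `B ≤ X ^ de 0` (`Finset.prod_le_prod`,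
`Real.rpow_sum_of_pos`), and `√Q = Q ^ (1/2)`: the inequalities `Q, M, B ≤ X`,
`M B`, `Q √Q M`, `√Q M B ≤ X ^ (1 - θ)` follow from the inequalities between the exponents
(`Fin.sum_univ_succ`).  `β q := nu (ibox a0 a1) q`,
`w m := nu (ibox (fun i => b0 i.succ) (fun i => b1 i.succ)) m` (`nu` of Key1).  For `q ≥ 1` the
tuples with product `q` consist of divisors of `q`: `nu ≤ τ(q) ^ (s + 1)` (resp. `τ(m) ^ s`)
`≤ X ^ (θ / 60)` for `1 ≤ q ≤ X` by `divisor_bound (s + 1)` (`divisor_bound s`).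
`SN β w ⌊X⌋₊ Q M A B z = IC`: apply `sum_nu` for `q` (all products of the box are in `Icc 1 Q`:
all entries are `≥ 1` and `≤ a1 i`, `Finset.prod_le_prod'`) and for `m`, and decompose
`b ∈ ibox b0 b1` as `Fin.cons x b'`, `x ∈ Ioc A B` (`Finset.sum_bij'` with
`b ↦ (b 0, fun i => b i.succ)`, or `Fin.consEquiv`; `Fin.prod_univ_succ` gives
`∏ b = x * ∏ b'`).  In the same way `MT h β w Q M A B = IW h a0 a1 b0 b1`
(`∏ (1 / a i) = 1 / ∏ a i`: `Finset.prod_div_distrib`, `Nat.cast_prod`). -/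
def claimD1 : Prop := claimWC → claimIB

/-- D2 (EASY): half open positions are integer boxes.
PROOF. For an integer `m ≥ 1` and `X > 1`: `α i < log m / log X` iff `X ^ α i < m` iff
`⌊X ^ α i⌋₊ < m` (`Nat.floor_lt`; `log X > 0`, `Real.log_rpow`, `Real.log_lt_log_iff`), and
`log m / log X ≤ β i` iff `m ≤ X ^ β i` iff `m ≤ ⌊X ^ β i⌋₊` (`Nat.le_floor_iff`).
`X ^ β i ≤ X ^ 1 = X`, so `m ≤ lo X β i` implies `m ≤ ⌊X⌋₊`, and `m > lo X α i ≥ 0` implies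
`m ≥ 1`.  `lo` is monotone in the exponent; `Nat.floor_le`. -/
def claimD2 : Prop := ∀ (s : ℕ) (α β : Fin s → ℝ) (X : ℝ), (∀ i, 0 ≤ β i ∧ α i ≤ β i) →
    (∀ i, β i ≤ 1) → 1 < X →
    (open Classical in (Two.tup s X).filter (fun a => Two.lg X a ∈ WR.hb α β)) =
      ibox (lo X α) (lo X β) ∧
    (∀ i, lo X α i ≤ lo X β i) ∧ (∀ i, (lo X β i : ℝ) ≤ X ^ β i)

/-- The main term of half open boxes. -/
def claimMB : Prop := ∀ (s h : ℕ) (α β γ δ : Fin s → ℝ), h ≠ 0 →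
    (∀ i, 0 ≤ β i ∧ α i ≤ β i) → (∀ i, β i ≤ 1) → (∀ i, 0 ≤ δ i ∧ γ i ≤ δ i) → (∀ i, δ i ≤ 1) →
    Tendsto (fun X : ℝ => IW h (lo X α) (lo X β) (lo X γ) (lo X δ) / (Real.log X) ^ (2 * s))
      atTop (𝓝 (Csing s h * ((∏ i, (β i - max (α i) 0)) * ∏ i, (δ i - max (γ i) 0))))

/-- D3 (MEDIUM): the main term for half open boxes.
PROOF. `φ := (WR.hb α β).indicator 1`, `ψ := (WR.hb γ δ).indicator 1`.  By D2 the sum over
`ibox (lo X α) (lo X β)` is the sum over `tup s X` with the factor `φ (lg X a)`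
(`Finset.sum_filter`, `Set.indicator`), so `IW h … = Two.PW h φ ψ X` for `X > 1`.  `claimPW` with
`B = 1`: `φ` is continuous at every `y` with `y i ≠ α i`, `y i ≠ β i` for all `i` (locally
constant: each condition `α i < y i`, `y i ≤ β i` is stable near `y`), and the exceptional set is a
finite union of hyperplanes, of measure zero (`Measure.pi_hyperplane`, `ae_all_iff`).  The integral
over `O1 s` (the open cube `(0, 1)^s`) of `φ` is the volume of `hb α β ∩ O1 s`; with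
`α' i := max (α i) 0`: `∏ Ioo (α' i) (β i) ⊆ hb α β ∩ O1 s ⊆ ∏ Icc (α' i) (β i)` have the same
volume `∏ (β i - α' i)` (`Real.volume_pi_Ioo_toReal`, `Real.volume_Icc_pi_toReal`; `β ≤ 1`,
`α' ≤ β`). -/
def claimD3 : Prop := claimD2 → Two.claimPW → claimMB

/-- The interface for `i0 = 0`. -/
def StBox0 : Prop := ∀ (s h : ℕ) (z : ℤ) (α β γ δ : Fin (s + 1) → ℝ), h ≠ 0 → z.natAbs = h →
  (∀ i, 0 ≤ β i ∧ α i ≤ β i) → (∀ i, 0 ≤ δ i ∧ γ i ≤ δ i) → WR.LW 0 β δ →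
  Tendsto (fun X : ℝ => WR.PC (s + 1) X z (WR.hb α β ×ˢ WR.hb γ δ) /
    (X * (Real.log X) ^ (2 * (s + 1)))) atTop
    (𝓝 (Csing (s + 1) h * ((∏ i, (β i - max (α i) 0)) * ∏ i, (δ i - max (γ i) 0))))

/-- D4 (EASY-MEDIUM): the limit.
PROOF. `β i, δ i ≤ 1` since all these are `≥ 0` and `3/2 ∑ β + … < 1`, `… + ∑ δ < 1`.  For `X > 1`:
`WR.PC (s + 1) X z (hb α β ×ˢ hb γ δ) = IC (lo X α) (lo X β) (lo X γ) (lo X δ) ⌊X⌋₊ z`: exchange the
sums (`Finset.card_filter`, `Finset.sum_comm`, `Finset.sum_product`) and D2.  `claimIB` with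
`be = β`, `de = δ` (`LW 0 β δ` is literally its two conditions, as `∑ δ - δ 0 = ∑ δ (succ)`,
`Fin.sum_univ_succ`) gives for every `lam ∈ (1, 2]` the two inequalities with error
`C X / X ^ κ`; divide by `X (log X) ^ (2 (s + 1))`; `C / (X ^ κ (log X) ^ (2 (s + 1))) → 0`.  The main
terms tend to `L / lam` and `lam L` (`claimMB`), `L` the limit.  For `ε > 0` choose
`lam ∈ (1, 2]` with `(lam - 1) (|L| + 1) ≤ ε / 4` and `(1 - 1 / lam) (|L| + 1) ≤ ε / 4`; eventually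
the quotient is within `ε` of `L` (`Metric.tendsto_atTop` or `tendsto_order`). -/
def claimD4 : Prop := claimD2 → claimIB → claimMB → StBox0

/-- D5 (EASY): arbitrary smooth variable.
PROOF. `i0 : Fin s` exists, so `s = s' + 1`.  `σ := Equiv.swap i0 0`.  The map `b ↦ b ∘ σ` is a
bijection of `tup s X` (`Fintype.mem_piFinset`), keeps `∏ b` (`Equiv.prod_comp`), and
`lg X (b ∘ σ) = lg X b ∘ σ`, so `lg X b ∈ hb γ δ` iff `lg X (b ∘ σ) ∈ hb (γ ∘ σ) (δ ∘ σ)`; hence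
`PC s X z (hb α β ×ˢ hb γ δ) = PC s X z (hb α β ×ˢ hb (γ ∘ σ) (δ ∘ σ))` (`Finset.card_bij'`, for
each `n`).  `∑ i, δ (σ i) = ∑ i, δ i` (`Equiv.sum_comp`), `δ (σ 0) = δ i0`, so `LW 0 β (δ ∘ σ)`;
the product over `i` of `δ (σ i) - max (γ (σ i)) 0` is the product of `δ i - max (γ i) 0`.
Apply the hypothesis. -/
def claimD5 : Prop := StBox0 → WR.StBox

end Pool.Agent.Work.MP_122e00_nt.WRK
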