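import Mathlib
import Pool.Agent.Work.MP_122e00_nt.WR.StmtsD

set_option autoImplicit false

/-!
# Weil region, item D2: half open positions are integer boxes
-/

namespace Pool.Agent.Work.MP_122e00_nt.WRK

open Finset Filter Topology MeasureTheory

theorem prfD2 : claimD2 := by
  classical
  intro s α β X hαβ hβ hX
  have hX0 : 0 < X := by linarith
  have hlX : 0 < Real.log X := Real.log_pos hX
  refine ⟨?_, ?_, ?_⟩
  · ext a
    unfold ibox lo Two.tup WR.hb Two.lg
    simp only [Finset.mem_filter, Fintype.mem_piFinset, Finset.mem_Icc, Finset.mem_Ioc,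
      Set.mem_ofPred_eq]
    constructor
    · rintro ⟨h1, h2⟩ i
      have hm : (0 : ℝ) < a i := by
        have := (h1 i).1
        exact_mod_cast this
      obtain ⟨h3, h4⟩ := h2 i
      rw [lt_div_iff₀ hlX] at h3
      rw [div_le_iff₀ hlX] at h4
      rw [Nat.floor_lt (by positivity), Nat.le_floor_iff (by positivity)]
      refine ⟨?_, ?_⟩
      · rw [Real.rpow_def_of_pos hX0, ← Real.lt_log_iff_exp_lt hm, mul_comm]
        exact h3
      · rw [Real.rpow_def_of_pos hX0, ← Real.log_le_iff_le_exp hm, mul_comm]
        exact h4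
    · intro h
      have hm1 : ∀ i, 1 ≤ a i := fun i => by
        have := (h i).1
        omega
      refine ⟨fun i => ⟨hm1 i, ?_⟩, fun i => ?_⟩
      · refine (h i).2.trans (Nat.floor_le_floor ?_)
        exact (Real.rpow_le_rpow_of_exponent_le hX.le (hβ i)).trans (Real.rpow_one X).le
      · have hm : (0 : ℝ) < a i := by
          exact_mod_cast hm1 i
        obtain ⟨h3, h4⟩ := h i
        rw [Nat.floor_lt (by positivity)] at h3
        rw [Nat.le_floor_iff (by positivity)] at h4
        rw [Real.rpow_def_of_pos hX0, ← Real.lt_log_iff_exp_lt hm, mul_comm] at h3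
        rw [Real.rpow_def_of_pos hX0, ← Real.log_le_iff_le_exp hm, mul_comm] at h4
        rw [lt_div_iff₀ hlX, div_le_iff₀ hlX]
        exact ⟨h3, h4⟩
  · intro i
    exact Nat.floor_le_floor (Real.rpow_le_rpow_of_exponent_le hX.le (hαβ i).2)
  · intro i
    exact Nat.floor_le (by positivity)

end Pool.Agent.Work.MP_122e00_nt.WRK
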