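import Pool.Agent.Work.MP_122e00_nt.WR.StmtsD

set_option autoImplicit false

/-! WR item D3: the main term for half open boxes (helper67). -/

namespace Pool.Agent.Work.MP_122e00_nt.WRK

open Finset Filter Topology MeasureTheory

theorem prfD3_vol1 (a b : ℝ) (hb0 : 0 ≤ b) (hab : a ≤ b) (hb1 : b ≤ 1) :
    volume (Set.Ioo (0 : ℝ) 1 ∩ Set.Ioc a b) = ENNReal.ofReal (b - max a 0) := by
  have hmb : max a 0 ≤ b := max_le hab hb0
  apply le_antisymm
  · have h1 : Set.Ioo (0 : ℝ) 1 ∩ Set.Ioc a b ⊆ Set.Ioc (max a 0) b := by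
      rintro y ⟨⟨h1, _⟩, h3, h4⟩
      exact ⟨max_lt h3 h1, h4⟩
    calc volume (Set.Ioo (0 : ℝ) 1 ∩ Set.Ioc a b) ≤ volume (Set.Ioc (max a 0) b) := measure_mono h1
      _ = ENNReal.ofReal (b - max a 0) := Real.volume_Ioc
  · have h1 : Set.Ioo (max a 0) b ⊆ Set.Ioo (0 : ℝ) 1 ∩ Set.Ioc a b := by
      rintro y ⟨h1, h2⟩
      exact ⟨⟨(le_max_right _ _).trans_lt h1, h2.trans_le hb1⟩,
        (le_max_left _ _).trans_lt h1, h2.le⟩
    calc ENNReal.ofReal (b - max a 0) = volume (Set.Ioo (max a 0) b) := Real.volume_Ioo.symm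
      _ ≤ _ := measure_mono h1

theorem prfD3_hb_pi {s : ℕ} (α β : Fin s → ℝ) :
    WR.hb α β = Set.pi Set.univ (fun i => Set.Ioc (α i) (β i)) := by
  ext y
  constructor
  · intro h i _
    exact h i
  · intro h i
    exact h i (Set.mem_univ i)

theorem prfD3_meas {s : ℕ} (α β : Fin s → ℝ) : MeasurableSet (WR.hb α β) := by
  rw [prfD3_hb_pi]
  exact MeasurableSet.univ_pi (fun i => measurableSet_Ioc)

theorem prfD3_int {s : ℕ} (α β : Fin s → ℝ) (h1 : ∀ i, 0 ≤ β i ∧ α i ≤ β i)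
    (h2 : ∀ i, β i ≤ 1) :
    ∫ y in Two.O1 s, (WR.hb α β).indicator (fun _ => (1 : ℝ)) y = ∏ i, (β i - max (α i) 0) := by
  rw [setIntegral_indicator (prfD3_meas α β), setIntegral_const, smul_eq_mul, mul_one]
  have h3 : Two.O1 s ∩ WR.hb α β =
      Set.pi Set.univ (fun i => Set.Ioo (0 : ℝ) 1 ∩ Set.Ioc (α i) (β i)) := by
    rw [prfD3_hb_pi]
    unfold Two.O1
    rw [Set.pi_inter_distrib]
  rw [h3, Measure.real, volume_pi_pi, ENNReal.toReal_prod]
  refine Finset.prod_congr rfl (fun i _ => ?_)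
  rw [prfD3_vol1 (α i) (β i) (h1 i).1 (h1 i).2 (h2 i), ENNReal.toReal_ofReal]
  have := max_le (h1 i).2 (h1 i).1
  linarith

theorem prfD3_bdd {s : ℕ} (α β : Fin s → ℝ) (y : Fin s → ℝ) :
    |(WR.hb α β).indicator (fun _ => (1 : ℝ)) y| ≤ 1 := by
  by_cases h : y ∈ WR.hb α β
  · rw [Set.indicator_of_mem h, abs_one]
  · rw [Set.indicator_of_notMem h, abs_zero]
    exact zero_le_one

theorem prfD3_ne {s : ℕ} (α : Fin s → ℝ) : ∀ᵐ y : Fin s → ℝ, ∀ i, y i ≠ α i := by
  rw [ae_all_iff]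
  intro i
  rw [ae_iff]
  have h1 : {a : Fin s → ℝ | ¬ a i ≠ α i} = {f : Fin s → ℝ | f i = α i} := by
    ext y
    simp
  rw [h1, volume_pi]
  exact Measure.pi_hyperplane (α := fun _ : Fin s => ℝ) (fun _ => volume) i (α i)

theorem prfD3_cont {s : ℕ} (α β : Fin s → ℝ) :
    ∀ᵐ y : Fin s → ℝ, ContinuousAt ((WR.hb α β).indicator (fun _ => (1 : ℝ))) y := by
  filter_upwards [prfD3_ne α, prfD3_ne β] with y hα hβ
  by_cases hy : y ∈ WR.hb α β
  · have h1 : ∀ᶠ z in 𝓝 y, z ∈ WR.hb α β := by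
      have h2 : ∀ i, ∀ᶠ z : Fin s → ℝ in 𝓝 y, α i < z i ∧ z i < β i := by
        intro i
        have h3 : Tendsto (fun z : Fin s → ℝ => z i) (𝓝 y) (𝓝 (y i)) :=
          (continuous_apply i).continuousAt
        have h4 : α i < y i := (hy i).1
        have h5 : y i < β i := lt_of_le_of_ne (hy i).2 (hβ i)
        exact (h3.eventually (lt_mem_nhds h4)).and (h3.eventually (gt_mem_nhds h5))
      filter_upwards [eventually_all.2 h2] with z hz
      intro i
      exact ⟨(hz i).1, (hz i).2.le⟩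
    refine (continuousAt_const (y := (1 : ℝ))).congr ?_
    filter_upwards [h1] with z hz
    rw [Set.indicator_of_mem hz]
  · have h1 : ∀ᶠ z in 𝓝 y, z ∉ WR.hb α β := by
      have h2 : ∃ i, ¬ (α i < y i ∧ y i ≤ β i) := by
        by_contra hcon
        push Not at hcon
        exact hy (fun i => hcon i)
      obtain ⟨i, hi⟩ := h2
      have h3 : Tendsto (fun z : Fin s → ℝ => z i) (𝓝 y) (𝓝 (y i)) :=
        (continuous_apply i).continuousAt
      rcases lt_or_ge (α i) (y i) with h4 | h4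
      · have h5 : β i < y i := by
          by_contra hcon
          exact hi ⟨h4, not_lt.1 hcon⟩
        filter_upwards [h3.eventually (lt_mem_nhds h5)] with z hz hmem
        exact absurd (hmem i).2 (not_le.2 hz)
      · have h5 : y i < α i := lt_of_le_of_ne h4 (hα i)
        filter_upwards [h3.eventually (gt_mem_nhds h5)] with z hz hmem
        exact absurd (hmem i).1 (not_lt.2 hz.le)
    refine (continuousAt_const (y := (0 : ℝ))).congr ?_
    filter_upwards [h1] with z hz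
    rw [Set.indicator_of_notMem hz]

theorem prfD3 : claimD3 := by
  intro hD2 hPW s h α β γ δ hh hαβ hβ hγδ hδ
  have hlim := hPW s h hh ((WR.hb α β).indicator (fun _ => (1 : ℝ)))
    ((WR.hb γ δ).indicator (fun _ => (1 : ℝ))) 1 (prfD3_bdd α β) (prfD3_cont α β)
    (prfD3_bdd γ δ) (prfD3_cont γ δ)
  rw [prfD3_int α β hαβ hβ, prfD3_int γ δ hγδ hδ] at hlim
  refine hlim.congr' ?_
  filter_upwards [eventually_gt_atTop (1 : ℝ)] with X hX
  congr 1
  unfold Two.PW IW
  rw [← (hD2 s α β X hαβ hβ hX).1, ← (hD2 s γ δ X hγδ hδ hX).1, Finset.sum_filter]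
  refine Finset.sum_congr rfl (fun a _ => ?_)
  by_cases ha : Two.lg X a ∈ WR.hb α β
  · rw [if_pos ha, Finset.sum_filter]
    refine Finset.sum_congr rfl (fun b _ => ?_)
    rw [Set.indicator_of_mem ha]
    by_cases hb : Two.lg X b ∈ WR.hb γ δ
    · rw [if_pos hb, Set.indicator_of_mem hb, one_mul, one_mul]
    · rw [if_neg hb, Set.indicator_of_notMem hb, mul_zero, zero_mul]
  · rw [if_neg ha]
    refine Finset.sum_eq_zero (fun b _ => ?_)
    rw [Set.indicator_of_notMem ha, zero_mul, zero_mul]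

end Pool.Agent.Work.MP_122e00_nt.WRK
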