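import Pool.Agent.Work.MP_122e00_nt.WR.StmtsD

set_option autoImplicit false

namespace Pool.Agent.Work.MP_122e00_nt.WRK

open Finset Filter Topology MeasureTheory

/-- The limit `lam → 1`. -/
theorem d4_lim (F W : ℝ → ℝ) (L : ℝ) (k : ℕ)
    (hW : Tendsto (fun X : ℝ => W X / (Real.log X) ^ k) atTop (𝓝 L))
    (h : ∀ lam : ℝ, 1 < lam → lam ≤ 2 → ∃ C κ : ℝ, 0 < κ ∧ ∀ᶠ X : ℝ in atTop,
      X / lam * W X - C * (X / X ^ κ) ≤ F X ∧ F X ≤ lam * X * W X + C * (X / X ^ κ)) :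
    Tendsto (fun X : ℝ => F X / (X * (Real.log X) ^ k)) atTop (𝓝 L) := by
  have key : ∀ lam : ℝ, 1 < lam → lam ≤ 2 → ∃ E : ℝ → ℝ, Tendsto E atTop (𝓝 0) ∧
      ∀ᶠ X : ℝ in atTop, 1 / lam * (W X / (Real.log X) ^ k) - E X ≤
        F X / (X * (Real.log X) ^ k) ∧
        F X / (X * (Real.log X) ^ k) ≤ lam * (W X / (Real.log X) ^ k) + E X := by
    intro lam h1 h2
    obtain ⟨C, κ, hκ, hev⟩ := h lam h1 h2
    refine ⟨fun X => C * (X ^ (-κ) * ((Real.log X) ^ k)⁻¹), ?_, ?_⟩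
    · have hb : ∀ᶠ X : ℝ in atTop, ‖((Real.log X) ^ k)⁻¹‖ ≤ 1 := by
        filter_upwards [eventually_ge_atTop (Real.exp 1)] with X hX
        have hl : 1 ≤ Real.log X := by
          rw [Real.le_log_iff_exp_le (lt_of_lt_of_le (Real.exp_pos 1) hX)]
          exact hX
        have hp : 1 ≤ (Real.log X) ^ k := one_le_pow₀ hl
        rw [norm_inv, Real.norm_of_nonneg (by linarith)]
        exact inv_le_one_of_one_le₀ hp
      have h0 : Tendsto (fun X : ℝ => X ^ (-κ)) atTop (𝓝 0) := tendsto_rpow_neg_atTop hκ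
      have h3 : Tendsto (fun X : ℝ => X ^ (-κ) * ((Real.log X) ^ k)⁻¹) atTop (𝓝 0) := by
        refine squeeze_zero_norm' ?_ (h0.norm.trans (by simp) : Tendsto (fun X : ℝ => ‖X ^ (-κ)‖) atTop (𝓝 0))
        filter_upwards [hb] with X hX
        rw [norm_mul]
        calc ‖X ^ (-κ)‖ * ‖((Real.log X) ^ k)⁻¹‖ ≤ ‖X ^ (-κ)‖ * 1 := by
              exact mul_le_mul_of_nonneg_left hX (norm_nonneg _)
          _ = ‖X ^ (-κ)‖ := mul_one _
      simpa using h3.const_mul C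
    · filter_upwards [hev, eventually_gt_atTop (1 : ℝ)] with X hX hX1
      have hX0 : 0 < X := by linarith
      have hl : 0 < Real.log X := Real.log_pos hX1
      have hp : 0 < (Real.log X) ^ k := pow_pos hl k
      have hXp : 0 < X * (Real.log X) ^ k := mul_pos hX0 hp
      have e1 : C * (X / X ^ κ) / (X * (Real.log X) ^ k) = C * (X ^ (-κ) * ((Real.log X) ^ k)⁻¹) := by
        rw [Real.rpow_neg hX0.le]
        have : X ^ κ ≠ 0 := (Real.rpow_pos_of_pos hX0 κ).ne'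
        field_simp
      have hlam : lam ≠ 0 := by linarith
      constructor
      · rw [le_div_iff₀ hXp, ← e1]
        have : (1 / lam * (W X / (Real.log X) ^ k) - C * (X / X ^ κ) / (X * (Real.log X) ^ k)) *
            (X * (Real.log X) ^ k) = X / lam * W X - C * (X / X ^ κ) := by
          field_simp
        rw [this]
        exact hX.1
      · rw [div_le_iff₀ hXp, ← e1]
        have : (lam * (W X / (Real.log X) ^ k) + C * (X / X ^ κ) / (X * (Real.log X) ^ k)) *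
            (X * (Real.log X) ^ k) = lam * X * W X + C * (X / X ^ κ) := by
          field_simp
        rw [this]
        exact hX.2
  rw [tendsto_order]
  constructor
  · intro a ha
    -- choose lam with a < L / lam
    have : ∃ lam : ℝ, 1 < lam ∧ lam ≤ 2 ∧ a < 1 / lam * L := by
      have hc : Tendsto (fun lam : ℝ => 1 / lam * L) (𝓝[>] 1) (𝓝 (1 / 1 * L)) := by
        have : ContinuousAt (fun lam : ℝ => 1 / lam * L) 1 := by
          refine ContinuousAt.mul (ContinuousAt.div continuousAt_const continuousAt_id one_ne_zero)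
            continuousAt_const
        exact this.tendsto.mono_left nhdsWithin_le_nhds
      have h1 : ∀ᶠ lam : ℝ in 𝓝[>] 1, a < 1 / lam * L := hc.eventually_const_lt (by simpa using ha)
      have h2 : ∀ᶠ lam : ℝ in 𝓝[>] 1, lam ≤ 2 := by
        refine (Filter.Eventually.filter_mono nhdsWithin_le_nhds ?_)
        exact eventually_le_nhds (by norm_num)
      have h3 : ∀ᶠ lam : ℝ in 𝓝[>] 1, 1 < lam := self_mem_nhdsWithin
      obtain ⟨lam, hl⟩ := (h1.and (h2.and h3)).exists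
      exact ⟨lam, hl.2.2, hl.2.1, hl.1⟩
    obtain ⟨lam, h1, h2, h3⟩ := this
    obtain ⟨E, hE, hev⟩ := key lam h1 h2
    have ht : Tendsto (fun X => 1 / lam * (W X / (Real.log X) ^ k) - E X) atTop
        (𝓝 (1 / lam * L - 0)) := (hW.const_mul _).sub hE
    rw [sub_zero] at ht
    filter_upwards [ht.eventually_const_lt h3, hev] with X hX1 hX2
    exact lt_of_lt_of_le hX1 hX2.1
  · intro a ha
    have : ∃ lam : ℝ, 1 < lam ∧ lam ≤ 2 ∧ lam * L < a := by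
      have hc : Tendsto (fun lam : ℝ => lam * L) (𝓝[>] 1) (𝓝 (1 * L)) := by
        have : ContinuousAt (fun lam : ℝ => lam * L) 1 :=
          ContinuousAt.mul continuousAt_id continuousAt_const
        exact this.tendsto.mono_left nhdsWithin_le_nhds
      have h1 : ∀ᶠ lam : ℝ in 𝓝[>] 1, lam * L < a := hc.eventually_lt_const (by simpa using ha)
      have h2 : ∀ᶠ lam : ℝ in 𝓝[>] 1, lam ≤ 2 := by
        refine (Filter.Eventually.filter_mono nhdsWithin_le_nhds ?_)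
        exact eventually_le_nhds (by norm_num)
      have h3 : ∀ᶠ lam : ℝ in 𝓝[>] 1, 1 < lam := self_mem_nhdsWithin
      obtain ⟨lam, hl⟩ := (h1.and (h2.and h3)).exists
      exact ⟨lam, hl.2.2, hl.2.1, hl.1⟩
    obtain ⟨lam, h1, h2, h3⟩ := this
    obtain ⟨E, hE, hev⟩ := key lam h1 h2
    have ht : Tendsto (fun X => lam * (W X / (Real.log X) ^ k) + E X) atTop
        (𝓝 (lam * L + 0)) := (hW.const_mul _).add hE
    rw [add_zero] at ht
    filter_upwards [ht.eventually_lt_const h3, hev] with X hX1 hX2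
    exact lt_of_le_of_lt hX2.2 hX1

/-- The count over positions is the count over integer boxes. -/
theorem d4_PC (s : ℕ) (α β γ δ : Fin s → ℝ) (X : ℝ) (z : ℤ) (A B : Finset (Fin s → ℕ))
    (h1 : (open Classical in (Two.tup s X).filter (fun a => Two.lg X a ∈ WR.hb α β)) = A)
    (h2 : (open Classical in (Two.tup s X).filter (fun a => Two.lg X a ∈ WR.hb γ δ)) = B) :
    WR.PC s X z (WR.hb α β ×ˢ WR.hb γ δ) = ((∑ a ∈ A, ∑ b ∈ B, ((Finset.Icc 1 ⌊X⌋₊).filter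
    (fun n : ℕ => (∏ i, a i) ∣ n ∧ ((∏ i, b i : ℕ) : ℤ) ∣ (n : ℤ) - z)).card : ℕ) : ℝ) := by
  classical
  unfold WR.PC
  have e : ∀ n : ℕ, ((Two.tup s X ×ˢ Two.tup s X).filter (fun p : (Fin s → ℕ) × (Fin s → ℕ) =>
      (∏ i, p.1 i) ∣ n ∧ ((∏ i, p.2 i : ℕ) : ℤ) ∣ (n : ℤ) - z ∧
        (Two.lg X p.1, Two.lg X p.2) ∈ WR.hb α β ×ˢ WR.hb γ δ)) =
      (A ×ˢ B).filter (fun p : (Fin s → ℕ) × (Fin s → ℕ) =>
      (∏ i, p.1 i) ∣ n ∧ ((∏ i, p.2 i : ℕ) : ℤ) ∣ (n : ℤ) - z) := by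
    intro n
    ext p
    rw [← h1, ← h2]
    simp only [Finset.mem_filter, Finset.mem_product, Set.mem_prod]
    tauto
  have e2 : (∑ n ∈ Finset.Icc 1 ⌊X⌋₊, ((Two.tup s X ×ˢ Two.tup s X).filter
      (fun p : (Fin s → ℕ) × (Fin s → ℕ) =>
      (∏ i, p.1 i) ∣ n ∧ ((∏ i, p.2 i : ℕ) : ℤ) ∣ (n : ℤ) - z ∧
        (Two.lg X p.1, Two.lg X p.2) ∈ WR.hb α β ×ˢ WR.hb γ δ)).card) =
      ∑ a ∈ A, ∑ b ∈ B, ((Finset.Icc 1 ⌊X⌋₊).filter
      (fun n : ℕ => (∏ i, a i) ∣ n ∧ ((∏ i, b i : ℕ) : ℤ) ∣ (n : ℤ) - z)).card := by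
    simp_rw [e, Finset.card_filter]
    rw [Finset.sum_comm, Finset.sum_product]
  rw [← e2]
  push_cast
  refine Finset.sum_congr rfl fun n _ => ?_
  congr!

theorem prfD4 : claimD4 := by
  intro hD2 hIB hMB s h z α β γ δ hh hz hαβ hγδ hLW
  obtain ⟨hL1, hL2⟩ := hLW
  have hβ0 : ∀ i, 0 ≤ β i := fun i => (hαβ i).1
  have hδ0 : ∀ i, 0 ≤ δ i := fun i => (hγδ i).1
  have hsd : ∑ i, δ i - δ 0 = ∑ i : Fin s, δ i.succ := by
    rw [Fin.sum_univ_succ]; ring
  rw [hsd] at hL1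
  have hsd0 : 0 ≤ ∑ i : Fin s, δ i.succ := Finset.sum_nonneg fun i _ => hδ0 _
  have hsb0 : 0 ≤ ∑ i, β i := Finset.sum_nonneg fun i _ => hβ0 _
  have hβ1 : ∀ i, β i ≤ 1 := by
    intro i
    have : β i ≤ ∑ i, β i := Finset.single_le_sum (fun i _ => hβ0 i) (Finset.mem_univ i)
    linarith
  have hδ1 : ∀ i, δ i ≤ 1 := by
    intro i
    have : δ i ≤ ∑ i, δ i := Finset.single_le_sum (fun i _ => hδ0 i) (Finset.mem_univ i)
    linarith
  have hM := hMB (s + 1) h α β γ δ hh hαβ hβ1 hγδ hδ1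
  have hIC : Tendsto (fun X : ℝ => (IC (lo X α) (lo X β) (lo X γ) (lo X δ) ⌊X⌋₊ z : ℝ) /
      (X * (Real.log X) ^ (2 * (s + 1)))) atTop
      (𝓝 (Csing (s + 1) h * ((∏ i, (β i - max (α i) 0)) * ∏ i, (δ i - max (γ i) 0)))) := by
    refine d4_lim _ _ _ _ hM ?_
    intro lam h1 h2
    obtain ⟨C, κ, hκ, hev⟩ := hIB s h β δ lam hh hβ0 hδ0 hL1 hL2 h1 h2
    refine ⟨C, κ, hκ, ?_⟩
    filter_upwards [hev, eventually_gt_atTop (1 : ℝ)] with X hX hX1
    have hb := hD2 (s + 1) α β X hαβ hβ1 hX1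
    have hd := hD2 (s + 1) γ δ X hγδ hδ1 hX1
    have := hX (lo X α) (lo X β) (lo X γ) (lo X δ) z hz (hd.2.1 0) hb.2.2 hd.2.2
    refine ⟨this.1, this.2⟩
  refine hIC.congr' ?_
  filter_upwards [eventually_gt_atTop (1 : ℝ)] with X hX1
  have hb := hD2 (s + 1) α β X hαβ hβ1 hX1
  have hd := hD2 (s + 1) γ δ X hγδ hδ1 hX1
  rw [d4_PC (s + 1) α β γ δ X z _ _ hb.1 hd.1]
  rfl

end Pool.Agent.Work.MP_122e00_nt.WRK
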