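import Pool.Agent.Work.MP_122e00_nt.WR.StmtsD

set_option autoImplicit false

/-!
Item D5 of the block WR: an arbitrary smooth variable, by a transposition of the coordinates.
-/

namespace Pool.Agent.Work.MP_122e00_nt.WRK

open Finset Filter Topology MeasureTheory

namespace ID5

/-- Permuting the second tuple. -/
lemma PC_comp (s : ℕ) (X : ℝ) (z : ℤ) (A : Set (Fin s → ℝ)) (γ δ : Fin s → ℝ)
    (σ : Equiv.Perm (Fin s)) :
    WR.PC s X z (A ×ˢ WR.hb γ δ) = WR.PC s X z (A ×ˢ WR.hb (γ ∘ σ) (δ ∘ σ)) := by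
  classical
  unfold WR.PC
  refine Finset.sum_congr rfl fun n _ => ?_
  congr 1
  refine Finset.card_bij' (fun p _ => (p.1, p.2 ∘ σ)) (fun p _ => (p.1, p.2 ∘ σ.symm))
    ?_ ?_ ?_ ?_
  · intro p hp
    simp only [Finset.mem_filter, Finset.mem_product, Set.mem_prod] at hp ⊢
    obtain ⟨⟨h1, h2⟩, h3, h4, h5, h6⟩ := hp
    refine ⟨⟨h1, ?_⟩, h3, ?_, h5, ?_⟩
    · simp only [Two.tup, Fintype.mem_piFinset] at h2 ⊢
      exact fun i => h2 (σ i)
    · have : ∏ i, (p.2 ∘ σ) i = ∏ i, p.2 i := Equiv.prod_comp σ p.2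
      rw [this]
      exact h4
    · exact fun i => h6 (σ i)
  · intro p hp
    simp only [Finset.mem_filter, Finset.mem_product, Set.mem_prod] at hp ⊢
    obtain ⟨⟨h1, h2⟩, h3, h4, h5, h6⟩ := hp
    refine ⟨⟨h1, ?_⟩, h3, ?_, h5, ?_⟩
    · simp only [Two.tup, Fintype.mem_piFinset] at h2 ⊢
      exact fun i => h2 (σ.symm i)
    · have : ∏ i, (p.2 ∘ σ.symm) i = ∏ i, p.2 i := Equiv.prod_comp σ.symm p.2
      rw [this]
      exact h4
    · intro i
      have := h6 (σ.symm i)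
      simpa [Two.lg] using this
  · intro p _
    ext i <;> simp
  · intro p _
    ext i <;> simp

end ID5

/-- Item D5. -/
theorem prfD5 : claimD5 := by
  intro H s h z i0 α β γ δ hh hz hα hγ hL
  obtain ⟨s, rfl⟩ : ∃ t, s = t + 1 := ⟨s - 1, by have := i0.2; omega⟩
  have e0 : (Equiv.swap i0 (0 : Fin (s + 1))) 0 = i0 := Equiv.swap_apply_right _ _
  have eS : ∑ i, (δ ∘ (Equiv.swap i0 (0 : Fin (s + 1)))) i = ∑ i, δ i :=
    Equiv.sum_comp (Equiv.swap i0 (0 : Fin (s + 1))) δ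
  have eP : ∏ i, ((δ ∘ (Equiv.swap i0 (0 : Fin (s + 1)))) i -
      max ((γ ∘ (Equiv.swap i0 (0 : Fin (s + 1)))) i) 0) = ∏ i, (δ i - max (γ i) 0) :=
    Equiv.prod_comp (Equiv.swap i0 (0 : Fin (s + 1))) (fun i => δ i - max (γ i) 0)
  have hL' : WR.LW 0 β (δ ∘ (Equiv.swap i0 (0 : Fin (s + 1)))) := by
    unfold WR.LW at hL ⊢
    rw [eS, Function.comp_apply, e0]
    exact hL
  have key := H s h z α β (γ ∘ (Equiv.swap i0 (0 : Fin (s + 1))))
    (δ ∘ (Equiv.swap i0 (0 : Fin (s + 1)))) hh hz hα (fun i => hγ _) hL'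
  rw [eP] at key
  refine key.congr fun X => ?_
  rw [← ID5.PC_comp]

end Pool.Agent.Work.MP_122e00_nt.WRK
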