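import Pool.Agent.Work.MP_122e00_nt.WR.StmtsK

set_option autoImplicit false

/-!
# The Weil region, item K1: transport of `KK` along a ring isomorphism
-/

namespace Pool.Agent.Work.MP_122e00_nt.WRK

open Finset Filter Topology

theorem prfK1 : claimK1 := by
  intro R S _ _ _ _ e b z ψ₁ ψ₂
  unfold KK
  refine Fintype.sum_equiv e.toEquiv _ _ fun x => ?_
  refine Fintype.sum_equiv e.toEquiv _ _ fun y => ?_
  have h1 : (e b * e x * e y = e z) ↔ (b * x * y = z) := by
    rw [← map_mul, ← map_mul]
    exact e.injective.eq_iff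
  by_cases h : b * x * y = z
  · have h2 := h1.2 h
    simp [h, h2]
  · have h2 : ¬ (e b * e x * e y = e z) := fun h3 => h (h1.1 h3)
    simp [h, h2]

end Pool.Agent.Work.MP_122e00_nt.WRK
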