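import Mathlib
import Pool.Agent.Work.MP_122e00_nt.WR.StmtsK

set_option autoImplicit false

namespace Pool.Agent.Work.MP_122e00_nt.WRK

open Finset Filter Topology

theorem k10_ker (q a : ℕ) [NeZero q] :
    ((Finset.univ : Finset (ZMod q)).filter (fun y : ZMod q => (a : ZMod q) * y = 0)).card
      = Nat.gcd q a := by
  have hq : 0 < q := Nat.pos_of_ne_zero (NeZero.ne q)
  set g := Nat.gcd q a with hg
  have hgpos : 0 < g := Nat.gcd_pos_of_pos_left _ hq
  have hgq : g ∣ q := Nat.gcd_dvd_left _ _
  have hga : g ∣ a := Nat.gcd_dvd_right _ _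
  obtain ⟨q', hq'⟩ := hgq
  obtain ⟨a', ha'⟩ := hga
  have hq'pos : 0 < q' := by
    rcases Nat.eq_zero_or_pos q' with h | h
    · subst h; simp at hq'; omega
    · exact h
  have hcop : Nat.Coprime q' a' := by
    have : Nat.gcd (g * q') (g * a') = g * Nat.gcd q' a' := Nat.gcd_mul_left _ _ _
    rw [← hq', ← ha', ← hg] at this
    have h2 : g * Nat.gcd q' a' = g * 1 := by rw [← this, mul_one]
    exact Nat.eq_of_mul_eq_mul_left hgpos h2
  have hiffN : ∀ v : ℕ, q ∣ a * v ↔ q' ∣ v := by
    intro v
    constructor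
    · intro h
      rw [hq', ha', mul_assoc] at h
      have h3 : q' ∣ a' * v := Nat.dvd_of_mul_dvd_mul_left hgpos h
      exact hcop.dvd_of_dvd_mul_left h3
    · rintro ⟨t, ht⟩
      rw [ht, hq', ha']
      exact ⟨a' * t, by ring⟩
  have hiff : ∀ y : ZMod q, (a : ZMod q) * y = 0 ↔ q' ∣ y.val := by
    intro y
    have h1 : (a : ZMod q) * y = ((a * y.val : ℕ) : ZMod q) := by
      rw [Nat.cast_mul, ZMod.natCast_zmod_val]
    rw [h1, ZMod.natCast_eq_zero_iff]
    exact hiffN _
  have hcard : ((Finset.univ : Finset (ZMod q)).filter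
      (fun y : ZMod q => (a : ZMod q) * y = 0)).card = (Finset.range g).card := by
    symm
    apply Finset.card_bij (fun t _ => ((t * q' : ℕ) : ZMod q))
    · intro t ht
      rw [Finset.mem_range] at ht
      rw [Finset.mem_filter]
      refine ⟨Finset.mem_univ _, ?_⟩
      rw [hiff]
      have hlt : t * q' < q := by rw [hq']; exact Nat.mul_lt_mul_of_pos_right ht hq'pos
      rw [ZMod.val_natCast_of_lt hlt]
      exact Dvd.intro_left t rfl
    · intro t ht s hs hts
      rw [Finset.mem_range] at ht hs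
      have hlt : t * q' < q := by rw [hq']; exact Nat.mul_lt_mul_of_pos_right ht hq'pos
      have hls : s * q' < q := by rw [hq']; exact Nat.mul_lt_mul_of_pos_right hs hq'pos
      have h4 := congrArg ZMod.val hts
      rw [ZMod.val_natCast_of_lt hlt, ZMod.val_natCast_of_lt hls] at h4
      exact Nat.eq_of_mul_eq_mul_right hq'pos h4
    · intro y hy
      rw [Finset.mem_filter] at hy
      obtain ⟨t, ht⟩ := (hiff y).1 hy.2
      have hy' : y.val < q := ZMod.val_lt y
      refine ⟨t, ?_, ?_⟩
      · rw [Finset.mem_range]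
        by_contra hcon
        push Not at hcon
        have : q ≤ y.val := by
          rw [ht, hq', mul_comm g q']
          exact Nat.mul_le_mul_left q' hcon
        omega
      · rw [mul_comm t q', ← ht, ZMod.natCast_zmod_val]
  rw [hcard, Finset.card_range]

theorem prfK10 : claimK10 := by
  intro h q a _ z hz
  have hq : 0 < q := Nat.pos_of_ne_zero (NeZero.ne q)
  have hgpos : 0 < Nat.gcd q a := Nat.gcd_pos_of_pos_left _ hq
  rw [Fh_apply]
  by_cases hgh : Nat.gcd q a ∣ h
  · -- a solution exists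
    have hgz : ((Nat.gcd q a : ℕ) : ℤ) ∣ z := by
      rw [Int.natCast_dvd, hz]; exact hgh
    obtain ⟨w, hw⟩ := hgz
    have hbez := Nat.gcd_eq_gcd_ab q a
    have hsol : (a : ZMod q) * ((Nat.gcdB q a * w : ℤ) : ZMod q) = (z : ZMod q) := by
      have h1 : z = (q : ℤ) * (Nat.gcdA q a * w) + (a : ℤ) * (Nat.gcdB q a * w) := by
        rw [hw, hbez]; ring
      rw [h1]
      push_cast
      rw [ZMod.natCast_self]
      ring
    have hc : ((Finset.univ : Finset (ZMod q)).filter
        (fun y : ZMod q => (a : ZMod q) * y = (z : ZMod q))).card =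
        ((Finset.univ : Finset (ZMod q)).filter (fun y : ZMod q => (a : ZMod q) * y = 0)).card := by
      apply Finset.card_bij (fun y _ => y - ((Nat.gcdB q a * w : ℤ) : ZMod q))
      · intro y hy
        rw [Finset.mem_filter] at hy ⊢
        refine ⟨Finset.mem_univ _, ?_⟩
        rw [mul_sub, hy.2, hsol, sub_self]
      · intro y _ y' _ hyy
        exact sub_left_injective hyy
      · intro y hy
        rw [Finset.mem_filter] at hy
        refine ⟨y + ((Nat.gcdB q a * w : ℤ) : ZMod q), ?_, by ring⟩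
        rw [Finset.mem_filter]
        refine ⟨Finset.mem_univ _, ?_⟩
        rw [mul_add, hy.2, hsol, zero_add]
    rw [hc, k10_ker]
    simp [hgh]
  · -- no solution
    have hempty : ((Finset.univ : Finset (ZMod q)).filter
        (fun y : ZMod q => (a : ZMod q) * y = (z : ZMod q))) = ∅ := by
      rw [Finset.filter_eq_empty_iff]
      intro y _ hy
      apply hgh
      have h1 : (((a * y.val : ℕ) : ℤ) : ZMod q) = (z : ZMod q) := by
        rw [← hy]; push_cast; rw [ZMod.natCast_zmod_val]
      rw [ZMod.intCast_eq_intCast_iff_dvd_sub] at h1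
      have h2 : ((Nat.gcd q a : ℕ) : ℤ) ∣ z - ((a * y.val : ℕ) : ℤ) :=
        (Int.natCast_dvd_natCast.2 (Nat.gcd_dvd_left q a)).trans h1
      have h3 : ((Nat.gcd q a : ℕ) : ℤ) ∣ ((a * y.val : ℕ) : ℤ) :=
        Int.natCast_dvd_natCast.2 ((Nat.gcd_dvd_right q a).mul_right _)
      have h4 : ((Nat.gcd q a : ℕ) : ℤ) ∣ z := (dvd_sub_left h3).1 h2
      rw [Int.natCast_dvd, hz] at h4
      exact h4
    rw [hempty]
    simp [hgh]

end Pool.Agent.Work.MP_122e00_nt.WRK
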