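import Pool.Agent.Work.MP_122e00_nt.WR.StmtsK

set_option autoImplicit false

/-! WR item K11: completion of one sum (helper67). -/

namespace Pool.Agent.Work.MP_122e00_nt.WRK

open Finset

theorem prfK11_orth (q : ℕ) [NeZero q] (s : ZMod q) :
    ∑ ν : ZMod q, ZMod.stdAddChar (ν * s) = if s = 0 then (q : ℂ) else 0 := by
  have h := AddChar.sum_mulShift (R := ZMod q) s (ZMod.isPrimitive_stdAddChar q)
  rw [h]
  by_cases hs : s = 0
  · simp [hs, ZMod.card]
  · simp [hs]

theorem prfK11 : claimK11 := by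
  intro q _ G A B
  have hq : (q : ℂ) ≠ 0 := by
    exact_mod_cast (NeZero.ne q)
  have h1 : ∑ ν : ZMod q, hatI q A B ν * ∑ t : ZMod q, G t * ech q ν t =
      ∑ x ∈ Finset.Ioc A B, ∑ t : ZMod q, ∑ ν : ZMod q,
        G t * ZMod.stdAddChar (ν * (t - (x : ZMod q))) := by
    have h2 : ∀ ν : ZMod q, hatI q A B ν * ∑ t : ZMod q, G t * ech q ν t =
        ∑ x ∈ Finset.Ioc A B, ∑ t : ZMod q, G t * ZMod.stdAddChar (ν * (t - (x : ZMod q))) := by
      intro ν
      unfold hatI ech
      rw [Finset.sum_mul]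
      refine Finset.sum_congr rfl (fun x _ => ?_)
      rw [Finset.mul_sum]
      refine Finset.sum_congr rfl (fun t _ => ?_)
      rw [AddChar.mulShift_apply, show ν * (t - (x : ZMod q)) = -(ν * (x : ZMod q)) + ν * t by ring,
        AddChar.map_add_eq_mul]
      ring
    rw [Finset.sum_congr rfl (fun ν _ => h2 ν), Finset.sum_comm]
    refine Finset.sum_congr rfl (fun x _ => ?_)
    rw [Finset.sum_comm]
  rw [h1]
  have h3 : ∀ x ∈ Finset.Ioc A B, ∑ t : ZMod q, ∑ ν : ZMod q,
      G t * ZMod.stdAddChar (ν * (t - (x : ZMod q))) = (q : ℂ) * G (x : ZMod q) := by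
    intro x _
    have h4 : ∀ t : ZMod q, ∑ ν : ZMod q, G t * ZMod.stdAddChar (ν * (t - (x : ZMod q))) =
        if t = (x : ZMod q) then (q : ℂ) * G (x : ZMod q) else 0 := by
      intro t
      rw [← Finset.mul_sum, prfK11_orth]
      by_cases ht : t = (x : ZMod q)
      · simp [ht, mul_comm]
      · have : t - (x : ZMod q) ≠ 0 := sub_ne_zero.mpr ht
        simp [ht, this]
    rw [Finset.sum_congr rfl (fun t _ => h4 t)]
    simp
  rw [Finset.sum_congr rfl h3, ← Finset.mul_sum, ← mul_assoc, inv_mul_cancel₀ hq, one_mul]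

end Pool.Agent.Work.MP_122e00_nt.WRK
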