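import Pool.Agent.Work.MP_122e00_nt.WR.StmtsK

set_option autoImplicit false

namespace Pool.Agent.Work.MP_122e00_nt.WRK

open Finset Filter Topology

theorem K12.sum_eq (q : ℕ) [NeZero q] (F : ZMod q → ℝ) :
    ∑ ν : ZMod q, F ν = F 0 + ∑ μ ∈ Finset.Ico 1 q, F (μ : ZMod q) := by
  have hq : 0 < q := Nat.pos_of_ne_zero (NeZero.ne q)
  have h1 : ∑ ν : ZMod q, F ν = ∑ μ ∈ Finset.range q, F (μ : ZMod q) := by
    symm
    refine Finset.sum_nbij' (fun μ => (μ : ZMod q)) (fun ν => ν.val) ?_ ?_ ?_ ?_ ?_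
    · intro a _; exact Finset.mem_univ _
    · intro a _; exact Finset.mem_range.mpr (ZMod.val_lt a)
    · intro a ha; exact ZMod.val_cast_of_lt (Finset.mem_range.mp ha)
    · intro a _; exact ZMod.natCast_zmod_val a
    · intro a _; rfl
  rw [h1, Finset.range_eq_Ico, Finset.sum_eq_sum_Ico_succ_bot hq]
  simp

theorem prfK12 : claimK12 := by
  intro h7 h8 h9 q _ A B hAB
  have hq : 1 ≤ q := Nat.pos_of_ne_zero (NeZero.ne q)
  obtain ⟨h9a, h9b⟩ := h9 q hq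
  constructor
  · rw [K12.sum_eq q (fun ν => ‖hatI q A B ν‖)]
    have h0 : ‖hatI q A B 0‖ = (B : ℝ) - A := by
      unfold hatI
      simp only [zero_mul, neg_zero, AddChar.map_zero_eq_one, Finset.sum_const, Nat.card_Ioc,
        nsmul_eq_mul, mul_one, Complex.norm_natCast]
      rw [Nat.cast_sub hAB]
    rw [h0]
    have h2 : ∑ μ ∈ Finset.Ico 1 q, ‖hatI q A B (μ : ZMod q)‖ ≤
        ∑ μ ∈ Finset.Ico 1 q, (q : ℝ) / 2 * (1 / (μ : ℝ) + 1 / ((q : ℝ) - μ)) := by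
      refine Finset.sum_le_sum fun μ hμ => ?_
      rw [Finset.mem_Ico] at hμ
      exact h8 q A B μ hAB hμ.1 hμ.2
    linarith
  · set F : ZMod q → ℝ := fun ν => ‖hatI q A B ν‖ *
      ((q : ℝ) / √(orderOf (ech q ν) : ℝ)) with hF
    have h1 := Finset.add_sum_erase (Finset.univ : Finset (ZMod q)) F (Finset.mem_univ 0)
    have h2 := K12.sum_eq q F
    have h3 : ∑ ν ∈ (Finset.univ : Finset (ZMod q)).erase 0, F ν =
        ∑ μ ∈ Finset.Ico 1 q, F (μ : ZMod q) := by linarith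
    rw [h3]
    have h4 : ∑ μ ∈ Finset.Ico 1 q, F (μ : ZMod q) ≤
        ∑ μ ∈ Finset.Ico 1 q, √(q : ℝ) * ((q : ℝ) / 2 * (1 / (μ : ℝ) + 1 / ((q : ℝ) - μ)) *
          (Nat.gcd q μ : ℝ)) := by
      refine Finset.sum_le_sum fun μ hμ => ?_
      rw [Finset.mem_Ico] at hμ
      have e1 := h8 q A B μ hAB hμ.1 hμ.2
      have e2 := h7 q μ
      have e3 : 0 ≤ (q : ℝ) / √(orderOf (ech q (μ : ZMod q)) : ℝ) := by positivity
      have e4 : 0 ≤ (q : ℝ) / 2 * (1 / (μ : ℝ) + 1 / ((q : ℝ) - μ)) :=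
        (norm_nonneg _).trans e1
      calc F (μ : ZMod q) ≤ ((q : ℝ) / 2 * (1 / (μ : ℝ) + 1 / ((q : ℝ) - μ))) *
            (√(q : ℝ) * (Nat.gcd q μ : ℝ)) := mul_le_mul e1 e2 e3 e4
        _ = _ := by ring
    rw [← Finset.mul_sum] at h4
    exact h4.trans (mul_le_mul_of_nonneg_left h9a (Real.sqrt_nonneg _))

end Pool.Agent.Work.MP_122e00_nt.WRK
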