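import Pool.Agent.Work.MP_122e00_nt.WR.StmtsK

set_option autoImplicit false

/-!
# The Weil region, item K13: the completion
-/

namespace Pool.Agent.Work.MP_122e00_nt.WRK

open Finset Filter Topology

namespace K13

open scoped Classical

/-- the indicator -/
noncomputable def G (q m : ℕ) [NeZero q] (c : ZMod q) (s t : ZMod q) : ℂ :=
  if (m : ZMod q) * s * t = c then 1 else 0

/-- the inner sum -/
noncomputable def H (q m : ℕ) [NeZero q] (c : ZMod q) (μ s : ZMod q) : ℂ :=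
  ∑ t : ZMod q, G q m c s t * ech q μ t

theorem count (q m A B A' B' : ℕ) [NeZero q] (z : ℤ) :
    ((((Finset.Ioc A B) ×ˢ (Finset.Ioc A' B')).filter
        (fun p : ℕ × ℕ => (q : ℤ) ∣ ((m * p.1 * p.2 : ℕ) : ℤ) + z)).card : ℂ) =
      ∑ x ∈ Finset.Ioc A B, ∑ y ∈ Finset.Ioc A' B', G q m ((-z : ℤ) : ZMod q) (x : ZMod q)
        (y : ZMod q) := by
  rw [Finset.card_filter, Finset.sum_product]
  push_cast
  refine Finset.sum_congr rfl fun x _ => Finset.sum_congr rfl fun y _ => ?_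
  have h : ((q : ℤ) ∣ ((m * x * y : ℕ) : ℤ) + z) ↔
      ((m : ZMod q) * (x : ZMod q) * (y : ZMod q) = ((-z : ℤ) : ZMod q)) := by
    rw [← ZMod.intCast_zmod_eq_zero_iff_dvd]
    push_cast
    rw [eq_neg_iff_add_eq_zero]
  unfold G
  by_cases h1 : (m : ZMod q) * (x : ZMod q) * (y : ZMod q) = ((-z : ℤ) : ZMod q)
  · have h2 := h.2 h1
    push_cast at h1 h2
    rw [if_pos h2, if_pos h1]
  · have h2 : ¬ ((q : ℤ) ∣ ((m * x * y : ℕ) : ℤ) + z) := fun h3 => h1 (h.1 h3)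
    push_cast at h1 h2
    rw [if_neg h2, if_neg h1]

theorem inner (q m : ℕ) [NeZero q] (c : ZMod q) (μ ν : ZMod q) :
    ∑ s : ZMod q, H q m c μ s * ech q ν s = KK (m : ZMod q) c (ech q μ) (ech q ν) := by
  unfold KK H G
  refine Finset.sum_congr rfl fun s _ => ?_
  rw [Finset.sum_mul]
  refine Finset.sum_congr rfl fun t _ => ?_
  by_cases h : (m : ZMod q) * s * t = c
  · rw [if_pos h, if_pos h, one_mul]
  · rw [if_neg h, if_neg h, zero_mul, zero_mul]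

end K13

open K13 in
theorem prfK13 : claimK13 := by
  classical
  intro hK h10 h11 h12 h hh q m A B A' B' R z hq hAB hAB' hR hz
  have : NeZero q := ⟨by omega⟩
  have hq0 : (0 : ℝ) < q := by exact_mod_cast hq
  have hqC : (q : ℂ) ≠ 0 := by exact_mod_cast (by omega : q ≠ 0)
  obtain ⟨c, hc⟩ : ∃ c : ZMod q, c = ((-z : ℤ) : ZMod q) := ⟨_, rfl⟩
  have hcount := count q m A B A' B' z
  rw [← hc] at hcount
  -- completion in y
  have e1 : ∀ x : ℕ, ∑ y ∈ Finset.Ioc A' B', G q m c (x : ZMod q) (y : ZMod q) =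
      (q : ℂ)⁻¹ * ∑ μ : ZMod q, hatI q A' B' μ * H q m c μ (x : ZMod q) := fun x =>
    h11 q (fun t => G q m c (x : ZMod q) t) A' B'
  -- completion in x
  have e2 : ∀ μ : ZMod q, ∑ x ∈ Finset.Ioc A B, H q m c μ (x : ZMod q) =
      (q : ℂ)⁻¹ * ∑ ν : ZMod q, hatI q A B ν * KK (m : ZMod q) c (ech q μ) (ech q ν) := by
    intro μ
    rw [h11 q (fun s => H q m c μ s) A B]
    congr 1
    refine Finset.sum_congr rfl fun ν _ => ?_
    rw [K13.inner]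
  -- the total
  have e3 : ∑ x ∈ Finset.Ioc A B, ∑ y ∈ Finset.Ioc A' B', G q m c (x : ZMod q) (y : ZMod q) =
      (q : ℂ)⁻¹ * ∑ μ : ZMod q, hatI q A' B' μ * ∑ x ∈ Finset.Ioc A B, H q m c μ (x : ZMod q) := by
    rw [Finset.sum_congr rfl fun x _ => e1 x, ← Finset.mul_sum, Finset.sum_comm]
    congr 1
    refine Finset.sum_congr rfl fun μ _ => ?_
    rw [Finset.mul_sum]
  -- the zero frequency
  have e4 : hatI q A' B' 0 = ((B' : ℂ) - A') := by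
    unfold hatI
    simp only [zero_mul, neg_zero, AddChar.map_zero_eq_one, Finset.sum_const, Nat.card_Ioc,
      nsmul_eq_mul, mul_one]
    push_cast [Nat.cast_sub hAB']
    ring
  have e5 : ∀ x : ℕ, H q m c 0 (x : ZMod q) = ((Fh h (Nat.gcd q (m * x)) : ℝ) : ℂ) := by
    intro x
    have h1 := h10 h q (m * x) (-z) (by rw [Int.natAbs_neg]; exact hz)
    rw [← h1, ← hc]
    unfold H G ech
    have h2 : ∀ t : ZMod q, (AddChar.mulShift (ZMod.stdAddChar (N := q)) 0) t = 1 := by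
      intro t
      rw [AddChar.mulShift_apply, zero_mul, AddChar.map_zero_eq_one]
    simp only [h2, mul_one]
    rw [Finset.card_filter]
    push_cast
    refine Finset.sum_congr rfl fun t _ => ?_
    by_cases h3 : (m : ZMod q) * (x : ZMod q) * t = c
    · rw [if_pos h3, if_pos h3, Complex.ofReal_one]
    · rw [if_neg h3, if_neg h3, Complex.ofReal_zero]
  have e6 : ∑ x ∈ Finset.Ioc A B, H q m c 0 (x : ZMod q) =
      ((∑ x ∈ Finset.Ioc A B, Fh h (Nat.gcd q (m * x)) : ℝ) : ℂ) := by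
    rw [Finset.sum_congr rfl fun x _ => e5 x]
    push_cast
    rfl
  -- the difference
  have e7 : (((((Finset.Ioc A B) ×ˢ (Finset.Ioc A' B')).filter
        (fun p : ℕ × ℕ => (q : ℤ) ∣ ((m * p.1 * p.2 : ℕ) : ℤ) + z)).card : ℝ) -
      (((B' : ℝ) - A') / q) * ∑ x ∈ Finset.Ioc A B, Fh h (Nat.gcd q (m * x)) : ℝ) =
      (q : ℂ)⁻¹ * ∑ μ ∈ (Finset.univ : Finset (ZMod q)).erase 0, hatI q A' B' μ *
        ((q : ℂ)⁻¹ * ∑ ν : ZMod q, hatI q A B ν * KK (m : ZMod q) c (ech q μ) (ech q ν)) := by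
    have e8 : ∑ μ : ZMod q, hatI q A' B' μ * ∑ x ∈ Finset.Ioc A B, H q m c μ (x : ZMod q) =
        hatI q A' B' 0 * ∑ x ∈ Finset.Ioc A B, H q m c 0 (x : ZMod q) +
        ∑ μ ∈ (Finset.univ : Finset (ZMod q)).erase 0, hatI q A' B' μ *
          ∑ x ∈ Finset.Ioc A B, H q m c μ (x : ZMod q) :=
      (Finset.add_sum_erase _ _ (Finset.mem_univ 0)).symm
    have e9 : ((((Finset.Ioc A B) ×ˢ (Finset.Ioc A' B')).filter
        (fun p : ℕ × ℕ => (q : ℤ) ∣ ((m * p.1 * p.2 : ℕ) : ℤ) + z)).card : ℂ) =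
        (q : ℂ)⁻¹ * (((B' : ℂ) - A') *
          ((∑ x ∈ Finset.Ioc A B, Fh h (Nat.gcd q (m * x)) : ℝ) : ℂ)) +
        (q : ℂ)⁻¹ * ∑ μ ∈ (Finset.univ : Finset (ZMod q)).erase 0, hatI q A' B' μ *
          ((q : ℂ)⁻¹ * ∑ ν : ZMod q, hatI q A B ν * KK (m : ZMod q) c (ech q μ) (ech q ν)) := by
      rw [hcount, e3, e8, e4, e6, mul_add]
      congr 2
      refine Finset.sum_congr rfl fun μ _ => ?_
      rw [e2]
    rw [Complex.ofReal_sub, Complex.ofReal_natCast, e9, Complex.ofReal_mul, Complex.ofReal_div,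
      Complex.ofReal_sub, Complex.ofReal_natCast, Complex.ofReal_natCast, Complex.ofReal_natCast]
    field_simp
    ring
  -- the bound for the sums
  obtain ⟨r, hr1, hrq, hKBd⟩ := hK h hh q hq
  have hrR : r ≤ R := hR r hrq
  obtain ⟨M, hM⟩ : ∃ M : ℝ, M = (h : ℝ) ^ 2 * (R : ℝ) ^ 6 * (q.divisors.card : ℝ) := ⟨_, rfl⟩
  have hM0 : 0 ≤ M := by
    rw [hM]
    positivity
  have hKK : ∀ μ ν : ZMod q, ‖KK (m : ZMod q) c (ech q μ) (ech q ν)‖ ≤
      M * ((q : ℝ) / √(orderOf (ech q μ) : ℝ)) := by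
    intro μ ν
    have h1 := hKBd (-z) (by rw [Int.natAbs_neg]; exact hz) (m : ZMod q) (ech q μ) (ech q ν)
    rw [← hc] at h1
    refine h1.trans ?_
    rw [hM]
    have hg : (Nat.gcd q h : ℝ) ≤ h := by
      exact_mod_cast Nat.le_of_dvd (Nat.pos_of_ne_zero hh) (Nat.gcd_dvd_right q h)
    have hr : (r : ℝ) ≤ R := by exact_mod_cast hrR
    have hr0 : (0 : ℝ) ≤ r := Nat.cast_nonneg r
    gcongr
  obtain ⟨h12a, _⟩ := h12 q A B hAB
  obtain ⟨_, h12b⟩ := h12 q A' B' hAB'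
  -- the norm
  have e10 : ‖(q : ℂ)⁻¹‖ = (q : ℝ)⁻¹ := by
    rw [norm_inv, Complex.norm_natCast]
  have e11 : ‖(q : ℂ)⁻¹ * ∑ μ ∈ (Finset.univ : Finset (ZMod q)).erase 0, hatI q A' B' μ *
        ((q : ℂ)⁻¹ * ∑ ν : ZMod q, hatI q A B ν * KK (m : ZMod q) c (ech q μ) (ech q ν))‖ ≤
      (q : ℝ)⁻¹ * ∑ μ ∈ (Finset.univ : Finset (ZMod q)).erase 0, ‖hatI q A' B' μ‖ *
        ((q : ℝ)⁻¹ * ∑ ν : ZMod q, ‖hatI q A B ν‖ *
          (M * ((q : ℝ) / √(orderOf (ech q μ) : ℝ)))) := by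
    rw [norm_mul, e10]
    refine mul_le_mul_of_nonneg_left ?_ (inv_nonneg.2 hq0.le)
    refine (norm_sum_le _ _).trans (Finset.sum_le_sum fun μ _ => ?_)
    rw [norm_mul, norm_mul, e10]
    refine mul_le_mul_of_nonneg_left ?_ (norm_nonneg _)
    refine mul_le_mul_of_nonneg_left ?_ (inv_nonneg.2 hq0.le)
    refine (norm_sum_le _ _).trans (Finset.sum_le_sum fun ν _ => ?_)
    rw [norm_mul]
    exact mul_le_mul_of_nonneg_left (hKK μ ν) (norm_nonneg _)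
  have e12 : (q : ℝ)⁻¹ * ∑ μ ∈ (Finset.univ : Finset (ZMod q)).erase 0, ‖hatI q A' B' μ‖ *
        ((q : ℝ)⁻¹ * ∑ ν : ZMod q, ‖hatI q A B ν‖ *
          (M * ((q : ℝ) / √(orderOf (ech q μ) : ℝ)))) =
      (q : ℝ)⁻¹ * (q : ℝ)⁻¹ * M * (∑ μ ∈ (Finset.univ : Finset (ZMod q)).erase 0,
        ‖hatI q A' B' μ‖ * ((q : ℝ) / √(orderOf (ech q μ) : ℝ))) *
        (∑ ν : ZMod q, ‖hatI q A B ν‖) := by
    obtain ⟨S, hS⟩ : ∃ S : ℝ, S = ∑ ν : ZMod q, ‖hatI q A B ν‖ := ⟨_, rfl⟩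
    have f1 : ∀ μ : ZMod q, ‖hatI q A' B' μ‖ * ((q : ℝ)⁻¹ * ∑ ν : ZMod q, ‖hatI q A B ν‖ *
          (M * ((q : ℝ) / √(orderOf (ech q μ) : ℝ)))) =
        (‖hatI q A' B' μ‖ * ((q : ℝ) / √(orderOf (ech q μ) : ℝ))) * ((q : ℝ)⁻¹ * M * S) := by
      intro μ
      rw [← Finset.sum_mul, ← hS]
      ring
    rw [Finset.sum_congr rfl fun μ _ => f1 μ, ← Finset.sum_mul, ← hS]
    ring
  have hlog : 0 ≤ 1 + Real.log q := by
    have := Real.log_natCast_nonneg q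
    linarith
  have e13 : (q : ℝ)⁻¹ * (q : ℝ)⁻¹ * M * (∑ μ ∈ (Finset.univ : Finset (ZMod q)).erase 0,
        ‖hatI q A' B' μ‖ * ((q : ℝ) / √(orderOf (ech q μ) : ℝ))) *
        (∑ ν : ZMod q, ‖hatI q A B ν‖) ≤
      (q : ℝ)⁻¹ * (q : ℝ)⁻¹ * M * (√(q : ℝ) * (q * (q.divisors.card : ℝ) * (1 + Real.log q))) *
        (((B : ℝ) - A) + q * (1 + Real.log q)) := by
    refine mul_le_mul (mul_le_mul_of_nonneg_left h12b (by positivity)) h12a
      (Finset.sum_nonneg fun ν _ => norm_nonneg _) (by positivity)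
  have e14 : (q : ℝ)⁻¹ * (q : ℝ)⁻¹ * M *
      (√(q : ℝ) * (q * (q.divisors.card : ℝ) * (1 + Real.log q))) *
        (((B : ℝ) - A) + q * (1 + Real.log q)) = EE h q R ((B : ℝ) - A) 1 := by
    rw [hM]
    unfold EE
    field_simp
  have e15 : ∀ x : ℝ, |x| = ‖((x : ℝ) : ℂ)‖ := fun x => by
    rw [Complex.norm_real, Real.norm_eq_abs]
  rw [e15, e7]
  exact e11.trans (e12.le.trans (e13.trans e14.le))

end Pool.Agent.Work.MP_122e00_nt.WRK
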