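import Pool.Agent.Work.MP_122e00_nt.WR.StmtsK

set_option autoImplicit false

namespace Pool.Agent.Work.MP_122e00_nt.WRK

open Finset Filter Topology

theorem ItemK2_aux {S T : Type} [Fintype S] [Fintype T] (F : S → ℂ) (G : T → ℂ) :
    ∑ x : S × T, F x.1 * G x.2 = (∑ x, F x) * ∑ x, G x := by
  rw [Fintype.sum_prod_type, Finset.sum_mul_sum]

theorem prfK2 : claimK2 := by
  intro S T _ _ _ _ b z ψ₁ ψ₂
  unfold KK
  rw [← ItemK2_aux]
  refine sum_congr rfl fun x _ => ?_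
  rw [← ItemK2_aux]
  refine sum_congr rfl fun y _ => ?_
  have h1 : ∀ ψ : AddChar (S × T) ℂ, ∀ u : S × T,
      ψ u = ψ.compAddMonoidHom (AddMonoidHom.inl S T) u.1 *
        ψ.compAddMonoidHom (AddMonoidHom.inr S T) u.2 := by
    intro ψ u
    rw [AddChar.compAddMonoidHom_apply, AddChar.compAddMonoidHom_apply, AddMonoidHom.inl_apply,
      AddMonoidHom.inr_apply, ← AddChar.map_add_eq_mul]
    congr 1
    simp
  have h2 : b * x * y = z ↔ b.1 * x.1 * y.1 = z.1 ∧ b.2 * x.2 * y.2 = z.2 := by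
    rw [Prod.ext_iff]
    rfl
  by_cases ha : b.1 * x.1 * y.1 = z.1
  · by_cases hb : b.2 * x.2 * y.2 = z.2
    · rw [if_pos (h2.2 ⟨ha, hb⟩), if_pos ha, if_pos hb, h1 ψ₁ y, h1 ψ₂ x]
      ring
    · rw [if_neg (fun h => hb (h2.1 h).2), if_neg hb, mul_zero]
  · rw [if_neg (fun h => ha (h2.1 h).1), if_neg ha, zero_mul]

end Pool.Agent.Work.MP_122e00_nt.WRK
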