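import Pool.Agent.Work.MP_122e00_nt.WR.StmtsK

set_option autoImplicit false

/-!
# Item K3: the bound for the Kloosterman sums `KK` is multiplicative
-/

namespace Pool.Agent.Work.MP_122e00_nt.WRK

open Finset Filter Topology

namespace IK3

theorem order_le (m n : ℕ) [NeZero m] [NeZero n] [NeZero (m * n)]
    (e : ZMod (m * n) ≃+* ZMod m × ZMod n) (ψ : AddChar (ZMod (m * n)) ℂ)
    (φ : AddChar (ZMod m × ZMod n) ℂ) (hφ : ∀ x, φ (e x) = ψ x) :
    orderOf ψ ≤ orderOf (φ.compAddMonoidHom (AddMonoidHom.inl (ZMod m) (ZMod n))) *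
      orderOf (φ.compAddMonoidHom (AddMonoidHom.inr (ZMod m) (ZMod n))) := by
  set α := φ.compAddMonoidHom (AddMonoidHom.inl (ZMod m) (ZMod n)) with hα
  set β := φ.compAddMonoidHom (AddMonoidHom.inr (ZMod m) (ZMod n)) with hβ
  refine Nat.le_of_dvd (Nat.mul_pos (orderOf_pos α) (orderOf_pos β))
    (orderOf_dvd_of_pow_eq_one ?_)
  ext x
  rw [AddChar.pow_apply, AddChar.one_apply]
  have h1 : ψ x = α (e x).1 * β (e x).2 := by
    rw [← hφ x, hα, hβ, AddChar.compAddMonoidHom_apply, AddChar.compAddMonoidHom_apply,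
      ← AddChar.map_add_eq_mul]
    congr 1
    simp
  have h2 : (α (e x).1) ^ orderOf α = 1 := by
    rw [← AddChar.pow_apply, pow_orderOf_eq_one, AddChar.one_apply]
  have h3 : (β (e x).2) ^ orderOf β = 1 := by
    rw [← AddChar.pow_apply, pow_orderOf_eq_one, AddChar.one_apply]
  rw [h1, mul_pow, pow_mul, h2, one_pow, one_mul, mul_comm (orderOf α), pow_mul, h3, one_pow]

end IK3

theorem prfK3 : claimK3 := by
  intro hK1 hK2 h m n r r' hm hn hmn hbm hbn _ z hz b ψ₁ ψ₂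
  have : NeZero m := ⟨hm.ne'⟩
  have : NeZero n := ⟨hn.ne'⟩
  set e : ZMod (m * n) ≃+* ZMod m × ZMod n := ZMod.chineseRemainder hmn with he
  have h1 := hK1 (ZMod (m * n)) (ZMod m × ZMod n) e b (z : ZMod (m * n)) ψ₁ ψ₂
  rw [hK2, map_intCast e z, Prod.fst_intCast, Prod.snd_intCast] at h1
  set φ₁ := ψ₁.compAddMonoidHom (e.symm : ZMod m × ZMod n →+* ZMod (m * n)).toAddMonoidHom
    with hφ₁
  set φ₂ := ψ₂.compAddMonoidHom (e.symm : ZMod m × ZMod n →+* ZMod (m * n)).toAddMonoidHom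
    with hφ₂
  have hφ : ∀ x, φ₁ (e x) = ψ₁ x := by
    intro x
    rw [hφ₁, AddChar.compAddMonoidHom_apply]
    congr 1
    exact e.symm_apply_apply x
  have hord := IK3.order_le m n e ψ₁ φ₁ hφ
  rw [h1, norm_mul]
  have b1 := hbm z hz (e b).1 (φ₁.compAddMonoidHom (AddMonoidHom.inl (ZMod m) (ZMod n)))
    (φ₂.compAddMonoidHom (AddMonoidHom.inl (ZMod m) (ZMod n)))
  have b2 := hbn z hz (e b).2 (φ₁.compAddMonoidHom (AddMonoidHom.inr (ZMod m) (ZMod n)))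
    (φ₂.compAddMonoidHom (AddMonoidHom.inr (ZMod m) (ZMod n)))
  have pa := orderOf_pos (φ₁.compAddMonoidHom (AddMonoidHom.inl (ZMod m) (ZMod n)))
  have pc := orderOf_pos (φ₁.compAddMonoidHom (AddMonoidHom.inr (ZMod m) (ZMod n)))
  have po := orderOf_pos ψ₁
  refine (mul_le_mul b1 b2 (norm_nonneg _) (by positivity)).trans ?_
  generalize orderOf (φ₁.compAddMonoidHom (AddMonoidHom.inl (ZMod m) (ZMod n))) = a at *
  generalize orderOf (φ₁.compAddMonoidHom (AddMonoidHom.inr (ZMod m) (ZMod n))) = c at *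
  generalize orderOf ψ₁ = o at *
  have hg : Nat.gcd (m * n) h = Nat.gcd m h * Nat.gcd n h := by
    rw [Nat.gcd_comm, Nat.Coprime.gcd_mul h hmn, Nat.gcd_comm h m, Nat.gcd_comm h n]
  rw [hg, hmn.card_divisors_mul]
  have hsq : √(o : ℝ) ≤ √(a : ℝ) * √(c : ℝ) := by
    rw [← Real.sqrt_mul (Nat.cast_nonneg a)]
    exact Real.sqrt_le_sqrt (by exact_mod_cast hord)
  have ha : 0 < √(a : ℝ) := Real.sqrt_pos.2 (by exact_mod_cast pa)
  have hc : 0 < √(c : ℝ) := Real.sqrt_pos.2 (by exact_mod_cast pc)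
  have ho : 0 < √(o : ℝ) := Real.sqrt_pos.2 (by exact_mod_cast po)
  have hq : (m : ℝ) / √(a : ℝ) * ((n : ℝ) / √(c : ℝ)) ≤ ((m * n : ℕ) : ℝ) / √(o : ℝ) := by
    rw [div_mul_div_comm]
    push_cast
    exact div_le_div_of_nonneg_left (by positivity) ho hsq
  push_cast
  push_cast at hq
  calc ((Nat.gcd m h : ℝ) ^ 2 * (r : ℝ) ^ 6 * (m.divisors.card : ℝ) * ((m : ℝ) / √(a : ℝ))) *
        ((Nat.gcd n h : ℝ) ^ 2 * (r' : ℝ) ^ 6 * (n.divisors.card : ℝ) * ((n : ℝ) / √(c : ℝ)))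
      = ((Nat.gcd m h : ℝ) * (Nat.gcd n h : ℝ)) ^ 2 * ((r : ℝ) * r') ^ 6 *
          ((m.divisors.card : ℝ) * (n.divisors.card : ℝ)) *
          ((m : ℝ) / √(a : ℝ) * ((n : ℝ) / √(c : ℝ))) := by ring
    _ ≤ _ := mul_le_mul_of_nonneg_left hq (by positivity)

end Pool.Agent.Work.MP_122e00_nt.WRK
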