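import Pool.Agent.Work.MP_122e00_nt.WR.StmtsK

set_option autoImplicit false

/-!
Item K4 of the block WR: the bound for the sums `KK` modulo a prime `p` not dividing `h`.
-/

namespace Pool.Agent.Work.MP_122e00_nt.WRK

open Finset Filter Topology

namespace IK4

/-- The sum over the units is the sum over the nonzero residues. -/
lemma sum_un {p : ℕ} [Fact p.Prime] (f : ZMod p → ℂ) :
    ∑ u : (ZMod p)ˣ, f (u : ZMod p) =
      ∑ x ∈ (univ : Finset (ZMod p)).filter (fun x => x ≠ 0), f x := by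
  classical
  refine Finset.sum_bij (fun u _ => (u : ZMod p)) ?_ ?_ ?_ ?_
  · intro u _
    simp
  · intro u _ v _ h
    exact Units.ext h
  · intro x hx
    have hx0 : x ≠ 0 := by simpa using hx
    exact ⟨Units.mk0 x hx0, mem_univ _, rfl⟩
  · intro u _
    rfl

lemma KK_eq {p : ℕ} [Fact p.Prime] (b z : ZMod p) (hz : z ≠ 0) (hb : b ≠ 0)
    (ψ₁ ψ₂ : AddChar (ZMod p) ℂ) :
    KK b z ψ₁ ψ₂ = ∑ u : (ZMod p)ˣ,
      ψ₁ (z * b⁻¹ * ((u⁻¹ : (ZMod p)ˣ) : ZMod p)) * ψ₂ (u : ZMod p) := by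
  classical
  have h3 : ∑ u : (ZMod p)ˣ,
      ψ₁ (z * b⁻¹ * ((u⁻¹ : (ZMod p)ˣ) : ZMod p)) * ψ₂ (u : ZMod p) =
      ∑ x : ZMod p, if x ≠ 0 then ψ₁ (z * b⁻¹ * x⁻¹) * ψ₂ x else 0 := by
    rw [← Finset.sum_filter, ← sum_un (fun x => ψ₁ (z * b⁻¹ * x⁻¹) * ψ₂ x)]
    refine Finset.sum_congr rfl fun u _ => ?_
    rw [Units.val_inv_eq_inv_val]
  rw [h3]
  unfold KK
  refine Finset.sum_congr rfl fun x _ => ?_
  by_cases hx : x = 0
  · simp [hx, hz.symm]
  · rw [if_pos hx]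
    have h2 : ∀ y, (b * x * y = z) ↔ (y = z * b⁻¹ * x⁻¹) := by
      intro y
      constructor
      · intro h
        rw [← h]
        field_simp
      · intro h
        rw [h]
        field_simp
    rw [Finset.sum_eq_single (z * b⁻¹ * x⁻¹)]
    · rw [if_pos ((h2 _).2 rfl)]
    · intro y _ hy
      exact if_neg (fun h => hy ((h2 y).1 h))
    · intro h
      exact absurd (mem_univ _) h

/-- Every additive character is a shift of the standard one. -/
lemma ex_shift {p : ℕ} [Fact p.Prime] (ψ : AddChar (ZMod p) ℂ) :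
    ∃ c : ZMod p, ∀ t : ZMod p, ψ t = ZMod.stdAddChar (c * t) := by
  classical
  have hinj := AddChar.to_mulShift_inj_of_isPrimitive (ZMod.isPrimitive_stdAddChar p)
  have hbij : Function.Bijective (AddChar.mulShift (ZMod.stdAddChar (N := p))) :=
    (Fintype.bijective_iff_injective_and_card _).2 ⟨hinj, AddChar.card_eq.symm⟩
  obtain ⟨c, hc⟩ := hbij.2 ψ
  refine ⟨c, fun t => ?_⟩
  rw [← hc, AddChar.mulShift_apply]

lemma one_le_sqrt {p : ℕ} [hp : Fact p.Prime] : (1 : ℝ) ≤ √(p : ℝ) := by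
  rw [Real.one_le_sqrt]
  exact_mod_cast hp.out.one_lt.le

/-- The sum of a nontrivial character over the units. -/
lemma sum_std {p : ℕ} [Fact p.Prime] (c : ZMod p) (hc : c ≠ 0) :
    ∑ u : (ZMod p)ˣ, (ZMod.stdAddChar (c * (u : ZMod p)) : ℂ) = -1 := by
  classical
  rw [sum_un (fun x => (ZMod.stdAddChar (c * x) : ℂ))]
  have h1 := AddChar.sum_mulShift c (ZMod.isPrimitive_stdAddChar p)
  rw [if_neg hc] at h1
  have h2 : ∑ x ∈ (univ : Finset (ZMod p)).filter (fun x => x ≠ 0),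
      (ZMod.stdAddChar (c * x) : ℂ) + (ZMod.stdAddChar (c * 0) : ℂ) =
      ∑ x : ZMod p, (ZMod.stdAddChar (x * c) : ℂ) := by
    rw [← Finset.sum_filter_add_sum_filter_not univ (fun x : ZMod p => x ≠ 0)]
    congr 1
    · exact Finset.sum_congr rfl fun x _ => by rw [mul_comm]
    · have : (univ : Finset (ZMod p)).filter (fun x => ¬ x ≠ 0) = {0} := by
        ext x; simp
      rw [this, Finset.sum_singleton, mul_zero, zero_mul]
  rw [h1, mul_zero, AddChar.map_zero_eq_one, Nat.cast_zero] at h2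
  exact eq_neg_of_add_eq_zero_left h2

end IK4

/-- Item K4. -/
theorem prfK4 : claimK4 := by
  intro hW h p hp hph _ z hzh b ψ₁ ψ₂
  classical
  haveI : Fact p.Prime := ⟨hp⟩
  have hz : (z : ZMod p) ≠ 0 := by
    intro h0
    rw [ZMod.intCast_zmod_eq_zero_iff_dvd] at h0
    apply hph
    rw [← hzh]
    exact Int.natCast_dvd.1 h0
  have hg : Nat.gcd p h = 1 := (Nat.Prime.coprime_iff_not_dvd hp).2 hph
  have hd : p.divisors.card = 2 := by
    rw [hp.divisors, Finset.card_pair hp.one_lt.ne]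
  rw [hg, hd]
  have hR : ((1 : ℕ) : ℝ) ^ 2 * ((1 : ℕ) : ℝ) ^ 6 * ((2 : ℕ) : ℝ) *
      ((p : ℝ) / √(orderOf ψ₁ : ℝ)) = 2 * ((p : ℝ) / √(orderOf ψ₁ : ℝ)) := by
    push_cast; ring
  rw [hR]
  by_cases hb : b = 0
  · have : KK b (z : ZMod p) ψ₁ ψ₂ = 0 := by
      unfold KK
      simp [hb, hz.symm]
    rw [this, norm_zero]
    positivity
  rw [IK4.KK_eq b (z : ZMod p) hz hb]
  by_cases h1 : ψ₁ = 1
  · have ho : orderOf ψ₁ = 1 := by rw [h1, orderOf_one]
    rw [ho]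
    refine (norm_sum_le _ _).trans ?_
    have h2 : ∀ u ∈ (univ : Finset (ZMod p)ˣ),
        ‖ψ₁ ((z : ZMod p) * b⁻¹ * ((u⁻¹ : (ZMod p)ˣ) : ZMod p)) * ψ₂ (u : ZMod p)‖ ≤ 1 := by
      intro u _
      rw [norm_mul, AddChar.norm_apply, AddChar.norm_apply, mul_one]
    refine (Finset.sum_le_card_nsmul _ _ 1 h2).trans ?_
    rw [Finset.card_univ, ZMod.card_units, nsmul_eq_mul, mul_one, Nat.cast_one, Real.sqrt_one,
      div_one]
    have h3 : ((p - 1 : ℕ) : ℝ) ≤ p := by exact_mod_cast Nat.sub_le p 1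
    have h4 : (0 : ℝ) ≤ p := Nat.cast_nonneg p
    linarith
  · have hp1 : ψ₁ ^ p = 1 := by
      ext t
      rw [AddChar.pow_apply, ← AddChar.map_nsmul_eq_pow, nsmul_eq_mul, ZMod.natCast_self,
        zero_mul, AddChar.map_zero_eq_one, AddChar.one_apply]
    rw [orderOf_eq_prime hp1 h1, Real.div_sqrt]
    obtain ⟨c, hc⟩ := IK4.ex_shift ψ₁
    obtain ⟨d, hd'⟩ := IK4.ex_shift ψ₂
    have hc0 : c ≠ 0 := by
      intro h0
      apply h1
      ext t
      rw [hc, h0, zero_mul, AddChar.map_zero_eq_one, AddChar.one_apply]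
    have hc' : c * ((z : ZMod p) * b⁻¹) ≠ 0 :=
      mul_ne_zero hc0 (mul_ne_zero hz (inv_ne_zero hb))
    by_cases hd0 : d = 0
    · have h2 : ∑ u : (ZMod p)ˣ,
          ψ₁ ((z : ZMod p) * b⁻¹ * ((u⁻¹ : (ZMod p)ˣ) : ZMod p)) * ψ₂ (u : ZMod p) = -1 := by
        rw [← IK4.sum_std (c * ((z : ZMod p) * b⁻¹)) hc']
        rw [← Equiv.sum_comp (Equiv.inv (ZMod p)ˣ)
          (fun u : (ZMod p)ˣ => (ZMod.stdAddChar (c * ((z : ZMod p) * b⁻¹) * (u : ZMod p)) : ℂ))]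
        refine Finset.sum_congr rfl fun u _ => ?_
        rw [hc, hd', hd0, zero_mul, AddChar.map_zero_eq_one, mul_one, Equiv.inv_apply]
        congr 1
        ring
      rw [h2, norm_neg, norm_one]
      have := IK4.one_le_sqrt (p := p)
      linarith
    · have h2 : ∑ u : (ZMod p)ˣ,
          ψ₁ ((z : ZMod p) * b⁻¹ * ((u⁻¹ : (ZMod p)ˣ) : ZMod p)) * ψ₂ (u : ZMod p) =
          ∑ x : (ZMod p)ˣ, ZMod.stdAddChar (d * (x : ZMod p) +
            (c * ((z : ZMod p) * b⁻¹)) * ((x⁻¹ : (ZMod p)ˣ) : ZMod p)) := by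
        refine Finset.sum_congr rfl fun u _ => ?_
        rw [hc, hd', ← AddChar.map_add_eq_mul]
        congr 1
        ring
      rw [h2]
      exact hW p d _ hd0 hc'

end Pool.Agent.Work.MP_122e00_nt.WRK
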