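import Pool.Agent.Work.MP_122e00_nt.WR.StmtsK

set_option autoImplicit false

/-! Item K5: the trivial bound, at prime powers. -/

namespace Pool.Agent.Work.MP_122e00_nt.WRK

open Finset Filter Topology

namespace K5

theorem norm_KK (q : ℕ) [NeZero q] (b z : ZMod q) (ψ₁ ψ₂ : AddChar (ZMod q) ℂ) :
    ‖KK b z ψ₁ ψ₂‖ ≤ (q : ℝ) ^ 2 := by
  classical
  unfold KK
  refine (norm_sum_le _ _).trans ((Finset.sum_le_sum (g := fun _ : ZMod q => (q : ℝ))
    fun x _ => (norm_sum_le _ _).trans ?_).trans ?_)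
  · refine (Finset.sum_le_sum (g := fun _ : ZMod q => (1 : ℝ)) fun y _ => ?_).trans ?_
    · split_ifs
      · rw [norm_mul, AddChar.norm_apply, AddChar.norm_apply, mul_one]
      · rw [norm_zero]; exact zero_le_one
    · simp
  · simp only [Finset.sum_const, Finset.card_univ, ZMod.card, nsmul_eq_mul]
    exact le_of_eq (by ring)

theorem order_le (q : ℕ) [NeZero q] (ψ : AddChar (ZMod q) ℂ) :
    0 < orderOf ψ ∧ orderOf ψ ≤ q := by
  have hq : 0 < q := NeZero.pos q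
  have h1 : ψ ^ q = 1 := by
    ext x
    rw [AddChar.pow_apply, ← AddChar.map_nsmul_eq_pow]
    have : q • x = 0 := by
      rw [nsmul_eq_mul, ZMod.natCast_self, zero_mul]
    rw [this, AddChar.map_zero_eq_one, AddChar.one_apply]
  exact ⟨orderOf_pos_iff.2 (isOfFinOrder_iff_pow_eq_one.2 ⟨q, hq, h1⟩),
    orderOf_le_of_pow_eq_one hq h1⟩

end K5

namespace K5

theorem main (h p k q : ℕ) (hq : q = p ^ k) (hp : p.Prime) (hk : 1 ≤ k) (hkh : 2 ≤ k ∨ p ∣ h) :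
    KBd h q (p ^ (k / 2)) := by
  intro _ z hz b ψ₁ ψ₂
  have hp1 : 1 ≤ p := hp.one_lt.le
  have hq0 : 0 < q := by rw [hq]; exact pow_pos hp.pos k
  have hqR : (1 : ℝ) ≤ q := by exact_mod_cast hq0
  obtain ⟨ho1, ho2⟩ := order_le q ψ₁
  have hoR : (0 : ℝ) < orderOf ψ₁ := by exact_mod_cast ho1
  have h1 : (1 : ℝ) ≤ (q : ℝ) / √(orderOf ψ₁ : ℝ) := by
    rw [one_le_div (Real.sqrt_pos.2 hoR)]
    have h2 : (orderOf ψ₁ : ℝ) ≤ (q : ℝ) ^ 2 := by
      have : (orderOf ψ₁ : ℝ) ≤ q := by exact_mod_cast ho2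
      nlinarith
    exact Real.sqrt_le_iff.2 ⟨by positivity, h2⟩
  have h3 : (1 : ℝ) ≤ (q.divisors.card : ℝ) := by
    have : 0 < q.divisors.card := Finset.card_pos.2 ⟨1, by simp [hq0.ne']⟩
    exact_mod_cast this
  have h4 : (q : ℝ) ^ 2 ≤ (Nat.gcd q h : ℝ) ^ 2 * ((p ^ (k / 2) : ℕ) : ℝ) ^ 6 := by
    have h5 : q ^ 2 ≤ (Nat.gcd q h) ^ 2 * (p ^ (k / 2)) ^ 6 := by
      rcases Nat.lt_or_ge k 2 with hk2 | hk2
      · have hk1 : k = 1 := by omega
        have hph : p ∣ h := by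
          rcases hkh with h' | h'
          · omega
          · exact h'
        have hg : Nat.gcd q h = q := by
          rw [hq, hk1, pow_one]
          exact Nat.gcd_eq_left hph
        rw [hg]
        exact Nat.le_mul_of_pos_right _ (by positivity)
      · have hg : 0 < Nat.gcd q h := Nat.gcd_pos_of_pos_left h hq0
        have h6 : q ^ 2 ≤ (p ^ (k / 2)) ^ 6 := by
          rw [hq, ← pow_mul, ← pow_mul]
          exact Nat.pow_le_pow_right hp.pos (by omega)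
        exact h6.trans (Nat.le_mul_of_pos_left _ (by positivity))
    exact_mod_cast h5
  refine (norm_KK q b (z : ZMod q) ψ₁ ψ₂).trans (h4.trans ?_)
  have h7 : (0 : ℝ) ≤ (Nat.gcd q h : ℝ) ^ 2 * ((p ^ (k / 2) : ℕ) : ℝ) ^ 6 := by positivity
  calc (Nat.gcd q h : ℝ) ^ 2 * ((p ^ (k / 2) : ℕ) : ℝ) ^ 6
      = (Nat.gcd q h : ℝ) ^ 2 * ((p ^ (k / 2) : ℕ) : ℝ) ^ 6 * 1 * 1 := by ring
    _ ≤ (Nat.gcd q h : ℝ) ^ 2 * ((p ^ (k / 2) : ℕ) : ℝ) ^ 6 * (q.divisors.card : ℝ) *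
        ((q : ℝ) / √(orderOf ψ₁ : ℝ)) := by
      gcongr

end K5

theorem prfK5 : claimK5 := fun h p k hp hk hkh => K5.main h p k (p ^ k) rfl hp hk hkh

end Pool.Agent.Work.MP_122e00_nt.WRK
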