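import Pool.Agent.Work.MP_122e00_nt.WR.StmtsK

set_option autoImplicit false

namespace Pool.Agent.Work.MP_122e00_nt.WRK

theorem prfK6 : claimK6 := by
  intro h hh hmul hpr hpp q hq
  induction q using Nat.recOnPosPrimePosCoprime with
  | prime_pow p k hp hk =>
    by_cases hc : 2 ≤ k ∨ p ∣ h
    · refine ⟨p ^ (k / 2), Nat.one_le_iff_ne_zero.mpr (pow_ne_zero _ hp.ne_zero), ?_, hpp p k hp hk hc⟩
      rw [← pow_add]
      exact pow_dvd_pow _ (by omega)
    · push Not at hc
      have hk1 : k = 1 := by omega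
      subst hk1
      refine ⟨1, le_refl _, ?_, ?_⟩
      · simp
      · rw [pow_one]
        exact hpr p hp hc.2
  | zero => omega
  | one =>
    refine ⟨1, le_refl _, by simp, ?_⟩
    intro _ z hz b ψ₁ ψ₂
    have h1 : ‖KK b (z : ZMod 1) ψ₁ ψ₂‖ ≤ 1 := by
      unfold KK
      rw [Fintype.sum_subsingleton _ (0 : ZMod 1), Fintype.sum_subsingleton _ (0 : ZMod 1)]
      rw [if_pos (Subsingleton.elim _ _)]
      simp
    have h2 : ψ₁ = 1 := by
      ext x
      rw [Subsingleton.elim x 0]
      simp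
    have h3 : orderOf ψ₁ = 1 := by rw [h2]; exact orderOf_one
    rw [h3]
    simpa using h1
  | coprime a b ha hb hab iha ihb =>
    obtain ⟨r, hr1, hr2, hr3⟩ := iha (by omega)
    obtain ⟨r', hr1', hr2', hr3'⟩ := ihb (by omega)
    refine ⟨r * r', Nat.one_le_iff_ne_zero.mpr (by positivity), ?_, hmul a b r r' (by omega) (by omega) hab hr3 hr3'⟩
    have : r * r' * (r * r') = (r * r) * (r' * r') := by ring
    rw [this]
    exact Nat.mul_dvd_mul hr2 hr2'

end Pool.Agent.Work.MP_122e00_nt.WRK
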