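import Pool.Agent.Work.MP_122e00_nt.WR.StmtsK

set_option autoImplicit false

/-!
# Item K7: the order of the character with frequency `μ`
-/

namespace Pool.Agent.Work.MP_122e00_nt.WRK

open Finset Filter Topology

namespace IK7

theorem ech_pow (q : ℕ) [NeZero q] (ν : ZMod q) (k : ℕ) :
    ech q ν ^ k = ech q (k • ν) := by
  ext t
  unfold ech
  rw [AddChar.pow_apply, AddChar.mulShift_apply, AddChar.mulShift_apply,
    ← AddChar.map_nsmul_eq_pow, smul_mul_assoc]

theorem ech_eq_one (q : ℕ) [NeZero q] (ν : ZMod q) : ech q ν = 1 ↔ ν = 0 := by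
  constructor
  · intro h
    refine AddChar.to_mulShift_inj_of_isPrimitive (ZMod.isPrimitive_stdAddChar q) ?_
    rw [AddChar.mulShift_zero]
    exact h
  · rintro rfl
    unfold ech
    exact AddChar.mulShift_zero _

theorem order_eq (q : ℕ) [NeZero q] (ν : ZMod q) : orderOf (ech q ν) = addOrderOf ν := by
  refine Nat.dvd_antisymm ?_ ?_
  · rw [orderOf_dvd_iff_pow_eq_one, ech_pow, ech_eq_one]
    exact addOrderOf_nsmul_eq_zero ν
  · rw [addOrderOf_dvd_iff_nsmul_eq_zero, ← ech_eq_one, ← ech_pow]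
    exact pow_orderOf_eq_one _

end IK7

open IK7 in
theorem prfK7 : claimK7 := by
  intro q _ μ
  have hq : q ≠ 0 := NeZero.ne q
  rw [order_eq, ZMod.addOrderOf_coe μ hq]
  obtain ⟨g, hg⟩ : ∃ g, g = Nat.gcd q μ := ⟨_, rfl⟩
  rw [← hg]
  have hgd : g ∣ q := by
    rw [hg]
    exact Nat.gcd_dvd_left _ _
  obtain ⟨k, hk⟩ := hgd
  have hg0 : 0 < g := Nat.pos_of_ne_zero fun h => hq (by rw [hk, h, zero_mul])
  have hk0 : 0 < k := Nat.pos_of_ne_zero fun h => hq (by rw [hk, h, mul_zero])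
  have e : q / g = k := by
    rw [hk]
    exact Nat.mul_div_cancel_left k hg0
  rw [e]
  have hkr : (0 : ℝ) < k := by exact_mod_cast hk0
  have hgr : (1 : ℝ) ≤ g := by exact_mod_cast hg0
  have hsk : 0 < √(k : ℝ) := Real.sqrt_pos.2 hkr
  rw [div_le_iff₀ hsk]
  have hq' : (q : ℝ) = g * k := by
    rw [hk]
    push_cast
    ring
  rw [hq', Real.sqrt_mul (by positivity)]
  have h1 : √(k : ℝ) * √(k : ℝ) = k := Real.mul_self_sqrt hkr.le
  have h2 : 1 ≤ √(g : ℝ) := Real.one_le_sqrt.2 hgr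
  calc (g : ℝ) * k = 1 * (g * k) := by ring
    _ ≤ √(g : ℝ) * (g * k) := mul_le_mul_of_nonneg_right h2 (by positivity)
    _ = √(g : ℝ) * (g * (√(k : ℝ) * √(k : ℝ))) := by rw [h1]
    _ = √(g : ℝ) * √(k : ℝ) * g * √(k : ℝ) := by ring

end Pool.Agent.Work.MP_122e00_nt.WRK
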