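import Pool.Agent.Work.MP_122e00_nt.WR.StmtsK

set_option autoImplicit false

namespace Pool.Agent.Work.MP_122e00_nt.WRK

open Finset Filter Topology

namespace IK8

/-- lower bound for the sine at `π μ / q` -/
lemma sin_lower (q μ : ℝ) (h1 : 0 < μ) (h2 : μ < q) :
    2 * μ / q ≤ Real.sin (Real.pi * μ / q) ∨ 2 * (q - μ) / q ≤ Real.sin (Real.pi * μ / q) := by
  have hq : 0 < q := h1.trans h2
  have hpi := Real.pi_pos
  rcases le_total (2 * μ) q with h | h
  · left
    have h3 := Real.mul_le_sin (x := Real.pi * μ / q) (by positivity) (by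
      rw [div_le_div_iff₀ hq (by norm_num)]
      nlinarith)
    refine le_trans (le_of_eq ?_) h3
    field_simp
  · right
    have h3 := Real.mul_le_sin (x := Real.pi * (q - μ) / q)
      (div_nonneg (mul_nonneg hpi.le (by linarith)) hq.le) (by
      rw [div_le_div_iff₀ hq (by norm_num)]
      nlinarith)
    have h4 : Real.sin (Real.pi * (q - μ) / q) = Real.sin (Real.pi * μ / q) := by
      rw [← Real.sin_pi_sub (Real.pi * μ / q)]
      congr 1
      field_simp
    rw [← h4]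
    refine le_trans (le_of_eq ?_) h3
    field_simp

lemma geom (ω : ℂ) (A B : ℕ) (h : A ≤ B) :
    (ω - 1) * ∑ x ∈ Finset.Ioc A B, ω ^ x = ω ^ (B + 1) - ω ^ (A + 1) := by
  induction B, h using Nat.le_induction with
  | base => simp
  | succ n hn ih =>
    rw [Finset.sum_Ioc_succ_top (by omega), mul_add, ih]
    ring

end IK8

open IK8 in
theorem prfK8 : claimK8 := by
  intro q _ A B μ hAB hμ1 hμq
  have hq : (0 : ℝ) < q := by exact_mod_cast Nat.pos_of_ne_zero (NeZero.ne q)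
  have hμ : (0 : ℝ) < μ := by exact_mod_cast hμ1
  have hμq' : (μ : ℝ) < q := by exact_mod_cast hμq
  set θ : ℝ := -(2 * Real.pi * μ / q) with hθ
  set ω : ℂ := Complex.exp (Complex.I * (θ : ℂ)) with hω
  have hterm : ∀ x : ℕ, ZMod.stdAddChar (-((μ : ZMod q) * (x : ZMod q))) = ω ^ x := by
    intro x
    have h1 : (-((μ : ZMod q) * (x : ZMod q))) = ((-((μ : ℤ) * (x : ℤ)) : ℤ) : ZMod q) := by
      push_cast
      ring
    rw [h1, ZMod.stdAddChar_coe, hω, ← Complex.exp_nat_mul, hθ]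
    congr 1
    push_cast
    ring
  have hsum : hatI q A B (μ : ZMod q) = ∑ x ∈ Finset.Ioc A B, ω ^ x := by
    unfold hatI
    exact Finset.sum_congr rfl fun x _ => hterm x
  have hnω : ‖ω‖ = 1 := by
    rw [hω, mul_comm, Complex.norm_exp_ofReal_mul_I]
  have hg := geom ω A B hAB
  have hnum : ‖ω - 1‖ * ‖∑ x ∈ Finset.Ioc A B, ω ^ x‖ ≤ 2 := by
    rw [← norm_mul, hg]
    refine (norm_sub_le _ _).trans ?_
    rw [norm_pow, norm_pow, hnω, one_pow, one_pow]
    norm_num
  have hden : ‖ω - 1‖ = 2 * |Real.sin (Real.pi * μ / q)| := by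
    rw [hω, Complex.norm_exp_I_mul_ofReal_sub_one, norm_mul, Real.norm_eq_abs, Real.norm_eq_abs,
      abs_of_pos (by norm_num : (0 : ℝ) < 2)]
    congr 1
    rw [hθ, show -(2 * Real.pi * μ / q) / 2 = -(Real.pi * (μ : ℝ) / q) by ring, Real.sin_neg,
      abs_neg]
  have hqμ : (0 : ℝ) < q - μ := by linarith
  have hX : (0 : ℝ) < 1 / (μ : ℝ) := by positivity
  have hY : (0 : ℝ) < 1 / ((q : ℝ) - μ) := by positivity
  have hlow : 2 ≤ ‖ω - 1‖ * ((q : ℝ) / 2 * (1 / (μ : ℝ) + 1 / ((q : ℝ) - μ))) := by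
    rw [hden]
    rcases sin_lower q μ hμ hμq' with h | h
    · have h' : 2 * (μ : ℝ) / q ≤ |Real.sin (Real.pi * μ / q)| := h.trans (le_abs_self _)
      calc (2 : ℝ) = 2 * (2 * (μ : ℝ) / q) * ((q : ℝ) / 2 * (1 / (μ : ℝ))) := by
            field_simp
        _ ≤ 2 * |Real.sin (Real.pi * μ / q)| * ((q : ℝ) / 2 * (1 / (μ : ℝ) + 1 / ((q : ℝ) - μ))) := by
            gcongr
            linarith
    · have h' : 2 * ((q : ℝ) - μ) / q ≤ |Real.sin (Real.pi * μ / q)| := h.trans (le_abs_self _)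
      calc (2 : ℝ) = 2 * (2 * ((q : ℝ) - μ) / q) * ((q : ℝ) / 2 * (1 / ((q : ℝ) - μ))) := by
            field_simp
        _ ≤ 2 * |Real.sin (Real.pi * μ / q)| * ((q : ℝ) / 2 * (1 / (μ : ℝ) + 1 / ((q : ℝ) - μ))) := by
            gcongr
            linarith
  have hpos : 0 < ‖ω - 1‖ := by
    rcases (norm_nonneg (ω - 1)).eq_or_lt with h | h
    · rw [← h, zero_mul] at hlow
      norm_num at hlow
    · exact h
  rw [hsum]
  exact le_of_mul_le_mul_left (hnum.trans hlow) hpos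

end Pool.Agent.Work.MP_122e00_nt.WRK
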