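import Pool.Agent.Work.MP_122e00_nt.KW.All
import Pool.Agent.Work.MP_122e00_nt.WR.StmtsD
import Pool.Agent.Work.MP_122e00_nt.WR.ItemK1
import Pool.Agent.Work.MP_122e00_nt.WR.ItemK2
import Pool.Agent.Work.MP_122e00_nt.WR.ItemK3
import Pool.Agent.Work.MP_122e00_nt.WR.ItemK4
import Pool.Agent.Work.MP_122e00_nt.WR.ItemK5
import Pool.Agent.Work.MP_122e00_nt.WR.ItemK6
import Pool.Agent.Work.MP_122e00_nt.WR.ItemK7
import Pool.Agent.Work.MP_122e00_nt.WR.ItemK8
import Pool.Agent.Work.MP_122e00_nt.WR.ItemK9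
import Pool.Agent.Work.MP_122e00_nt.WR.ItemK10
import Pool.Agent.Work.MP_122e00_nt.WR.ItemK11
import Pool.Agent.Work.MP_122e00_nt.WR.ItemK12
import Pool.Agent.Work.MP_122e00_nt.WR.ItemK13
import Pool.Agent.Work.MP_122e00_nt.WR.ItemC0
import Pool.Agent.Work.MP_122e00_nt.WR.ItemC1
import Pool.Agent.Work.MP_122e00_nt.WR.ItemC2
import Pool.Agent.Work.MP_122e00_nt.WR.ItemC3
import Pool.Agent.Work.MP_122e00_nt.WR.ItemC4
import Pool.Agent.Work.MP_122e00_nt.WR.ItemC5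
import Pool.Agent.Work.MP_122e00_nt.WR.ItemC6
import Pool.Agent.Work.MP_122e00_nt.WR.ItemC7
import Pool.Agent.Work.MP_122e00_nt.WR.ItemD1
import Pool.Agent.Work.MP_122e00_nt.WR.ItemD2
import Pool.Agent.Work.MP_122e00_nt.WR.ItemD3
import Pool.Agent.Work.MP_122e00_nt.WR.ItemD4
import Pool.Agent.Work.MP_122e00_nt.WR.ItemD5
import Pool.Agent.Work.MP_122e00_nt.Bd.B45

set_option autoImplicit false

/-!
# The Weil region, parts K + C + D assembled: the box theorem, without hypotheses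
-/

namespace Pool.Agent.Work.MP_122e00_nt.WRK

/-- The Weil bound at primes (helper43's library KW). -/
theorem weilKW : claimWeil := fun p _ a b ha hb => KW.weilP p a b ha hb

/-- The bound for the sums `KK`, all moduli. -/
theorem kbd (h : ℕ) (hh : h ≠ 0) (q : ℕ) (hq : 1 ≤ q) :
    ∃ r : ℕ, 1 ≤ r ∧ r * r ∣ q ∧ KBd h q r :=
  prfK6 h hh (prfK3 prfK1 prfK2 h) (prfK4 weilKW h) (prfK5 h) q hq

/-- The two-dimensional completion. -/
theorem km : claimKM := prfK13 kbd prfK10 prfK11 (prfK12 prfK7 prfK8 prfK9)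

/-- The count theorem with arbitrary coefficients. -/
theorem wc : claimWC :=
  prfC7 (prfC3 (prfC2 prfC0 (prfC1 km))) prfC4 prfC5 prfC6

/-- THE BOX THEOREM. -/
theorem stBox : WR.StBox :=
  prfD5 (prfD4 prfD2 (prfD1 wc) (prfD3 prfD2 Two.pw))

end Pool.Agent.Work.MP_122e00_nt.WRK
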