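import Pool.Agent.Work.MP_122e00_nt.WR.StmtsV

set_option autoImplicit false

/-!
# The Weil region, part V: the exact proportion for `r = 3`
-/

namespace Pool.Agent.Work.MP_122e00_nt.WR

open Finset MeasureTheory
open scoped ENNReal

namespace IV3

theorem closed_DD (n : ℕ) : IsClosed (DD n) := by
  have h1 : IsClosed {p : ℝ × (Fin n → ℝ) | 1 / 2 ≤ p.1} := isClosed_le continuous_const
    continuous_fst
  have h2 : IsClosed {p : ℝ × (Fin n → ℝ) | ∀ j, 0 ≤ p.2 j} := by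
    rw [Set.setOf_forall]
    exact isClosed_iInter fun j => isClosed_le continuous_const (by fun_prop)
  have h3 : IsClosed {p : ℝ × (Fin n → ℝ) | ∀ j, p.2 j ≤ p.1 - ∑ j, p.2 j} := by
    rw [Set.setOf_forall]
    exact isClosed_iInter fun j => isClosed_le (by fun_prop) (by fun_prop)
  have h4 : IsClosed {p : ℝ × (Fin n → ℝ) | 2 * p.1 - 1 ≤ ∑ j, p.2 j} :=
    isClosed_le (by fun_prop) (by fun_prop)
  have h5 : IsClosed {p : ℝ × (Fin n → ℝ) | ∑ j, p.2 j ≤ p.1} :=
    isClosed_le (by fun_prop) (by fun_prop)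
  have h6 := h1.inter (h2.inter (h3.inter (h4.inter h5)))
  exact h6

theorem closed_TB (n : ℕ) : IsClosed (TB n) := by
  have h1 : IsClosed {q : (ℝ × (Fin n → ℝ)) × (ℝ × (Fin n → ℝ)) | q.1 ∈ DD n} :=
    (closed_DD n).preimage continuous_fst
  have h2 : IsClosed {q : (ℝ × (Fin n → ℝ)) × (ℝ × (Fin n → ℝ)) | q.2 ∈ DD n} :=
    (closed_DD n).preimage continuous_snd
  have h3 : IsClosed {q : (ℝ × (Fin n → ℝ)) × (ℝ × (Fin n → ℝ)) |
      ∑ j, q.1.2 j ≤ tt q.2.1} := by
    unfold tt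
    exact isClosed_le (by fun_prop) (by fun_prop)
  have h6 := h1.inter (h2.inter h3)
  exact h6

end IV3

theorem pr_V3 (hVa : StVa) (hVc : StVc) (hVk : StVk) (hVl : StVl) : StV3 := by
  intro i0
  have h1 := measure_union_add_inter (μ := (volume : Measure ((ℝ × (Fin 1 → ℝ)) ×
    (ℝ × (Fin 1 → ℝ))))) (TA 1) (IV3.closed_TB 1).measurableSet
  have hk : volume (TA 1) = ENNReal.ofReal (1 / 6144) := hVk
  have hl : volume (TA 1 ∩ TB 1) = ENNReal.ofReal (3 / 28672) := hVl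
  rw [hVc 1, hk, hl] at h1
  have h2 : (volume (TA 1 ∪ TB 1)).toReal = 19 / 86016 := by
    have h3 : volume (TA 1 ∪ TB 1) ≠ ∞ := by
      intro h4
      rw [h4, top_add] at h1
      exact (ENNReal.add_ne_top.2 ⟨ENNReal.ofReal_ne_top, ENNReal.ofReal_ne_top⟩) h1.symm
    have h5 := congrArg ENNReal.toReal h1
    rw [ENNReal.toReal_add h3 ENNReal.ofReal_ne_top, ENNReal.toReal_add ENNReal.ofReal_ne_top
      ENNReal.ofReal_ne_top, ENNReal.toReal_ofReal (by norm_num),
      ENNReal.toReal_ofReal (by norm_num)] at h5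
    linarith
  unfold kap
  rw [Measure.real, hVa 1 i0, h2]
  norm_num [Nat.factorial]

end Pool.Agent.Work.MP_122e00_nt.WR
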