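import Pool.Agent.Work.MP_122e00_nt.WR.StmtsV

set_option autoImplicit false

/-!
# The Weil region, item V4: the proportion for `r = 4`
-/

namespace Pool.Agent.Work.MP_122e00_nt.WR

open Finset MeasureTheory
open scoped ENNReal

namespace IV4

lemma closed_DD (n : ℕ) : IsClosed (DD n) := by
  have e : DD n = {p : ℝ × (Fin n → ℝ) | 1 / 2 ≤ p.1} ∩ ((⋂ j, {p : ℝ × (Fin n → ℝ) | 0 ≤ p.2 j}) ∩
      ((⋂ j, {p : ℝ × (Fin n → ℝ) | p.2 j ≤ p.1 - ∑ j, p.2 j}) ∩
      ({p : ℝ × (Fin n → ℝ) | 2 * p.1 - 1 ≤ ∑ j, p.2 j} ∩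
        {p : ℝ × (Fin n → ℝ) | ∑ j, p.2 j ≤ p.1}))) := by
    ext p
    simp only [DD, Set.mem_setOf_eq, Set.mem_inter_iff, Set.mem_iInter]
  rw [e]
  refine IsClosed.inter (isClosed_le (by fun_prop) (by fun_prop)) (IsClosed.inter
    (isClosed_iInter fun j => isClosed_le (by fun_prop) (by fun_prop)) (IsClosed.inter
    (isClosed_iInter fun j => isClosed_le (by fun_prop) (by fun_prop)) (IsClosed.inter
    (isClosed_le (by fun_prop) (by fun_prop)) (isClosed_le (by fun_prop) (by fun_prop)))))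

lemma closed_TB (n : ℕ) : IsClosed (TB n) := by
  have e : TB n = (Prod.fst ⁻¹' DD n) ∩ ((Prod.snd ⁻¹' DD n) ∩
      {q : (ℝ × (Fin n → ℝ)) × (ℝ × (Fin n → ℝ)) | ∑ j, q.1.2 j ≤ tt q.2.1}) := by
    ext q
    simp only [TB, Set.mem_setOf_eq, Set.mem_inter_iff, Set.mem_preimage]
  rw [e]
  refine IsClosed.inter ((closed_DD n).preimage continuous_fst) (IsClosed.inter
    ((closed_DD n).preimage continuous_snd) (isClosed_le (by fun_prop) ?_))
  unfold tt
  fun_prop

end IV4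

open IV4 in
theorem pr_V4 (hVa : StVa) (hVc : StVc) (hVm : StVm) (hVn : StVn) : StV4 := by
  intro i0
  have h1 : volume (TD i0 0) = volume (TA 2 ∪ TB 2) := hVa 2 i0
  have h2 := measure_union_add_inter (μ := volume) (TA 2) (closed_TB 2).measurableSet
  rw [hVc 2, hVm, hVn] at h2
  have hfin : volume (TA 2 ∪ TB 2) ≠ ⊤ := by
    intro h
    rw [h, top_add, ← ENNReal.ofReal_add (by norm_num) (by norm_num)] at h2
    exact ENNReal.ofReal_ne_top h2.symm
  have h3 : volume.real (TD i0 0) = 2 * (71 / 14929920) - 3487 / 2023096320 := by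
    rw [Measure.real, h1]
    have h4 := congrArg ENNReal.toReal h2
    rw [ENNReal.toReal_add hfin ENNReal.ofReal_ne_top,
      ENNReal.toReal_add ENNReal.ofReal_ne_top ENNReal.ofReal_ne_top,
      ENNReal.toReal_ofReal (by norm_num), ENNReal.toReal_ofReal (by norm_num)] at h4
    linarith
  unfold kap
  rw [h3]
  norm_num [Nat.factorial]

end Pool.Agent.Work.MP_122e00_nt.WR
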