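import Pool.Agent.Work.MP_122e00_nt.WR.StmtsV

set_option autoImplicit false

/-!
# Item Vb: Tonelli for the first set
-/

namespace Pool.Agent.Work.MP_122e00_nt.WR

open Finset MeasureTheory
open scoped ENNReal

namespace IVb

theorem mDD (n : ℕ) : MeasurableSet (DD n) := by
  have h : DD n = {p : ℝ × (Fin n → ℝ) | 1 / 2 ≤ p.1} ∩ ((⋂ j, {p | 0 ≤ p.2 j}) ∩
      ((⋂ j, {p | p.2 j ≤ p.1 - ∑ j, p.2 j}) ∩ ({p | 2 * p.1 - 1 ≤ ∑ j, p.2 j} ∩
        {p | ∑ j, p.2 j ≤ p.1}))) := by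
    ext p
    simp [DD]
  rw [h]
  refine IsClosed.measurableSet ?_
  refine (isClosed_le (by fun_prop) (by fun_prop)).inter
    ((isClosed_iInter fun j => isClosed_le (by fun_prop) (by fun_prop)).inter
    ((isClosed_iInter fun j => isClosed_le (by fun_prop) (by fun_prop)).inter
    ((isClosed_le (by fun_prop) (by fun_prop)).inter (isClosed_le (by fun_prop) (by fun_prop)))))

theorem mSl (n : ℕ) (τ : ℝ) :
    MeasurableSet {p : ℝ × (Fin n → ℝ) | p ∈ DD n ∧ ∑ j, p.2 j ≤ τ} := by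
  have h : IsClosed {p : ℝ × (Fin n → ℝ) | ∑ j, p.2 j ≤ τ} :=
    isClosed_le (by fun_prop) (by fun_prop)
  exact (mDD n).inter h.measurableSet

theorem mTA (n : ℕ) : MeasurableSet (TA n) := by
  have h : TA n = (Prod.fst ⁻¹' DD n) ∩ ((Prod.snd ⁻¹' DD n) ∩
      {q : (ℝ × (Fin n → ℝ)) × (ℝ × (Fin n → ℝ)) | ∑ j, q.2.2 j ≤ 1 - 3 / 2 * q.1.1}) := by
    ext q
    simp [TA, tt]
  rw [h]
  exact ((mDD n).preimage measurable_fst).inter (((mDD n).preimage measurable_snd).inter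
    (isClosed_le (by fun_prop) (by fun_prop)).measurableSet)

/-- The measure of the second factor. -/
theorem vol2 (n : ℕ) (τ : ℝ) :
    volume {p : ℝ × (Fin n → ℝ) | p ∈ DD n ∧ ∑ j, p.2 j ≤ τ} = ∫⁻ σ' : ℝ, WW n σ' τ := by
  rw [Measure.volume_eq_prod, Measure.prod_apply (mSl n τ)]
  rfl

theorem le_one {n : ℕ} {σ : ℝ} {z : Fin n → ℝ} (h : (σ, z) ∈ DD n) : ∑ j, z j ≤ 1 := by
  obtain ⟨_, _, _, h4, h5⟩ := h
  simp only at h4 h5
  linarith

end IVb

open IVb in
theorem pr_Vb : StVb := by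
  intro n
  rw [Measure.volume_eq_prod, Measure.prod_apply (mTA n), Measure.volume_eq_prod,
    lintegral_prod _ (measurable_measure_prodMk_left (mTA n)).aemeasurable]
  refine lintegral_congr fun σ => ?_
  have e : ∀ z : Fin n → ℝ, volume (Prod.mk (σ, z) ⁻¹' TA n) =
      ({z : Fin n → ℝ | (σ, z) ∈ DD n ∧ ∑ j, z j ≤ 1}.indicator
        fun _ => ∫⁻ σ' : ℝ, WW n σ' (tt σ)) z := by
    intro z
    by_cases h : (σ, z) ∈ DD n
    · have hm : z ∈ {z : Fin n → ℝ | (σ, z) ∈ DD n ∧ ∑ j, z j ≤ 1} := ⟨h, le_one h⟩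
      rw [Set.indicator_of_mem hm, ← vol2]
      congr 1
      ext p
      constructor
      · intro hp
        exact ⟨hp.2.1, hp.2.2⟩
      · intro hp
        exact ⟨h, hp.1, hp.2⟩
    · have hn : z ∉ {z : Fin n → ℝ | (σ, z) ∈ DD n ∧ ∑ j, z j ≤ 1} := fun h' => h h'.1
      rw [Set.indicator_of_notMem hn]
      have : Prod.mk (σ, z) ⁻¹' TA n = ∅ := by
        ext p
        constructor
        · intro hp
          exact absurd hp.1 h
        · intro hp
          exact absurd hp (Set.notMem_empty _)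
      rw [this, measure_empty]
  rw [← Measure.volume_eq_prod]
  simp only [e]
  rw [lintegral_indicator_const, mul_comm]
  · rfl
  · exact (mSl n 1).preimage measurable_prodMk_left

end Pool.Agent.Work.MP_122e00_nt.WR
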