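import Pool.Agent.Work.MP_122e00_nt.WR.StmtsV

set_option autoImplicit false

namespace Pool.Agent.Work.MP_122e00_nt.WR

open Finset MeasureTheory
open scoped ENNReal

namespace IVc

theorem TB_eq (n : ℕ) : TB n =
    (MeasurableEquiv.prodComm (α := ℝ × (Fin n → ℝ)) (β := ℝ × (Fin n → ℝ))) ⁻¹' (TA n) := by
  ext q
  constructor
  · intro h
    exact ⟨h.2.1, h.1, h.2.2⟩
  · intro h
    exact ⟨h.2.1, h.1, h.2.2⟩

end IVc

theorem pr_Vc : StVc := by
  intro n
  rw [IVc.TB_eq]
  exact (Measure.measurePreserving_swap (μ := (volume : Measure (ℝ × (Fin n → ℝ))))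
    (ν := (volume : Measure (ℝ × (Fin n → ℝ))))).measure_preimage_equiv (f := MeasurableEquiv.prodComm) (TA n)

end Pool.Agent.Work.MP_122e00_nt.WR
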