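import Pool.Agent.Work.MP_122e00_nt.WR.StmtsV
import Pool.Agent.Work.MP_122e00_nt.WR.I_Vb

set_option autoImplicit false

namespace Pool.Agent.Work.MP_122e00_nt.WR

open Finset MeasureTheory
open scoped ENNReal

namespace IVd

open IVb

/-- the second set of conditions, for fixed `(σ, z)` -/
theorem mS (n : ℕ) : MeasurableSet (TA n ∩ TB n) := by
  have h : TB n = (Prod.fst ⁻¹' DD n) ∩ ((Prod.snd ⁻¹' DD n) ∩
      {q : (ℝ × (Fin n → ℝ)) × (ℝ × (Fin n → ℝ)) | ∑ j, q.1.2 j ≤ 1 - 3 / 2 * q.2.1}) := by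
    ext q
    simp [TB, tt]
  refine (mTA n).inter ?_
  rw [h]
  exact ((mDD n).preimage measurable_fst).inter (((mDD n).preimage measurable_snd).inter
    (isClosed_le (by fun_prop) (by fun_prop)).measurableSet)

/-- joint measurability of a slice set -/
theorem mSl3 (n : ℕ) : MeasurableSet {p : (ℝ × ℝ) × (Fin n → ℝ) | (p.1.1, p.2) ∈ DD n ∧
    ∑ j, p.2 j ≤ p.1.2} := by
  have h2 : IsClosed {p : (ℝ × ℝ) × (Fin n → ℝ) | ∑ j, p.2 j ≤ p.1.2} :=
    isClosed_le (by fun_prop) (by fun_prop)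
  have hf : Measurable (fun p : (ℝ × ℝ) × (Fin n → ℝ) => (p.1.1, p.2)) := by fun_prop
  exact ((mDD n).preimage hf).inter h2.measurableSet

theorem mWW (n : ℕ) : Measurable (fun p : ℝ × ℝ => WW n p.1 p.2) :=
  measurable_measure_prodMk_left (mSl3 n)

/-- for fixed `σ`, the inner double integral -/
theorem fib (n : ℕ) (σ : ℝ) (z : Fin n → ℝ) :
    volume (Prod.mk (σ, z) ⁻¹' (TA n ∩ TB n)) =
      ∫⁻ σ' : ℝ, ({p : ℝ × (Fin n → ℝ) | (σ, p.2) ∈ DD n ∧ ∑ j, p.2 j ≤ tt p.1}.indicator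
        (fun p => WW n p.1 (tt σ)) (σ', z)) := by
  rw [Measure.volume_eq_prod, Measure.prod_apply ((mS n).preimage measurable_prodMk_left)]
  refine lintegral_congr fun σ' => ?_
  by_cases h : (σ, z) ∈ DD n ∧ ∑ j, z j ≤ tt σ'
  · have hm : (σ', z) ∈ {p : ℝ × (Fin n → ℝ) | (σ, p.2) ∈ DD n ∧ ∑ j, p.2 j ≤ tt p.1} := h
    rw [Set.indicator_of_mem hm]
    unfold WW
    congr 1
    ext z'
    constructor
    · intro hp
      exact ⟨hp.1.2.1, hp.1.2.2⟩
    · intro hp
      exact ⟨⟨h.1, hp.1, hp.2⟩, ⟨h.1, hp.1, h.2⟩⟩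
  · have hm : (σ', z) ∉ {p : ℝ × (Fin n → ℝ) | (σ, p.2) ∈ DD n ∧ ∑ j, p.2 j ≤ tt p.1} := h
    rw [Set.indicator_of_notMem hm]
    have : Prod.mk σ' ⁻¹' (Prod.mk (σ, z) ⁻¹' (TA n ∩ TB n)) = ∅ := by
      ext p
      constructor
      · intro hp
        exact absurd ⟨hp.1.1, hp.2.2.2⟩ h
      · intro hp
        exact absurd hp (Set.notMem_empty _)
    rw [this, measure_empty]

end IVd

open IVb IVd in
theorem pr_Vd : StVd := by
  intro n
  have hmtt : Measurable tt := by unfold tt; fun_prop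
  rw [Measure.volume_eq_prod, Measure.prod_apply (mS n), Measure.volume_eq_prod,
    lintegral_prod _ (measurable_measure_prodMk_left (mS n)).aemeasurable]
  refine lintegral_congr fun σ => ?_
  rw [← Measure.volume_eq_prod]
  have hms : MeasurableSet {p : ℝ × (Fin n → ℝ) | (σ, p.2) ∈ DD n ∧ ∑ j, p.2 j ≤ tt p.1} := by
    have hf : Measurable (fun p : ℝ × (Fin n → ℝ) => ((σ, tt p.1), p.2)) :=
      (measurable_const.prodMk (hmtt.comp measurable_fst)).prodMk measurable_snd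
    exact (mSl3 n).preimage hf
  have hmf : Measurable ({p : ℝ × (Fin n → ℝ) | (σ, p.2) ∈ DD n ∧ ∑ j, p.2 j ≤ tt p.1}.indicator
      (fun p => WW n p.1 (tt σ))) := by
    refine Measurable.indicator ?_ hms
    have hg : Measurable (fun p : ℝ × (Fin n → ℝ) => (p.1, tt σ)) := measurable_fst.prodMk measurable_const
    exact (mWW n).comp hg
  simp only [fib]
  rw [lintegral_lintegral_swap]
  · refine lintegral_congr fun σ' => ?_
    have e : ∀ z : Fin n → ℝ,
        ({p : ℝ × (Fin n → ℝ) | (σ, p.2) ∈ DD n ∧ ∑ j, p.2 j ≤ tt p.1}.indicator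
          (fun p => WW n p.1 (tt σ)) (σ', z)) =
        ({z : Fin n → ℝ | (σ, z) ∈ DD n ∧ ∑ j, z j ≤ tt σ'}.indicator
          (fun _ => WW n σ' (tt σ))) z := fun z => rfl
    simp only [e]
    rw [lintegral_indicator_const, mul_comm]
    · rfl
    · exact (mSl n (tt σ')).preimage measurable_prodMk_left
  · have hsw : Measurable (fun p : (Fin n → ℝ) × ℝ => (p.2, p.1)) := measurable_swap
    exact (hmf.comp hsw).aemeasurable

end Pool.Agent.Work.MP_122e00_nt.WR
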