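import Pool.Agent.Work.MP_122e00_nt.WR.StmtsV

/-!
# Item Ve of the Weil region: the slices for `n = 1`
-/

set_option autoImplicit false

namespace Pool.Agent.Work.MP_122e00_nt.WR

open Finset MeasureTheory
open scoped ENNReal

/-- Item Ve. -/
theorem pr_Ve : StVe := by
  intro σ τ
  unfold WW
  by_cases hσ : 1 / 2 ≤ σ
  · rw [if_pos hσ]
    have hset : {z : Fin 1 → ℝ | (σ, z) ∈ DD 1 ∧ ∑ j, z j ≤ τ} =
        (MeasurableEquiv.funUnique (Fin 1) ℝ) ⁻¹' Set.Icc (2 * σ - 1) (min (σ / 2) τ) := by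
      ext z
      simp only [DD, Set.mem_ofPred_eq, Set.mem_preimage, Set.mem_Icc, le_min_iff,
        MeasurableEquiv.funUnique_apply, Fin.default_eq_zero, Fin.sum_univ_one, Fin.forall_fin_one]
      constructor
      · rintro ⟨⟨_, _, h2, h3, _⟩, h5⟩
        exact ⟨h3, by linarith, h5⟩
      · rintro ⟨h1, h2, h3⟩
        exact ⟨⟨hσ, by linarith, by linarith, h1, by linarith⟩, h3⟩
    rw [hset]
    exact ((volume_preserving_funUnique (Fin 1) ℝ).measure_preimage
      measurableSet_Icc.nullMeasurableSet).trans Real.volume_Icc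
  · rw [if_neg hσ]
    have hset : {z : Fin 1 → ℝ | (σ, z) ∈ DD 1 ∧ ∑ j, z j ≤ τ} = ∅ := by
      ext z
      simp only [DD, Set.mem_ofPred_eq, Set.mem_empty_iff_false, iff_false]
      rintro ⟨⟨h1, _⟩, _⟩
      exact hσ h1
    rw [hset, measure_empty]

end Pool.Agent.Work.MP_122e00_nt.WR
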