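import Pool.Agent.Work.MP_122e00_nt.WR.StmtsV

set_option autoImplicit false

/-!
# The Weil region, item Vf: slices for `n = 2`, small `τ`
-/

namespace Pool.Agent.Work.MP_122e00_nt.WR

open Finset MeasureTheory
open scoped ENNReal

namespace IVf

/-- The image of the slice in the coordinates `(z₁, z₁ + z₂)`. -/
def SS (a c : ℝ) : Set (ℝ × ℝ) := {p | 0 ≤ p.1 ∧ p.1 ≤ p.2 ∧ a ≤ p.2 ∧ p.2 ≤ c}

theorem isClosed_SS (a c : ℝ) : IsClosed (SS a c) :=
  (isClosed_le continuous_const continuous_fst).inter
    ((isClosed_le continuous_fst continuous_snd).inter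
      ((isClosed_le continuous_const continuous_snd).inter
        (isClosed_le continuous_snd continuous_const)))

theorem vol_SS (a c : ℝ) (ha : 0 ≤ a) (hac : a ≤ c) :
    volume (SS a c) = ENNReal.ofReal ((c ^ 2 - a ^ 2) / 2) := by
  have h1 : volume (SS a c) = ∫⁻ y : ℝ, volume ((fun x : ℝ => (x, y)) ⁻¹' (SS a c)) := by
    rw [Measure.volume_eq_prod, Measure.prod_apply_symm (isClosed_SS a c).measurableSet]
  have h2 : (fun y : ℝ => volume ((fun x : ℝ => (x, y)) ⁻¹' (SS a c))) =
      (Set.Icc a c).indicator fun y => ENNReal.ofReal y := by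
    funext y
    by_cases hy : y ∈ Set.Icc a c
    · rw [Set.indicator_of_mem hy]
      have h3 : (fun x : ℝ => (x, y)) ⁻¹' (SS a c) = Set.Icc 0 y := by
        ext x
        constructor
        · intro h
          exact ⟨h.1, h.2.1⟩
        · intro h
          exact ⟨h.1, h.2, hy.1, hy.2⟩
      rw [h3, Real.volume_Icc, sub_zero]
    · rw [Set.indicator_of_notMem hy]
      have h3 : (fun x : ℝ => (x, y)) ⁻¹' (SS a c) = ∅ := by
        ext x
        constructor
        · intro h
          exact absurd ⟨h.2.2.1, h.2.2.2⟩ hy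
        · intro h
          exact absurd h (Set.notMem_empty x)
      rw [h3, measure_empty]
  rw [h1, h2, lintegral_indicator measurableSet_Icc,
    ← ofReal_integral_eq_lintegral_ofReal]
  · rw [integral_Icc_eq_integral_Ioc, ← intervalIntegral.integral_of_le hac, integral_id]
  · have h4 : ContinuousOn (fun y : ℝ => y) (Set.Icc a c) := continuous_id.continuousOn
    exact h4.integrableOn_Icc (μ := volume)
  · refine (ae_restrict_iff' measurableSet_Icc).mpr (Filter.Eventually.of_forall fun y hy => ?_)
    exact ha.trans hy.1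

/-- The change of coordinates. -/
noncomputable def G : (Fin 2 → ℝ) → ℝ × ℝ := fun z => (z 0, z 0 + z 1)

theorem G_mp : MeasurePreserving G volume volume := by
  have h1 := volume_preserving_finTwoArrow ℝ
  have h2 := measurePreserving_prod_add (volume : Measure ℝ) (volume : Measure ℝ)
  exact h2.comp h1

end IVf

open IVf

theorem pr_Vf : StVf := by
  intro σ τ hτ
  by_cases h : 1 / 2 ≤ σ ∧ 2 * σ - 1 ≤ τ
  · rw [if_pos h]
    obtain ⟨h1, h2⟩ := h
    have h3 : {z : Fin 2 → ℝ | (σ, z) ∈ DD 2 ∧ ∑ j, z j ≤ τ} = G ⁻¹' (SS (2 * σ - 1) τ) := by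
      ext z
      constructor
      · rintro ⟨⟨_, h4, _, h6, _⟩, h8⟩
        change (∀ j, 0 ≤ z j) at h4
        change 2 * σ - 1 ≤ ∑ j, z j at h6
        rw [Fin.sum_univ_two] at h6 h8
        have h9 := h4 1
        exact ⟨h4 0, by change z 0 ≤ z 0 + z 1; linarith, h6, h8⟩
      · rintro ⟨h4, h5, h6, h7⟩
        change 0 ≤ z 0 at h4
        change z 0 ≤ z 0 + z 1 at h5
        change 2 * σ - 1 ≤ z 0 + z 1 at h6
        change z 0 + z 1 ≤ τ at h7
        refine ⟨⟨h1, ?_, ?_, ?_, ?_⟩, ?_⟩
        · intro j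
          change 0 ≤ z j
          fin_cases j
          · exact h4
          · change 0 ≤ z 1
            linarith
        · intro j
          change z j ≤ σ - ∑ j, z j
          rw [Fin.sum_univ_two]
          fin_cases j
          · change z 0 ≤ σ - (z 0 + z 1)
            linarith
          · change z 1 ≤ σ - (z 0 + z 1)
            linarith
        · change 2 * σ - 1 ≤ ∑ j, z j
          rw [Fin.sum_univ_two]
          exact h6
        · change ∑ j, z j ≤ σ
          rw [Fin.sum_univ_two]
          linarith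
        · rw [Fin.sum_univ_two]
          exact h7
    rw [WW, h3, G_mp.measure_preimage (isClosed_SS _ _).measurableSet.nullMeasurableSet,
      vol_SS (2 * σ - 1) τ (by linarith) h2]
  · rw [if_neg h]
    have h3 : {z : Fin 2 → ℝ | (σ, z) ∈ DD 2 ∧ ∑ j, z j ≤ τ} = ∅ := by
      ext z
      constructor
      · rintro ⟨⟨h4, _, _, h6, _⟩, h8⟩
        exact absurd ⟨h4, le_trans h6 h8⟩ h
      · intro h'
        exact absurd h' (Set.notMem_empty z)
    rw [WW, h3, measure_empty]

end Pool.Agent.Work.MP_122e00_nt.WR
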