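import Pool.Agent.Work.MP_122e00_nt.WR.StmtsV

set_option autoImplicit false

/-!
# The Weil region, part V, item Vg: the slice of the fundamental domain for `n = 2`
-/

namespace Pool.Agent.Work.MP_122e00_nt.WR

open Finset MeasureTheory
open scoped ENNReal

namespace IVg

/-- The lower end of a slice. -/
noncomputable def lo (σ a : ℝ) : ℝ := max 0 (2 * σ - 1 - a)

/-- The upper end of a slice. -/
noncomputable def hi (σ a : ℝ) : ℝ := min (σ - 2 * a) ((σ - a) / 2)

/-- The slice as a subset of the plane. -/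
def SS (σ : ℝ) : Set (ℝ × ℝ) :=
  {p | 0 ≤ p.1 ∧ 0 ≤ p.2 ∧ 2 * p.1 + p.2 ≤ σ ∧ p.1 + 2 * p.2 ≤ σ ∧ 2 * σ - 1 ≤ p.1 + p.2}

lemma meas_SS (σ : ℝ) : MeasurableSet (SS σ) := by
  have h : SS σ = {p : ℝ × ℝ | 0 ≤ p.1} ∩ {p | 0 ≤ p.2} ∩ {p | 2 * p.1 + p.2 ≤ σ} ∩
      {p | p.1 + 2 * p.2 ≤ σ} ∩ {p | 2 * σ - 1 ≤ p.1 + p.2} := by
    ext p
    simp only [SS, Set.mem_ofPred_eq, Set.mem_inter_iff, and_assoc]
  rw [h]
  refine ((((measurableSet_le measurable_const measurable_fst).inter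
    (measurableSet_le measurable_const measurable_snd)).inter
    (measurableSet_le ?_ measurable_const)).inter
    (measurableSet_le ?_ measurable_const)).inter (measurableSet_le measurable_const ?_)
  · exact (measurable_fst.const_mul 2).add measurable_snd
  · exact measurable_fst.add (measurable_snd.const_mul 2)
  · exact measurable_fst.add measurable_snd

lemma slice (σ a : ℝ) :
    Prod.mk a ⁻¹' SS σ = if a ∈ Set.Icc 0 (σ / 2) then Set.Icc (lo σ a) (hi σ a) else ∅ := by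
  ext b
  by_cases ha : a ∈ Set.Icc 0 (σ / 2)
  · rw [if_pos ha]
    simp only [SS, Set.mem_preimage, Set.mem_ofPred_eq, Set.mem_Icc, lo, hi, max_le_iff, le_min_iff]
    constructor
    · rintro ⟨h3, h4, h5, h6, h7⟩
      refine ⟨⟨h4, by linarith⟩, by linarith, by linarith⟩
    · rintro ⟨⟨h3, h4⟩, h5, h6⟩
      exact ⟨ha.1, h3, by linarith, by linarith, by linarith⟩
  · rw [if_neg ha]
    simp only [SS, Set.mem_preimage, Set.mem_ofPred_eq, Set.mem_empty_iff_false, iff_false]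
    rintro ⟨h3, h4, h5, h6, h7⟩
    exact ha ⟨h3, by linarith⟩

lemma lo_le_hi {σ a : ℝ} (h2 : σ ≤ 2 / 3) (ha : a ∈ Set.Icc 0 (σ / 2)) :
    lo σ a ≤ hi σ a := by
  obtain ⟨h3, h4⟩ := ha
  unfold lo hi
  refine max_le (le_min (by linarith) (by linarith)) (le_min (by linarith) (by linarith))

lemma int_lin (u v p q : ℝ) :
    ∫ x in u..v, (p + q * x) = p * (v - u) + q * (v ^ 2 - u ^ 2) / 2 := by
  have h1 : IntervalIntegrable (fun _ : ℝ => p) volume u v :=
    continuous_const.intervalIntegrable _ _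
  have h2 : IntervalIntegrable (fun x : ℝ => q * x) volume u v :=
    (continuous_const.mul continuous_id).intervalIntegrable _ _
  rw [intervalIntegral.integral_add h1 h2, intervalIntegral.integral_const,
    intervalIntegral.integral_const_mul, integral_id, smul_eq_mul]
  ring

lemma cont_lo (σ : ℝ) : Continuous (lo σ) := by
  unfold lo
  fun_prop

lemma cont_hi (σ : ℝ) : Continuous (hi σ) := by
  unfold hi
  fun_prop

lemma int_hi {σ : ℝ} (h1 : 1 / 2 ≤ σ) : ∫ a in (0 : ℝ)..(σ / 2), hi σ a = σ ^ 2 / 6 := by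
  rw [← intervalIntegral.integral_add_adjacent_intervals (b := σ / 3)
    ((cont_hi σ).intervalIntegrable _ _) ((cont_hi σ).intervalIntegrable _ _)]
  have e1 : ∫ a in (0 : ℝ)..(σ / 3), hi σ a = ∫ a in (0 : ℝ)..(σ / 3), (σ / 2 + (-1 / 2) * a) := by
    refine intervalIntegral.integral_congr fun a ha => ?_
    rw [Set.uIcc_of_le (by linarith)] at ha
    simp only [hi]
    rw [min_eq_right (by linarith [ha.2])]
    ring
  have e2 : ∫ a in (σ / 3)..(σ / 2), hi σ a = ∫ a in (σ / 3)..(σ / 2), (σ + (-2) * a) := by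
    refine intervalIntegral.integral_congr fun a ha => ?_
    rw [Set.uIcc_of_le (by linarith)] at ha
    simp only [hi]
    rw [min_eq_left (by linarith [ha.1])]
    ring
  rw [e1, e2, int_lin, int_lin]
  ring

lemma int_lo {σ : ℝ} (h1 : 1 / 2 ≤ σ) (h2 : σ ≤ 2 / 3) :
    ∫ a in (0 : ℝ)..(σ / 2), lo σ a = (2 * σ - 1) ^ 2 / 2 := by
  rw [← intervalIntegral.integral_add_adjacent_intervals (b := 2 * σ - 1)
    ((cont_lo σ).intervalIntegrable _ _) ((cont_lo σ).intervalIntegrable _ _)]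
  have e1 : ∫ a in (0 : ℝ)..(2 * σ - 1), lo σ a =
      ∫ a in (0 : ℝ)..(2 * σ - 1), ((2 * σ - 1) + (-1) * a) := by
    refine intervalIntegral.integral_congr fun a ha => ?_
    rw [Set.uIcc_of_le (by linarith)] at ha
    simp only [lo]
    rw [max_eq_right (by linarith [ha.2])]
    ring
  have e2 : ∫ a in (2 * σ - 1)..(σ / 2), lo σ a = ∫ a in (2 * σ - 1)..(σ / 2), (0 + 0 * a) := by
    refine intervalIntegral.integral_congr fun a ha => ?_
    rw [Set.uIcc_of_le (by linarith)] at ha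
    simp only [lo]
    rw [max_eq_left (by linarith [ha.1])]
    ring
  rw [e1, e2, int_lin, int_lin]
  ring

lemma vol_SS {σ : ℝ} (h1 : 1 / 2 ≤ σ) (h2 : σ ≤ 2 / 3) :
    volume (SS σ) = ENNReal.ofReal (σ ^ 2 / 6 - (2 * σ - 1) ^ 2 / 2) := by
  have e0 : volume (SS σ) = ∫⁻ a : ℝ, volume (Prod.mk a ⁻¹' SS σ) :=
    Measure.prod_apply (meas_SS σ)
  have e1 : ∀ a : ℝ, volume (Prod.mk a ⁻¹' SS σ) =
      (Set.Icc 0 (σ / 2)).indicator (fun a => ENNReal.ofReal (hi σ a - lo σ a)) a := by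
    intro a
    rw [slice]
    by_cases ha : a ∈ Set.Icc 0 (σ / 2)
    · rw [if_pos ha, Set.indicator_of_mem ha, Real.volume_Icc]
    · rw [if_neg ha, Set.indicator_of_notMem ha, measure_empty]
  rw [e0, lintegral_congr e1, lintegral_indicator measurableSet_Icc]
  have hc : Continuous fun a => hi σ a - lo σ a := (cont_hi σ).sub (cont_lo σ)
  have e2 : ENNReal.ofReal (∫ a in Set.Icc 0 (σ / 2), (hi σ a - lo σ a)) =
      ∫⁻ a in Set.Icc 0 (σ / 2), ENNReal.ofReal (hi σ a - lo σ a) := by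
    refine ofReal_integral_eq_lintegral_ofReal (hc.integrableOn_Icc) ?_
    filter_upwards [ae_restrict_mem measurableSet_Icc] with a ha
    exact sub_nonneg.2 (lo_le_hi h2 ha)
  rw [← e2, integral_Icc_eq_integral_Ioc, ← intervalIntegral.integral_of_le (by linarith),
    intervalIntegral.integral_sub ((cont_hi σ).intervalIntegrable _ _)
      ((cont_lo σ).intervalIntegrable _ _), int_hi h1, int_lo h1 h2]

end IVg

open IVg in
theorem pr_Vg : StVg := by
  intro σ h1 h2
  have e : {z : Fin 2 → ℝ | (σ, z) ∈ DD 2 ∧ ∑ j, z j ≤ 1} =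
      (MeasurableEquiv.finTwoArrow : (Fin 2 → ℝ) ≃ᵐ ℝ × ℝ) ⁻¹' SS σ := by
    ext z
    simp only [DD, SS, Set.mem_ofPred_eq, Set.mem_preimage, Fin.sum_univ_two, Fin.forall_fin_two,
      MeasurableEquiv.finTwoArrow_apply]
    constructor
    · rintro ⟨⟨h3, ⟨h4, h5⟩, ⟨h6, h7⟩, h8, h9⟩, h10⟩
      exact ⟨h4, h5, by linarith, by linarith, h8⟩
    · rintro ⟨h3, h4, h5, h6, h7⟩
      refine ⟨⟨h1, ⟨h3, h4⟩, ⟨by linarith, by linarith⟩, h7, by linarith⟩, by linarith⟩
  unfold WW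
  rw [e, (volume_preserving_finTwoArrow ℝ).measure_preimage_equiv, vol_SS h1 h2]

end Pool.Agent.Work.MP_122e00_nt.WR
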