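import Pool.Agent.Work.MP_122e00_nt.WR.StmtsV

/-! Block WR, item Vh: polynomial integrals for `r = 3`. -/

namespace Pool.Agent.Work.MP_122e00_nt.WR

namespace IVh

/-- the integral of a cubic polynomial -/
theorem int3 (a b c0 c1 c2 c3 : ℝ) :
    (∫ x in a..b, (c0 + c1 * x + c2 * x ^ 2 + c3 * x ^ 3)) =
      (c0 * b + c1 * b ^ 2 / 2 + c2 * b ^ 3 / 3 + c3 * b ^ 4 / 4) -
        (c0 * a + c1 * a ^ 2 / 2 + c2 * a ^ 3 / 3 + c3 * a ^ 4 / 4) := by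
  have h := intervalIntegral.integral_eq_sub_of_hasDerivAt (a := a) (b := b)
    (f := fun x : ℝ => c0 * x + c1 * x ^ 2 / 2 + c2 * x ^ 3 / 3 + c3 * x ^ 4 / 4)
    (f' := fun x : ℝ => c0 + c1 * x + c2 * x ^ 2 + c3 * x ^ 3) ?_ ?_
  · exact h
  · intro x _
    have h0 : HasDerivAt (fun x : ℝ => c0 * x) (c0 * 1) x := (hasDerivAt_id' x).const_mul c0
    have h1 : HasDerivAt (fun x : ℝ => c1 * x ^ 2 / 2) (c1 * ((2 : ℕ) * x ^ (2 - 1)) / 2) x :=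
      ((hasDerivAt_pow 2 x).const_mul c1).div_const 2
    have h2 : HasDerivAt (fun x : ℝ => c2 * x ^ 3 / 3) (c2 * ((3 : ℕ) * x ^ (3 - 1)) / 3) x :=
      ((hasDerivAt_pow 3 x).const_mul c2).div_const 3
    have h3 : HasDerivAt (fun x : ℝ => c3 * x ^ 4 / 4) (c3 * ((4 : ℕ) * x ^ (4 - 1)) / 4) x :=
      ((hasDerivAt_pow 4 x).const_mul c3).div_const 4
    have h4 := ((h0.add h1).add h2).add h3
    refine h4.congr_deriv ?_
    push_cast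
    ring
  · exact (by fun_prop : Continuous fun x : ℝ => c0 + c1 * x + c2 * x ^ 2 + c3 * x ^ 3).intervalIntegrable a b

theorem innerI (x b : ℝ) :
    (∫ y in (1 / 2 : ℝ)..b, (2 - 2 * x - 3 / 2 * y) * (2 - 2 * y - 3 / 2 * x)) =
      ((4 - 7 * x + 3 * x ^ 2) * b + (-7 + 25 / 4 * x) * b ^ 2 / 2 + b ^ 3) -
        ((4 - 7 * x + 3 * x ^ 2) * (1 / 2) + (-7 + 25 / 4 * x) * (1 / 2) ^ 2 / 2 + (1 / 2) ^ 3) := by
  have e : (fun y : ℝ => (2 - 2 * x - 3 / 2 * y) * (2 - 2 * y - 3 / 2 * x)) =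
      fun y : ℝ => (4 - 7 * x + 3 * x ^ 2) + (-7 + 25 / 4 * x) * y + 3 * y ^ 2 + 0 * y ^ 3 := by
    funext y
    ring
  rw [e, int3]
  ring

end IVh

open IVh in
theorem pr_Vh : StVh := by
  refine ⟨?_, ?_, ?_⟩
  · have e : (fun x : ℝ => (1 - 3 / 2 * x) * ((1 - 3 / 2 * x) ^ 2 / 4)) =
        fun x : ℝ => 1 / 4 + (-(9 / 8)) * x + 27 / 16 * x ^ 2 + (-(27 / 32)) * x ^ 3 := by
      funext x
      ring
    rw [e, int3]
    norm_num
  · have e : (fun x : ℝ => ∫ y in (1 / 2 : ℝ)..(1 - 3 / 4 * x),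
        (2 - 2 * x - 3 / 2 * y) * (2 - 2 * y - 3 / 2 * x)) =
        fun x : ℝ => 1 / 4 + (-(37 / 32)) * x + 57 / 32 * x ^ 2 + (-(117 / 128)) * x ^ 3 := by
      funext x
      rw [innerI]
      ring
    rw [e, int3]
    norm_num
  · have e : (fun x : ℝ => ∫ y in (1 / 2 : ℝ)..(4 / 3 * (1 - x)),
        (2 - 2 * x - 3 / 2 * y) * (2 - 2 * y - 3 / 2 * x)) =
        fun x : ℝ => 25 / 108 + (-(305 / 288)) * x + 29 / 18 * x ^ 2 + (-(22 / 27)) * x ^ 3 := by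
      funext x
      rw [innerI]
      ring
    rw [e, int3]
    norm_num

end Pool.Agent.Work.MP_122e00_nt.WR
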