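import Pool.Agent.Work.MP_122e00_nt.WR.StmtsV

set_option autoImplicit false

/-!
# The Weil region, part V, item Vi: the real integrals for `r = 4`
-/

namespace Pool.Agent.Work.MP_122e00_nt.WR

open Finset MeasureTheory
open scoped ENNReal

namespace IVi

/-- the integral of a polynomial of degree 5 -/
theorem I5 (a b c0 c1 c2 c3 c4 c5 : ℝ) :
    ∫ x in a..b, (c0 + c1 * x + c2 * x ^ 2 + c3 * x ^ 3 + c4 * x ^ 4 + c5 * x ^ 5) =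
      c0 * (b - a) + c1 / 2 * (b ^ 2 - a ^ 2) + c2 / 3 * (b ^ 3 - a ^ 3) +
        c3 / 4 * (b ^ 4 - a ^ 4) + c4 / 5 * (b ^ 5 - a ^ 5) + c5 / 6 * (b ^ 6 - a ^ 6) := by
  refine (intervalIntegral.integral_eq_sub_of_hasDerivAt
    (f := fun x => c0 * x ^ 1 + c1 / 2 * x ^ 2 + c2 / 3 * x ^ 3 + c3 / 4 * x ^ 4 +
      c4 / 5 * x ^ 5 + c5 / 6 * x ^ 6) (fun x _ => ?_)
    (Continuous.intervalIntegrable (by fun_prop) _ _)).trans ?_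
  · have h := ((((((hasDerivAt_pow 1 x).const_mul c0).add
      ((hasDerivAt_pow 2 x).const_mul (c1 / 2))).add
      ((hasDerivAt_pow 3 x).const_mul (c2 / 3))).add
      ((hasDerivAt_pow 4 x).const_mul (c3 / 4))).add
      ((hasDerivAt_pow 5 x).const_mul (c4 / 5))).add
      ((hasDerivAt_pow 6 x).const_mul (c5 / 6))
    refine HasDerivAt.congr_deriv h ?_
    norm_num
    ring
  · ring

/-- the inner integral -/
theorem innerI (x u : ℝ) : ∫ y in (1 / 2 : ℝ)..u,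
    ((1 - 3 / 2 * y) ^ 2 - (2 * x - 1) ^ 2) / 2 * (((1 - 3 / 2 * x) ^ 2 - (2 * y - 1) ^ 2) / 2) =
      (1 - (2 * x - 1) ^ 2) * ((1 - 3 / 2 * x) ^ 2 - 1) / 4 * (u - 1 / 2) +
      (4 * (1 - (2 * x - 1) ^ 2) - 3 * ((1 - 3 / 2 * x) ^ 2 - 1)) / 4 / 2 * (u ^ 2 - (1 / 2) ^ 2) +
      (-4 * (1 - (2 * x - 1) ^ 2) - 12 + 9 / 4 * ((1 - 3 / 2 * x) ^ 2 - 1)) / 4 / 3 *
        (u ^ 3 - (1 / 2) ^ 3) +
      21 / 4 / 4 * (u ^ 4 - (1 / 2) ^ 4) + (-9) / 4 / 5 * (u ^ 5 - (1 / 2) ^ 5) +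
      0 / 6 * (u ^ 6 - (1 / 2) ^ 6) := by
  rw [← I5 (1 / 2) u ((1 - (2 * x - 1) ^ 2) * ((1 - 3 / 2 * x) ^ 2 - 1) / 4)
    ((4 * (1 - (2 * x - 1) ^ 2) - 3 * ((1 - 3 / 2 * x) ^ 2 - 1)) / 4)
    ((-4 * (1 - (2 * x - 1) ^ 2) - 12 + 9 / 4 * ((1 - 3 / 2 * x) ^ 2 - 1)) / 4)
    (21 / 4) ((-9) / 4) 0]
  refine intervalIntegral.integral_congr fun y _ => ?_
  ring

end IVi

open IVi

/-- **Vi** -/
theorem pr_Vi : StVi := by
  refine ⟨?_, ?_, ?_⟩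
  · have h : ∀ x : ℝ, (x ^ 2 / 6 - (2 * x - 1) ^ 2 / 2) * ((1 - 3 / 2 * x) ^ 3 / 6) =
        -1 / 12 + 17 / 24 * x + (-341) / 144 * x ^ 2 + 125 / 32 * x ^ 3 + (-51) / 16 * x ^ 4 +
          33 / 32 * x ^ 5 := fun x => by ring
    simp only [h]
    rw [I5]
    norm_num
  · have h : ∀ x : ℝ, (∫ y in (1 / 2 : ℝ)..(1 - 3 / 4 * x),
        ((1 - 3 / 2 * y) ^ 2 - (2 * x - 1) ^ 2) / 2 *
          (((1 - 3 / 2 * x) ^ 2 - (2 * y - 1) ^ 2) / 2)) =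
        -103 / 1280 + 263 / 384 * x + (-3545) / 1536 * x ^ 2 + 987 / 256 * x ^ 3 +
          (-13095) / 4096 * x ^ 4 + 10791 / 10240 * x ^ 5 := fun x => by
      rw [innerI]
      ring
    simp only [h]
    rw [I5]
    norm_num
  · have h : ∀ x : ℝ, (∫ y in (1 / 2 : ℝ)..(4 / 3 * (1 - x)),
        ((1 - 3 / 2 * y) ^ 2 - (2 * x - 1) ^ 2) / 2 *
          (((1 - 3 / 2 * x) ^ 2 - (2 * y - 1) ^ 2) / 2)) =
        -425 / 6912 + 5365 / 10368 * x + (-71263) / 41472 * x ^ 2 + 203 / 72 * x ^ 3 +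
          (-1483) / 648 * x ^ 4 + 298 / 405 * x ^ 5 := fun x => by
      rw [innerI]
      ring
    simp only [h]
    rw [I5]
    norm_num

end Pool.Agent.Work.MP_122e00_nt.WR
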