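import Pool.Agent.Work.MP_122e00_nt.WR.Defs

set_option autoImplicit false

/-!
# The Weil region, part V: the exact proportions for `r = 3` and `r = 4`

Every statement below is an item; its docstring is the complete proof.

Notation: `r = s + 1`, `s = n + 1`.  Coordinates on the fundamental domain: `σ = ∑ x` and `z` = the coordinates
other than `x i0` (a vector of length `n`); `x i0 = σ - ∑ z`.
-/

namespace Pool.Agent.Work.MP_122e00_nt.WR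

open Finset MeasureTheory
open scoped ENNReal

/-- The bound for `∑ z'` in the mixed condition `3 σ + 2 ∑ z' ≤ 2`. -/
noncomputable def tt (σ : ℝ) : ℝ := 1 - 3 / 2 * σ

/-- The fundamental domain in the coordinates `(σ, z)`. -/
def DD (n : ℕ) : Set (ℝ × (Fin n → ℝ)) :=
  {p | 1 / 2 ≤ p.1 ∧ (∀ j, 0 ≤ p.2 j) ∧ (∀ j, p.2 j ≤ p.1 - ∑ j, p.2 j) ∧ 2 * p.1 - 1 ≤ ∑ j, p.2 j ∧
    ∑ j, p.2 j ≤ p.1}

/-- Pairs with the first mixed condition. -/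
def TA (n : ℕ) : Set ((ℝ × (Fin n → ℝ)) × (ℝ × (Fin n → ℝ))) :=
  {q | q.1 ∈ DD n ∧ q.2 ∈ DD n ∧ ∑ j, q.2.2 j ≤ tt q.1.1}

/-- Pairs with the second mixed condition. -/
def TB (n : ℕ) : Set ((ℝ × (Fin n → ℝ)) × (ℝ × (Fin n → ℝ))) :=
  {q | q.1 ∈ DD n ∧ q.2 ∈ DD n ∧ ∑ j, q.1.2 j ≤ tt q.2.1}

/-- The measure of a slice of the fundamental domain. -/
noncomputable def WW (n : ℕ) (σ τ : ℝ) : ℝ≥0∞ :=
  volume {z : Fin n → ℝ | (σ, z) ∈ DD n ∧ ∑ j, z j ≤ τ}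

/-- **Va** (change of coordinates; EASY-MEDIUM).  Proof.  `e = MeasurableEquiv.piFinSuccAbove (fun _ => ℝ) i0` maps `x` to
`(x i0, z)`, `z j = x (i0.succAbove j)`, and preserves the volume (`MeasureTheory.volume_preserving_piFinSuccAbove`); the
shear `(u, z) ↦ (u + ∑ z, z)` of `ℝ × (Fin n → ℝ)` preserves the volume (`MeasurePreserving.skew_product` after a swap
`Measure.measurePreserving_swap`, with `measurePreserving_add_right`).  Composition: `F x = (∑ x, z)`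
(`Fin.sum_univ_succAbove`), measure preserving and measurable.  By definition `x ∈ Dm i0 ↔ F x ∈ DD n`
(`x i0 = σ - ∑ z`; the condition `0 ≤ x i0` is `∑ z ≤ σ`, `1 - σ ≤ 1 / 2` is `1 / 2 ≤ σ`, `x i0 ≤ 1 - σ` is
`2 σ - 1 ≤ ∑ z`; the conditions over `i : Fin (n + 1)` split by `Fin.forall_iff_succAbove i0`), and
`WD i0 0 x y` is `3 σ + 2 ∑ z' ≤ 2`, that is `∑ z' ≤ tt σ`.  So `TD i0 0` is the preimage of `TA n ∪ TB n` under
`F × F` (`MeasurePreserving.prod`), and these sets are closed (finite conjunctions of weak linear inequalities), so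
`MeasurePreserving.measure_preimage` applies. -/
def StVa : Prop :=
  ∀ (n : ℕ) (i0 : Fin (n + 1)), volume (TD i0 0) = volume (TA n ∪ TB n)

/-- **Vb** (Tonelli for the first set; EASY).  Proof.  `TA n` is measurable (closed).  `Measure.prod_apply` twice: for fixed
`(σ, z) ∈ DD n` the fibre is `{(σ', z') ∈ DD n, ∑ z' ≤ tt σ}`, of measure `∫⁻ σ', WW n σ' (tt σ)`, which does not depend
on `z`; then integrate over `z`: the `z` with `(σ, z) ∈ DD n` (`∑ z ≤ σ` may be replaced by `∑ z ≤ 1`: in `DD n`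
`∑ z ≤ 1` always holds, because `2 σ - 1 ≤ ∑ z ≤ σ` gives `σ ≤ 1`) have measure `WW n σ 1`.  (`lintegral_prod`,
`lintegral_const_mul`, indicator functions.) -/
def StVb : Prop :=
  ∀ n : ℕ, volume (TA n) = ∫⁻ σ : ℝ, WW n σ 1 * ∫⁻ σ' : ℝ, WW n σ' (tt σ)

/-- **Vc** (the second set is the mirror image of the first; EASY).  Proof.  `TB n` is the preimage of `TA n` under
`Prod.swap`, which preserves the volume (`Measure.measurePreserving_swap`, `MeasurePreserving.measure_preimage` or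
`measure_preimage_equiv`). -/
def StVc : Prop :=
  ∀ n : ℕ, volume (TB n) = volume (TA n)

/-- **Vd** (Tonelli for the intersection; EASY-MEDIUM).  Proof.  For fixed `(σ, z) ∈ DD n` the fibre of `TA n ∩ TB n` is
`{(σ', z') ∈ DD n, ∑ z' ≤ tt σ, ∑ z ≤ tt σ'}`, of measure `∫⁻ σ', 1[∑ z ≤ tt σ'] WW n σ' (tt σ)`
(`Measure.prod_apply`).  Integrate over `z` and exchange with the integral over `σ'` (`lintegral_lintegral_swap`, all the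
functions are indicators of measurable sets times measurable functions): the `z` with `(σ, z) ∈ DD n`, `∑ z ≤ tt σ'`
have measure `WW n σ (tt σ')`. -/
def StVd : Prop :=
  ∀ n : ℕ, volume (TA n ∩ TB n) = ∫⁻ σ : ℝ, ∫⁻ σ' : ℝ, WW n σ (tt σ') * WW n σ' (tt σ)

/-- **Ve** (slices, `n = 1`; EASY).  Proof.  `Fin 1 → ℝ` is `ℝ` (`MeasureTheory.volume_preserving_funUnique`,
`MeasurableEquiv.funUnique`), and for `1 / 2 ≤ σ` the conditions on `z` are `2 σ - 1 ≤ z ≤ min (σ / 2) τ`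
(`0 ≤ z` and `z ≤ σ` follow: `0 ≤ 2 σ - 1`, `z ≤ σ / 2`): `Real.volume_Icc`.  For `σ < 1 / 2` the set is empty. -/
def StVe : Prop :=
  ∀ σ τ : ℝ, WW 1 σ τ = if 1 / 2 ≤ σ then ENNReal.ofReal (min (σ / 2) τ - (2 * σ - 1)) else 0

/-- **Vf** (slices, `n = 2`, small `τ`; EASY-MEDIUM).  Proof.  Let `1 / 2 ≤ σ`, `τ ≤ 1 / 4`.  If `τ < 2 σ - 1` the set is
empty.  Otherwise `0 ≤ 2 σ - 1 ≤ τ` and the set is `{z₁, z₂ ≥ 0, 2 σ - 1 ≤ z₁ + z₂ ≤ τ}`: the conditions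
`z_j ≤ σ - (z₁ + z₂)` and `z₁ + z₂ ≤ σ` follow from `z_j ≤ τ ≤ 1 / 4`, `σ ≥ 1 / 2`.  The set `{z₁, z₂ ≥ 0, z₁ + z₂ ≤ c}` has
area `c ^ 2 / 2` for `c ≥ 0` (`MeasureTheory.volume_preserving_finTwoArrow`, then `volume_regionBetween_eq_integral` or
`Measure.prod_apply`: `∫_0^c (c - z₁) dz₁`; the open and the closed triangle have the same area, because
`{z₁ + z₂ = c}` is null, or compute the open one in the same way), and the set is the difference of the triangles for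
`c = τ` and `c = 2 σ - 1` (`measure_diff`).  (Or directly: `∫_0^τ max(0, τ - z₁) - max(0, 2 σ - 1 - z₁)`.) -/
def StVf : Prop :=
  ∀ σ τ : ℝ, τ ≤ 1 / 4 →
    WW 2 σ τ = if 1 / 2 ≤ σ ∧ 2 * σ - 1 ≤ τ then ENNReal.ofReal ((τ ^ 2 - (2 * σ - 1) ^ 2) / 2) else 0

/-- **Vg** (slices, `n = 2`, no bound; MEDIUM).  Proof.  The condition `∑ z ≤ 1` is redundant (`z₁ + z₂ ≤ σ ≤ 1`), and
`z₁ + z₂ ≤ σ` follows from the sum of the two conditions `2 z₁ + z₂ ≤ σ`, `z₁ + 2 z₂ ≤ σ`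
(`z₁ + z₂ ≤ 2 σ / 3`).  So the set is `P` minus `N`, `P = {z₁, z₂ ≥ 0, 2 z₁ + z₂ ≤ σ, z₁ + 2 z₂ ≤ σ}`,
`N = {z₁, z₂ ≥ 0, z₁ + z₂ < 2 σ - 1} ⊆ P` (if `z₁ + z₂ < 2 σ - 1` then `2 z₁ + z₂ ≤ 2 (z₁ + z₂) ≤ 4 σ - 2 ≤ σ` as
`σ ≤ 2 / 3`).  Area of `P`: for fixed `z₁ ∈ [0, σ / 2]` the length is `min (σ - 2 z₁) ((σ - z₁) / 2)`, equal to
`(σ - z₁) / 2` for `z₁ ≤ σ / 3`, `σ - 2 z₁` for `z₁ ≥ σ / 3`; the integral is
`5 σ ^ 2 / 36 + σ ^ 2 / 36 = σ ^ 2 / 6`.  Area of `N`: `(2 σ - 1) ^ 2 / 2`. -/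
def StVg : Prop :=
  ∀ σ : ℝ, 1 / 2 ≤ σ → σ ≤ 2 / 3 →
    WW 2 σ 1 = ENNReal.ofReal (σ ^ 2 / 6 - (2 * σ - 1) ^ 2 / 2)

/-- **Vh** (the real integrals of part V; EASY).  Proof.  Polynomial integrands: `intervalIntegral` of sums of monomials
(`integral_pow`, `intervalIntegral.integral_add`, `integral_const_mul`, ...), or the fundamental theorem of calculus with an
explicit antiderivative (`intervalIntegral.integral_eq_sub_of_hasDerivAt`).  The inner integrals are polynomials in `x`. -/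
def StVh : Prop :=
  (∫ x in (1 / 2 : ℝ)..(2 / 3), (1 - 3 / 2 * x) * ((1 - 3 / 2 * x) ^ 2 / 4)) = 1 / 6144 ∧
  (∫ x in (1 / 2 : ℝ)..(4 / 7), ∫ y in (1 / 2 : ℝ)..(1 - 3 / 4 * x),
    (2 - 2 * x - 3 / 2 * y) * (2 - 2 * y - 3 / 2 * x)) = 1941 / 19668992 ∧
  (∫ x in (4 / 7 : ℝ)..(5 / 8), ∫ y in (1 / 2 : ℝ)..(4 / 3 * (1 - x)),
    (2 - 2 * x - 3 / 2 * y) * (2 - 2 * y - 3 / 2 * x)) = 117 / 19668992

/-- **Vi** (the real integrals of part V for `r = 4`; EASY).  Proof.  As for Vh.  (The inner integrals are polynomials of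
degree 5 in `x`; expand `(1 - 3 / 2 y) ^ 2 - (2 x - 1) ^ 2` first.) -/
def StVi : Prop :=
  (∫ x in (1 / 2 : ℝ)..(2 / 3), (x ^ 2 / 6 - (2 * x - 1) ^ 2 / 2) * ((1 - 3 / 2 * x) ^ 3 / 6)) = 71 / 14929920 ∧
  (∫ x in (1 / 2 : ℝ)..(4 / 7), ∫ y in (1 / 2 : ℝ)..(1 - 3 / 4 * x),
    ((1 - 3 / 2 * y) ^ 2 - (2 * x - 1) ^ 2) / 2 * (((1 - 3 / 2 * x) ^ 2 - (2 * y - 1) ^ 2) / 2)) =
      2269097 / 1387844075520 ∧
  (∫ x in (4 / 7 : ℝ)..(5 / 8), ∫ y in (1 / 2 : ℝ)..(4 / 3 * (1 - x)),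
    ((1 - 3 / 2 * y) ^ 2 - (2 * x - 1) ^ 2) / 2 * (((1 - 3 / 2 * x) ^ 2 - (2 * y - 1) ^ 2) / 2)) =
      2733 / 30840979456

/-- **Vj** (a double integral over the region of the intersection; EASY-MEDIUM).  Proof.  The region
`R = {x, y ≥ 1 / 2, y ≤ 1 - 3 x / 4, y ≤ 4 (1 - x) / 3}`: if `x < 1 / 2` or `x > 5 / 8` there is no `y`
(`4 (1 - x) / 3 ≥ 1 / 2` means `x ≤ 5 / 8`); for `1 / 2 ≤ x ≤ 4 / 7` `1 - 3 x / 4 ≤ 4 (1 - x) / 3`, for `4 / 7 ≤ x ≤ 5 / 8` the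
other way round.  So the inner `lintegral` is `ENNReal.ofReal (∫ y in (1/2)..(1 - 3 x / 4), Q x y)`, respectively
`ENNReal.ofReal (∫ y in (1/2)..(4 (1 - x) / 3), Q x y)` (`ofReal_integral_eq_lintegral_ofReal`,
`intervalIntegral.integral_of_le`, `integral_Icc_eq_integral_Ioc`; `Q` is continuous and nonnegative on `R`), and the same for
the outer one (the inner integral is continuous in `x`: `intervalIntegral.continuous_parametric_intervalIntegral_of_continuous`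
or `continuous_parametric_primitive`..., nonnegative on the two intervals); split the outer integral at `4 / 7`
(`lintegral_union` / indicator functions; one point is null). -/
def StVj : Prop :=
  ∀ (Q : ℝ → ℝ → ℝ) (f : ℝ → ℝ → ℝ≥0∞), Continuous (fun p : ℝ × ℝ => Q p.1 p.2) →
    (∀ x y, 1 / 2 ≤ x → 1 / 2 ≤ y → y ≤ 1 - 3 / 4 * x → y ≤ 4 / 3 * (1 - x) → 0 ≤ Q x y) →
    (∀ x y, 1 / 2 ≤ x → 1 / 2 ≤ y → y ≤ 1 - 3 / 4 * x → y ≤ 4 / 3 * (1 - x) → f x y = ENNReal.ofReal (Q x y)) →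
    (∀ x y, ¬ (1 / 2 ≤ x ∧ 1 / 2 ≤ y ∧ y ≤ 1 - 3 / 4 * x ∧ y ≤ 4 / 3 * (1 - x)) → f x y = 0) →
    ∫⁻ x : ℝ, ∫⁻ y : ℝ, f x y =
      ENNReal.ofReal ((∫ x in (1 / 2 : ℝ)..(4 / 7), ∫ y in (1 / 2 : ℝ)..(1 - 3 / 4 * x), Q x y) +
        ∫ x in (4 / 7 : ℝ)..(5 / 8), ∫ y in (1 / 2 : ℝ)..(4 / 3 * (1 - x)), Q x y)

/-- **Vk** (`r = 3`, first set; EASY-MEDIUM).  Proof (with Vb, Ve, Vh).  For `σ ≥ 1 / 2`, `τ = tt σ ≤ 1 / 4`:
`WW 1 σ' τ = ofReal (τ - (2 σ' - 1))` for `σ' ≥ 1 / 2` (`τ ≤ 1 / 4 ≤ σ' / 2`), `0` for `σ' < 1 / 2`; so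
`∫⁻ σ', WW 1 σ' τ` is `ofReal (∫_{1/2}^{(1 + τ)/2} (τ - (2 σ' - 1))) = ofReal (τ ^ 2 / 4)` if `τ ≥ 0`, and `0` if `τ < 0`.
`WW 1 σ 1 = ofReal (min (σ / 2) 1 - (2 σ - 1))`, equal to `ofReal (1 - 3 σ / 2)` for `1 / 2 ≤ σ ≤ 2 / 3`.  If `σ > 2 / 3` then
`τ < 0`; if `σ < 1 / 2` then `WW 1 σ 1 = 0`.  So the integral is
`ofReal (∫_{1/2}^{2/3} (1 - 3 σ / 2) (1 - 3 σ / 2) ^ 2 / 4) = ofReal (1 / 6144)` (Vh). -/
def StVk : Prop := volume (TA 1) = ENNReal.ofReal (1 / 6144)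

/-- **Vl** (`r = 3`, intersection; EASY-MEDIUM).  Proof (with Vd, Ve, Vh, Vj).  For `σ, σ' ≥ 1 / 2`
`WW 1 σ (tt σ') = ofReal (tt σ' - (2 σ - 1)) = ofReal (2 - 2 σ - 3 σ' / 2)` (`tt σ' ≤ 1 / 4 ≤ σ / 2`), which is nonzero
only if `σ' ≤ 4 (1 - σ) / 3`, and symmetrically
`WW 1 σ' (tt σ) = ofReal (2 - 2 σ' - 3 σ / 2)`, nonzero only if `σ' ≤ 1 - 3 σ / 4`.  Apply Vj with
`Q x y = (2 - 2 x - 3 y / 2) (2 - 2 y - 3 x / 2)` (`ENNReal.ofReal_mul`) and Vh: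
`1941 / 19668992 + 117 / 19668992 = 3 / 28672`. -/
def StVl : Prop := volume (TA 1 ∩ TB 1) = ENNReal.ofReal (3 / 28672)

/-- **Vm** (`r = 4`, first set; EASY-MEDIUM).  Proof (with Vb, Vf, Vg, Vi).  For `σ ≥ 1 / 2`, `τ = tt σ ≤ 1 / 4`, Vf gives
`∫⁻ σ', WW 2 σ' τ = ofReal (∫_{1/2}^{(1 + τ)/2} (τ ^ 2 - (2 σ' - 1) ^ 2) / 2) = ofReal (τ ^ 3 / 6)` if `τ ≥ 0` and `0` if
`τ < 0` (`∫ = (τ ^ 2 * τ / 2 - τ ^ 3 / 6) / 2 = τ ^ 3 / 6`).  `WW 2 σ 1` is given by Vg for `1 / 2 ≤ σ ≤ 2 / 3`; for `σ > 2 / 3`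
`τ < 0`, and for `σ < 1 / 2` `WW 2 σ 1 = 0` (empty set).  So the integral is
`ofReal (∫_{1/2}^{2/3} (σ ^ 2 / 6 - (2 σ - 1) ^ 2 / 2) (1 - 3 σ / 2) ^ 3 / 6)` (Vi). -/
def StVm : Prop := volume (TA 2) = ENNReal.ofReal (71 / 14929920)

/-- **Vn** (`r = 4`, intersection; EASY-MEDIUM).  Proof (with Vd, Vf, Vi, Vj).  As for Vl, with
`Q x y = ((1 - 3 y / 2) ^ 2 - (2 x - 1) ^ 2) / 2 * (((1 - 3 x / 2) ^ 2 - (2 y - 1) ^ 2) / 2)`: the condition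
`2 σ - 1 ≤ tt σ'` is `σ' ≤ 4 (1 - σ) / 3`, the condition `2 σ' - 1 ≤ tt σ` is `σ' ≤ 1 - 3 σ / 4`; on the region
`0 ≤ 2 x - 1 ≤ 1 - 3 y / 2` and `0 ≤ 2 y - 1 ≤ 1 - 3 x / 2`, so both factors of `Q` are nonnegative.
`2269097 / 1387844075520 + 2733 / 30840979456 = 3487 / 2023096320`. -/
def StVn : Prop := volume (TA 2 ∩ TB 2) = ENNReal.ofReal (3487 / 2023096320)

end Pool.Agent.Work.MP_122e00_nt.WR
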