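import Mathlib
import Pool.Agent.Work.MP_122e00_nt.WR.StmtsV

set_option autoImplicit false

/-!
# The Weil region, item Vk: the volume of the first set for `r = 3`
-/

namespace Pool.Agent.Work.MP_122e00_nt.WR

open Finset MeasureTheory
open scoped ENNReal

namespace IVk

theorem seg (a b : ℝ) (hab : a ≤ b) (f : ℝ → ℝ) (hf : Continuous f)
    (h0 : ∀ x ∈ Set.Icc a b, 0 ≤ f x) :
    ∫⁻ x : ℝ, Set.indicator (Set.Icc a b) (fun x => ENNReal.ofReal (f x)) x =
      ENNReal.ofReal (∫ x in a..b, f x) := by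
  rw [lintegral_indicator measurableSet_Icc, intervalIntegral.integral_of_le hab,
    ← integral_Icc_eq_integral_Ioc, ofReal_integral_eq_lintegral_ofReal]
  · exact hf.continuousOn.integrableOn_Icc
  · exact (ae_restrict_iff' measurableSet_Icc).2 (Filter.Eventually.of_forall h0)

theorem inner (hVe : StVe) (τ : ℝ) (h1 : τ ≤ 1 / 4) :
    ∫⁻ σ : ℝ, WW 1 σ τ = if 0 ≤ τ then ENNReal.ofReal (τ ^ 2 / 4) else 0 := by
  have e1 : ∀ σ : ℝ, WW 1 σ τ = Set.indicator (Set.Icc (1 / 2 : ℝ) ((1 + τ) / 2))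
      (fun x => ENNReal.ofReal (τ + 1 - 2 * x)) σ := by
    intro σ
    rw [hVe]
    by_cases h : 1 / 2 ≤ σ
    · rw [if_pos h, min_eq_right (by linarith)]
      by_cases h2 : σ ≤ (1 + τ) / 2
      · rw [Set.indicator_of_mem (show σ ∈ Set.Icc (1 / 2 : ℝ) ((1 + τ) / 2) from ⟨h, h2⟩)]
        congr 1
        ring
      · rw [Set.indicator_of_notMem (fun h3 => h2 h3.2), ENNReal.ofReal_eq_zero]
        push Not at h2
        linarith
    · rw [if_neg h, Set.indicator_of_notMem (fun h3 => h h3.1)]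
  rw [lintegral_congr e1]
  by_cases h : 0 ≤ τ
  · rw [if_pos h, seg _ _ (by linarith) _ (by fun_prop)]
    · congr 1
      have hd : ∀ x ∈ Set.uIcc (1 / 2 : ℝ) ((1 + τ) / 2),
          HasDerivAt (fun x : ℝ => (τ + 1) * x - x ^ 2) (τ + 1 - 2 * x) x := by
        intro x _
        have h3 : HasDerivAt (fun x : ℝ => (τ + 1) * x - x ^ 2)
            ((τ + 1) * 1 - ((2 : ℕ) : ℝ) * x ^ (2 - 1)) x :=
          ((hasDerivAt_id' x).const_mul (τ + 1)).sub (hasDerivAt_pow 2 x)
        have h4 : (τ + 1) * 1 - ((2 : ℕ) : ℝ) * x ^ (2 - 1) = τ + 1 - 2 * x := by norm_num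
        rwa [h4] at h3
      rw [intervalIntegral.integral_eq_sub_of_hasDerivAt hd
        ((by fun_prop : Continuous fun x : ℝ => τ + 1 - 2 * x).intervalIntegrable _ _)]
      ring
    · intro x hx
      linarith [hx.2]
  · rw [if_neg h]
    have e2 : ∀ x : ℝ, Set.indicator (Set.Icc (1 / 2 : ℝ) ((1 + τ) / 2))
        (fun x => ENNReal.ofReal (τ + 1 - 2 * x)) x = 0 := by
      intro x
      refine Set.indicator_of_notMem (fun h3 => ?_) _
      have := h3.1
      have := h3.2
      push Not at h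
      linarith
    rw [lintegral_congr e2, lintegral_zero]

end IVk

theorem pr_Vk (hVb : StVb) (hVe : StVe) (hVh : StVh) : StVk := by
  unfold StVk
  rw [hVb 1]
  have e1 : ∀ σ : ℝ, WW 1 σ 1 * ∫⁻ σ' : ℝ, WW 1 σ' (tt σ) =
      Set.indicator (Set.Icc (1 / 2 : ℝ) (2 / 3))
        (fun x => ENNReal.ofReal ((1 - 3 / 2 * x) * ((1 - 3 / 2 * x) ^ 2 / 4))) σ := by
    intro σ
    rw [hVe]
    by_cases h : 1 / 2 ≤ σ
    · rw [if_pos h, IVk.inner hVe (tt σ) (by unfold tt; linarith)]
      by_cases h2 : σ ≤ 2 / 3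
      · rw [Set.indicator_of_mem (show σ ∈ Set.Icc (1 / 2 : ℝ) (2 / 3) from ⟨h, h2⟩),
          if_pos (by unfold tt; linarith), min_eq_left (by linarith),
          ENNReal.ofReal_mul (by linarith)]
        unfold tt
        congr 2
        ring
      · rw [Set.indicator_of_notMem (fun h3 => h2 h3.2), if_neg, mul_zero]
        unfold tt
        push Not at h2 ⊢
        linarith
    · rw [if_neg h, zero_mul, Set.indicator_of_notMem (fun h3 => h h3.1)]
  rw [lintegral_congr e1, IVk.seg _ _ (by norm_num) _ (by fun_prop), hVh.1]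
  intro x hx
  have h1 : 0 ≤ 1 - 3 / 2 * x := by linarith [hx.2]
  positivity

end Pool.Agent.Work.MP_122e00_nt.WR
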