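import Pool.Agent.Work.MP_122e00_nt.WR.StmtsV

set_option autoImplicit false

/-! Weil region, part V: item Vl (helper59). -/

namespace Pool.Agent.Work.MP_122e00_nt.WR

open Finset MeasureTheory
open scoped ENNReal

theorem IVl.val (hVe : StVe) (x y : ℝ) (hx : 1 / 2 ≤ x) (hy : 1 / 2 ≤ y) :
    WW 1 x (tt y) = ENNReal.ofReal (2 - 2 * x - 3 / 2 * y) := by
  rw [hVe, if_pos hx]
  unfold tt
  rw [min_eq_right (by linarith)]
  congr 1
  ring

theorem pr_Vl (hVd : StVd) (hVe : StVe) (hVh : StVh) (hVj : StVj) : StVl := by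
  unfold StVl
  rw [hVd 1]
  refine (hVj (fun x y => (2 - 2 * x - 3 / 2 * y) * (2 - 2 * y - 3 / 2 * x))
    (fun σ σ' => WW 1 σ (tt σ') * WW 1 σ' (tt σ)) (by fun_prop) ?_ ?_ ?_).trans ?_
  · intro x y hx hy h1 h2
    exact mul_nonneg (by linarith) (by linarith)
  · intro x y hx hy h1 h2
    rw [IVl.val hVe x y hx hy, IVl.val hVe y x hy hx, ← ENNReal.ofReal_mul (by linarith)]
  · intro x y h
    by_cases hx : 1 / 2 ≤ x
    · by_cases hy : 1 / 2 ≤ y
      · rw [IVl.val hVe x y hx hy, IVl.val hVe y x hy hx]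
        by_cases h1 : y ≤ 1 - 3 / 4 * x
        · have h2 : ¬ y ≤ 4 / 3 * (1 - x) := fun h2 => h ⟨hx, hy, h1, h2⟩
          rw [ENNReal.ofReal_of_nonpos (p := 2 - 2 * x - 3 / 2 * y) (by linarith), zero_mul]
        · rw [ENNReal.ofReal_of_nonpos (p := 2 - 2 * y - 3 / 2 * x) (by linarith), mul_zero]
      · rw [hVe y, if_neg hy, mul_zero]
    · rw [hVe x, if_neg hx, zero_mul]
  · obtain ⟨-, h1, h2⟩ := hVh
    rw [h1, h2]
    norm_num

end Pool.Agent.Work.MP_122e00_nt.WR
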