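import Pool.Agent.Work.MP_122e00_nt.WR.StmtsV

set_option autoImplicit false

/-! Block WR, part V, item Vm (helper63): the volume of the first set for `r = 4`. -/

namespace Pool.Agent.Work.MP_122e00_nt.WR

open Finset MeasureTheory
open scoped ENNReal

namespace IVm

/-- the integral of a nonnegative continuous function over a closed interval -/
theorem lint_Icc {f : ℝ → ℝ} (hf : Continuous f) {a b : ℝ} (hab : a ≤ b)
    (h0 : ∀ x, a ≤ x → x ≤ b → 0 ≤ f x) (g : ℝ → ℝ≥0∞)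
    (hg : ∀ x, a ≤ x → x ≤ b → g x = ENNReal.ofReal (f x))
    (hg0 : ∀ x, ¬ (a ≤ x ∧ x ≤ b) → g x = 0) :
    ∫⁻ x : ℝ, g x = ENNReal.ofReal (∫ x in a..b, f x) := by
  have h1 : g = (Set.Icc a b).indicator (fun x => ENNReal.ofReal (f x)) := by
    funext x
    by_cases hx : x ∈ Set.Icc a b
    · rw [Set.indicator_of_mem hx]
      exact hg x hx.1 hx.2
    · rw [Set.indicator_of_notMem hx]
      exact hg0 x hx
  rw [h1, lintegral_indicator measurableSet_Icc, intervalIntegral.integral_of_le hab,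
    ← integral_Icc_eq_integral_Ioc, ofReal_integral_eq_lintegral_ofReal]
  · exact (hf.continuousOn).integrableOn_Icc
  · exact (ae_restrict_iff' measurableSet_Icc).2 (Filter.Eventually.of_forall fun x hx =>
      h0 x hx.1 hx.2)

/-- the inner integral -/
theorem inner (hVf : StVf) (τ : ℝ) (hτ : τ ≤ 1 / 4) :
    ∫⁻ σ : ℝ, WW 2 σ τ = ENNReal.ofReal (τ ^ 3 / 6) := by
  by_cases h0 : 0 ≤ τ
  · have h1 : (1 / 2 : ℝ) ≤ (1 + τ) / 2 := by linarith
    rw [lint_Icc (f := fun x => (τ ^ 2 - (2 * x - 1) ^ 2) / 2) (by fun_prop) h1]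
    · congr 1
      have h2 : ∀ x ∈ Set.uIcc (1 / 2 : ℝ) ((1 + τ) / 2),
          HasDerivAt (fun x : ℝ => (τ ^ 2 * x - (2 * x - 1) ^ 3 / 6) / 2)
            ((τ ^ 2 - (2 * x - 1) ^ 2) / 2) x := fun x _ => by
        have e1 : HasDerivAt (fun x : ℝ => 2 * x - 1) 2 x := by
          simpa using ((hasDerivAt_id x).const_mul (2 : ℝ)).sub_const 1
        have e2 := e1.pow 3
        have e3 := (((hasDerivAt_id x).const_mul (τ ^ 2)).sub (e2.div_const 6)).div_const 2
        refine e3.congr_deriv ?_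
        norm_num
        ring
      rw [intervalIntegral.integral_eq_sub_of_hasDerivAt h2
        (Continuous.intervalIntegrable (by fun_prop) _ _)]
      ring
    · intro x hx1 hx2
      have h3 : 0 ≤ 2 * x - 1 := by linarith
      have h4 : 2 * x - 1 ≤ τ := by linarith
      nlinarith
    · intro x hx1 hx2
      rw [hVf x τ hτ, if_pos ⟨hx1, by linarith⟩]
    · intro x hx
      rw [hVf x τ hτ, if_neg]
      rintro ⟨h3, h4⟩
      exact hx ⟨h3, by linarith⟩
  · push Not at h0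
    have h1 : ∀ σ : ℝ, WW 2 σ τ = 0 := fun σ => by
      rw [hVf σ τ hτ, if_neg]
      rintro ⟨h3, h4⟩
      linarith
    have h2 : τ ^ 3 / 6 ≤ 0 := by
      have : τ ^ 3 ≤ 0 := (Odd.pow_nonpos_iff (by decide)).2 h0.le
      linarith
    rw [ENNReal.ofReal_of_nonpos h2]
    simp only [h1, lintegral_zero]

/-- for small `σ` the slices are empty -/
theorem slice_zero (n : ℕ) (σ τ : ℝ) (hσ : σ < 1 / 2) : WW n σ τ = 0 := by
  unfold WW
  have h1 : {z : Fin n → ℝ | (σ, z) ∈ DD n ∧ ∑ j, z j ≤ τ} = ∅ := by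
    refine Set.eq_empty_iff_forall_notMem.2 fun z hz => ?_
    exact absurd hz.1.1 (not_le.2 hσ)
  rw [h1, measure_empty]

end IVm

open IVm in
theorem pr_Vm (hVb : StVb) (hVf : StVf) (hVg : StVg) (hVi : StVi) : StVm := by
  unfold StVm
  rw [hVb 2, lint_Icc (f := fun x => (x ^ 2 / 6 - (2 * x - 1) ^ 2 / 2) * ((1 - 3 / 2 * x) ^ 3 / 6))
    (by fun_prop) (a := 1 / 2) (b := 2 / 3) (by norm_num), hVi.1]
  · intro x hx1 hx2
    have h1 : 0 ≤ 1 - 3 / 2 * x := by linarith
    have h2 : 0 ≤ x ^ 2 / 6 - (2 * x - 1) ^ 2 / 2 := by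
      nlinarith [mul_nonneg (sub_nonneg.2 hx1) (sub_nonneg.2 hx2)]
    positivity
  · intro x hx1 hx2
    have h2 : 0 ≤ x ^ 2 / 6 - (2 * x - 1) ^ 2 / 2 := by
      nlinarith [mul_nonneg (sub_nonneg.2 hx1) (sub_nonneg.2 hx2)]
    rw [hVg x hx1 hx2, inner hVf (tt x) (by unfold tt; linarith), ENNReal.ofReal_mul h2]
    rfl
  · intro x hx
    rcases lt_or_ge x (1 / 2) with h1 | h1
    · rw [slice_zero 2 x 1 h1, zero_mul]
    · have h2 : 2 / 3 < x := by
        by_contra h
        exact hx ⟨h1, not_lt.1 h⟩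
      have h3 : tt x < 0 := by
        unfold tt
        linarith
      have h4 : tt x ^ 3 / 6 ≤ 0 := by
        have : tt x ^ 3 ≤ 0 := (Odd.pow_nonpos_iff (by decide)).2 h3.le
        linarith
      rw [inner hVf (tt x) (by linarith), ENNReal.ofReal_of_nonpos h4, mul_zero]

end Pool.Agent.Work.MP_122e00_nt.WR
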