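import Pool.Agent.Work.MP_122e00_nt.WR.StmtsV

set_option autoImplicit false

/-!
# The Weil region, part V, item Vn: the volume of the intersection for `r = 4`
-/

namespace Pool.Agent.Work.MP_122e00_nt.WR

open Finset MeasureTheory
open scoped ENNReal

namespace IVn

/-- no slices below `1 / 2` -/
theorem WW_lt (n : ℕ) (σ τ : ℝ) (h : σ < 1 / 2) : WW n σ τ = 0 := by
  unfold WW
  have : {z : Fin n → ℝ | (σ, z) ∈ DD n ∧ ∑ j, z j ≤ τ} = ∅ := by
    ext z
    constructor
    · rintro ⟨⟨h1, _⟩, _⟩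
      have h2 : (1 : ℝ) / 2 ≤ σ := h1
      exact absurd h2 (not_le.2 h)
    · intro hz
      exact hz.elim
  rw [this, measure_empty]

/-- the integrand -/
noncomputable def Q (x y : ℝ) : ℝ :=
  ((1 - 3 / 2 * y) ^ 2 - (2 * x - 1) ^ 2) / 2 * (((1 - 3 / 2 * x) ^ 2 - (2 * y - 1) ^ 2) / 2)

theorem fac_nonneg (a b : ℝ) (ha : 0 ≤ a) (hab : a ≤ b) : 0 ≤ (b ^ 2 - a ^ 2) / 2 := by
  nlinarith

end IVn

open IVn in
theorem pr_Vn (hVd : StVd) (hVf : StVf) (hVi : StVi) (hVj : StVj) : StVn := by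
  have h1 := hVj Q (fun x y => WW 2 x (tt y) * WW 2 y (tt x)) (by
      unfold Q
      fun_prop)
    (by
      intro x y hx hy h3 h4
      unfold Q
      refine mul_nonneg (fac_nonneg _ _ ?_ ?_) (fac_nonneg _ _ ?_ ?_) <;> linarith)
    (by
      intro x y hx hy h3 h4
      have hty : tt y ≤ 1 / 4 := by
        unfold tt
        linarith
      have htx : tt x ≤ 1 / 4 := by
        unfold tt
        linarith
      have c1 : 1 / 2 ≤ x ∧ 2 * x - 1 ≤ tt y := by
        refine ⟨hx, ?_⟩
        unfold tt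
        linarith
      have c2 : 1 / 2 ≤ y ∧ 2 * y - 1 ≤ tt x := by
        refine ⟨hy, ?_⟩
        unfold tt
        linarith
      show WW 2 x (tt y) * WW 2 y (tt x) = _
      rw [hVf x (tt y) hty, hVf y (tt x) htx, if_pos c1, if_pos c2, ← ENNReal.ofReal_mul]
      · rfl
      · exact fac_nonneg _ _ (by linarith) c1.2)
    (by
      intro x y hn
      show WW 2 x (tt y) * WW 2 y (tt x) = 0
      by_cases hx : x < 1 / 2
      · rw [WW_lt 2 x _ hx, zero_mul]
      by_cases hy : y < 1 / 2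
      · rw [WW_lt 2 y _ hy, mul_zero]
      have hx' := not_lt.1 hx
      have hy' := not_lt.1 hy
      have hty : tt y ≤ 1 / 4 := by
        unfold tt
        linarith
      have htx : tt x ≤ 1 / 4 := by
        unfold tt
        linarith
      rw [hVf x (tt y) hty, hVf y (tt x) htx]
      by_cases c1 : 1 / 2 ≤ x ∧ 2 * x - 1 ≤ tt y
      · by_cases c2 : 1 / 2 ≤ y ∧ 2 * y - 1 ≤ tt x
        · exfalso
          apply hn
          have d1 := c1.2
          have d2 := c2.2
          unfold tt at d1 d2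
          exact ⟨hx', hy', by linarith, by linarith⟩
        · rw [if_neg c2, mul_zero]
      · rw [if_neg c1, zero_mul])
  have h2 := hVi.2.1
  have h3 := hVi.2.2
  unfold StVn
  rw [hVd 2, h1]
  unfold Q
  rw [h2, h3]
  congr 1
  norm_num

end Pool.Agent.Work.MP_122e00_nt.WR
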