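import Pool.Agent.Work.MP_122e00_nt.WR.I_Va
import Pool.Agent.Work.MP_122e00_nt.WR.I_Vb
import Pool.Agent.Work.MP_122e00_nt.WR.I_Vc
import Pool.Agent.Work.MP_122e00_nt.WR.I_Vd
import Pool.Agent.Work.MP_122e00_nt.WR.I_Ve
import Pool.Agent.Work.MP_122e00_nt.WR.I_Vf
import Pool.Agent.Work.MP_122e00_nt.WR.I_Vg
import Pool.Agent.Work.MP_122e00_nt.WR.I_Vh
import Pool.Agent.Work.MP_122e00_nt.WR.I_Vi
import Pool.Agent.Work.MP_122e00_nt.WR.I_Vj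
import Pool.Agent.Work.MP_122e00_nt.WR.I_Vk
import Pool.Agent.Work.MP_122e00_nt.WR.I_Vl
import Pool.Agent.Work.MP_122e00_nt.WR.I_Vm
import Pool.Agent.Work.MP_122e00_nt.WR.I_Vn
import Pool.Agent.Work.MP_122e00_nt.WR.I_V3
import Pool.Agent.Work.MP_122e00_nt.WR.I_V4

/-!
# Part V assembled (no hypotheses): the exact proportions for `r = 3` and `r = 4`
-/

namespace Pool.Agent.Work.MP_122e00_nt.WR

theorem all_Vk : StVk := pr_Vk pr_Vb pr_Ve pr_Vh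
theorem all_Vl : StVl := pr_Vl pr_Vd pr_Ve pr_Vh pr_Vj
theorem all_Vm : StVm := pr_Vm pr_Vb pr_Vf pr_Vg pr_Vi
theorem all_Vn : StVn := pr_Vn pr_Vd pr_Vf pr_Vi pr_Vj

/-- `r = 3`. -/
theorem all_V3 : StV3 := pr_V3 pr_Va pr_Vc all_Vk all_Vl

/-- `r = 4`. -/
theorem all_V4 : StV4 := pr_V4 pr_Va pr_Vc all_Vm all_Vn

end Pool.Agent.Work.MP_122e00_nt.WR
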