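import Pool.Agent.Work.MP_122e00_nt.WR.StmtsR
import Pool.Agent.Work.MP_122e00_nt.Bdx.B07

set_option autoImplicit false

/-!
# Item R1: exchange of the roles of `n` and `n + h`
-/

namespace Pool.Agent.Work.MP_122e00_nt.WR

open Finset Filter Topology MeasureTheory

open scoped ArithmeticFunction.zeta

open Two Gen Pool.Agent.Work.MP_122e00_nt.Core

namespace IR1

open Classical in
/-- the term of `PC` -/
noncomputable def cnt (s : ℕ) (X : ℝ) (z : ℤ) (A : Set ((Fin s → ℝ) × (Fin s → ℝ))) (n : ℕ) : ℕ :=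
  ((tup s X ×ˢ tup s X).filter (fun p =>
    (∏ i, p.1 i) ∣ n ∧ ((∏ i, p.2 i : ℕ) : ℤ) ∣ (n : ℤ) - z ∧ (lg X p.1, lg X p.2) ∈ A)).card

theorem PC_eq (s : ℕ) (X : ℝ) (z : ℤ) (A : Set ((Fin s → ℝ) × (Fin s → ℝ))) :
    PC s X z A = ∑ n ∈ Finset.Icc 1 ⌊X⌋₊, (cnt s X z A n : ℝ) := rfl

theorem swap (s h : ℕ) (X : ℝ) (A B : Set (Fin s → ℝ)) (n : ℕ) :
    cnt s X (-(h : ℤ)) (A ×ˢ B) n = cnt s X (h : ℤ) (B ×ˢ A) (n + h) := by
  classical
  unfold cnt
  refine Finset.card_nbij' Prod.swap Prod.swap ?_ ?_ ?_ ?_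
  · rintro ⟨a, b⟩ hp
    simp only [Finset.coe_filter, Set.mem_ofPred_eq, Finset.mem_product, Set.mem_prod,
      Prod.swap_prod_mk] at hp ⊢
    obtain ⟨⟨h1, h2⟩, h3, h4, h5, h6⟩ := hp
    refine ⟨⟨h2, h1⟩, ?_, ?_, h6, h5⟩
    · have : ((∏ i, b i : ℕ) : ℤ) ∣ ((n + h : ℕ) : ℤ) := by
        have e : (n : ℤ) - -(h : ℤ) = ((n + h : ℕ) : ℤ) := by push_cast; ring
        rwa [e] at h4
      exact_mod_cast this
    · have e : ((n + h : ℕ) : ℤ) - (h : ℤ) = (n : ℤ) := by push_cast; ring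
      rw [e]
      exact_mod_cast h3
  · rintro ⟨b, a⟩ hp
    simp only [Finset.coe_filter, Set.mem_ofPred_eq, Finset.mem_product, Set.mem_prod,
      Prod.swap_prod_mk] at hp ⊢
    obtain ⟨⟨h1, h2⟩, h3, h4, h5, h6⟩ := hp
    refine ⟨⟨h2, h1⟩, ?_, ?_, h6, h5⟩
    · have e : ((n + h : ℕ) : ℤ) - (h : ℤ) = (n : ℤ) := by push_cast; ring
      rw [e] at h4
      exact_mod_cast h4
    · have e : (n : ℤ) - -(h : ℤ) = ((n + h : ℕ) : ℤ) := by push_cast; ring
      rw [e]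
      exact_mod_cast h3
  · rintro ⟨a, b⟩ _
    rfl
  · rintro ⟨a, b⟩ _
    rfl

theorem sum_Icc_range (f : ℕ → ℝ) (N : ℕ) :
    ∑ n ∈ Finset.Icc 1 N, f n = ∑ x ∈ Finset.range N, f (x + 1) := by
  induction N with
  | zero => simp
  | succ N ih =>
    rw [Finset.sum_Icc_succ_top (by omega), ih, Finset.sum_range_succ]

theorem shift (f : ℕ → ℝ) (N h : ℕ) :
    ∑ n ∈ Finset.Icc 1 N, f (n + h) - ∑ n ∈ Finset.Icc 1 N, f n =
      ∑ x ∈ Finset.range h, f (N + x + 1) - ∑ x ∈ Finset.range h, f (x + 1) := by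
  rw [sum_Icc_range (fun n => f (n + h)), sum_Icc_range f]
  have h1 := Finset.sum_range_add (fun x => f (x + 1)) h N
  have h2 := Finset.sum_range_add (fun x => f (x + 1)) N h
  rw [Nat.add_comm h N, h2] at h1
  have h3 : ∑ x ∈ Finset.range N, f (x + 1 + h) = ∑ x ∈ Finset.range N, f (h + x + 1) := by
    refine Finset.sum_congr rfl fun x _ => ?_
    congr 1
    omega
  rw [h3]
  linarith

theorem small {s h m : ℕ} {X : ℝ} {α β γ δ : Fin s → ℝ} (hX : 1 < X) (hm1 : 1 ≤ m)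
    (hm2 : m ≤ h) : (cnt s X (h : ℤ) (hb γ δ ×ˢ hb α β) m : ℝ) ≤
      (h : ℝ) ^ s * X ^ (∑ i, β i) := by
  classical
  have hX0 : 0 < X := by linarith
  have hsub : cnt s X (h : ℤ) (hb γ δ ×ˢ hb α β) m ≤
      ((Fintype.piFinset fun _ : Fin s => Finset.Icc 1 h) ×ˢ
        (Fintype.piFinset fun i : Fin s => Finset.Icc 1 ⌊X ^ (β i)⌋₊)).card := by
    unfold cnt
    refine Finset.card_le_card ?_
    rintro ⟨b, a⟩ hp
    simp only [Finset.mem_filter, Finset.mem_product, Set.mem_prod] at hp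
    obtain ⟨⟨h1, h2⟩, h3, _, _, h6⟩ := hp
    rw [tup, Fintype.mem_piFinset] at h1 h2
    rw [Finset.mem_product, Fintype.mem_piFinset, Fintype.mem_piFinset]
    refine ⟨fun i => ?_, fun i => ?_⟩
    · rw [Finset.mem_Icc]
      refine ⟨(Finset.mem_Icc.1 (h1 i)).1, ?_⟩
      exact (Nat.le_of_dvd hm1 ((Finset.dvd_prod_of_mem b (Finset.mem_univ i)).trans h3)).trans hm2
    · rw [Finset.mem_Icc]
      have ha1 := (Finset.mem_Icc.1 (h2 i)).1
      refine ⟨ha1, Nat.le_floor ?_⟩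
      have h7 : Real.log (a i) / Real.log X ≤ β i := (h6 i).2
      rw [div_le_iff₀ (Real.log_pos hX)] at h7
      have ha0 : (0 : ℝ) < (a i : ℝ) := by exact_mod_cast ha1
      exact (Real.le_rpow_iff_log_le ha0 hX0).2 h7
  have h8 : ((cnt s X (h : ℤ) (hb γ δ ×ˢ hb α β) m : ℕ) : ℝ) ≤
      (h : ℝ) ^ s * ∏ i, ((⌊X ^ (β i)⌋₊ : ℕ) : ℝ) := by
    have h9 : ((Fintype.piFinset fun _ : Fin s => Finset.Icc 1 h) ×ˢ
        (Fintype.piFinset fun i : Fin s => Finset.Icc 1 ⌊X ^ (β i)⌋₊)).card =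
        h ^ s * ∏ i, ⌊X ^ (β i)⌋₊ := by
      rw [Finset.card_product, Fintype.card_piFinset, Fintype.card_piFinset]
      simp
    rw [h9] at hsub
    exact_mod_cast hsub
  refine h8.trans ?_
  refine mul_le_mul_of_nonneg_left ?_ (by positivity)
  rw [Real.rpow_sum_of_pos hX0]
  refine Finset.prod_le_prod (fun i _ => Nat.cast_nonneg _) fun i _ => ?_
  exact Nat.floor_le (by positivity)

theorem large {s h m : ℕ} {X : ℝ} {A : Set ((Fin s → ℝ) × (Fin s → ℝ))} (hm : h < m) :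
    (cnt s X (h : ℤ) A m : ℝ) ≤ (m.divisors.card : ℝ) ^ s * ((m - h).divisors.card : ℝ) ^ s := by
  classical
  have hsub : cnt s X (h : ℤ) A m ≤
      ((Fintype.piFinset fun _ : Fin s => m.divisors) ×ˢ
        (Fintype.piFinset fun _ : Fin s => (m - h).divisors)).card := by
    unfold cnt
    refine Finset.card_le_card ?_
    rintro ⟨b, a⟩ hp
    simp only [Finset.mem_filter, Finset.mem_product] at hp
    obtain ⟨_, h3, h4, _⟩ := hp
    rw [Finset.mem_product, Fintype.mem_piFinset, Fintype.mem_piFinset]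
    have e : (m : ℤ) - (h : ℤ) = ((m - h : ℕ) : ℤ) := by
      rw [Nat.cast_sub hm.le]
    rw [e] at h4
    have h4' : (∏ i, a i) ∣ m - h := by exact_mod_cast h4
    refine ⟨fun i => ?_, fun i => ?_⟩
    · rw [Nat.mem_divisors]
      exact ⟨(Finset.dvd_prod_of_mem b (Finset.mem_univ i)).trans h3, by omega⟩
    · rw [Nat.mem_divisors]
      exact ⟨(Finset.dvd_prod_of_mem a (Finset.mem_univ i)).trans h4', by omega⟩
  have h9 : ((Fintype.piFinset fun _ : Fin s => m.divisors) ×ˢ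
        (Fintype.piFinset fun _ : Fin s => (m - h).divisors)).card =
        m.divisors.card ^ s * (m - h).divisors.card ^ s := by
    rw [Finset.card_product, Fintype.card_piFinset, Fintype.card_piFinset]
    simp
  rw [h9] at hsub
  exact_mod_cast hsub

theorem large' (s h : ℕ) : ∀ᶠ X : ℝ in atTop, ∀ (A : Set ((Fin s → ℝ) × (Fin s → ℝ))) (m : ℕ),
    h < m → (m : ℝ) ≤ 2 * X → (cnt s X (h : ℤ) A m : ℝ) ≤ X ^ (1 / 2 : ℝ) := by
  have h2X : Tendsto (fun X : ℝ => 2 * X) atTop atTop :=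
    Filter.Tendsto.const_mul_atTop (by norm_num) tendsto_id
  filter_upwards [h2X.eventually (divisor_bound s (show (0 : ℝ) < 1 / 8 by norm_num)),
    eventually_ge_atTop (2 : ℝ)] with X hX hX2 A m hm hmX
  have hX0 : 0 < X := by linarith
  have h1 : ∀ n : ℕ, n ≠ 0 → (n : ℝ) ≤ 2 * X → (n.divisors.card : ℝ) ^ s ≤ X ^ (1 / 4 : ℝ) := by
    intro n hn hnX
    refine (hX n hn hnX).trans ?_
    calc (2 * X) ^ (1 / 8 : ℝ) ≤ (X * X) ^ (1 / 8 : ℝ) := by
          apply Real.rpow_le_rpow (by linarith) _ (by norm_num)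
          nlinarith
      _ = X ^ (1 / 4 : ℝ) := by
          rw [Real.mul_rpow (by linarith) (by linarith), ← Real.rpow_add (by linarith)]
          norm_num
  have h2 := h1 m (by omega) hmX
  have h3 := h1 (m - h) (by omega) (le_trans (by exact_mod_cast Nat.sub_le m h) hmX)
  calc (cnt s X (h : ℤ) A m : ℝ) ≤
        (m.divisors.card : ℝ) ^ s * ((m - h).divisors.card : ℝ) ^ s := large hm
    _ ≤ X ^ (1 / 4 : ℝ) * X ^ (1 / 4 : ℝ) := by gcongr
    _ = X ^ (1 / 2 : ℝ) := by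
        rw [← Real.rpow_add hX0]
        norm_num

theorem diff (s h : ℕ) (α β γ δ : Fin s → ℝ) : ∀ᶠ X : ℝ in atTop,
    |PC s X (-(h : ℤ)) (hb α β ×ˢ hb γ δ) - PC s X (h : ℤ) (hb γ δ ×ˢ hb α β)| ≤
      h * X ^ (1 / 2 : ℝ) + h * ((h : ℝ) ^ s * X ^ (∑ i, β i)) := by
  filter_upwards [large' s h, eventually_ge_atTop ((h : ℝ) + 2)] with X hX hXh
  have hX1 : 1 < X := by
    have : (0 : ℝ) ≤ h := Nat.cast_nonneg h
    linarith
  have hX0 : 0 < X := by linarith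
  set N := ⌊X⌋₊ with hN
  have hNX : (N : ℝ) ≤ X := Nat.floor_le hX0.le
  have hhN : h ≤ N := Nat.le_floor (by linarith)
  rw [PC_eq, PC_eq]
  have e : ∑ n ∈ Finset.Icc 1 N, (cnt s X (-(h : ℤ)) (hb α β ×ˢ hb γ δ) n : ℝ) =
      ∑ n ∈ Finset.Icc 1 N, (cnt s X (h : ℤ) (hb γ δ ×ˢ hb α β) (n + h) : ℝ) :=
    Finset.sum_congr rfl fun n _ => by rw [swap]
  rw [e, shift (fun n => (cnt s X (h : ℤ) (hb γ δ ×ˢ hb α β) n : ℝ)) N h]
  have h1 : ∑ x ∈ Finset.range h, (cnt s X (h : ℤ) (hb γ δ ×ˢ hb α β) (N + x + 1) : ℝ) ≤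
      h * X ^ (1 / 2 : ℝ) := by
    calc ∑ x ∈ Finset.range h, (cnt s X (h : ℤ) (hb γ δ ×ˢ hb α β) (N + x + 1) : ℝ) ≤
          ∑ x ∈ Finset.range h, X ^ (1 / 2 : ℝ) := by
            refine Finset.sum_le_sum fun x hx => ?_
            have hx' := Finset.mem_range.1 hx
            refine hX _ _ (by omega) ?_
            have h3 : N + x + 1 ≤ N + h := by omega
            have h4 : ((N + x + 1 : ℕ) : ℝ) ≤ (N : ℝ) + h := by exact_mod_cast h3
            linarith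
      _ = h * X ^ (1 / 2 : ℝ) := by
            rw [Finset.sum_const, Finset.card_range, nsmul_eq_mul]
  have h2 : ∑ x ∈ Finset.range h, (cnt s X (h : ℤ) (hb γ δ ×ˢ hb α β) (x + 1) : ℝ) ≤
      h * ((h : ℝ) ^ s * X ^ (∑ i, β i)) := by
    calc ∑ x ∈ Finset.range h, (cnt s X (h : ℤ) (hb γ δ ×ˢ hb α β) (x + 1) : ℝ) ≤
          ∑ x ∈ Finset.range h, ((h : ℝ) ^ s * X ^ (∑ i, β i)) := by
            refine Finset.sum_le_sum fun x hx => ?_
            have hx' := Finset.mem_range.1 hx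
            exact small hX1 (by omega) (by omega)
      _ = h * ((h : ℝ) ^ s * X ^ (∑ i, β i)) := by
            rw [Finset.sum_const, Finset.card_range, nsmul_eq_mul]
  have h3 : 0 ≤ ∑ x ∈ Finset.range h, (cnt s X (h : ℤ) (hb γ δ ×ˢ hb α β) (N + x + 1) : ℝ) :=
    Finset.sum_nonneg fun _ _ => Nat.cast_nonneg _
  have h4 : 0 ≤ ∑ x ∈ Finset.range h, (cnt s X (h : ℤ) (hb γ δ ×ˢ hb α β) (x + 1) : ℝ) :=
    Finset.sum_nonneg fun _ _ => Nat.cast_nonneg _
  have h5 : (0 : ℝ) ≤ h * X ^ (1 / 2 : ℝ) := by positivity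
  have h6 : (0 : ℝ) ≤ h * ((h : ℝ) ^ s * X ^ (∑ i, β i)) := by positivity
  rw [abs_le]
  constructor <;> linarith

theorem lim0 (s h : ℕ) (σ : ℝ) (hσ : σ < 1) : Tendsto (fun X : ℝ =>
    h * X ^ (-(1 / 2 : ℝ)) + h * ((h : ℝ) ^ s * X ^ (-(1 - σ)))) atTop (𝓝 0) := by
  have h1 := (tendsto_rpow_neg_atTop (show (0 : ℝ) < 1 / 2 by norm_num)).const_mul (h : ℝ)
  have h2 := ((tendsto_rpow_neg_atTop (show (0 : ℝ) < 1 - σ by linarith)).const_mul
    ((h : ℝ) ^ s)).const_mul (h : ℝ)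
  have h3 := h1.add h2
  simpa using h3

end IR1

theorem pr_R1 : StR1 := by
  intro hBox s h i0 α β γ δ hh hβ hδ hO
  rcases hO with hO | hO
  · exact hBox s h (-(h : ℤ)) i0 α β γ δ hh (by simp) hβ hδ hO
  · have h1 := hBox s h (h : ℤ) i0 γ δ α β hh (by simp) hδ hβ hO
    have hσ : ∑ i, β i < 1 := by
      have h2 : 1 / 2 * ∑ i, δ i + ∑ i, β i < 1 := hO.2
      have h3 : 0 ≤ ∑ i, δ i := Finset.sum_nonneg fun i _ => (hδ i).1
      linarith
    have hd : Tendsto (fun X : ℝ => PC s X (-(h : ℤ)) (hb α β ×ˢ hb γ δ) /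
        (X * (Real.log X) ^ (2 * s)) - PC s X (h : ℤ) (hb γ δ ×ˢ hb α β) /
        (X * (Real.log X) ^ (2 * s))) atTop (𝓝 0) := by
      refine squeeze_zero_norm' ?_ (IR1.lim0 s h (∑ i, β i) hσ)
      filter_upwards [IR1.diff s h α β γ δ, eventually_ge_atTop (Real.exp 1),
        eventually_ge_atTop (1 : ℝ)] with X hX hXe hX1
      have hX0 : 0 < X := by linarith
      have hlog : 1 ≤ Real.log X := by
        rw [Real.le_log_iff_exp_le hX0]
        exact hXe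
      have hlp : 1 ≤ (Real.log X) ^ (2 * s) := one_le_pow₀ hlog
      have hY : X ≤ X * (Real.log X) ^ (2 * s) := le_mul_of_one_le_right hX0.le hlp
      rw [← sub_div, Real.norm_eq_abs, abs_div, abs_of_pos (show 0 < X * (Real.log X) ^ (2 * s) by
        positivity)]
      rw [div_le_iff₀ (by positivity)]
      refine hX.trans ?_
      have e1 : X ^ (1 / 2 : ℝ) = X ^ (-(1 / 2 : ℝ)) * X := by
        rw [← Real.rpow_add_one hX0.ne']
        norm_num
      have e2 : X ^ (∑ i, β i) = X ^ (-(1 - ∑ i, β i)) * X := by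
        rw [← Real.rpow_add_one hX0.ne']
        congr 1
        ring
      calc h * X ^ (1 / 2 : ℝ) + h * ((h : ℝ) ^ s * X ^ (∑ i, β i)) =
            (h * X ^ (-(1 / 2 : ℝ)) + h * ((h : ℝ) ^ s * X ^ (-(1 - ∑ i, β i)))) * X := by
              rw [e1, e2]
              ring
        _ ≤ (h * X ^ (-(1 / 2 : ℝ)) + h * ((h : ℝ) ^ s * X ^ (-(1 - ∑ i, β i)))) *
            (X * (Real.log X) ^ (2 * s)) := by
              refine mul_le_mul_of_nonneg_left hY ?_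
              positivity
    have h3 := hd.add h1
    rw [zero_add] at h3
    have e : Csing s h * ((∏ i, (δ i - max (γ i) 0)) * ∏ i, (β i - max (α i) 0)) =
        Csing s h * ((∏ i, (β i - max (α i) 0)) * ∏ i, (δ i - max (γ i) 0)) := by ring
    rw [e] at h3
    refine h3.congr fun X => ?_
    ring

end Pool.Agent.Work.MP_122e00_nt.WR
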