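import Pool.Agent.Work.MP_122e00_nt.WR.I_R9

set_option autoImplicit false

/-!
# Item R10: from positions to factorisations, lower bound
-/

namespace Pool.Agent.Work.MP_122e00_nt.WR

open Finset Filter Topology MeasureTheory

open scoped ArithmeticFunction.zeta

open Two Gen Pool.Agent.Work.MP_122e00_nt.Core

namespace IR10

/-- Complete a tuple of divisors to a factorisation. -/
def sn {s : ℕ} (m : ℕ) (a : Fin s → ℕ) : Fin (s + 1) → ℕ :=
  Fin.snoc (α := fun _ => ℕ) a (m / ∏ i, a i)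

lemma sn_castSucc {s : ℕ} (m : ℕ) (a : Fin s → ℕ) (i : Fin s) : sn m a i.castSucc = a i := by
  unfold sn
  rw [Fin.snoc_castSucc]

lemma sn_last {s : ℕ} (m : ℕ) (a : Fin s → ℕ) : sn m a (Fin.last s) = m / ∏ i, a i := by
  unfold sn
  rw [Fin.snoc_last]

lemma sn_inj {s m : ℕ} {a a' : Fin s → ℕ} (h : sn m a = sn m a') : a = a' := by
  funext i
  have := congrFun h i.castSucc
  rwa [sn_castSucc, sn_castSucc] at this

lemma sn_mem {s m : ℕ} (hm : m ≠ 0) {a : Fin s → ℕ} (hd : ∏ i, a i ∣ m) :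
    sn m a ∈ Nat.finMulAntidiag (s + 1) m := by
  rw [Nat.mem_finMulAntidiag, Fin.prod_univ_castSucc]
  simp only [sn_castSucc, sn_last]
  exact ⟨Nat.mul_div_cancel' hd, hm⟩

/-- One side. -/
lemma side {s m : ℕ} {X ε1 ε : ℝ} {i0 : Fin s} {a : Fin s → ℕ} (hL : 1 ≤ Real.log X)
    (hX : 1 ≤ X) (hm : m ≠ 0) (hd : ∏ i, a i ∣ m) (hε1 : 0 < ε1) (hε : 2 * ε1 ≤ ε)
    (hx : lg X a ∈ DmO i0 ε)
    (h1 : (1 - ε1) * Real.log X ≤ Real.log m) (h2 : Real.log m ≤ (1 + ε1) * Real.log X) :
    (∀ i, (sn m a i : ℝ) ^ 2 < X) ∧ topS i0 (sn m a) ∧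
      (1 - ε1 - ∑ i, lg X a i) * Real.log X ≤ Real.log (sn m a (Fin.last s)) := by
  have hL0 : 0 < Real.log X := by linarith
  have hv := sn_mem hm hd
  have hp := IR9.pos_of_mem hv
  have hs := IR9.sum_log hv
  simp only [sn_castSucc] at hs
  obtain ⟨x0, x1, x2, x3⟩ := hx
  have hsum : (∑ i, lg X a i) * Real.log X = ∑ i : Fin s, Real.log (a i) := by
    unfold lg
    rw [← Finset.sum_div, div_mul_cancel₀ _ hL0.ne']
  have hlt : ∀ i j : Fin (s + 1), Real.log (sn m a i) < Real.log (sn m a j) →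
      sn m a i < sn m a j := by
    intro i j hij
    by_contra hc
    push Not at hc
    have : Real.log (sn m a j) ≤ Real.log (sn m a i) := by
      apply Real.log_le_log
      · exact_mod_cast hp j
      · exact_mod_cast hc
    linarith
  have hlo : (1 - ε1 - ∑ i, lg X a i) * Real.log X ≤ Real.log (sn m a (Fin.last s)) := by
    nlinarith
  have hup : Real.log (sn m a (Fin.last s)) ≤ (1 + ε1 - ∑ i, lg X a i) * Real.log X := by
    nlinarith
  have htop : topS i0 (sn m a) := by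
    constructor
    · intro i hi
      apply hlt
      rw [sn_castSucc, sn_castSucc]
      have := x1 i hi
      unfold lg at this
      exact (div_lt_div_iff_of_pos_right hL0).1 this
    · apply hlt
      rw [sn_castSucc]
      have e : Real.log (a i0) = lg X a i0 * Real.log X := by
        unfold lg
        rw [div_mul_cancel₀ _ hL0.ne']
      rw [e]
      refine lt_of_lt_of_le ?_ hlo
      exact mul_lt_mul_of_pos_right (by linarith) hL0
  refine ⟨?_, htop, hlo⟩
  have hlast : (sn m a (Fin.last s) : ℝ) ^ 2 < X := by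
    have hpl : (0 : ℝ) < sn m a (Fin.last s) := by exact_mod_cast hp (Fin.last s)
    rw [← Real.log_lt_log_iff (by positivity) (by linarith), Real.log_pow]
    push_cast
    have : 2 * ((1 + ε1 - ∑ i, lg X a i) * Real.log X) < 1 * Real.log X := by
      rw [← mul_assoc]
      exact mul_lt_mul_of_pos_right (by linarith) hL0
    linarith
  intro i
  refine lt_of_le_of_lt ?_ hlast
  have hle : sn m a i ≤ sn m a (Fin.last s) := by
    rcases Fin.eq_castSucc_or_eq_last i with ⟨i', rfl⟩ | rfl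
    · rcases eq_or_ne i' i0 with rfl | hne
      · exact htop.2.le
      · exact ((htop.1 i' hne).trans htop.2).le
    · exact le_rfl
  have : (sn m a i : ℝ) ≤ sn m a (Fin.last s) := by exact_mod_cast hle
  gcongr

/-- The mixed condition. -/
lemma mixed {s m m' : ℕ} {X δ ε ε1 : ℝ} {i0 : Fin s} {a b : Fin s → ℕ}
    (hL : 1 ≤ Real.log X) (hX : 1 ≤ X) (hvp : ∀ i, 0 < sn m a i) (hwp : ∀ i, 0 < sn m' b i)
    (hε : 5 * ε1 ≤ ε)
    (hv : (1 - ε1 - ∑ i, lg X a i) * Real.log X ≤ Real.log (sn m a (Fin.last s)))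
    (hw : (1 - ε1 - ∑ i, lg X b i) * Real.log X ≤ Real.log (sn m' b (Fin.last s)))
    (hWO : WO i0 (δ + ε) (lg X a) (lg X b)) :
    X ^ (3 + δ) < ((sn m' b i0.castSucc : ℝ) * sn m' b (Fin.last s)) ^ 2 *
      (sn m a (Fin.last s) : ℝ) ^ 3 := by
  have hL0 : 0 < Real.log X := by linarith
  rw [IR9.mix_iff (by linarith) (by exact_mod_cast hwp _) (by exact_mod_cast hwp _)
    (by exact_mod_cast hvp _), sn_castSucc]
  have e : Real.log (b i0) = lg X b i0 * Real.log X := by
    unfold lg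
    rw [div_mul_cancel₀ _ hL0.ne']
  rw [e]
  unfold WO at hWO
  have : (3 * ∑ i, lg X a i + 2 * (∑ i, lg X b i - lg X b i0)) * Real.log X <
      (2 - (δ + ε)) * Real.log X := mul_lt_mul_of_pos_right hWO hL0
  nlinarith

end IR10

open IR10 in
/-- Item R10. -/
theorem pr_R10 : StR10 := by
  classical
  intro hB3 s h i0 δ ε η hε hη hη1
  filter_upwards [IR9.evlog h hη (show 0 < ε / 10 by positivity)] with X hX
  obtain ⟨hX3, hL, hn⟩ := hX
  have hX1 : 1 ≤ X := by linarith
  have hcast : ∀ n : ℕ, (n : ℤ) - -(h : ℤ) = ((n + h : ℕ) : ℤ) := by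
    intro n
    push_cast
    ring
  unfold PC DS
  have hI : Finset.Icc 1 ⌊X⌋₊ = Finset.Ioc 0 ⌊X⌋₊ := by
    ext n
    rw [Finset.mem_Icc, Finset.mem_Ioc]
    omega
  have hMN : ⌊η * X⌋₊ ≤ ⌊X⌋₊ := Nat.floor_le_floor (by nlinarith)
  rw [hI, ← Finset.sum_Ioc_consecutive _ (Nat.zero_le _) hMN, add_comm]
  refine add_le_add ?_ ?_
  · -- the large `n`
    refine Finset.sum_le_sum fun n hn' => ?_
    obtain ⟨n0, a1, a2, a3, a4⟩ := hn n hn'
    have n0' : n + h ≠ 0 := by omega
    unfold gcnt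
    rw [Nat.cast_le]
    refine Finset.card_le_card_of_injOn (fun p => (sn n p.1, sn (n + h) p.2)) ?_ ?_
    · intro p hp
      rw [Finset.mem_coe, Finset.mem_filter, Finset.mem_product] at hp
      obtain ⟨⟨-, -⟩, hd1, hd2, hm1, hm2, hW⟩ := hp
      rw [hcast] at hd2
      have hd2' : (∏ i, p.2 i) ∣ n + h := Int.natCast_dvd_natCast.1 hd2
      obtain ⟨b1, b2, b3⟩ := side hL hX1 n0 hd1 (show 0 < ε / 10 by positivity) (by linarith)
        hm1 a1 a2
      obtain ⟨c1, c2, c3⟩ := side hL hX1 n0' hd2' (show 0 < ε / 10 by positivity) (by linarith)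
        hm2 a3 a4
      have hv := sn_mem n0 hd1
      have hw := sn_mem n0' hd2'
      rw [Finset.mem_coe, Finset.mem_filter, Finset.mem_product]
      refine ⟨⟨hv, hw⟩, ⟨b1, c1, i0.castSucc, Fin.last s, Fin.last s,
        (Fin.castSucc_lt_last i0).ne, ?_⟩, b2, c2⟩
      rcases hW with hW | hW
      · left
        exact mixed hL hX1 (IR9.pos_of_mem hv) (IR9.pos_of_mem hw) (by linarith) b3 c3 hW
      · right
        exact mixed hL hX1 (IR9.pos_of_mem hw) (IR9.pos_of_mem hv) (by linarith) c3 b3 hW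
    · intro p hp p' hp' hpp
      simp only [Prod.mk.injEq] at hpp
      exact Prod.ext (sn_inj hpp.1) (sn_inj hpp.2)
  · -- the small `n`
    refine Finset.sum_le_sum fun n hn' => ?_
    rw [Finset.mem_Ioc] at hn'
    have n0 : n ≠ 0 := by omega
    have n0' : n + h ≠ 0 := by omega
    have hcard : ∀ m : ℕ, m ≠ 0 → (((ζ : ArithmeticFunction ℕ) ^ (s + 1)) m : ℝ) =
        ((Nat.finMulAntidiag (s + 1) m).card : ℝ) := by
      intro m hm
      rw [← hB3.2 1 s m hm]
      unfold TS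
      rw [Finset.sum_const, nsmul_eq_mul, mul_one]
    rw [hcard n n0, hcard (n + h) n0', ← Nat.cast_mul, Nat.cast_le, ← Finset.card_product]
    refine Finset.card_le_card_of_injOn (fun p => (sn n p.1, sn (n + h) p.2)) ?_ ?_
    · intro p hp
      rw [Finset.mem_coe, Finset.mem_filter, Finset.mem_product] at hp
      obtain ⟨⟨-, -⟩, hd1, hd2, -⟩ := hp
      rw [hcast] at hd2
      rw [Finset.mem_coe, Finset.mem_product]
      exact ⟨sn_mem n0 hd1, sn_mem n0' (Int.natCast_dvd_natCast.1 hd2)⟩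
    · intro p hp p' hp' hpp
      simp only [Prod.mk.injEq] at hpp
      exact Prod.ext (sn_inj hpp.1) (sn_inj hpp.2)

end Pool.Agent.Work.MP_122e00_nt.WR
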