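import Pool.Agent.Work.MP_122e00_nt.WR.StmtsR

set_option autoImplicit false

/-!
# The Weil region, item R11: the volumes
-/

namespace Pool.Agent.Work.MP_122e00_nt.WR

open Finset Filter Topology MeasureTheory

open scoped ArithmeticFunction.zeta

open Two Gen Pool.Agent.Work.MP_122e00_nt.Core

namespace IR11

/-- the space of pairs of positions -/
abbrev P (s : ℕ) : Type := (Fin s → ℝ) × (Fin s → ℝ)

theorem null {s : ℕ} (g : P s → ℝ) (hg : Continuous g) (v : P s) (a : ℝ) (ha : a ≠ 0)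
    (h : ∀ (t : ℝ) (p : P s), g (t • v + p) = t * a + g p) : ∀ᵐ p : P s, g p ≠ 0 := by
  have hinv : (volume : Measure (P s)).IsAddLeftInvariant := by
    rw [Measure.volume_eq_prod]
    infer_instance
  rw [ae_iff]
  by_contra hne
  have hpos : ∀ t : ℝ, 0 < volume {p : P s | g p = t} := by
    intro t
    have h1 : (fun p => (t / a) • v + p) ⁻¹' {p : P s | g p = t} = {p : P s | ¬ g p ≠ 0} := by
      ext p
      rw [Set.mem_preimage, Set.mem_ofPred_eq, Set.mem_ofPred_eq, h, not_not, div_mul_cancel₀ _ ha]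
      constructor
      · intro h2; linarith
      · intro h2; linarith
    rw [← measure_preimage_add volume ((t / a) • v) {p : P s | g p = t}, h1]
    exact pos_iff_ne_zero.mpr hne
  have hc := Measure.countable_meas_pos_of_disjoint_iUnion (μ := (volume : Measure (P s)))
    (As := fun t : ℝ => {p : P s | g p = t})
    (fun t => (isClosed_eq hg continuous_const).measurableSet)
    (fun t u htu => Set.disjoint_left.mpr fun p hp hq => htu (hp.symm.trans hq))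
  have huniv : {t : ℝ | 0 < volume {p : P s | g p = t}} = Set.univ :=
    Set.eq_univ_of_forall hpos
  rw [huniv] at hc
  exact Cardinal.not_countable_real hc

theorem lim_down {E : Type} [MeasurableSpace E] (μ : Measure E) (K : Set E) (Φ : E → ℝ)
    (hK : MeasurableSet K) (hΦ : Measurable Φ) (hfin : μ (K ∩ {p | -1 ≤ Φ p}) ≠ ⊤) {ε' : ℝ}
    (hε' : 0 < ε') : ∃ ε₀ : ℝ, 0 < ε₀ ∧ ∀ ε, 0 < ε → ε ≤ ε₀ →
      μ.real (K ∩ {p | -ε ≤ Φ p}) ≤ μ.real (K ∩ {p | 0 ≤ Φ p}) + ε' := by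
  have hmono : ∀ {u v : ℝ}, u ≤ v → K ∩ {p | -u ≤ Φ p} ⊆ K ∩ {p | -v ≤ Φ p} := by
    rintro u v huv p ⟨h1, h2⟩
    refine ⟨h1, ?_⟩
    have h3 : -u ≤ Φ p := h2
    show -v ≤ Φ p
    linarith
  have hanti : Antitone fun n : ℕ => K ∩ {p | -(1 / ((n : ℝ) + 1)) ≤ Φ p} := by
    intro m n hmn
    exact hmono (one_div_le_one_div_of_le (by positivity)
      (by have : (m : ℝ) ≤ n := by exact_mod_cast hmn
          linarith))
  have hinter : (⋂ n : ℕ, (K ∩ {p | -(1 / ((n : ℝ) + 1)) ≤ Φ p})) = K ∩ {p | 0 ≤ Φ p} := by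
    ext p
    rw [Set.mem_iInter]
    constructor
    · intro h
      refine ⟨(h 0).1, ?_⟩
      show 0 ≤ Φ p
      by_contra hneg
      push Not at hneg
      obtain ⟨n, hn⟩ := exists_nat_one_div_lt (show (0 : ℝ) < -Φ p by linarith)
      have h2 : -(1 / ((n : ℝ) + 1)) ≤ Φ p := (h n).2
      linarith
    · rintro ⟨h1, h2⟩ n
      refine ⟨h1, ?_⟩
      have h3 : 0 ≤ Φ p := h2
      show -(1 / ((n : ℝ) + 1)) ≤ Φ p
      have : 0 < 1 / ((n : ℝ) + 1) := by positivity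
      linarith
  have hms : ∀ c : ℝ, MeasurableSet (K ∩ {p | c ≤ Φ p}) := fun c =>
    hK.inter (measurableSet_le measurable_const hΦ)
  have hf0 : μ (K ∩ {p | -(1 / (((0 : ℕ) : ℝ) + 1)) ≤ Φ p}) ≠ ⊤ := by
    have : (1 : ℝ) / (((0 : ℕ) : ℝ) + 1) = 1 := by norm_num
    rw [this]
    exact hfin
  have ht := tendsto_measure_iInter_atTop (μ := μ)
    (s := fun n : ℕ => K ∩ {p | -(1 / ((n : ℝ) + 1)) ≤ Φ p})
    (fun n => (hms _).nullMeasurableSet) hanti ⟨0, hf0⟩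
  rw [hinter] at ht
  have hfin0 : μ (K ∩ {p | 0 ≤ Φ p}) ≠ ⊤ := by
    refine measure_ne_top_of_subset ?_ hfin
    rintro p ⟨h1, h2⟩
    refine ⟨h1, ?_⟩
    have h3 : 0 ≤ Φ p := h2
    show -1 ≤ Φ p
    linarith
  have ht2 := (ENNReal.tendsto_toReal hfin0).comp ht
  have hlt : (μ (K ∩ {p | 0 ≤ Φ p})).toReal < μ.real (K ∩ {p | 0 ≤ Φ p}) + ε' := by
    show μ.real (K ∩ {p | 0 ≤ Φ p}) < _
    linarith
  obtain ⟨n, hn⟩ := (ht2.eventually (gt_mem_nhds hlt)).exists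
  refine ⟨1 / ((n : ℝ) + 1), by positivity, fun ε _ hε2 => ?_⟩
  refine le_trans (measureReal_mono (hmono hε2) ?_) hn.le
  exact measure_ne_top_of_subset (hanti (Nat.zero_le n)) hf0

theorem lim_up {E : Type} [MeasurableSpace E] (μ : Measure E) (K : Set E) (Φ : E → ℝ)
    (hfin : μ (K ∩ {p | 0 < Φ p}) ≠ ⊤) {ε' : ℝ}
    (hε' : 0 < ε') : ∃ ε₀ : ℝ, 0 < ε₀ ∧ ∀ ε, 0 < ε → ε ≤ ε₀ →
      μ.real (K ∩ {p | 0 < Φ p}) - ε' ≤ μ.real (K ∩ {p | ε < Φ p}) := by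
  have hmono : ∀ {u v : ℝ}, u ≤ v → K ∩ {p | v < Φ p} ⊆ K ∩ {p | u < Φ p} := by
    rintro u v huv p ⟨h1, h2⟩
    exact ⟨h1, huv.trans_lt h2⟩
  have hm : Monotone fun n : ℕ => K ∩ {p | 1 / ((n : ℝ) + 1) < Φ p} := by
    intro m n hmn
    exact hmono (one_div_le_one_div_of_le (by positivity)
      (by have : (m : ℝ) ≤ n := by exact_mod_cast hmn
          linarith))
  have hunion : (⋃ n : ℕ, (K ∩ {p | 1 / ((n : ℝ) + 1) < Φ p})) = K ∩ {p | 0 < Φ p} := by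
    ext p
    rw [Set.mem_iUnion]
    constructor
    · rintro ⟨n, h1, h2⟩
      refine ⟨h1, ?_⟩
      have h3 : 1 / ((n : ℝ) + 1) < Φ p := h2
      have h4 : 0 < 1 / ((n : ℝ) + 1) := by positivity
      exact h4.trans h3
    · rintro ⟨h1, h2⟩
      obtain ⟨n, hn⟩ := exists_nat_one_div_lt (show (0 : ℝ) < Φ p from h2)
      exact ⟨n, h1, hn⟩
  have ht := tendsto_measure_iUnion_atTop (μ := μ) hm
  rw [hunion] at ht
  have ht2 := (ENNReal.tendsto_toReal hfin).comp ht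
  have hlt : μ.real (K ∩ {p | 0 < Φ p}) - ε' < (μ (K ∩ {p | 0 < Φ p})).toReal := by
    show _ < μ.real (K ∩ {p | 0 < Φ p})
    linarith
  obtain ⟨n, hn⟩ := (ht2.eventually (lt_mem_nhds hlt)).exists
  refine ⟨1 / ((n : ℝ) + 1), by positivity, fun ε hε hε2 => ?_⟩
  refine le_trans hn.le (measureReal_mono (hmono hε2) ?_)
  exact measure_ne_top_of_subset (hmono hε.le) hfin

variable {s : ℕ}

/-- closed cone conditions -/
def Kc (i0 : Fin s) : Set (P s) :=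
  {p | ((∀ i, 0 ≤ p.1 i) ∧ ∀ i, p.1 i ≤ p.1 i0) ∧ ((∀ i, 0 ≤ p.2 i) ∧ ∀ i, p.2 i ≤ p.2 i0)}

/-- open cone conditions -/
def Ko (i0 : Fin s) : Set (P s) :=
  {p | ((∀ i, 0 < p.1 i) ∧ ∀ i, i ≠ i0 → p.1 i < p.1 i0) ∧
    ((∀ i, 0 < p.2 i) ∧ ∀ i, i ≠ i0 → p.2 i < p.2 i0)}

/-- the margin in one variable -/
noncomputable def ph (i0 : Fin s) (x : Fin s → ℝ) : ℝ :=
  min (1 - ∑ i, x i - x i0) (1 / 2 - (1 - ∑ i, x i))

/-- the mixed margin -/
noncomputable def mx (i0 : Fin s) (δ : ℝ) (x y : Fin s → ℝ) : ℝ :=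
  2 - δ - (3 * ∑ i, x i + 2 * (∑ i, y i - y i0))

/-- the margin -/
noncomputable def Ph (i0 : Fin s) (δ : ℝ) (p : P s) : ℝ :=
  min (min (ph i0 p.1) (ph i0 p.2)) (max (mx i0 δ p.1 p.2) (mx i0 δ p.2 p.1))

theorem TE_eq (i0 : Fin s) (δ ε : ℝ) : TE i0 δ ε = Kc i0 ∩ {p | -ε ≤ Ph i0 δ p} := by
  ext p
  unfold TE DmE Kc Ph ph mx WD
  simp only [Set.mem_inter_iff, Set.mem_ofPred_eq, le_min_iff, le_max_iff]
  constructor
  · rintro ⟨⟨a1, a2, a3, a4⟩, ⟨b1, b2, b3, b4⟩, h⟩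
    refine ⟨⟨⟨a1, a2⟩, b1, b2⟩, ⟨⟨by linarith, by linarith⟩, by linarith, by linarith⟩, ?_⟩
    rcases h with h | h
    · left; linarith
    · right; linarith
  · rintro ⟨⟨⟨a1, a2⟩, b1, b2⟩, ⟨⟨a3, a4⟩, b3, b4⟩, h⟩
    refine ⟨⟨a1, a2, by linarith, by linarith⟩, ⟨b1, b2, by linarith, by linarith⟩, ?_⟩
    rcases h with h | h
    · left; linarith
    · right; linarith

theorem TD_eq (i0 : Fin s) (δ : ℝ) : TD i0 δ = Kc i0 ∩ {p | 0 ≤ Ph i0 δ p} := by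
  ext p
  unfold TD Dm Kc Ph ph mx WD
  simp only [Set.mem_inter_iff, Set.mem_ofPred_eq, le_min_iff, le_max_iff]
  constructor
  · rintro ⟨⟨a1, a2, a3, a4⟩, ⟨b1, b2, b3, b4⟩, h⟩
    refine ⟨⟨⟨a1, a2⟩, b1, b2⟩, ⟨⟨by linarith, by linarith⟩, by linarith, by linarith⟩, ?_⟩
    rcases h with h | h
    · left; linarith
    · right; linarith
  · rintro ⟨⟨⟨a1, a2⟩, b1, b2⟩, ⟨⟨a3, a4⟩, b3, b4⟩, h⟩
    refine ⟨⟨a1, a2, by linarith, by linarith⟩, ⟨b1, b2, by linarith, by linarith⟩, ?_⟩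
    rcases h with h | h
    · left; linarith
    · right; linarith

theorem TO_eq (i0 : Fin s) (δ ε : ℝ) : TO i0 δ ε = Ko i0 ∩ {p | ε < Ph i0 δ p} := by
  ext p
  unfold TO DmO Ko Ph ph mx WO
  simp only [Set.mem_inter_iff, Set.mem_ofPred_eq, lt_min_iff, lt_max_iff]
  constructor
  · rintro ⟨⟨a1, a2, a3, a4⟩, ⟨b1, b2, b3, b4⟩, h⟩
    refine ⟨⟨⟨a1, a2⟩, b1, b2⟩, ⟨⟨by linarith, by linarith⟩, by linarith, by linarith⟩, ?_⟩
    rcases h with h | h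
    · left; linarith
    · right; linarith
  · rintro ⟨⟨⟨a1, a2⟩, b1, b2⟩, ⟨⟨a3, a4⟩, b3, b4⟩, h⟩
    refine ⟨⟨a1, a2, by linarith, by linarith⟩, ⟨b1, b2, by linarith, by linarith⟩, ?_⟩
    rcases h with h | h
    · left; linarith
    · right; linarith

theorem continuous_ph (i0 : Fin s) : Continuous (ph i0) := by
  unfold ph
  fun_prop

theorem continuous_Ph (i0 : Fin s) (δ : ℝ) : Continuous (Ph i0 δ) := by
  unfold Ph ph mx
  fun_prop

theorem isClosed_Kc (i0 : Fin s) : IsClosed (Kc i0) := by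
  unfold Kc
  have e : {p : P s | ((∀ i, 0 ≤ p.1 i) ∧ ∀ i, p.1 i ≤ p.1 i0) ∧
      ((∀ i, 0 ≤ p.2 i) ∧ ∀ i, p.2 i ≤ p.2 i0)} =
      ((⋂ i, {p : P s | 0 ≤ p.1 i}) ∩ (⋂ i, {p : P s | p.1 i ≤ p.1 i0})) ∩
      ((⋂ i, {p : P s | 0 ≤ p.2 i}) ∩ (⋂ i, {p : P s | p.2 i ≤ p.2 i0})) := by
    ext p
    simp only [Set.mem_inter_iff, Set.mem_iInter, Set.mem_ofPred_eq]
  rw [e]
  refine ((isClosed_iInter fun i => ?_).inter (isClosed_iInter fun i => ?_)).inter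
    ((isClosed_iInter fun i => ?_).inter (isClosed_iInter fun i => ?_))
  · exact isClosed_le continuous_const (by fun_prop)
  · exact isClosed_le (by fun_prop) (by fun_prop)
  · exact isClosed_le continuous_const (by fun_prop)
  · exact isClosed_le (by fun_prop) (by fun_prop)

theorem isOpen_Ko (i0 : Fin s) : IsOpen (Ko i0) := by
  unfold Ko
  have e : {p : P s | ((∀ i, 0 < p.1 i) ∧ ∀ i, i ≠ i0 → p.1 i < p.1 i0) ∧
      ((∀ i, 0 < p.2 i) ∧ ∀ i, i ≠ i0 → p.2 i < p.2 i0)} =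
      ((⋂ i, {p : P s | 0 < p.1 i}) ∩ (⋂ i, {p : P s | i ≠ i0 → p.1 i < p.1 i0})) ∩
      ((⋂ i, {p : P s | 0 < p.2 i}) ∩ (⋂ i, {p : P s | i ≠ i0 → p.2 i < p.2 i0})) := by
    ext p
    simp only [Set.mem_inter_iff, Set.mem_iInter, Set.mem_ofPred_eq]
  rw [e]
  have hcase : ∀ (i : Fin s) (f g : P s → ℝ), Continuous f → Continuous g →
      IsOpen {p : P s | i ≠ i0 → f p < g p} := by
    intro i f g hf hg
    by_cases hi : i = i0
    · have : {p : P s | i ≠ i0 → f p < g p} = Set.univ :=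
        Set.eq_univ_of_forall fun p h => absurd hi h
      rw [this]
      exact isOpen_univ
    · have : {p : P s | i ≠ i0 → f p < g p} = {p : P s | f p < g p} := by
        ext p
        exact ⟨fun h => h hi, fun h _ => h⟩
      rw [this]
      exact isOpen_lt hf hg
  refine ((isOpen_iInter_of_finite fun i => ?_).inter (isOpen_iInter_of_finite fun i => ?_)).inter
    ((isOpen_iInter_of_finite fun i => ?_).inter (isOpen_iInter_of_finite fun i => ?_))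
  · exact isOpen_lt continuous_const (by fun_prop)
  · exact hcase i _ _ (by fun_prop) (by fun_prop)
  · exact isOpen_lt continuous_const (by fun_prop)
  · exact hcase i _ _ (by fun_prop) (by fun_prop)

theorem isCompact_TE (i0 : Fin s) (δ ε : ℝ) : IsCompact (TE i0 δ ε) := by
  have hcl : IsClosed (TE i0 δ ε) := by
    rw [TE_eq]
    exact (isClosed_Kc i0).inter (isClosed_le continuous_const (continuous_Ph i0 δ))
  refine IsCompact.of_isClosed_subset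
    (isCompact_Icc (a := ((fun _ => 0, fun _ => 0) : P s))
      (b := ((fun _ => 1 + ε, fun _ => 1 + ε) : P s))) hcl ?_
  rintro ⟨x, y⟩ ⟨⟨a1, a2, a3, a4⟩, ⟨b1, b2, b3, b4⟩, _⟩
  have ha : 0 ≤ ∑ i, x i := Finset.sum_nonneg fun i _ => a1 i
  have hb : 0 ≤ ∑ i, y i := Finset.sum_nonneg fun i _ => b1 i
  simp only at a1 a2 a3 a4 b1 b2 b3 b4
  refine ⟨⟨fun i => a1 i, fun i => b1 i⟩, fun i => ?_, fun i => ?_⟩
  · show x i ≤ 1 + ε
    linarith [a2 i]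
  · show y i ≤ 1 + ε
    linarith [b2 i]

theorem isOpen_TO (i0 : Fin s) (δ ε : ℝ) : IsOpen (TO i0 δ ε) := by
  rw [TO_eq]
  exact (isOpen_Ko i0).inter (isOpen_lt continuous_const (continuous_Ph i0 δ))

theorem sum_shift (i0 : Fin s) (t : ℝ) (x : Fin s → ℝ) :
    ∑ i, (t • (Pi.single i0 1 : Fin s → ℝ) + x) i = t + ∑ i, x i := by
  simp only [Pi.add_apply, Pi.smul_apply, smul_eq_mul, Finset.sum_add_distrib]
  rw [← Finset.mul_sum, Finset.sum_pi_single' i0 (1 : ℝ) Finset.univ]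
  simp

/-- the generic conditions in one variable -/
def gen1 (i0 : Fin s) (x : Fin s → ℝ) : Prop :=
  (∀ i, x i ≠ 0) ∧ (∀ i, i ≠ i0 → x i - x i0 ≠ 0) ∧ 1 - ∑ i, x i - x i0 ≠ 0 ∧
    1 / 2 - (1 - ∑ i, x i) ≠ 0

theorem ae_gen1 (i0 : Fin s) : ∀ᵐ p : P s, gen1 i0 p.1 := by
  have h1 : ∀ᵐ p : P s, ∀ i, p.1 i ≠ 0 := by
    rw [ae_all_iff]
    intro i
    refine null (fun p => p.1 i) (by fun_prop) (Pi.single i 1, 0) 1 one_ne_zero ?_
    intro t p
    show (t • (Pi.single i 1 : Fin s → ℝ) + p.1) i = t * 1 + p.1 i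
    simp
  have h2 : ∀ᵐ p : P s, ∀ i, i ≠ i0 → p.1 i - p.1 i0 ≠ 0 := by
    rw [ae_all_iff]
    intro i
    by_cases hi : i = i0
    · exact Eventually.of_forall fun p h => absurd hi h
    · have := null (fun p : P s => p.1 i - p.1 i0) (by fun_prop) (Pi.single i 1, 0) 1
        one_ne_zero (by
          intro t p
          show (t • (Pi.single i 1 : Fin s → ℝ) + p.1) i - (t • (Pi.single i 1 : Fin s → ℝ) + p.1) i0
            = t * 1 + (p.1 i - p.1 i0)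
          rw [Pi.add_apply, Pi.add_apply, Pi.smul_apply, Pi.smul_apply, Pi.single_eq_same,
            Pi.single_eq_of_ne (Ne.symm hi), smul_eq_mul, smul_eq_mul]
          ring)
      filter_upwards [this] with p hp _
      exact hp
  have h3 : ∀ᵐ p : P s, 1 - ∑ i, p.1 i - p.1 i0 ≠ 0 := by
    refine null (fun p : P s => 1 - ∑ i, p.1 i - p.1 i0) (by fun_prop) (Pi.single i0 1, 0) (-2)
      (by norm_num) ?_
    intro t p
    show 1 - ∑ i, (t • (Pi.single i0 1 : Fin s → ℝ) + p.1) i -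
      (t • (Pi.single i0 1 : Fin s → ℝ) + p.1) i0 = _
    rw [sum_shift, Pi.add_apply, Pi.smul_apply, Pi.single_eq_same, smul_eq_mul]
    ring
  have h4 : ∀ᵐ p : P s, 1 / 2 - (1 - ∑ i, p.1 i) ≠ 0 := by
    refine null (fun p : P s => 1 / 2 - (1 - ∑ i, p.1 i)) (by fun_prop) (Pi.single i0 1, 0) 1
      one_ne_zero ?_
    intro t p
    show 1 / 2 - (1 - ∑ i, (t • (Pi.single i0 1 : Fin s → ℝ) + p.1) i) = _
    rw [sum_shift]
    ring
  filter_upwards [h1, h2, h3, h4] with p a1 a2 a3 a4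
  exact ⟨a1, a2, a3, a4⟩

theorem ae_gen2 (i0 : Fin s) : ∀ᵐ p : P s, gen1 i0 p.2 := by
  have h1 : ∀ᵐ p : P s, ∀ i, p.2 i ≠ 0 := by
    rw [ae_all_iff]
    intro i
    refine null (fun p => p.2 i) (by fun_prop) (0, Pi.single i 1) 1 one_ne_zero ?_
    intro t p
    show (t • (Pi.single i 1 : Fin s → ℝ) + p.2) i = t * 1 + p.2 i
    simp
  have h2 : ∀ᵐ p : P s, ∀ i, i ≠ i0 → p.2 i - p.2 i0 ≠ 0 := by
    rw [ae_all_iff]
    intro i
    by_cases hi : i = i0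
    · exact Eventually.of_forall fun p h => absurd hi h
    · have := null (fun p : P s => p.2 i - p.2 i0) (by fun_prop) (0, Pi.single i 1) 1
        one_ne_zero (by
          intro t p
          show (t • (Pi.single i 1 : Fin s → ℝ) + p.2) i - (t • (Pi.single i 1 : Fin s → ℝ) + p.2) i0
            = t * 1 + (p.2 i - p.2 i0)
          rw [Pi.add_apply, Pi.add_apply, Pi.smul_apply, Pi.smul_apply, Pi.single_eq_same,
            Pi.single_eq_of_ne (Ne.symm hi), smul_eq_mul, smul_eq_mul]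
          ring)
      filter_upwards [this] with p hp _
      exact hp
  have h3 : ∀ᵐ p : P s, 1 - ∑ i, p.2 i - p.2 i0 ≠ 0 := by
    refine null (fun p : P s => 1 - ∑ i, p.2 i - p.2 i0) (by fun_prop) (0, Pi.single i0 1) (-2)
      (by norm_num) ?_
    intro t p
    show 1 - ∑ i, (t • (Pi.single i0 1 : Fin s → ℝ) + p.2) i -
      (t • (Pi.single i0 1 : Fin s → ℝ) + p.2) i0 = _
    rw [sum_shift, Pi.add_apply, Pi.smul_apply, Pi.single_eq_same, smul_eq_mul]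
    ring
  have h4 : ∀ᵐ p : P s, 1 / 2 - (1 - ∑ i, p.2 i) ≠ 0 := by
    refine null (fun p : P s => 1 / 2 - (1 - ∑ i, p.2 i)) (by fun_prop) (0, Pi.single i0 1) 1
      one_ne_zero ?_
    intro t p
    show 1 / 2 - (1 - ∑ i, (t • (Pi.single i0 1 : Fin s → ℝ) + p.2) i) = _
    rw [sum_shift]
    ring
  filter_upwards [h1, h2, h3, h4] with p a1 a2 a3 a4
  exact ⟨a1, a2, a3, a4⟩

theorem ae_mx1 (i0 : Fin s) (δ : ℝ) : ∀ᵐ p : P s, mx i0 δ p.1 p.2 ≠ 0 := by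
  refine null (fun p : P s => mx i0 δ p.1 p.2) (by unfold mx; fun_prop) (Pi.single i0 1, 0) (-3)
    (by norm_num) ?_
  intro t p
  show mx i0 δ (t • (Pi.single i0 1 : Fin s → ℝ) + p.1) (t • (0 : Fin s → ℝ) + p.2) = _
  unfold mx
  rw [sum_shift, smul_zero, zero_add]
  ring

theorem ae_mx2 (i0 : Fin s) (δ : ℝ) : ∀ᵐ p : P s, mx i0 δ p.2 p.1 ≠ 0 := by
  refine null (fun p : P s => mx i0 δ p.2 p.1) (by unfold mx; fun_prop) (0, Pi.single i0 1) (-3)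
    (by norm_num) ?_
  intro t p
  show mx i0 δ (t • (Pi.single i0 1 : Fin s → ℝ) + p.2) (t • (0 : Fin s → ℝ) + p.1) = _
  unfold mx
  rw [sum_shift, smul_zero, zero_add]
  ring

theorem ph_pos {i0 : Fin s} {x : Fin s → ℝ} (hg : gen1 i0 x) (h : 0 ≤ ph i0 x) : 0 < ph i0 x := by
  unfold ph at h ⊢
  rw [le_min_iff] at h
  exact lt_min (lt_of_le_of_ne h.1 (Ne.symm hg.2.2.1)) (lt_of_le_of_ne h.2 (Ne.symm hg.2.2.2))

theorem TD_le (i0 : Fin s) (δ : ℝ) :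
    (volume : Measure (P s)) (TD i0 δ) ≤ volume (Ko i0 ∩ {p | 0 < Ph i0 δ p}) := by
  apply measure_mono_ae
  filter_upwards [ae_gen1 i0, ae_gen2 i0, ae_mx1 i0 δ, ae_mx2 i0 δ] with p g1 g2 m1 m2 hp
  have hp' : p ∈ Kc i0 ∩ {p | 0 ≤ Ph i0 δ p} := by
    rw [← TD_eq]
    exact hp
  obtain ⟨⟨⟨a1, a2⟩, b1, b2⟩, hP⟩ := hp'
  have hP' : 0 ≤ Ph i0 δ p := hP
  show p ∈ Ko i0 ∩ {p | 0 < Ph i0 δ p}
  refine ⟨⟨⟨fun i => lt_of_le_of_ne (a1 i) (Ne.symm (g1.1 i)), fun i hi => ?_⟩,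
    fun i => lt_of_le_of_ne (b1 i) (Ne.symm (g2.1 i)), fun i hi => ?_⟩, ?_⟩
  · exact lt_of_le_of_ne (a2 i) fun h => g1.2.1 i hi (by rw [h, sub_self])
  · exact lt_of_le_of_ne (b2 i) fun h => g2.2.1 i hi (by rw [h, sub_self])
  · show 0 < Ph i0 δ p
    unfold Ph at hP' ⊢
    rw [le_min_iff, le_min_iff, le_max_iff] at hP'
    refine lt_min (lt_min (ph_pos g1 hP'.1.1) (ph_pos g2 hP'.1.2)) ?_
    rw [lt_max_iff]
    rcases hP'.2 with h | h
    · left; exact lt_of_le_of_ne h (Ne.symm m1)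
    · right; exact lt_of_le_of_ne h (Ne.symm m2)

end IR11

/-- R11: the volumes. -/
theorem pr_R11 : StR11 := by
  intro _ s i0 δ
  refine ⟨fun ε _ => ⟨IR11.isCompact_TE i0 δ ε, IR11.isOpen_TO i0 δ ε⟩, fun ε' hε' => ?_⟩
  have hfin1 : (volume : Measure (IR11.P s)) (IR11.Kc i0 ∩ {p | -1 ≤ IR11.Ph i0 δ p}) ≠ ⊤ := by
    rw [← IR11.TE_eq]
    exact (IR11.isCompact_TE i0 δ 1).measure_lt_top.ne
  have hfin2 : (volume : Measure (IR11.P s)) (IR11.Ko i0 ∩ {p | 0 < IR11.Ph i0 δ p}) ≠ ⊤ := by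
    refine measure_ne_top_of_subset ?_ hfin1
    rintro p ⟨⟨⟨a1, a2⟩, b1, b2⟩, hP⟩
    have hP' : 0 < IR11.Ph i0 δ p := hP
    refine ⟨⟨⟨fun i => (a1 i).le, fun i => ?_⟩, fun i => (b1 i).le, fun i => ?_⟩, ?_⟩
    · by_cases hi : i = i0
      · rw [hi]
      · exact (a2 i hi).le
    · by_cases hi : i = i0
      · rw [hi]
      · exact (b2 i hi).le
    · show -1 ≤ IR11.Ph i0 δ p
      linarith
  obtain ⟨e1, he1, h1⟩ := IR11.lim_down (volume : Measure (IR11.P s)) (IR11.Kc i0)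
    (IR11.Ph i0 δ) (IR11.isClosed_Kc i0).measurableSet (IR11.continuous_Ph i0 δ).measurable
    hfin1 hε'
  obtain ⟨e2, he2, h2⟩ := IR11.lim_up (volume : Measure (IR11.P s)) (IR11.Ko i0)
    (IR11.Ph i0 δ) hfin2 hε'
  refine ⟨min e1 e2, lt_min he1 he2, fun ε hε hle => ⟨?_, ?_⟩⟩
  · rw [IR11.TE_eq, IR11.TD_eq]
    exact h1 ε hε (hle.trans (min_le_left _ _))
  · have h3 : (volume : Measure (IR11.P s)).real (TD i0 δ) ≤
        (volume : Measure (IR11.P s)).real (IR11.Ko i0 ∩ {p | 0 < IR11.Ph i0 δ p}) :=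
      ENNReal.toReal_mono hfin2 (IR11.TD_le i0 δ)
    rw [IR11.TO_eq]
    linarith [h2 ε hε (hle.trans (min_le_right _ _))]

end Pool.Agent.Work.MP_122e00_nt.WR
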