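import Pool.Agent.Work.MP_122e00_nt.WR.StmtsR

set_option autoImplicit false

/-!
# The Weil region, part R, item R12: the regions are in the region of the box theorem
-/

namespace Pool.Agent.Work.MP_122e00_nt.WR

open Finset Filter Topology MeasureTheory

namespace IR12

theorem lw_of {s : ℕ} (i0 : Fin s) (x y : Fin s → ℝ) (hx : ∀ i, 0 ≤ x i) {c e : ℝ} (hc : 0 < c)
    (he : 2 * e < c) (h1 : y i0 ≤ 1 - ∑ i, y i + e)
    (h2 : 3 * ∑ i, x i + 2 * (∑ i, y i - y i0) ≤ 2 - c) : LW i0 x y := by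
  have hs : 0 ≤ ∑ i, x i := Finset.sum_nonneg fun i _ => hx i
  refine ⟨by linarith, by linarith⟩

theorem te {s : ℕ} (i0 : Fin s) {δ ε : ℝ} (hε : 0 < ε) (hδ : 4 * ε ≤ δ) (x y : Fin s → ℝ)
    (hx : x ∈ DmE i0 ε) (hy : y ∈ DmE i0 ε) (h : WD i0 (δ - ε) x y) : LW i0 x y :=
  lw_of i0 x y hx.1 (c := δ - ε) (e := ε) (by linarith) (by linarith) hy.2.2.1 h

theorem tO {s : ℕ} (i0 : Fin s) {δ ε : ℝ} (hε : 0 < ε) (hδ : 0 ≤ δ) (x y : Fin s → ℝ)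
    (hx : x ∈ DmO i0 ε) (hy : y ∈ DmO i0 ε) (h : WO i0 (δ + ε) x y) : LW i0 x y :=
  lw_of i0 x y (fun i => (hx.1 i).le) (c := δ + ε) (e := 0) (by linarith) (by linarith)
    (by linarith [hy.2.2.1]) (le_of_lt h)

end IR12

theorem pr_R12 : StR12 := by
  intro s i0 δ ε hε hδ
  refine ⟨?_, ?_⟩
  · rintro h4 ⟨x, y⟩ ⟨hx, hy, h⟩
    refine ⟨fun i => ⟨hx.1 i, hy.1 i⟩, ?_⟩
    rcases h with h | h
    · exact Or.inl (IR12.te i0 hε h4 x y hx hy h)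
    · exact Or.inr (IR12.te i0 hε h4 y x hy hx h)
  · rintro ⟨x, y⟩ ⟨hx, hy, h⟩
    refine ⟨fun i => ⟨hx.1 i, hy.1 i⟩, ?_⟩
    rcases h with h | h
    · exact Or.inl (IR12.tO i0 hε hδ x y hx hy h)
    · exact Or.inr (IR12.tO i0 hε hδ y x hy hx h)

end Pool.Agent.Work.MP_122e00_nt.WR
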