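import Pool.Agent.Work.MP_122e00_nt.WR.StmtsR

set_option autoImplicit false

/-!
# The Weil region, part R, item R13
-/

namespace Pool.Agent.Work.MP_122e00_nt.WR

open Finset Filter Topology MeasureTheory

open scoped ArithmeticFunction.zeta

open Two Gen Pool.Agent.Work.MP_122e00_nt.Core

namespace IR13

theorem Wsum_nn {s : ℕ} (h : ℕ) (α β α' β' : Fin s → ℝ) (X : ℝ) : 0 ≤ Wsum h α β α' β' X := by
  unfold Wsum
  apply Finset.sum_nonneg
  intro a _
  apply Finset.sum_nonneg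
  intro b _
  apply mul_nonneg
  · rw [Fh_apply]
    split_ifs <;> positivity
  · apply mul_nonneg <;> exact Finset.prod_nonneg (fun i _ => by positivity)

theorem Csing_nn (s h : ℕ) (hh : h ≠ 0) : 0 ≤ Csing s h := by
  have h1 := tendsto_Wsum (s := s) h hh (fun _ => 0) (fun _ => 1) (fun _ => 0) (fun _ => 1)
    (fun _ => le_rfl) (fun _ => zero_le_one) (fun _ => le_rfl)
    (fun _ => le_rfl) (fun _ => zero_le_one) (fun _ => le_rfl)
  simp only [sub_zero, Finset.prod_const_one, mul_one] at h1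
  apply ge_of_tendsto h1
  filter_upwards with X
  apply div_nonneg (Wsum_nn _ _ _ _ _ _)
  rw [pow_mul]
  positivity

theorem card_fma (hB3 : Gen.claimB3) (s n : ℕ) (hn : n ≠ 0) :
    ((Nat.finMulAntidiag (s + 1) n).card : ℝ) =
      (((ζ : ArithmeticFunction ℕ) ^ (s + 1)) n : ℝ) := by
  have h1 := hB3.2 1 s n hn
  rw [TS, Finset.sum_const, nsmul_eq_mul, mul_one] at h1
  exact h1

theorem gcnt_le (hB3 : Gen.claimB3) (s h : ℕ) (δ X : ℝ) (P : (Fin (s + 1) → ℕ) → Prop)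
    (n : ℕ) (hn : n ≠ 0) :
    ((gcnt s h δ X P n : ℕ) : ℝ) ≤ (((ζ : ArithmeticFunction ℕ) ^ (s + 1)) n : ℝ) *
      (((ζ : ArithmeticFunction ℕ) ^ (s + 1)) (n + h) : ℝ) := by
  rw [← card_fma hB3 s n hn, ← card_fma hB3 s (n + h) (by omega), ← Nat.cast_mul,
    ← Finset.card_product]
  unfold gcnt
  classical
  refine Nat.cast_le.2 (Finset.card_le_card ?_)
  intro p hp
  exact (Finset.mem_filter.1 hp).1

theorem Icc_eq (N : ℕ) : Finset.Icc 1 N = Finset.Ioc 0 N := by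
  ext n
  rw [Finset.mem_Icc, Finset.mem_Ioc]
  omega

theorem split (f : ℕ → ℝ) {M N : ℕ} (hMN : M ≤ N) :
    ∑ n ∈ Finset.Icc 1 N, f n = ∑ n ∈ Finset.Icc 1 M, f n + ∑ n ∈ Finset.Ioc M N, f n := by
  rw [Icc_eq, Icc_eq, Finset.sum_Ioc_consecutive f (Nat.zero_le M) hMN]

theorem sum_gcnt_le (hB3 : Gen.claimB3) (s h : ℕ) (δ X : ℝ) (P : (Fin (s + 1) → ℕ) → Prop)
    (M : ℕ) :
    ∑ n ∈ Finset.Icc 1 M, ((gcnt s h δ X P n : ℕ) : ℝ) ≤ DS s h 0 M := by
  unfold DS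
  rw [← Icc_eq]
  apply Finset.sum_le_sum
  intro n hn
  have := (Finset.mem_Icc.1 hn).1
  exact gcnt_le hB3 s h δ X P n (by omega)

theorem DS_bd (hF : Gen.claimFinal) (s h : ℕ) (hs : 1 ≤ s) (hh : h ≠ 0) :
    ∃ C : ℝ, 0 < C ∧ ∀ᶠ X : ℝ in atTop,
      DS s h 0 ⌊X⌋₊ ≤ C * (X * (Real.log X) ^ (2 * s)) := by
  set c := Csing s h / (s.factorial : ℝ) ^ 2 * (((s : ℝ) + 1) ^ 2 / 2 ^ s *
      (2 * s / ((s : ℝ) + 1)) ^ (s * (s + 1)))
  refine ⟨max c 0 + 1, ?_, ?_⟩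
  · have := le_max_right c 0
    linarith
  · apply hF s h hs hh
    have := le_max_left c 0
    linarith

theorem DS_eta {s h : ℕ} {C η : ℝ} (hC : 0 < C) (h0 : 0 < η) (h1 : η ≤ 1)
    (hDS : ∀ᶠ X : ℝ in atTop, DS s h 0 ⌊X⌋₊ ≤ C * (X * (Real.log X) ^ (2 * s))) :
    ∀ᶠ X : ℝ in atTop, DS s h 0 ⌊η * X⌋₊ ≤ C * η * (X * (Real.log X) ^ (2 * s)) := by
  have t : Tendsto (fun X : ℝ => η * X) atTop atTop := tendsto_id.const_mul_atTop h0
  filter_upwards [t.eventually hDS, eventually_ge_atTop (1 / η), eventually_ge_atTop (1 : ℝ)]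
    with X hX hX1 hX2
  have hX0 : 0 < X := by linarith
  have e1 : 1 ≤ η * X := by
    rw [div_le_iff₀ h0] at hX1
    linarith
  have e2 : η * X ≤ X := by nlinarith
  have e3 : 0 ≤ Real.log (η * X) := Real.log_nonneg e1
  have e4 : Real.log (η * X) ≤ Real.log X := Real.log_le_log (by linarith) e2
  have e5 : (Real.log (η * X)) ^ (2 * s) ≤ (Real.log X) ^ (2 * s) :=
    pow_le_pow_left₀ e3 e4 _
  have e6 : C * (η * X * (Real.log (η * X)) ^ (2 * s)) ≤
      C * (η * X * (Real.log X) ^ (2 * s)) := by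
    apply mul_le_mul_of_nonneg_left _ hC.le
    apply mul_le_mul_of_nonneg_left e5 (by positivity)
  calc DS s h 0 ⌊η * X⌋₊ ≤ C * (η * X * (Real.log (η * X)) ^ (2 * s)) := hX
    _ ≤ C * (η * X * (Real.log X) ^ (2 * s)) := e6
    _ = C * η * (X * (Real.log X) ^ (2 * s)) := by ring

theorem params {K Cs C g : ℝ} (hK : 0 ≤ K) (hCs : 0 ≤ Cs) (hC : 0 < C) (hg : 0 < g) :
    ∃ η e1 e2 : ℝ, 0 < η ∧ η ≤ 1 ∧ 0 < e1 ∧ 0 < e2 ∧ C * η ≤ g / 4 ∧ K * (C * η) ≤ g / 4 ∧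
      K * (Cs * e1) ≤ g / 4 ∧ K * e2 ≤ g / 4 := by
  refine ⟨min 1 (g / (4 * ((K + 1) * C))), g / (4 * (K * Cs + 1)), g / (4 * (K + 1)), ?_,
    min_le_left _ _, by positivity, by positivity, ?_, ?_, ?_, ?_⟩
  · exact lt_min one_pos (by positivity)
  · have h1 : C * min 1 (g / (4 * ((K + 1) * C))) ≤ C * (g / (4 * ((K + 1) * C))) :=
      mul_le_mul_of_nonneg_left (min_le_right _ _) hC.le
    have h2 : C * (g / (4 * ((K + 1) * C))) = g / 4 * (1 / (K + 1)) := by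
      field_simp
    have h3 : 1 / (K + 1) ≤ 1 := by
      rw [div_le_one (by linarith)]
      linarith
    rw [h2] at h1
    nlinarith
  · have h1 : C * min 1 (g / (4 * ((K + 1) * C))) ≤ C * (g / (4 * ((K + 1) * C))) :=
      mul_le_mul_of_nonneg_left (min_le_right _ _) hC.le
    have h2 : C * (g / (4 * ((K + 1) * C))) = g / 4 * (1 / (K + 1)) := by
      field_simp
    have h3 : K * (1 / (K + 1)) ≤ 1 := by
      rw [mul_one_div, div_le_one (by linarith)]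
      linarith
    calc K * (C * min 1 (g / (4 * ((K + 1) * C)))) ≤ K * (C * (g / (4 * ((K + 1) * C)))) :=
          mul_le_mul_of_nonneg_left h1 hK
      _ = g / 4 * (K * (1 / (K + 1))) := by rw [h2]; ring
      _ ≤ g / 4 * 1 := mul_le_mul_of_nonneg_left h3 (by positivity)
      _ = g / 4 := by ring
  · have hKC : 0 ≤ K * Cs := mul_nonneg hK hCs
    have h3 : K * Cs * (1 / (K * Cs + 1)) ≤ 1 := by
      rw [mul_one_div, div_le_one (by linarith)]
      linarith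
    calc K * (Cs * (g / (4 * (K * Cs + 1)))) = g / 4 * (K * Cs * (1 / (K * Cs + 1))) := by
          field_simp
      _ ≤ g / 4 * 1 := mul_le_mul_of_nonneg_left h3 (by positivity)
      _ = g / 4 := by ring
  · have h3 : K * (1 / (K + 1)) ≤ 1 := by
      rw [mul_one_div, div_le_one (by linarith)]
      linarith
    calc K * (g / (4 * (K + 1))) = g / 4 * (K * (1 / (K + 1))) := by
          field_simp
      _ ≤ g / 4 * 1 := mul_le_mul_of_nonneg_left h3 (by positivity)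
      _ = g / 4 := by ring

end IR13

theorem pr_R13 : StR13 := by
  intro hB3 hF hUp hLo h7 h9 h10 h11 h12
  intro s h i0 δ hh hδ
  have hs : 1 ≤ s := Nat.succ_le_of_lt (Fin.pos i0)
  obtain ⟨C, hC, hDS⟩ := IR13.DS_bd hF s h hs hh
  have hCs : 0 ≤ Csing s h := IR13.Csing_nn s h hh
  have hK : 0 ≤ (((s : ℝ) + 1) * s) ^ 2 := by positivity
  have hCs' : Csing s h = Csing s h := rfl
  generalize hKd : (((s : ℝ) + 1) * s) ^ 2 = K at hK
  generalize hVd : volume.real (TD i0 δ) = V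
  have hYpos : ∀ᶠ X : ℝ in atTop, 0 < X * (Real.log X) ^ (2 * s) := by
    filter_upwards [eventually_gt_atTop (1 : ℝ)] with X hX
    have := Real.log_pos hX
    positivity
  have hfl : ∀ {η : ℝ}, 0 < η → η ≤ 1 → ∀ᶠ X : ℝ in atTop, ⌊η * X⌋₊ ≤ ⌊X⌋₊ := by
    intro η h0 h1
    filter_upwards [eventually_ge_atTop (0 : ℝ)] with X hX
    apply Nat.floor_le_floor
    nlinarith
  rw [tendsto_order]
  constructor
  · intro a ha
    obtain ⟨η, e1, e2, hη0, hη1, he1, he2, -, p2, p3, p4⟩ :=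
      IR13.params hK hCs hC (sub_pos.2 ha)
    obtain ⟨ε₀, hε₀, hV⟩ := (h11 s i0 δ).2 e1 he1
    have hV' := (hV ε₀ hε₀ le_rfl).2
    rw [hVd] at hV'
    have hO := (h12 s i0 δ ε₀ hε₀ hδ.le).2
    filter_upwards [IR13.DS_eta hC hη0 hη1 hDS, h10 s h i0 δ ε₀ η hε₀ hη0 hη1,
      hLo s h i0 (TO i0 δ ε₀) e2 hh (((h11 s i0 δ).1 ε₀ hε₀).2) hO he2, hYpos, hfl hη0 hη1]
      with X q1 q2 q3 hY hMN
    rw [lt_div_iff₀ hY, IR13.split _ hMN]
    have r1 : 0 ≤ ∑ n ∈ Finset.Icc 1 ⌊η * X⌋₊,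
        ((gcnt s h δ X (fun _ => True) n : ℕ) : ℝ) :=
      Finset.sum_nonneg fun _ _ => Nat.cast_nonneg _
    have r2 : K * ∑ n ∈ Finset.Ioc ⌊η * X⌋₊ ⌊X⌋₊, ((gcnt s h δ X (topS i0) n : ℕ) : ℝ) ≤
        ∑ n ∈ Finset.Ioc ⌊η * X⌋₊ ⌊X⌋₊, ((gcnt s h δ X (fun _ => True) n : ℕ) : ℝ) := by
      rw [Finset.mul_sum]
      apply Finset.sum_le_sum
      intro n _
      have := (h7 s h n i0 δ X).2
      rw [hKd] at this
      exact this
    set Y := X * (Real.log X) ^ (2 * s) with hYd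
    set G := ∑ n ∈ Finset.Ioc ⌊η * X⌋₊ ⌊X⌋₊, ((gcnt s h δ X (topS i0) n : ℕ) : ℝ) with hGd
    have r3 : (Csing s h * (V - e1) - e2 - C * η) * Y ≤ G := by
      have s1 : (Csing s h * (V - e1) - e2) * Y ≤
          (Csing s h * volume.real (TO i0 δ ε₀) - e2) * Y := by
        apply mul_le_mul_of_nonneg_right _ hY.le
        have := mul_le_mul_of_nonneg_left hV' hCs
        linarith
      have s2 : (Csing s h * (V - e1) - e2 - C * η) * Y =
          (Csing s h * (V - e1) - e2) * Y - C * η * Y := by ring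
      rw [s2]
      linarith
    have r4 : K * ((Csing s h * (V - e1) - e2 - C * η) * Y) ≤ K * G :=
      mul_le_mul_of_nonneg_left r3 hK
    have r5 : a * Y < K * ((Csing s h * (V - e1) - e2 - C * η) * Y) := by
      have s1 : K * ((Csing s h * (V - e1) - e2 - C * η) * Y) =
          (K * (Csing s h * V) - K * (Csing s h * e1) - K * e2 - K * (C * η)) * Y := by ring
      rw [s1]
      apply mul_lt_mul_of_pos_right _ hY
      linarith
    linarith
  · intro a ha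
    obtain ⟨η, e1, e2, hη0, hη1, he1, he2, p1, -, p3, p4⟩ :=
      IR13.params hK hCs hC (sub_pos.2 ha)
    obtain ⟨ε₀, hε₀, hV⟩ := (h11 s i0 δ).2 e1 he1
    have hε : 0 < min ε₀ (δ / 4) := lt_min hε₀ (by linarith)
    have hV' := (hV _ hε (min_le_left _ _)).1
    rw [hVd] at hV'
    have hO := (h12 s i0 δ _ hε hδ.le).1 (by
      have := min_le_right ε₀ (δ / 4)
      linarith)
    filter_upwards [IR13.DS_eta hC hη0 hη1 hDS, h9 s h i0 δ _ η hε hη0 hη1,
      hUp s h i0 (TE i0 δ (min ε₀ (δ / 4))) e2 hh (((h11 s i0 δ).1 _ hε).1) hO he2, hYpos,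
      hfl hη0 hη1] with X q1 q2 q3 hY hMN
    rw [div_lt_iff₀ hY, IR13.split _ hMN]
    have r1 : ∑ n ∈ Finset.Icc 1 ⌊η * X⌋₊,
        ((gcnt s h δ X (fun _ => True) n : ℕ) : ℝ) ≤ DS s h 0 ⌊η * X⌋₊ :=
      IR13.sum_gcnt_le hB3 s h δ X _ _
    have r2 : ∑ n ∈ Finset.Ioc ⌊η * X⌋₊ ⌊X⌋₊, ((gcnt s h δ X (fun _ => True) n : ℕ) : ℝ) ≤
        K * ∑ n ∈ Finset.Ioc ⌊η * X⌋₊ ⌊X⌋₊, ((gcnt s h δ X (topP i0) n : ℕ) : ℝ) := by
      rw [Finset.mul_sum]
      apply Finset.sum_le_sum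
      intro n _
      have := (h7 s h n i0 δ X).1
      rw [hKd] at this
      exact this
    set Y := X * (Real.log X) ^ (2 * s) with hYd
    set G := ∑ n ∈ Finset.Ioc ⌊η * X⌋₊ ⌊X⌋₊, ((gcnt s h δ X (topP i0) n : ℕ) : ℝ) with hGd
    have r3 : G ≤ (Csing s h * (V + e1) + e2) * Y := by
      have s1 : (Csing s h * volume.real (TE i0 δ (min ε₀ (δ / 4))) + e2) * Y ≤
          (Csing s h * (V + e1) + e2) * Y := by
        apply mul_le_mul_of_nonneg_right _ hY.le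
        have := mul_le_mul_of_nonneg_left hV' hCs
        linarith
      linarith
    have r4 : K * G ≤ K * ((Csing s h * (V + e1) + e2) * Y) :=
      mul_le_mul_of_nonneg_left r3 hK
    have r5 : C * η * Y + K * ((Csing s h * (V + e1) + e2) * Y) < a * Y := by
      have s1 : C * η * Y + K * ((Csing s h * (V + e1) + e2) * Y) =
          (K * (Csing s h * V) + K * (Csing s h * e1) + K * e2 + C * η) * Y := by ring
      rw [s1]
      apply mul_lt_mul_of_pos_right _ hY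
      linarith
    linarith

end Pool.Agent.Work.MP_122e00_nt.WR
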