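import Pool.Agent.Work.MP_122e00_nt.WR.StmtsR

set_option autoImplicit false

/-! Item R14 of the block `WR`: the main theorem with a margin. -/

namespace Pool.Agent.Work.MP_122e00_nt.WR

open Finset Filter Topology MeasureTheory

open scoped ArithmeticFunction.zeta

open Two Gen Pool.Agent.Work.MP_122e00_nt.Core

theorem pr_R14 : StR14 := by
  intro hC9 hR8 hG s h i0 δ hh hδ
  have hs : 1 ≤ s := by
    have := i0.2
    omega
  set c : ℝ := Csing s h / (s.factorial : ℝ) ^ 2 * (1 - (1 - ((s : ℝ) + 1) / 2 ^ s) ^ 2) with hc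
  have hf : (s.factorial : ℝ) ≠ 0 := by exact_mod_cast s.factorial_ne_zero
  have h1 : Tendsto (fun X : ℝ => (DS s h 0 ⌊X⌋₊ - ∑ n ∈ Finset.Icc 1 ⌊X⌋₊,
      mc s X n * mc s X (n + h)) / (X * (Real.log X) ^ (2 * s))) atTop (𝓝 c) := by
    rw [Metric.tendsto_atTop']
    intro ε hε
    have h2 := hC9 s h (ε / 2) hs hh (by linarith)
    obtain ⟨N, hN⟩ := Filter.eventually_atTop.1 h2
    refine ⟨max N 3, fun X hX => ?_⟩
    have hX1 : N ≤ X := (le_max_left _ _).trans hX.le
    have hX3 : (3 : ℝ) ≤ X := (le_max_right _ _).trans hX.le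
    have hlog : 0 < Real.log X := Real.log_pos (by linarith)
    have hY : 0 < X * (Real.log X) ^ (2 * s) := mul_pos (by linarith) (pow_pos hlog _)
    have h3 := hN X hX1
    rw [Real.dist_eq]
    have h4 : (DS s h 0 ⌊X⌋₊ - ∑ n ∈ Finset.Icc 1 ⌊X⌋₊, mc s X n * mc s X (n + h)) /
        (X * (Real.log X) ^ (2 * s)) - c =
        -((∑ n ∈ Finset.Icc 1 ⌊X⌋₊, mc s X n * mc s X (n + h) -
          (DS s h 0 ⌊X⌋₊ - c * (X * (Real.log X) ^ (2 * s)))) /
            (X * (Real.log X) ^ (2 * s))) := by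
      field_simp
      ring
    rw [h4, abs_neg, abs_div, abs_of_pos hY, div_lt_iff₀ hY]
    refine lt_of_le_of_lt h3 ?_
    exact mul_lt_mul_of_pos_right (by linarith) hY
  have h2 := hG s h i0 δ hh hδ
  have h3 := h1.add h2
  have h4 : c + (((s : ℝ) + 1) * s) ^ 2 * (Csing s h * volume.real (TD i0 δ)) =
      kap s i0 δ * (Csing s h / (s.factorial : ℝ) ^ 2) := by
    rw [hc, kap]
    field_simp
  rw [h4] at h3
  refine h3.congr fun X => ?_
  rw [← add_div, ← hR8 s h δ X]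
  congr 1
  ring

end Pool.Agent.Work.MP_122e00_nt.WR
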