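import Pool.Agent.Work.MP_122e00_nt.WR.StmtsR

set_option autoImplicit false

namespace Pool.Agent.Work.MP_122e00_nt.WR

open Finset Filter Topology MeasureTheory

open scoped ArithmeticFunction.zeta

open Two Gen Pool.Agent.Work.MP_122e00_nt.Core

namespace IR15

/-- The hyperplane of the mixed condition. -/
def HP {s : ℕ} (i0 : Fin s) : Set ((Fin s → ℝ) × (Fin s → ℝ)) :=
  {p | 3 * ∑ i, p.1 i + 2 * (∑ i, p.2 i - p.2 i0) = 2}

/-- The exchanged hyperplane. -/
def HQ {s : ℕ} (i0 : Fin s) : Set ((Fin s → ℝ) × (Fin s → ℝ)) :=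
  {p | 3 * ∑ i, p.2 i + 2 * (∑ i, p.1 i - p.1 i0) = 2}

theorem meas_HP {s : ℕ} (i0 : Fin s) : MeasurableSet (HP i0) := by
  apply IsClosed.measurableSet
  unfold HP
  refine isClosed_eq ?_ continuous_const
  fun_prop

theorem meas_HQ {s : ℕ} (i0 : Fin s) : MeasurableSet (HQ i0) := by
  apply IsClosed.measurableSet
  unfold HQ
  refine isClosed_eq ?_ continuous_const
  fun_prop

theorem null_sum (hL6 : claimL6) {s : ℕ} (i0 : Fin s) (b : ℝ) :
    volume {x : Fin s → ℝ | ∑ i, (3 : ℝ) * x i = b} = 0 := by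
  have h := hL6 (Fin s) (fun _ => (3 : ℝ)) b (by
    intro h
    have := congrFun h i0
    norm_num at this)
  simpa using h

theorem null_HP (hL6 : claimL6) {s : ℕ} (i0 : Fin s) : volume (HP i0) = 0 := by
  rw [Measure.volume_eq_prod, Measure.prod_apply_symm (meas_HP i0)]
  have : ∀ y : Fin s → ℝ, volume ((fun x : Fin s → ℝ => (x, y)) ⁻¹' (HP i0)) = 0 := by
    intro y
    have e : ((fun x : Fin s → ℝ => (x, y)) ⁻¹' (HP i0)) =
        {x : Fin s → ℝ | ∑ i, (3 : ℝ) * x i = 2 - 2 * (∑ i, y i - y i0)} := by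
      ext x
      simp only [HP, Set.mem_preimage, Set.mem_setOf_eq, ← Finset.mul_sum]
      constructor <;> intro h <;> linarith
    rw [e]
    exact null_sum hL6 i0 _
  simp [this]

theorem null_HQ (hL6 : claimL6) {s : ℕ} (i0 : Fin s) : volume (HQ i0) = 0 := by
  rw [Measure.volume_eq_prod, Measure.prod_apply (meas_HQ i0)]
  have : ∀ x : Fin s → ℝ, volume (Prod.mk x ⁻¹' (HQ i0)) = 0 := by
    intro x
    have e : (Prod.mk x ⁻¹' (HQ i0)) =
        {y : Fin s → ℝ | ∑ i, (3 : ℝ) * y i = 2 - 2 * (∑ i, x i - x i0)} := by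
      ext y
      simp only [HQ, Set.mem_preimage, Set.mem_setOf_eq, ← Finset.mul_sum]
      constructor <;> intro h <;> linarith
    rw [e]
    exact null_sum hL6 i0 _
  simp [this]

theorem TD_mono {s : ℕ} (i0 : Fin s) {δ δ' : ℝ} (h : δ ≤ δ') : TD i0 δ' ⊆ TD i0 δ := by
  rintro p ⟨h1, h2, h3⟩
  refine ⟨h1, h2, ?_⟩
  rcases h3 with h3 | h3
  · left; unfold WD at *; linarith
  · right; unfold WD at *; linarith

theorem TD_bdd {s : ℕ} (i0 : Fin s) (δ : ℝ) :
    TD i0 δ ⊆ (Set.Icc (0 : Fin s → ℝ) 1) ×ˢ (Set.Icc (0 : Fin s → ℝ) 1) := by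
  have key : ∀ x : Fin s → ℝ, x ∈ Dm i0 → x ∈ Set.Icc (0 : Fin s → ℝ) 1 := by
    rintro x ⟨h1, h2, h3, h4⟩
    have h5 : 0 ≤ ∑ i, x i := Finset.sum_nonneg fun i _ => h1 i
    refine ⟨fun i => h1 i, fun i => ?_⟩
    have := h2 i
    simp only [Pi.one_apply]
    linarith
  rintro p ⟨h1, h2, _⟩
  exact ⟨key _ h1, key _ h2⟩

theorem TD_fin {s : ℕ} (i0 : Fin s) (δ : ℝ) : volume (TD i0 δ) ≠ ⊤ := by
  have hc : IsCompact ((Set.Icc (0 : Fin s → ℝ) 1) ×ˢ (Set.Icc (0 : Fin s → ℝ) 1)) :=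
    isCompact_Icc.prod isCompact_Icc
  exact ne_top_of_le_ne_top hc.measure_lt_top.ne (measure_mono (TD_bdd i0 δ))

theorem TD_union (hL6 : claimL6) {s : ℕ} (i0 : Fin s) :
    volume (⋃ n : ℕ, TD i0 (1 / ((n : ℝ) + 1))) = volume (TD i0 0) := by
  apply le_antisymm
  · refine measure_mono (Set.iUnion_subset fun n => TD_mono i0 (by positivity))
  · have hsub : TD i0 0 ⊆ (⋃ n : ℕ, TD i0 (1 / ((n : ℝ) + 1))) ∪ (HP i0 ∪ HQ i0) := by
      rintro p ⟨h1, h2, h3⟩
      have aux : ∀ t : ℝ, t < 2 → ∃ n : ℕ, t ≤ 2 - 1 / ((n : ℝ) + 1) := by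
        intro t ht
        obtain ⟨n, hn⟩ := exists_nat_one_div_lt (sub_pos.mpr ht)
        exact ⟨n, by linarith⟩
      rcases h3 with h3 | h3
      · unfold WD at h3
        rw [sub_zero] at h3
        rcases h3.lt_or_eq with h | h
        · obtain ⟨n, hn⟩ := aux _ h
          left
          exact Set.mem_iUnion.mpr ⟨n, h1, h2, Or.inl hn⟩
        · right; left; exact h
      · unfold WD at h3
        rw [sub_zero] at h3
        rcases h3.lt_or_eq with h | h
        · obtain ⟨n, hn⟩ := aux _ h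
          left
          exact Set.mem_iUnion.mpr ⟨n, h1, h2, Or.inr hn⟩
        · right; right; exact h
    calc volume (TD i0 0) ≤ volume ((⋃ n : ℕ, TD i0 (1 / ((n : ℝ) + 1))) ∪ (HP i0 ∪ HQ i0)) :=
          measure_mono hsub
      _ ≤ volume (⋃ n : ℕ, TD i0 (1 / ((n : ℝ) + 1))) + volume (HP i0 ∪ HQ i0) :=
          measure_union_le _ _
      _ ≤ volume (⋃ n : ℕ, TD i0 (1 / ((n : ℝ) + 1))) + (volume (HP i0) + volume (HQ i0)) := by
          gcongr
          exact measure_union_le _ _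
      _ = volume (⋃ n : ℕ, TD i0 (1 / ((n : ℝ) + 1))) := by
          rw [null_HP hL6, null_HQ hL6]; simp

theorem TD_lim (hL6 : claimL6) {s : ℕ} (i0 : Fin s) :
    Tendsto (fun n : ℕ => volume.real (TD i0 (1 / ((n : ℝ) + 1)))) atTop
      (𝓝 (volume.real (TD i0 0))) := by
  have hm : Monotone (fun n : ℕ => TD i0 (1 / ((n : ℝ) + 1))) := by
    intro m n hmn
    refine TD_mono i0 ?_
    have : (m : ℝ) ≤ n := by exact_mod_cast hmn
    exact one_div_le_one_div_of_le (by positivity) (by linarith)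
  have h := tendsto_measure_iUnion_atTop (μ := volume) hm
  rw [TD_union hL6] at h
  exact (ENNReal.tendsto_toReal (TD_fin i0 0)).comp h

end IR15

theorem pr_R15 : StR15 := by
  intro hL6 s i0 ε hε
  set K : ℝ := (((s : ℝ) + 1) * s * s.factorial) ^ 2 with hK
  have hK0 : 0 ≤ K := sq_nonneg _
  have hlim := IR15.TD_lim hL6 i0
  have hε' : 0 < ε / (K + 1) := by positivity
  have hev : ∀ᶠ n : ℕ in atTop, volume.real (TD i0 0) - ε / (K + 1) <
      volume.real (TD i0 (1 / ((n : ℝ) + 1))) :=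
    hlim.eventually_const_lt (by linarith)
  obtain ⟨n, hn⟩ := hev.exists
  refine ⟨1 / ((n : ℝ) + 1), by positivity, ?_⟩
  intro δ hδ0 hδ
  have h1 : volume.real (TD i0 δ) ≤ volume.real (TD i0 0) :=
    measureReal_mono (IR15.TD_mono i0 hδ0.le) (IR15.TD_fin i0 0)
  have h2 : volume.real (TD i0 (1 / ((n : ℝ) + 1))) ≤ volume.real (TD i0 δ) :=
    measureReal_mono (IR15.TD_mono i0 hδ) (IR15.TD_fin i0 δ)
  unfold kap
  rw [← hK]
  constructor
  · have := mul_le_mul_of_nonneg_left h1 hK0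
    linarith
  · have h3 : volume.real (TD i0 0) - ε / (K + 1) ≤ volume.real (TD i0 δ) := by linarith
    have h4 := mul_le_mul_of_nonneg_left h3 hK0
    have h5 : K * (ε / (K + 1)) ≤ ε := by
      rw [mul_div_assoc', div_le_iff₀ (by positivity)]
      nlinarith
    nlinarith

end Pool.Agent.Work.MP_122e00_nt.WR
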