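import Pool.Agent.Work.MP_122e00_nt.WR.StmtsR

set_option autoImplicit false

/-!
# R2: covering of a compact set by grid cells
-/

namespace Pool.Agent.Work.MP_122e00_nt.WR

open Finset Filter Topology MeasureTheory

open Two Gen Pool.Agent.Work.MP_122e00_nt.Core

namespace IR2

theorem hb_eq {s : ℕ} (α β : Fin s → ℝ) :
    hb α β = Set.pi Set.univ (fun i => Set.Ioc (α i) (β i)) := by
  ext y
  simp [hb, Set.mem_pi]

theorem meas_hb {s : ℕ} (α β : Fin s → ℝ) : MeasurableSet (hb α β) := by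
  rw [hb_eq]
  exact MeasurableSet.univ_pi (fun i => measurableSet_Ioc)

theorem vol_hb {s : ℕ} (α β : Fin s → ℝ) (h : ∀ i, α i ≤ β i) :
    volume.real (hb α β) = ∏ i, (β i - α i) := by
  rw [hb_eq, Measure.real]
  exact Real.volume_pi_Ioc_toReal h

theorem vol_hb_ne {s : ℕ} (α β : Fin s → ℝ) : volume (hb α β) ≠ ⊤ := by
  rw [hb_eq, Real.volume_pi_Ioc]
  exact ENNReal.prod_ne_top (fun i _ => ENNReal.ofReal_ne_top)

theorem meas_cell {s : ℕ} (N : ℕ) (m : (Fin s → ℕ) × (Fin s → ℕ)) :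
    MeasurableSet (cellP N m) := (meas_hb _ _).prod (meas_hb _ _)

theorem vol_prod_real {s : ℕ} (A B : Set (Fin s → ℝ)) :
    volume.real (A ×ˢ B) = volume.real A * volume.real B := by
  rw [Measure.real, Measure.volume_eq_prod, Measure.prod_prod, ENNReal.toReal_mul]
  rfl

theorem vol_cell_ne {s : ℕ} (N : ℕ) (m : (Fin s → ℕ) × (Fin s → ℕ)) :
    volume (cellP N m) ≠ ⊤ := by
  unfold cellP
  rw [Measure.volume_eq_prod, Measure.prod_prod]
  exact ENNReal.mul_ne_top (vol_hb_ne _ _) (vol_hb_ne _ _)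

theorem clo_le_cup {s : ℕ} (N : ℕ) (m : Fin s → ℕ) (i : Fin s) : clo N m i ≤ cup N m i := by
  unfold clo cup
  exact div_le_div_of_nonneg_right (by linarith) (Nat.cast_nonneg N)

theorem clo_nonneg {s : ℕ} (N : ℕ) (m : Fin s → ℕ) (i : Fin s) (h : 1 ≤ m i) :
    0 ≤ clo N m i := by
  unfold clo
  have : (1 : ℝ) ≤ m i := by exact_mod_cast h
  exact div_nonneg (by linarith) (Nat.cast_nonneg N)

theorem cvol_eq {s : ℕ} (N : ℕ) (m : (Fin s → ℕ) × (Fin s → ℕ))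
    (h : ∀ i, 1 ≤ m.1 i ∧ 1 ≤ m.2 i) : cvol N m = volume.real (cellP N m) := by
  unfold cvol cellP
  rw [vol_prod_real, vol_hb _ _ (clo_le_cup N m.1), vol_hb _ _ (clo_le_cup N m.2)]
  congr 1
  · apply Finset.prod_congr rfl
    intro i _
    rw [max_eq_left (clo_nonneg N m.1 i (h i).1)]
  · apply Finset.prod_congr rfl
    intro i _
    rw [max_eq_left (clo_nonneg N m.2 i (h i).2)]

theorem fac_zero {s : ℕ} (N : ℕ) (m : Fin s → ℕ) (i : Fin s) (h : m i = 0) :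
    cup N m i - max (clo N m i) 0 = 0 := by
  unfold clo cup
  rw [h]
  have : (((0 : ℕ) : ℝ) - 1) / N ≤ 0 := by
    apply div_nonpos_of_nonpos_of_nonneg
    · norm_num
    · exact Nat.cast_nonneg N
  rw [max_eq_right this]
  simp

theorem cvol_zero {s : ℕ} (N : ℕ) (m : (Fin s → ℕ) × (Fin s → ℕ))
    (h : ¬ ∀ i, 1 ≤ m.1 i ∧ 1 ≤ m.2 i) : cvol N m = 0 := by
  push Not at h
  obtain ⟨i, hi⟩ := h
  unfold cvol
  rcases Nat.eq_zero_or_pos (m.1 i) with h1 | h1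
  · rw [Finset.prod_eq_zero (Finset.mem_univ i) (fac_zero N m.1 i h1), zero_mul]
  · have h2 : m.2 i = 0 := by
      have := hi h1
      omega
    have h3 : ∏ j, (cup N m.2 j - max (clo N m.2 j) 0) = 0 :=
      Finset.prod_eq_zero (Finset.mem_univ i) (fac_zero N m.2 i h2)
    rw [h3, mul_zero]

theorem ent_eq {N : ℕ} (hN : 1 ≤ N) (a b : ℕ) (x : ℝ) (h1 : ((a : ℝ) - 1) / N < x)
    (h2 : x ≤ (a : ℝ) / N) (h3 : ((b : ℝ) - 1) / N < x) (h4 : x ≤ (b : ℝ) / N) : a = b := by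
  have hNr : (0 : ℝ) < N := by exact_mod_cast hN
  have h5 : ((a : ℝ) - 1) / N < (b : ℝ) / N := lt_of_lt_of_le h1 h4
  have h6 : ((b : ℝ) - 1) / N < (a : ℝ) / N := lt_of_lt_of_le h3 h2
  rw [div_lt_div_iff_of_pos_right hNr] at h5 h6
  have h7 : a < b + 1 := by
    have : (a : ℝ) < ((b + 1 : ℕ) : ℝ) := by push_cast; linarith
    exact_mod_cast this
  have h8 : b < a + 1 := by
    have : (b : ℝ) < ((a + 1 : ℕ) : ℝ) := by push_cast; linarith
    exact_mod_cast this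
  omega

theorem cell_disj {s : ℕ} {N : ℕ} (hN : 1 ≤ N) (m m' : (Fin s → ℕ) × (Fin s → ℕ))
    (x : (Fin s → ℝ) × (Fin s → ℝ)) (h : x ∈ cellP N m) (h' : x ∈ cellP N m') : m = m' := by
  obtain ⟨ha, hb'⟩ := h
  obtain ⟨ha', hb''⟩ := h'
  apply Prod.ext
  · funext i
    exact ent_eq hN _ _ (x.1 i) (ha i).1 (ha i).2 (ha' i).1 (ha' i).2
  · funext i
    exact ent_eq hN _ _ (x.2 i) (hb' i).1 (hb' i).2 (hb'' i).1 (hb'' i).2

/-- two points in the same closed cell -/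
theorem cell_dist {s : ℕ} {N : ℕ} (hN : 1 ≤ N) (m : (Fin s → ℕ) × (Fin s → ℕ))
    (x y : (Fin s → ℝ) × (Fin s → ℝ))
    (hx1 : ∀ i, clo N m.1 i ≤ x.1 i ∧ x.1 i ≤ cup N m.1 i)
    (hx2 : ∀ i, clo N m.2 i ≤ x.2 i ∧ x.2 i ≤ cup N m.2 i)
    (hy1 : ∀ i, clo N m.1 i ≤ y.1 i ∧ y.1 i ≤ cup N m.1 i)
    (hy2 : ∀ i, clo N m.2 i ≤ y.2 i ∧ y.2 i ≤ cup N m.2 i) : dist x y ≤ 1 / (N : ℝ) := by
  have hNr : (0 : ℝ) < N := by exact_mod_cast hN
  have h0 : (0 : ℝ) ≤ 1 / (N : ℝ) := by positivity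
  have key : ∀ (k : Fin s → ℕ) (i : Fin s), cup N k i - clo N k i = 1 / (N : ℝ) := by
    intro k i
    unfold clo cup
    field_simp
    ring
  rw [Prod.dist_eq, max_le_iff]
  constructor
  · rw [dist_pi_le_iff h0]
    intro i
    rw [Real.dist_eq, abs_le]
    have := key m.1 i
    have h1 := hx1 i
    have h2 := hy1 i
    constructor <;> linarith
  · rw [dist_pi_le_iff h0]
    intro i
    rw [Real.dist_eq, abs_le]
    have := key m.2 i
    have h1 := hx2 i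
    have h2 := hy2 i
    constructor <;> linarith

theorem cont_fst_sum {s : ℕ} : Continuous (fun p : (Fin s → ℝ) × (Fin s → ℝ) => ∑ i, p.1 i) :=
  continuous_finsetSum _ (fun i _ => (continuous_apply i).comp continuous_fst)

theorem cont_snd_sum {s : ℕ} : Continuous (fun p : (Fin s → ℝ) × (Fin s → ℝ) => ∑ i, p.2 i) :=
  continuous_finsetSum _ (fun i _ => (continuous_apply i).comp continuous_snd)

theorem open_OW {s : ℕ} (i0 : Fin s) :
    IsOpen {p : (Fin s → ℝ) × (Fin s → ℝ) | OW i0 p} := by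
  have c1 : Continuous (fun p : (Fin s → ℝ) × (Fin s → ℝ) => p.1 i0) :=
    (continuous_apply i0).comp continuous_fst
  have c2 : Continuous (fun p : (Fin s → ℝ) × (Fin s → ℝ) => p.2 i0) :=
    (continuous_apply i0).comp continuous_snd
  have s1 := cont_fst_sum (s := s)
  have s2 := cont_snd_sum (s := s)
  unfold OW LW
  apply IsOpen.union
  · apply IsOpen.inter
    · exact isOpen_lt ((continuous_const.mul s1).add (s2.sub c2)) continuous_const
    · exact isOpen_lt ((continuous_const.mul s1).add s2) continuous_const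
  · apply IsOpen.inter
    · exact isOpen_lt ((continuous_const.mul s2).add (s1.sub c1)) continuous_const
    · exact isOpen_lt ((continuous_const.mul s2).add s1) continuous_const

theorem vol_thick {s : ℕ} (T : Set ((Fin s → ℝ) × (Fin s → ℝ))) (hT : IsCompact T) (ε : ℝ)
    (hε : 0 < ε) : ∃ δ : ℝ, 0 < δ ∧ ∀ r : ℝ, 0 < r → r < δ →
      volume.real (Metric.cthickening r T) ≤ volume.real T + ε ∧
      volume (Metric.cthickening r T) ≠ ⊤ := by
  have h1 := tendsto_measure_cthickening_of_isCompact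
    (μ := (volume : Measure ((Fin s → ℝ) × (Fin s → ℝ)))) hT
  have hfin : volume T ≠ ⊤ := hT.measure_lt_top.ne
  have h2 : volume T < volume T + ENNReal.ofReal ε :=
    ENNReal.lt_add_right hfin (by simpa using hε)
  have h3 := h1.eventually (eventually_lt_nhds h2)
  rw [Metric.eventually_nhds_iff] at h3
  obtain ⟨δ, hδ, h4⟩ := h3
  refine ⟨δ, hδ, ?_⟩
  intro r hr hrd
  have h5 := h4 (show dist r 0 < δ by rw [Real.dist_eq, sub_zero, abs_of_pos hr]; exact hrd)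
  have h6 : volume T + ENNReal.ofReal ε ≠ ⊤ := ENNReal.add_ne_top.2 ⟨hfin, ENNReal.ofReal_ne_top⟩
  refine ⟨?_, (h5.trans_le le_top).ne⟩
  have h7 := ENNReal.toReal_mono h6 h5.le
  rw [ENNReal.toReal_add hfin ENNReal.ofReal_ne_top, ENNReal.toReal_ofReal hε.le] at h7
  exact h7

theorem bdd {s : ℕ} (T : Set ((Fin s → ℝ) × (Fin s → ℝ))) (hT : IsCompact T) :
    ∃ K : ℕ, ∀ p ∈ T, ∀ i, p.1 i ≤ K ∧ p.2 i ≤ K := by
  obtain ⟨R, hR⟩ := hT.isBounded.exists_norm_le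
  obtain ⟨K, hK⟩ := exists_nat_ge R
  refine ⟨K, fun p hp i => ?_⟩
  have h1 := hR p hp
  have h2 : ‖p.1‖ ≤ ‖p‖ := norm_fst_le p
  have h3 : ‖p.2‖ ≤ ‖p‖ := norm_snd_le p
  have h4 := norm_le_pi_norm p.1 i
  have h5 := norm_le_pi_norm p.2 i
  have h6 : p.1 i ≤ ‖p.1 i‖ := Real.le_norm_self _
  have h7 : p.2 i ≤ ‖p.2 i‖ := Real.le_norm_self _
  constructor <;> linarith

end IR2

open IR2 in
theorem pr_R2 : StR2 := by
  classical
  intro s i0 T ε hT hTp hε
  obtain ⟨δ₁, hδ₁, hU⟩ := hT.exists_cthickening_subset_open (open_OW i0)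
    (fun p hp => (hTp p hp).2)
  obtain ⟨δ₂, hδ₂, hV⟩ := vol_thick T hT ε hε
  obtain ⟨K, hK⟩ := bdd T hT
  obtain ⟨N₀, hN₀⟩ := exists_nat_one_div_lt (lt_min hδ₁ hδ₂)
  obtain ⟨N, hNdef⟩ : ∃ N : ℕ, N = N₀ + 1 := ⟨_, rfl⟩
  have hN : 1 ≤ N := by omega
  have hNr : (0 : ℝ) < N := by exact_mod_cast hN
  have hr : 1 / (N : ℝ) < min δ₁ δ₂ := by
    rw [hNdef]
    push_cast
    exact hN₀
  have hr1 : 1 / (N : ℝ) < δ₁ := lt_of_lt_of_le hr (min_le_left _ _)
  have hr2 : 1 / (N : ℝ) < δ₂ := lt_of_lt_of_le hr (min_le_right _ _)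
  have hrp : 0 < 1 / (N : ℝ) := by positivity
  refine ⟨N, hN, (((Fintype.piFinset (fun _ : Fin s => Finset.range (K * N + 1))) ×ˢ
    (Fintype.piFinset (fun _ : Fin s => Finset.range (K * N + 1)))).filter
      (fun m => (cellP N m ∩ T).Nonempty)), ?_, ?_, ?_⟩
  · intro p hp
    have hp0 := (hTp p hp).1
    have hmem : p ∈ cellP N (fun i => ⌈(N : ℝ) * p.1 i⌉₊, fun i => ⌈(N : ℝ) * p.2 i⌉₊) := by
      have key : ∀ x : ℝ, 0 ≤ x → (((⌈(N : ℝ) * x⌉₊ : ℕ) : ℝ) - 1) / N < x ∧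
          x ≤ ((⌈(N : ℝ) * x⌉₊ : ℕ) : ℝ) / N := by
        intro x hx
        have h1 := Nat.ceil_lt_add_one (show 0 ≤ (N : ℝ) * x by positivity)
        have h2 := Nat.le_ceil ((N : ℝ) * x)
        constructor
        · rw [div_lt_iff₀ hNr]
          linarith [mul_comm x (N : ℝ)]
        · rw [le_div_iff₀ hNr]
          linarith [mul_comm x (N : ℝ)]
      exact ⟨fun i => key _ (hp0 i).1, fun i => key _ (hp0 i).2⟩
    rw [Set.mem_iUnion₂]
    refine ⟨_, ?_, hmem⟩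
    rw [Finset.mem_filter, Finset.mem_product, Fintype.mem_piFinset, Fintype.mem_piFinset]
    have key : ∀ x : ℝ, x ≤ K → ⌈(N : ℝ) * x⌉₊ ∈ Finset.range (K * N + 1) := by
      intro x hx
      rw [Finset.mem_range, Nat.lt_succ_iff]
      apply Nat.ceil_le.2
      push_cast
      rw [mul_comm]
      exact mul_le_mul_of_nonneg_right hx hNr.le
    exact ⟨⟨fun i => key _ (hK p hp i).1, fun i => key _ (hK p hp i).2⟩, ⟨p, hmem, hp⟩⟩
  · intro m hm
    rw [Finset.mem_filter] at hm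
    obtain ⟨p, hpc, hpT⟩ := hm.2
    have hd : dist (cup N m.1, cup N m.2) p ≤ 1 / (N : ℝ) :=
      cell_dist hN m _ _ (fun i => ⟨clo_le_cup N m.1 i, le_refl _⟩)
        (fun i => ⟨clo_le_cup N m.2 i, le_refl _⟩)
        (fun i => ⟨(hpc.1 i).1.le, (hpc.1 i).2⟩) (fun i => ⟨(hpc.2 i).1.le, (hpc.2 i).2⟩)
    have hin : ((cup N m.1, cup N m.2) : (Fin s → ℝ) × (Fin s → ℝ)) ∈
        Metric.cthickening δ₁ T :=
      Metric.mem_cthickening_of_dist_le _ p δ₁ T hpT (hd.trans hr1.le)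
    exact hU hin
  · set M := (((Fintype.piFinset (fun _ : Fin s => Finset.range (K * N + 1))) ×ˢ
      (Fintype.piFinset (fun _ : Fin s => Finset.range (K * N + 1)))).filter
        (fun m => (cellP N m ∩ T).Nonempty)) with hM
    have hsplit : ∑ m ∈ M, cvol N m =
        ∑ m ∈ M.filter (fun m => ∀ i, 1 ≤ m.1 i ∧ 1 ≤ m.2 i), volume.real (cellP N m) := by
      rw [Finset.sum_filter (fun m : (Fin s → ℕ) × (Fin s → ℕ) => ∀ i, 1 ≤ m.1 i ∧ 1 ≤ m.2 i)]
      apply Finset.sum_congr rfl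
      intro m _
      split_ifs with h
      · exact cvol_eq N m h
      · exact cvol_zero N m h
    have hdisj : Set.PairwiseDisjoint
        (↑(M.filter (fun m => ∀ i, 1 ≤ m.1 i ∧ 1 ≤ m.2 i)) : Set ((Fin s → ℕ) × (Fin s → ℕ)))
        (cellP N) := by
      intro a _ b _ hab
      rw [Function.onFun, Set.disjoint_left]
      intro x hxa hxb
      exact hab (cell_disj hN a b x hxa hxb)
    rw [hsplit, ← measureReal_biUnion_finset hdisj (fun b _ => meas_cell N b)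
      (fun b _ => vol_cell_ne N b)]
    have hsub : (⋃ b ∈ M.filter (fun m => ∀ i, 1 ≤ m.1 i ∧ 1 ≤ m.2 i), cellP N b) ⊆
        Metric.cthickening (1 / (N : ℝ)) T := by
      intro x hx
      rw [Set.mem_iUnion₂] at hx
      obtain ⟨m, hm, hxm⟩ := hx
      rw [Finset.mem_filter] at hm
      rw [hM, Finset.mem_filter] at hm
      obtain ⟨p, hpc, hpT⟩ := hm.1.2
      exact Metric.mem_cthickening_of_dist_le _ p _ T hpT
        (cell_dist hN m _ _ (fun i => ⟨(hxm.1 i).1.le, (hxm.1 i).2⟩)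
          (fun i => ⟨(hxm.2 i).1.le, (hxm.2 i).2⟩)
          (fun i => ⟨(hpc.1 i).1.le, (hpc.1 i).2⟩) (fun i => ⟨(hpc.2 i).1.le, (hpc.2 i).2⟩))
    exact (measureReal_mono hsub (hV _ hrp hr2).2).trans (hV _ hrp hr2).1

end Pool.Agent.Work.MP_122e00_nt.WR
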