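import Pool.Agent.Work.MP_122e00_nt.WR.StmtsR

set_option autoImplicit false

/-!
# The Weil region, item R3: upper bound for compact sets
-/

namespace Pool.Agent.Work.MP_122e00_nt.WR

open Finset Filter Topology MeasureTheory

open scoped ArithmeticFunction.zeta

open Two Gen Pool.Agent.Work.MP_122e00_nt.Core

namespace IR3

theorem PC_nonneg (s : ℕ) (X : ℝ) (z : ℤ) (A : Set ((Fin s → ℝ) × (Fin s → ℝ))) :
    0 ≤ PC s X z A := by
  classical
  unfold PC
  exact Finset.sum_nonneg fun n _ => Nat.cast_nonneg _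

/-- `PC` is subadditive. -/
theorem PC_le_sum {ι : Type} (s : ℕ) (X : ℝ) (z : ℤ) (T : Set ((Fin s → ℝ) × (Fin s → ℝ)))
    (M : Finset ι) (c : ι → Set ((Fin s → ℝ) × (Fin s → ℝ))) (hT : T ⊆ ⋃ m ∈ M, c m) :
    PC s X z T ≤ ∑ m ∈ M, PC s X z (c m) := by
  classical
  unfold PC
  rw [Finset.sum_comm]
  refine Finset.sum_le_sum fun n _ => ?_
  rw [← Nat.cast_sum]
  refine Nat.cast_le.2 (le_trans (Finset.card_le_card ?_) Finset.card_biUnion_le)
  intro p hp
  rw [Finset.mem_filter] at hp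
  obtain ⟨hp1, hp2, hp3, hp4⟩ := hp
  have h1 := hT hp4
  simp only [Set.mem_iUnion] at h1
  obtain ⟨m, hm, h2⟩ := h1
  rw [Finset.mem_biUnion]
  exact ⟨m, hm, Finset.mem_filter.2 ⟨hp1, hp2, hp3, h2⟩⟩

theorem Csing_nonneg (hC : StCell) (s h : ℕ) (i0 : Fin s) (hh : h ≠ 0) : 0 ≤ Csing s h := by
  have hs : (0 : ℝ) < 4 * ((s : ℝ) + 1) := by positivity
  set t : ℝ := 1 / (4 * ((s : ℝ) + 1)) with ht
  have ht0 : 0 < t := by positivity
  have hst : (s : ℝ) * t ≤ 1 / 4 := by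
    rw [ht, mul_one_div, div_le_div_iff₀ hs (by norm_num)]
    nlinarith
  have hLW : LW i0 (fun _ => t) (fun _ => t) := by
    unfold LW
    simp only [Finset.sum_const, Finset.card_univ, Fintype.card_fin, nsmul_eq_mul]
    constructor <;> nlinarith
  have h1 := hC s h i0 (fun _ => 0) (fun _ => t) (fun _ => 0) (fun _ => t) hh
    (fun _ => ⟨ht0.le, ht0.le⟩) (fun _ => ⟨ht0.le, ht0.le⟩) (Or.inl hLW)
  have h2 : 0 ≤ Csing s h * ((∏ i : Fin s, (t - max (0 : ℝ) 0)) * ∏ i : Fin s, (t - max (0 : ℝ) 0)) := by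
    refine ge_of_tendsto h1 ?_
    filter_upwards [eventually_ge_atTop (1 : ℝ)] with X hX
    refine div_nonneg (PC_nonneg _ _ _ _) (mul_nonneg (by linarith) ?_)
    exact pow_nonneg (Real.log_nonneg hX) _
  rw [max_self, sub_zero] at h2
  have h3 : (0 : ℝ) < (∏ _i : Fin s, t) * ∏ _i : Fin s, t :=
    mul_pos (Finset.prod_pos fun _ _ => ht0) (Finset.prod_pos fun _ _ => ht0)
  exact nonneg_of_mul_nonneg_left h2 h3

theorem cup_nonneg {s : ℕ} (N : ℕ) (m : Fin s → ℕ) (i : Fin s) : 0 ≤ cup N m i := by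
  unfold cup
  positivity

theorem clo_le {s : ℕ} (N : ℕ) (m : Fin s → ℕ) (i : Fin s) : clo N m i ≤ cup N m i := by
  unfold clo cup
  exact div_le_div_of_nonneg_right (by linarith) (Nat.cast_nonneg _)

end IR3

/-- **R3.** Upper bound for compact sets. -/
theorem pr_R3 : StR3 := by
  intro hCell hR2 s h i0 T ε hh hT hTp hε
  have hC0 : 0 ≤ Csing s h := IR3.Csing_nonneg hCell s h i0 hh
  obtain ⟨N, hN, M, hcov, hOW, hvol⟩ := hR2 s i0 T (ε / (2 * (Csing s h + 1))) hT hTp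
    (by positivity)
  have h1 : Tendsto (fun X : ℝ => ∑ m ∈ M, PC s X (-(h : ℤ)) (cellP N m) /
      (X * (Real.log X) ^ (2 * s))) atTop (𝓝 (∑ m ∈ M, Csing s h * cvol N m)) := by
    refine tendsto_finsetSum M fun m hm => ?_
    exact hCell s h i0 (clo N m.1) (cup N m.1) (clo N m.2) (cup N m.2) hh
      (fun i => ⟨IR3.cup_nonneg N m.1 i, IR3.clo_le N m.1 i⟩)
      (fun i => ⟨IR3.cup_nonneg N m.2 i, IR3.clo_le N m.2 i⟩) (hOW m hm)
  have h2 : ∑ m ∈ M, Csing s h * cvol N m < Csing s h * volume.real T + ε := by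
    rw [← Finset.mul_sum]
    have h3 : Csing s h * ∑ m ∈ M, cvol N m ≤
        Csing s h * (volume.real T + ε / (2 * (Csing s h + 1))) :=
      mul_le_mul_of_nonneg_left hvol hC0
    have h4 : Csing s h * (ε / (2 * (Csing s h + 1))) ≤ ε / 2 := by
      rw [mul_div_assoc', div_le_div_iff₀ (by positivity) (by norm_num)]
      nlinarith
    nlinarith
  filter_upwards [h1.eventually (gt_mem_nhds h2), eventually_gt_atTop (1 : ℝ)] with X hX hX1
  have h5 : 0 < X * (Real.log X) ^ (2 * s) :=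
    mul_pos (by linarith) (pow_pos (Real.log_pos hX1) _)
  rw [← Finset.sum_div, div_lt_iff₀ h5] at hX
  exact (IR3.PC_le_sum s X (-(h : ℤ)) T M (fun m => cellP N m) hcov).trans hX.le

end Pool.Agent.Work.MP_122e00_nt.WR
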