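import Pool.Agent.Work.MP_122e00_nt.WR.StmtsR

set_option autoImplicit false

/-! Item R4: cells inside an open set (inner regularity). -/

namespace Pool.Agent.Work.MP_122e00_nt.WR

open Finset Filter Topology MeasureTheory

open scoped ArithmeticFunction.zeta

open Two Gen Pool.Agent.Work.MP_122e00_nt.Core

namespace IR4

theorem hb_eq {s : ℕ} (α β : Fin s → ℝ) :
    hb α β = Set.pi Set.univ (fun i => Set.Ioc (α i) (β i)) := by
  ext y
  simp [hb, Set.mem_pi, Set.mem_Ioc]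

theorem vol_cell {s : ℕ} (N : ℕ) (m : (Fin s → ℕ) × (Fin s → ℕ)) (hN : 1 ≤ N)
    (hm : ∀ i, 1 ≤ m.1 i ∧ 1 ≤ m.2 i) : volume (cellP N m) = ENNReal.ofReal (cvol N m) := by
  have hN0 : (0 : ℝ) < N := by exact_mod_cast hN
  have h1 : ∀ k : ℕ, 1 ≤ k → max (((k : ℝ) - 1) / N) 0 = ((k : ℝ) - 1) / N := by
    intro k hk
    have hk' : (1 : ℝ) ≤ k := by exact_mod_cast hk
    exact max_eq_left (div_nonneg (by linarith) hN0.le)
  have h2 : ∀ k : ℕ, (0 : ℝ) ≤ (k : ℝ) / N - ((k : ℝ) - 1) / N := by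
    intro k
    rw [← sub_div]
    exact div_nonneg (by linarith) hN0.le
  unfold cellP cvol
  rw [Measure.volume_eq_prod, Measure.prod_prod, hb_eq, hb_eq, Real.volume_pi_Ioc,
    Real.volume_pi_Ioc, ENNReal.ofReal_mul, ENNReal.ofReal_prod_of_nonneg,
    ENNReal.ofReal_prod_of_nonneg]
  · congr 1
    · refine Finset.prod_congr rfl fun i _ => ?_
      unfold clo cup
      rw [h1 _ (hm i).1]
    · refine Finset.prod_congr rfl fun i _ => ?_
      unfold clo cup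
      rw [h1 _ (hm i).2]
  · intro i _
    unfold clo cup
    rw [h1 _ (hm i).2]
    exact h2 _
  · intro i _
    unfold clo cup
    rw [h1 _ (hm i).1]
    exact h2 _
  · refine Finset.prod_nonneg fun i _ => ?_
    unfold clo cup
    rw [h1 _ (hm i).1]
    exact h2 _

theorem cvol_nonneg {s : ℕ} (N : ℕ) (m : (Fin s → ℕ) × (Fin s → ℕ)) (hN : 1 ≤ N) :
    0 ≤ cvol N m := by
  have hN0 : (0 : ℝ) < N := by exact_mod_cast hN
  have h2 : ∀ k : ℕ, (0 : ℝ) ≤ (k : ℝ) / N - max (((k : ℝ) - 1) / N) 0 := by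
    intro k
    rw [sub_nonneg]
    refine max_le ?_ (by positivity)
    gcongr
    linarith
  unfold cvol clo cup
  exact mul_nonneg (Finset.prod_nonneg fun i _ => h2 _) (Finset.prod_nonneg fun i _ => h2 _)

/-- the cell of a point -/
noncomputable def ce {s : ℕ} (N : ℕ) (x : Fin s → ℝ) : Fin s → ℕ := fun i => ⌈(N : ℝ) * x i⌉₊

theorem ce_spec (N : ℕ) (hN : 1 ≤ N) (x : ℝ) (hx : 0 < x) :
    1 ≤ ⌈(N : ℝ) * x⌉₊ ∧ (((⌈(N : ℝ) * x⌉₊ : ℕ) : ℝ) - 1) / N < x ∧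
      x ≤ ((⌈(N : ℝ) * x⌉₊ : ℕ) : ℝ) / N := by
  have hN0 : (0 : ℝ) < N := by exact_mod_cast hN
  have h0 : 0 < (N : ℝ) * x := by positivity
  refine ⟨Nat.one_le_iff_ne_zero.2 (Nat.ceil_pos.2 h0).ne', ?_, ?_⟩
  · rw [div_lt_iff₀ hN0]
    have := Nat.ceil_lt_add_one h0.le
    linarith
  · rw [le_div_iff₀ hN0]
    have := Nat.le_ceil ((N : ℝ) * x)
    linarith

theorem near {s : ℕ} (N : ℕ) (hN : 1 ≤ N) (x y : Fin s → ℝ) (m : Fin s → ℕ)
    (hx : ∀ i, clo N m i ≤ x i ∧ x i ≤ cup N m i) (hy : ∀ i, clo N m i ≤ y i ∧ y i ≤ cup N m i) :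
    dist x y ≤ 1 / (N : ℝ) := by
  have hN0 : (0 : ℝ) < N := by exact_mod_cast hN
  rw [dist_pi_le_iff (by positivity)]
  intro i
  have h1 : cup N m i - clo N m i = 1 / (N : ℝ) := by
    unfold cup clo
    rw [← sub_div]
    congr 1
    ring
  rw [Real.dist_eq, abs_le]
  have := hx i
  have := hy i
  constructor <;> linarith [(hx i).1, (hx i).2, (hy i).1, (hy i).2]

end IR4

open IR4 in
theorem pr_R4 : StR4 := by
  classical
  intro s i0 U ε hU hp hε
  by_cases htriv : volume.real U - ε ≤ 0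
  · refine ⟨1, le_rfl, ∅, by simp, ?_⟩
    rw [Finset.sum_empty]
    exact htriv
  push Not at htriv
  have hfin : volume U ≠ ⊤ := by
    intro h
    have : volume.real U = 0 := by
      rw [Measure.real, h]
      rfl
    linarith
  have hlt : ENNReal.ofReal (volume.real U - ε) < volume U := by
    rw [← ENNReal.ofReal_toReal hfin]
    exact (ENNReal.ofReal_lt_ofReal_iff (by
      have : 0 < volume.real U := by linarith
      exact this)).2 (by
        change volume.real U - ε < volume.real U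
        linarith)
  have hlf : IsLocallyFiniteMeasure (volume : Measure ((Fin s → ℝ) × (Fin s → ℝ))) := inferInstance
  have hreg : (volume : Measure ((Fin s → ℝ) × (Fin s → ℝ))).Regular :=
    Measure.Regular.of_sigmaCompactSpace_of_isLocallyFiniteMeasure _
  obtain ⟨K, hKU, hK, hKlt⟩ := hU.exists_lt_isCompact hlt
  obtain ⟨δ, hδ, hδU⟩ := hK.exists_cthickening_subset_open hU hKU
  obtain ⟨N, hN1⟩ := exists_nat_gt (1 / δ)
  have hN0 : (0 : ℝ) < N := lt_trans (by positivity) hN1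
  have hN : 1 ≤ N := by
    have : 0 < N := by exact_mod_cast hN0
    exact this
  have hNδ : 1 / (N : ℝ) ≤ δ := by
    rw [div_le_iff₀ hN0]
    rw [div_lt_iff₀ hδ] at hN1
    linarith
  obtain ⟨R, hR⟩ := hK.isBounded.exists_norm_le
  set B : ℕ := ⌈(N : ℝ) * R⌉₊ with hB
  set M : Finset ((Fin s → ℕ) × (Fin s → ℕ)) :=
    ((Fintype.piFinset fun _ => Finset.range (B + 1)) ×ˢ
      (Fintype.piFinset fun _ => Finset.range (B + 1))).filter
      (fun m => ∃ p ∈ K, m = (ce N p.1, ce N p.2)) with hM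
  have hpos : ∀ p ∈ K, ∀ i, 0 < p.1 i ∧ 0 < p.2 i := fun p hpK => (hp p (hKU hpK)).1
  have hmem : ∀ p ∈ K, (ce N p.1, ce N p.2) ∈ M := by
    intro p hpK
    rw [hM, Finset.mem_filter, Finset.mem_product, Fintype.mem_piFinset, Fintype.mem_piFinset]
    have hn := hR p hpK
    have h1 : ∀ i, |p.1 i| ≤ R := fun i =>
      ((norm_le_pi_norm p.1 i).trans (norm_fst_le p)).trans hn
    have h2 : ∀ i, |p.2 i| ≤ R := fun i =>
      ((norm_le_pi_norm p.2 i).trans (norm_snd_le p)).trans hn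
    refine ⟨⟨fun i => ?_, fun i => ?_⟩, p, hpK, rfl⟩
    · rw [Finset.mem_range, Nat.lt_succ_iff]
      exact Nat.ceil_le_ceil (mul_le_mul_of_nonneg_left ((le_abs_self _).trans (h1 i)) hN0.le)
    · rw [Finset.mem_range, Nat.lt_succ_iff]
      exact Nat.ceil_le_ceil (mul_le_mul_of_nonneg_left ((le_abs_self _).trans (h2 i)) hN0.le)
  have hbox : ∀ p ∈ K, (∀ i, clo N (ce N p.1) i < p.1 i ∧ p.1 i ≤ cup N (ce N p.1) i) ∧
      ∀ i, clo N (ce N p.2) i < p.2 i ∧ p.2 i ≤ cup N (ce N p.2) i := by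
    intro p hpK
    exact ⟨fun i => (ce_spec N hN (p.1 i) (hpos p hpK i).1).2,
      fun i => (ce_spec N hN (p.2 i) (hpos p hpK i).2).2⟩
  have hin : ∀ p ∈ K, ∀ q : (Fin s → ℝ) × (Fin s → ℝ),
      (∀ i, clo N (ce N p.1) i ≤ q.1 i ∧ q.1 i ≤ cup N (ce N p.1) i) →
      (∀ i, clo N (ce N p.2) i ≤ q.2 i ∧ q.2 i ≤ cup N (ce N p.2) i) → q ∈ U := by
    intro p hpK q h1 h2
    apply hδU
    refine Metric.mem_cthickening_of_dist_le q p δ K hpK (le_trans ?_ hNδ)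
    obtain ⟨hb1, hb2⟩ := hbox p hpK
    rw [Prod.dist_eq]
    exact max_le (near N hN _ _ _ h1 fun i => ⟨(hb1 i).1.le, (hb1 i).2⟩)
      (near N hN _ _ _ h2 fun i => ⟨(hb2 i).1.le, (hb2 i).2⟩)
  have hcc : ∀ m : Fin s → ℕ, ∀ i, clo N m i ≤ cup N m i := by
    intro m i
    unfold clo cup
    gcongr
    linarith
  have hone : ∀ m ∈ M, ∀ i, 1 ≤ m.1 i ∧ 1 ≤ m.2 i := by
    intro m hm i
    obtain ⟨-, p, hpK, rfl⟩ := Finset.mem_filter.1 hm
    exact ⟨(ce_spec N hN (p.1 i) (hpos p hpK i).1).1, (ce_spec N hN (p.2 i) (hpos p hpK i).2).1⟩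
  refine ⟨N, hN, M, fun m hm => ⟨?_, ?_, hone m hm⟩, ?_⟩
  · obtain ⟨-, p, hpK, rfl⟩ := Finset.mem_filter.1 hm
    intro q hq
    exact hin p hpK q (fun i => ⟨(hq.1 i).1.le, (hq.1 i).2⟩) (fun i => ⟨(hq.2 i).1.le, (hq.2 i).2⟩)
  · obtain ⟨-, p, hpK, rfl⟩ := Finset.mem_filter.1 hm
    exact (hp _ (hin p hpK (cup N (ce N p.1), cup N (ce N p.2))
      (fun i => ⟨hcc _ i, le_rfl⟩) (fun i => ⟨hcc _ i, le_rfl⟩))).2
  · have hcov : K ⊆ ⋃ m ∈ M, cellP N m := by
      intro p hpK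
      rw [Set.mem_iUnion₂]
      exact ⟨_, hmem p hpK, (hbox p hpK).1, (hbox p hpK).2⟩
    have h1 : volume K ≤ ∑ m ∈ M, volume (cellP N m) :=
      (measure_mono hcov).trans (measure_biUnion_finset_le M _)
    have h2 : ∑ m ∈ M, volume (cellP N m) = ENNReal.ofReal (∑ m ∈ M, cvol N m) := by
      rw [ENNReal.ofReal_sum_of_nonneg fun m _ => cvol_nonneg N m hN]
      exact Finset.sum_congr rfl fun m hm => vol_cell N m hN (hone m hm)
    have h3 := hKlt.le.trans (h1.trans_eq h2)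
    exact (ENNReal.ofReal_le_ofReal_iff
      (Finset.sum_nonneg fun m _ => cvol_nonneg N m hN)).1 h3

end Pool.Agent.Work.MP_122e00_nt.WR
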