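import Pool.Agent.Work.MP_122e00_nt.WR.StmtsR

set_option autoImplicit false

/-!
# The Weil region, item R6: symmetric sums over factorisations and the fundamental domain
-/

namespace Pool.Agent.Work.MP_122e00_nt.WR

open Finset

namespace IR6

lemma ex_perm {α : Type} [DecidableEq α] {a b j i : α} (hab : a ≠ b) (hji : j ≠ i) :
    ∃ σ : Equiv.Perm α, σ a = j ∧ σ b = i := by
  refine ⟨Equiv.swap (Equiv.swap a j b) i * Equiv.swap a j, ?_, ?_⟩
  · rw [Equiv.Perm.mul_apply, Equiv.swap_apply_left]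
    refine Equiv.swap_apply_of_ne_of_ne ?_ hji
    intro h
    have h2 : Equiv.swap a j a = Equiv.swap a j b := by rw [Equiv.swap_apply_left]; exact h
    exact hab ((Equiv.swap a j).injective h2)
  · rw [Equiv.Perm.mul_apply, Equiv.swap_apply_left]

open Classical in
lemma shift (s n : ℕ) (f : (Fin (s + 1) → ℕ) → ℝ)
    (hf : ∀ (σ : Equiv.Perm (Fin (s + 1))) (v : Fin (s + 1) → ℕ), f (fun i => v (σ i)) = f v)
    (P : (Fin (s + 1) → ℕ) → Prop) (σ : Equiv.Perm (Fin (s + 1))) :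
    ∑ v ∈ (Nat.finMulAntidiag (s + 1) n).filter (fun v => P (fun k => v (σ k))), f v =
      ∑ v ∈ (Nat.finMulAntidiag (s + 1) n).filter P, f v := by
  refine Finset.sum_bij' (fun v _ => fun k => v (σ k)) (fun v _ => fun k => v (σ.symm k))
    ?_ ?_ ?_ ?_ ?_
  · intro v hv
    rw [Finset.mem_filter, Nat.mem_finMulAntidiag] at hv ⊢
    refine ⟨⟨?_, hv.1.2⟩, hv.2⟩
    rw [Equiv.prod_comp σ v]
    exact hv.1.1
  · intro v hv
    rw [Finset.mem_filter, Nat.mem_finMulAntidiag] at hv ⊢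
    refine ⟨⟨?_, hv.1.2⟩, ?_⟩
    · rw [Equiv.prod_comp σ.symm v]
      exact hv.1.1
    · have : (fun k => v (σ.symm (σ k))) = v := by
        funext k
        rw [Equiv.symm_apply_apply]
      rw [this]
      exact hv.2
  · intro v _
    funext k
    simp only [Equiv.apply_symm_apply]
  · intro v _
    funext k
    simp only [Equiv.symm_apply_apply]
  · intro v _
    exact (hf σ v).symm

lemma topP_ex {s : ℕ} (i0 : Fin s) (v : Fin (s + 1) → ℕ) (S : Fin (s + 1) × Fin (s + 1) →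
    Equiv.Perm (Fin (s + 1)))
    (hS : ∀ p : Fin (s + 1) × Fin (s + 1), p.1 ≠ p.2 → S p (Fin.last s) = p.1 ∧
      S p i0.castSucc = p.2) :
    ∃ p ∈ (univ : Finset (Fin (s + 1))).offDiag, topP i0 (fun k => v (S p k)) := by
  obtain ⟨j, -, hj⟩ := Finset.exists_max_image (univ : Finset (Fin (s + 1))) v ⟨0, mem_univ _⟩
  have hne : (univ.erase j : Finset (Fin (s + 1))).Nonempty := by
    rw [← Finset.card_pos, Finset.card_erase_of_mem (mem_univ _), Finset.card_univ,
      Fintype.card_fin]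
    have := i0.pos
    omega
  obtain ⟨i, hi, hi'⟩ := Finset.exists_max_image (univ.erase j) v hne
  have hji : j ≠ i := fun h => (Finset.ne_of_mem_erase hi) h.symm
  obtain ⟨h1, h2⟩ := hS (j, i) hji
  refine ⟨(j, i), Finset.mem_offDiag.2 ⟨mem_univ _, mem_univ _, hji⟩, ?_, ?_⟩
  · intro k
    simp only [h2]
    refine hi' _ (Finset.mem_erase.2 ⟨fun h => ?_, mem_univ _⟩)
    exact (Fin.castSucc_lt_last k).ne ((S (j, i)).injective (h.trans h1.symm))
  · simp only [h1, h2]
    exact hj i (mem_univ _)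

lemma topS_prop {s : ℕ} (i0 : Fin s) (v : Fin (s + 1) → ℕ) (S : Fin (s + 1) × Fin (s + 1) →
    Equiv.Perm (Fin (s + 1)))
    (hS : ∀ p : Fin (s + 1) × Fin (s + 1), p.1 ≠ p.2 → S p (Fin.last s) = p.1 ∧
      S p i0.castSucc = p.2) (p : Fin (s + 1) × Fin (s + 1)) (hp : p.1 ≠ p.2)
    (h : topS i0 (fun k => v (S p k))) :
    (∀ k, k ≠ p.1 → v k < v p.1) ∧ ∀ k, k ≠ p.1 → k ≠ p.2 → v k < v p.2 := by
  obtain ⟨h1, h2⟩ := hS p hp
  obtain ⟨h3, h4⟩ := h
  simp only [h1, h2] at h3 h4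
  have key : ∀ k, k ≠ p.1 → k ≠ p.2 → v k < v p.2 := by
    intro k hk1 hk2
    obtain ⟨m, hm⟩ := (S p).surjective k
    have hml : m ≠ Fin.last s := fun h => hk1 (by rw [← hm, h, h1])
    obtain ⟨m', hm'⟩ := Fin.exists_castSucc_eq.2 hml
    have hne : m' ≠ i0 := fun h => hk2 (by rw [← hm, ← hm', h, h2])
    have h5 := h3 m' hne
    rwa [hm', hm] at h5
  refine ⟨fun k hk => ?_, key⟩
  by_cases hk2 : k = p.2
  · rw [hk2]
    exact h4
  · exact (key k hk hk2).trans h4

end IR6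

theorem pr_R6 : StR6 := by
  classical
  intro s n i0 f hf0 hf
  have hne : Fin.last s ≠ i0.castSucc := (Fin.castSucc_lt_last i0).ne'
  have hex : ∀ p : Fin (s + 1) × Fin (s + 1), ∃ σ : Equiv.Perm (Fin (s + 1)), p.1 ≠ p.2 →
      σ (Fin.last s) = p.1 ∧ σ i0.castSucc = p.2 := by
    intro p
    by_cases hp : p.1 = p.2
    · exact ⟨1, fun h => absurd hp h⟩
    · obtain ⟨σ, h1, h2⟩ := IR6.ex_perm hne hp
      exact ⟨σ, fun _ => ⟨h1, h2⟩⟩
  choose S hS using hex
  have hcard : (((univ : Finset (Fin (s + 1))).offDiag.card : ℕ) : ℝ) = ((s : ℝ) + 1) * s := by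
    rw [Finset.offDiag_card, Finset.card_univ, Fintype.card_fin]
    have : (s + 1) * (s + 1) - (s + 1) = (s + 1) * s := by
      rw [Nat.mul_succ, Nat.add_sub_cancel]
    rw [this]
    push_cast
    ring
  constructor
  · have h1 : ((s : ℝ) + 1) * s * ∑ v ∈ (Nat.finMulAntidiag (s + 1) n).filter (topP i0), f v =
        ∑ v ∈ Nat.finMulAntidiag (s + 1) n, ∑ p ∈ (univ : Finset (Fin (s + 1))).offDiag,
          if topP i0 (fun k => v (S p k)) then f v else 0 := by
      rw [Finset.sum_comm, ← hcard, ← nsmul_eq_mul, ← Finset.sum_const]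
      refine Finset.sum_congr rfl fun p _ => ?_
      rw [← IR6.shift s n f hf (topP i0) (S p), Finset.sum_filter]
    rw [h1]
    refine Finset.sum_le_sum fun v _ => ?_
    obtain ⟨p, hp, hp'⟩ := IR6.topP_ex i0 v S hS
    refine le_trans (le_of_eq ?_) (Finset.single_le_sum (f := fun p =>
      if topP i0 (fun k => v (S p k)) then f v else 0) (fun q _ => ?_) hp)
    · exact (if_pos hp').symm
    · split_ifs
      · exact hf0 v
      · exact le_rfl
  · have h1 : ((s : ℝ) + 1) * s * ∑ v ∈ (Nat.finMulAntidiag (s + 1) n).filter (topS i0), f v =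
        ∑ v ∈ Nat.finMulAntidiag (s + 1) n, ∑ p ∈ (univ : Finset (Fin (s + 1))).offDiag,
          if topS i0 (fun k => v (S p k)) then f v else 0 := by
      rw [Finset.sum_comm, ← hcard, ← nsmul_eq_mul, ← Finset.sum_const]
      refine Finset.sum_congr rfl fun p _ => ?_
      rw [← IR6.shift s n f hf (topS i0) (S p), Finset.sum_filter]
    rw [h1]
    refine Finset.sum_le_sum fun v _ => ?_
    rw [← Finset.sum_filter, Finset.sum_const, nsmul_eq_mul]
    have hc : (((univ : Finset (Fin (s + 1))).offDiag).filter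
        (fun p => topS i0 (fun k => v (S p k)))).card ≤ 1 := by
      rw [Finset.card_le_one]
      intro p hp q hq
      rw [Finset.mem_filter, Finset.mem_offDiag] at hp hq
      obtain ⟨a1, a2⟩ := IR6.topS_prop i0 v S hS p hp.1.2.2 hp.2
      obtain ⟨b1, b2⟩ := IR6.topS_prop i0 v S hS q hq.1.2.2 hq.2
      have e1 : p.1 = q.1 := by
        by_contra h
        exact lt_asymm (a1 q.1 (Ne.symm h)) (b1 p.1 h)
      have e2 : p.2 = q.2 := by
        by_contra h
        have c1 : q.2 ≠ p.1 := by rw [e1]; exact Ne.symm hq.1.2.2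
        have c2 : p.2 ≠ q.1 := by rw [← e1]; exact Ne.symm hp.1.2.2
        exact lt_asymm (a2 q.2 c1 (Ne.symm h)) (b2 p.2 c2 h)
      exact Prod.ext e1 e2
    calc _ ≤ (1 : ℝ) * f v := mul_le_mul_of_nonneg_right (by exact_mod_cast hc) (hf0 v)
      _ = f v := one_mul _

end Pool.Agent.Work.MP_122e00_nt.WR
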