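import Pool.Agent.Work.MP_122e00_nt.WR.StmtsR

set_option autoImplicit false

/-!
# The Weil region, item R7: pairs of factorisations and the fundamental domain
-/

namespace Pool.Agent.Work.MP_122e00_nt.WR

open Finset Filter Topology MeasureTheory

open scoped ArithmeticFunction.zeta

open Two Gen Pool.Agent.Work.MP_122e00_nt.Core

namespace IR7

theorem GG_symm {s : ℕ} {δ X : ℝ} {v w : Fin (s + 1) → ℕ} (h : GG s δ X v w) :
    GG s δ X w v := by
  obtain ⟨h1, h2, i, j, k, hij, h3⟩ := h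
  exact ⟨h2, h1, i, j, k, hij, h3.symm⟩

theorem GG_perm {s : ℕ} {δ X : ℝ} {v w : Fin (s + 1) → ℕ} (σ : Equiv.Perm (Fin (s + 1)))
    (h : GG s δ X (fun i => v (σ i)) w) : GG s δ X v w := by
  obtain ⟨h1, h2, i, j, k, hij, h3⟩ := h
  refine ⟨fun l => ?_, h2, ?_⟩
  · have := h1 (σ.symm l)
    simp only [Equiv.apply_symm_apply] at this
    exact this
  · rcases h3 with h3 | h3
    · exact ⟨i, j, σ k, hij, Or.inl h3⟩
    · exact ⟨σ i, σ j, k, fun h => hij (σ.injective h), Or.inr h3⟩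

theorem GG_left {s : ℕ} {δ X : ℝ} (v w : Fin (s + 1) → ℕ) (σ : Equiv.Perm (Fin (s + 1))) :
    GG s δ X (fun i => v (σ i)) w ↔ GG s δ X v w := by
  refine ⟨GG_perm σ, fun h => ?_⟩
  refine GG_perm (v := fun i => v (σ i)) σ.symm ?_
  simp only [Equiv.apply_symm_apply]
  exact h

theorem GG_right {s : ℕ} {δ X : ℝ} (v w : Fin (s + 1) → ℕ) (σ : Equiv.Perm (Fin (s + 1))) :
    GG s δ X v (fun i => w (σ i)) ↔ GG s δ X v w :=
  ⟨fun h => GG_symm ((GG_left w v σ).1 (GG_symm h)),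
    fun h => GG_symm ((GG_left w v σ).2 (GG_symm h))⟩

open Classical in
theorem gcnt_eq (s h : ℕ) (δ X : ℝ) (P : (Fin (s + 1) → ℕ) → Prop) (n : ℕ) :
    ((gcnt s h δ X P n : ℕ) : ℝ) =
      ∑ v ∈ (Nat.finMulAntidiag (s + 1) n).filter P,
        ∑ w ∈ (Nat.finMulAntidiag (s + 1) (n + h)).filter P,
          (if GG s δ X v w then (1 : ℝ) else 0) := by
  unfold gcnt
  rw [Finset.card_filter, Nat.cast_sum, Finset.sum_product, Finset.sum_filter]
  refine Finset.sum_congr rfl fun v _ => ?_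
  by_cases hv : P v
  · rw [if_pos hv, Finset.sum_filter]
    refine Finset.sum_congr rfl fun w _ => ?_
    by_cases hw : P w
    · by_cases hG : GG s δ X v w
      · simp [hv, hw, hG]
      · simp [hG]
    · simp [hw]
  · rw [if_neg hv]
    refine Finset.sum_eq_zero fun w _ => ?_
    simp [hv]

end IR7

open IR7 in
theorem pr_R7 : StR7 := by
  classical
  intro hR6 s h n i0 δ X
  have hc : (0 : ℝ) ≤ ((s : ℝ) + 1) * s := by positivity
  have hg0 : ∀ v w : Fin (s + 1) → ℕ, (0 : ℝ) ≤ if GG s δ X v w then (1 : ℝ) else 0 := by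
    intro v w
    split_ifs
    · exact zero_le_one
    · exact le_rfl
  have hf := hR6 s n i0 (fun v => ∑ w ∈ Nat.finMulAntidiag (s + 1) (n + h),
    if GG s δ X v w then (1 : ℝ) else 0) (fun v => Finset.sum_nonneg fun w _ => hg0 v w)
    (fun σ v => Finset.sum_congr rfl fun w _ => by simp only [GG_left])
  have hg := fun v : Fin (s + 1) → ℕ => hR6 s (n + h) i0
    (fun w => if GG s δ X v w then (1 : ℝ) else 0) (hg0 v)
    (fun σ w => by simp only [GG_right])
  have hT : ((gcnt s h δ X (fun _ => True) n : ℕ) : ℝ) =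
      ∑ v ∈ Nat.finMulAntidiag (s + 1) n, ∑ w ∈ Nat.finMulAntidiag (s + 1) (n + h),
        (if GG s δ X v w then (1 : ℝ) else 0) := by
    rw [gcnt_eq]
    simp only [Finset.filter_true]
  rw [hT, gcnt_eq, gcnt_eq]
  constructor
  · refine hf.1.trans ?_
    rw [sq, mul_assoc (((s : ℝ) + 1) * s) (((s : ℝ) + 1) * s)]
    refine mul_le_mul_of_nonneg_left ?_ hc
    rw [Finset.mul_sum]
    exact Finset.sum_le_sum fun v _ => (hg v).1
  · refine le_trans ?_ hf.2
    rw [sq, mul_assoc (((s : ℝ) + 1) * s) (((s : ℝ) + 1) * s)]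
    refine mul_le_mul_of_nonneg_left ?_ hc
    rw [Finset.mul_sum]
    exact Finset.sum_le_sum fun v _ => (hg v).2

end Pool.Agent.Work.MP_122e00_nt.WR
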