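import Pool.Agent.Work.MP_122e00_nt.WR.StmtsR

set_option autoImplicit false

/-!
# The Weil region, item R8: the pairs of factorisations in the core and outside
-/

namespace Pool.Agent.Work.MP_122e00_nt.WR

open Finset Filter Topology MeasureTheory

open scoped ArithmeticFunction.zeta

open Two Gen Pool.Agent.Work.MP_122e00_nt.Core

namespace IR8

open Classical in
theorem one (s h : ℕ) (δ X : ℝ) (n : ℕ) :
    mc s X n * mc s X (n + h) =
      ((((Nat.finMulAntidiag (s + 1) n ×ˢ Nat.finMulAntidiag (s + 1) (n + h)).filter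
        (fun p => IsCore s δ X p.1 p.2)).card : ℕ) : ℝ) +
      ((gcnt s h δ X (fun _ => True) n : ℕ) : ℝ) := by
  unfold mc gcnt
  rw [← Nat.cast_mul, ← Nat.cast_add, Nat.cast_inj, ← Finset.card_product]
  rw [← Finset.card_union_of_disjoint]
  · congr 1
    ext p
    simp only [Finset.mem_product, Finset.mem_filter, Finset.mem_union, IsCore, GG]
    constructor
    · rintro ⟨⟨h1, h2⟩, h3, h4⟩
      by_cases hq : ∀ i j k, i ≠ j →
          ((p.2 i : ℝ) * p.2 j) ^ 2 * (p.1 k : ℝ) ^ 3 ≤ X ^ (3 + δ) ∧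
          ((p.1 i : ℝ) * p.1 j) ^ 2 * (p.2 k : ℝ) ^ 3 ≤ X ^ (3 + δ)
      · exact Or.inl ⟨⟨h1, h3⟩, h2, h4, hq⟩
      · refine Or.inr ⟨⟨h1, h3⟩, ⟨h2, h4, ?_⟩, trivial, trivial⟩
        push Not at hq
        obtain ⟨i, j, k, hij, hq⟩ := hq
        refine ⟨i, j, k, hij, ?_⟩
        by_cases h5 : ((p.2 i : ℝ) * p.2 j) ^ 2 * (p.1 k : ℝ) ^ 3 ≤ X ^ (3 + δ)
        · exact Or.inr (hq h5)
        · exact Or.inl (not_le.1 h5)
    · rintro (⟨⟨h1, h3⟩, h2, h4, _⟩ | ⟨⟨h1, h3⟩, ⟨h2, h4, _⟩, _, _⟩)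
      · exact ⟨⟨h1, h2⟩, h3, h4⟩
      · exact ⟨⟨h1, h2⟩, h3, h4⟩
  · refine Finset.disjoint_left.2 ?_
    intro p hp hp'
    simp only [Finset.mem_filter] at hp hp'
    obtain ⟨_, _, _, hq⟩ := hp
    obtain ⟨_, ⟨_, _, i, j, k, hij, h5⟩, _, _⟩ := hp'
    obtain ⟨h6, h7⟩ := hq i j k hij
    rcases h5 with h5 | h5
    · exact absurd h6 (not_le.2 h5)
    · exact absurd h7 (not_le.2 h5)

end IR8

/-- Item R8. -/
theorem pr_R8 : StR8 := by
  intro s h δ X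
  unfold coreS
  rw [sub_eq_iff_eq_add, ← Finset.sum_add_distrib]
  refine Finset.sum_congr rfl fun n _ => ?_
  rw [IR8.one s h δ X n, add_comm]

end Pool.Agent.Work.MP_122e00_nt.WR
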