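import Pool.Agent.Work.MP_122e00_nt.WR.StmtsR

set_option autoImplicit false

/-!
# Item R9: from factorisations to positions, upper bound
-/

namespace Pool.Agent.Work.MP_122e00_nt.WR

open Finset Filter Topology MeasureTheory

open scoped ArithmeticFunction.zeta

open Two Gen Pool.Agent.Work.MP_122e00_nt.Core

namespace IR9

/-- The eventual inequalities between logarithms. -/
lemma evlog (h : ℕ) {η ε1 : ℝ} (hη : 0 < η) (hε : 0 < ε1) :
    ∀ᶠ X : ℝ in atTop, 3 ≤ X ∧ 1 ≤ Real.log X ∧ ∀ n ∈ Finset.Ioc ⌊η * X⌋₊ ⌊X⌋₊, n ≠ 0 ∧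
      (1 - ε1) * Real.log X ≤ Real.log n ∧ Real.log n ≤ (1 + ε1) * Real.log X ∧
      (1 - ε1) * Real.log X ≤ Real.log ((n + h : ℕ) : ℝ) ∧
      Real.log ((n + h : ℕ) : ℝ) ≤ (1 + ε1) * Real.log X := by
  have hlog : Tendsto (fun X : ℝ => ε1 * Real.log X) atTop atTop :=
    Real.tendsto_log_atTop.const_mul_atTop hε
  filter_upwards [hlog.eventually_ge_atTop (-Real.log η), hlog.eventually_ge_atTop (h : ℝ),
    eventually_ge_atTop (Real.exp 1), eventually_ge_atTop (3 : ℝ)] with X h1 h2 h3 h4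
  have hX0 : 0 < X := by linarith
  have hL1 : 1 ≤ Real.log X := by
    rw [Real.le_log_iff_exp_le hX0]
    exact h3
  refine ⟨h4, hL1, ?_⟩
  intro n hn
  rw [Finset.mem_Ioc] at hn
  have hn0 : 0 < n := by omega
  have hnX : (n : ℝ) ≤ X := (Nat.le_floor_iff hX0.le).1 hn.2
  have hnη : η * X < n := (Nat.floor_lt (by positivity)).1 hn.1
  have hnr : (0 : ℝ) < n := by exact_mod_cast hn0
  have a1 : Real.log n ≤ Real.log X := Real.log_le_log hnr hnX
  have a2 : (1 - ε1) * Real.log X ≤ Real.log n := by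
    have : Real.log (η * X) ≤ Real.log n := Real.log_le_log (by positivity) hnη.le
    rw [Real.log_mul hη.ne' hX0.ne'] at this
    linarith
  have a3 : Real.log n ≤ Real.log ((n + h : ℕ) : ℝ) := by
    apply Real.log_le_log hnr
    exact_mod_cast Nat.le_add_right n h
  have a4 : Real.log ((n + h : ℕ) : ℝ) ≤ Real.log X + h := by
    have e1 : ((n + h : ℕ) : ℝ) ≤ X * (1 + h) := by
      push_cast
      have : (0 : ℝ) ≤ h := Nat.cast_nonneg h
      nlinarith
    have e2 : Real.log ((n + h : ℕ) : ℝ) ≤ Real.log (X * (1 + h)) := by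
      apply Real.log_le_log _ e1
      push_cast
      positivity
    rw [Real.log_mul hX0.ne' (by positivity)] at e2
    have e3 : Real.log (1 + (h : ℝ)) ≤ h := by
      have := Real.log_le_sub_one_of_pos (show (0 : ℝ) < 1 + h by positivity)
      linarith
    linarith
  refine ⟨hn0.ne', a2, by nlinarith, a2.trans a3, by nlinarith⟩

lemma pos_of_mem {s m : ℕ} {v : Fin (s + 1) → ℕ} (hv : v ∈ Nat.finMulAntidiag (s + 1) m)
    (i : Fin (s + 1)) : 0 < v i := by
  rw [Nat.mem_finMulAntidiag] at hv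
  obtain ⟨h1, h2⟩ := hv
  apply Nat.pos_of_ne_zero
  intro h0
  apply h2
  rw [← h1]
  exact Finset.prod_eq_zero (Finset.mem_univ i) h0

/-- The sum of the logarithms. -/
lemma sum_log {s m : ℕ} {v : Fin (s + 1) → ℕ} (hv : v ∈ Nat.finMulAntidiag (s + 1) m) :
    ∑ i : Fin s, Real.log (v i.castSucc) + Real.log (v (Fin.last s)) = Real.log m := by
  have hp := pos_of_mem hv
  rw [Nat.mem_finMulAntidiag] at hv
  rw [← hv.1, Nat.cast_prod, Real.log_prod (fun i _ => by exact_mod_cast (hp i).ne'),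
    Fin.sum_univ_castSucc]

/-- The mixed condition in logarithms. -/
lemma mix_iff {X δ p q r : ℝ} (hX : 0 < X) (hp : 0 < p) (hq : 0 < q) (hr : 0 < r) :
    X ^ (3 + δ) < (p * q) ^ 2 * r ^ 3 ↔
      (3 + δ) * Real.log X < 2 * (Real.log p + Real.log q) + 3 * Real.log r := by
  rw [← Real.log_lt_log_iff (by positivity) (by positivity), Real.log_rpow hX,
    Real.log_mul (by positivity) (by positivity), Real.log_pow, Real.log_pow,
    Real.log_mul hp.ne' hq.ne']
  push_cast
  rfl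

lemma top_one {s : ℕ} {i0 : Fin s} {w : Fin (s + 1) → ℝ}
    (h1 : ∀ i : Fin s, w i.castSucc ≤ w i0.castSucc) (h2 : w i0.castSucc ≤ w (Fin.last s))
    (k : Fin (s + 1)) : w k ≤ w (Fin.last s) := by
  refine Fin.lastCases ?_ (fun i => ?_) k
  · exact le_rfl
  · exact (h1 i).trans h2

lemma top_two {s : ℕ} {i0 : Fin s} {w : Fin (s + 1) → ℝ}
    (h1 : ∀ i : Fin s, w i.castSucc ≤ w i0.castSucc) (h2 : w i0.castSucc ≤ w (Fin.last s))
    {i j : Fin (s + 1)} (hij : i ≠ j) : w i + w j ≤ w i0.castSucc + w (Fin.last s) := by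
  rcases Fin.eq_castSucc_or_eq_last i with ⟨i', rfl⟩ | rfl
  · have := top_one h1 h2 j
    linarith [h1 i']
  · rcases Fin.eq_castSucc_or_eq_last j with ⟨j', rfl⟩ | rfl
    · linarith [h1 j']
    · exact absurd rfl hij

/-- One side. -/
lemma side {s m : ℕ} {X ε1 : ℝ} {i0 : Fin s} {v : Fin (s + 1) → ℕ} (hL : 1 ≤ Real.log X)
    (hv : v ∈ Nat.finMulAntidiag (s + 1) m) (hsq : ∀ i, (v i : ℝ) ^ 2 < X) (htop : topP i0 v)
    (h1 : (1 - ε1) * Real.log X ≤ Real.log m) (h2 : Real.log m ≤ (1 + ε1) * Real.log X) :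
    (fun i : Fin s => v i.castSucc) ∈ tup s X ∧
    lg X (fun i : Fin s => v i.castSucc) ∈ DmE i0 ε1 ∧
    Real.log (v (Fin.last s)) ≤
      (1 + ε1 - ∑ i, lg X (fun i : Fin s => v i.castSucc) i) * Real.log X := by
  have hL0 : 0 < Real.log X := by linarith
  have hp := pos_of_mem hv
  have hs := sum_log hv
  have hsum : (∑ i, lg X (fun i : Fin s => v i.castSucc) i) * Real.log X =
      ∑ i : Fin s, Real.log (v i.castSucc) := by
    unfold lg
    rw [← Finset.sum_div, div_mul_cancel₀ _ hL0.ne']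
  have hle : ∀ i j : Fin (s + 1), v i ≤ v j → Real.log (v i) ≤ Real.log (v j) := by
    intro i j hij
    apply Real.log_le_log
    · exact_mod_cast hp i
    · exact_mod_cast hij
  have hlast : 2 * Real.log (v (Fin.last s)) < Real.log X := by
    have := Real.log_lt_log (by have := hp (Fin.last s); positivity) (hsq (Fin.last s))
    rw [Real.log_pow] at this
    push_cast at this
    exact this
  refine ⟨?_, ⟨?_, ?_, ?_, ?_⟩, ?_⟩
  · unfold tup
    rw [Fintype.mem_piFinset]
    intro i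
    rw [Finset.mem_Icc]
    refine ⟨hp _, ?_⟩
    apply Nat.le_floor
    have h3 := hsq i.castSucc
    have h4 : (1 : ℝ) ≤ v i.castSucc := by exact_mod_cast hp i.castSucc
    nlinarith
  · intro i
    unfold lg
    exact div_nonneg (Real.log_natCast_nonneg _) hL0.le
  · intro i
    unfold lg
    exact div_le_div_of_nonneg_right (hle _ _ (htop.1 i)) hL0.le
  · have : lg X (fun i : Fin s => v i.castSucc) i0 * Real.log X ≤
        (1 - ∑ i, lg X (fun i : Fin s => v i.castSucc) i + ε1) * Real.log X := by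
      have e : lg X (fun i : Fin s => v i.castSucc) i0 * Real.log X =
          Real.log (v i0.castSucc) := by
        unfold lg
        rw [div_mul_cancel₀ _ hL0.ne']
      rw [e]
      have := hle _ _ htop.2
      nlinarith
    exact le_of_mul_le_mul_right this hL0
  · have : (1 - ∑ i, lg X (fun i : Fin s => v i.castSucc) i) * Real.log X ≤
        (1 / 2 + ε1) * Real.log X := by
      nlinarith
    exact le_of_mul_le_mul_right this hL0
  · nlinarith

/-- The mixed condition. -/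
lemma mixed {s : ℕ} {X δ ε ε1 : ℝ} {i0 : Fin s} {v w : Fin (s + 1) → ℕ}
    (hL : 1 ≤ Real.log X) (hX : 1 ≤ X) (hvp : ∀ i, 0 < v i) (hwp : ∀ i, 0 < w i)
    (hvt : topP i0 v) (hwt : topP i0 w) (hε : 5 * ε1 ≤ ε)
    (hv : Real.log (v (Fin.last s)) ≤
      (1 + ε1 - ∑ i, lg X (fun i : Fin s => v i.castSucc) i) * Real.log X)
    (hw : Real.log (w (Fin.last s)) ≤
      (1 + ε1 - ∑ i, lg X (fun i : Fin s => w i.castSucc) i) * Real.log X)
    {i j k : Fin (s + 1)} (hij : i ≠ j)
    (hlt : X ^ (3 + δ) < ((w i : ℝ) * w j) ^ 2 * (v k : ℝ) ^ 3) :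
    WD i0 (δ - ε) (lg X (fun i : Fin s => v i.castSucc)) (lg X (fun i : Fin s => w i.castSucc)) := by
  have hL0 : 0 < Real.log X := by linarith
  have hle : ∀ (v : Fin (s + 1) → ℕ), (∀ i, 0 < v i) → ∀ i j : Fin (s + 1), v i ≤ v j →
      Real.log (v i) ≤ Real.log (v j) := by
    intro v hp i j hij
    apply Real.log_le_log
    · exact_mod_cast hp i
    · exact_mod_cast hij
  rw [mix_iff (by linarith) (by exact_mod_cast hwp i) (by exact_mod_cast hwp j)
    (by exact_mod_cast hvp k)] at hlt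
  have t1 : Real.log (v k) ≤ Real.log (v (Fin.last s)) :=
    top_one (w := fun i => Real.log (v i)) (fun i => hle v hvp _ _ (hvt.1 i))
      (hle v hvp _ _ hvt.2) k
  have t2 : Real.log (w i) + Real.log (w j) ≤
      Real.log (w i0.castSucc) + Real.log (w (Fin.last s)) :=
    top_two (w := fun i => Real.log (w i)) (fun i => hle w hwp _ _ (hwt.1 i))
      (hle w hwp _ _ hwt.2) hij
  have e : lg X (fun i : Fin s => w i.castSucc) i0 * Real.log X = Real.log (w i0.castSucc) := by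
    unfold lg
    rw [div_mul_cancel₀ _ hL0.ne']
  rw [← e] at t2
  unfold WD
  have : (3 * ∑ i, lg X (fun i : Fin s => v i.castSucc) i +
      2 * (∑ i, lg X (fun i : Fin s => w i.castSucc) i -
        lg X (fun i : Fin s => w i.castSucc) i0)) * Real.log X ≤
      (2 - (δ - ε)) * Real.log X := by
    nlinarith
  exact le_of_mul_le_mul_right this hL0

lemma inj {s m : ℕ} {v v' : Fin (s + 1) → ℕ} (hv : v ∈ Nat.finMulAntidiag (s + 1) m)
    (hv' : v' ∈ Nat.finMulAntidiag (s + 1) m)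
    (h : (fun i : Fin s => v i.castSucc) = fun i : Fin s => v' i.castSucc) : v = v' := by
  have hp := pos_of_mem hv
  have hc : ∀ i : Fin s, v i.castSucc = v' i.castSucc := fun i => congrFun h i
  rw [Nat.mem_finMulAntidiag] at hv hv'
  have e : ∏ i, v i = ∏ i, v' i := hv.1.trans hv'.1.symm
  rw [Fin.prod_univ_castSucc, Fin.prod_univ_castSucc] at e
  simp only [← hc] at e
  have hl : v (Fin.last s) = v' (Fin.last s) :=
    Nat.eq_of_mul_eq_mul_left (Finset.prod_pos fun i _ => hp _) e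
  funext k
  refine Fin.lastCases ?_ (fun i => ?_) k
  · exact hl
  · exact hc i

lemma prod_dvd {s m : ℕ} {v : Fin (s + 1) → ℕ} (hv : v ∈ Nat.finMulAntidiag (s + 1) m) :
    (∏ i : Fin s, v i.castSucc) ∣ m := by
  rw [Nat.mem_finMulAntidiag] at hv
  rw [← hv.1, Fin.prod_univ_castSucc]
  exact Dvd.intro _ rfl

lemma DmE_mono {s : ℕ} {i0 : Fin s} {ε1 ε : ℝ} (h : ε1 ≤ ε) {x : Fin s → ℝ}
    (hx : x ∈ DmE i0 ε1) : x ∈ DmE i0 ε := by
  obtain ⟨h1, h2, h3, h4⟩ := hx
  exact ⟨h1, h2, by linarith, by linarith⟩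

end IR9

open IR9 in
/-- Item R9. -/
theorem pr_R9 : StR9 := by
  classical
  intro s h i0 δ ε η hε hη hη1
  filter_upwards [evlog h hη (show 0 < ε / 10 by positivity)] with X hX
  obtain ⟨hX3, hL, hn⟩ := hX
  have hX1 : 1 ≤ X := by linarith
  unfold PC
  have hsub : Finset.Ioc ⌊η * X⌋₊ ⌊X⌋₊ ⊆ Finset.Icc 1 ⌊X⌋₊ := by
    intro n hn'
    rw [Finset.mem_Ioc] at hn'
    rw [Finset.mem_Icc]
    omega
  refine le_trans ?_ (Finset.sum_le_sum_of_subset_of_nonneg hsub
    (fun n _ _ => Nat.cast_nonneg _))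
  refine Finset.sum_le_sum fun n hn' => ?_
  obtain ⟨n0, a1, a2, a3, a4⟩ := hn n hn'
  unfold gcnt
  rw [Nat.cast_le]
  refine Finset.card_le_card_of_injOn
    (fun p => ((fun i : Fin s => p.1 i.castSucc), (fun i : Fin s => p.2 i.castSucc))) ?_ ?_
  · intro p hp
    rw [Finset.mem_coe, Finset.mem_filter, Finset.mem_product] at hp
    obtain ⟨⟨hv, hw⟩, ⟨hsv, hsw, i, j, k, hij, hlt⟩, htv, htw⟩ := hp
    obtain ⟨b1, b2, b3⟩ := side hL hv hsv htv a1 a2
    obtain ⟨c1, c2, c3⟩ := side hL hw hsw htw a3 a4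
    rw [Finset.mem_coe, Finset.mem_filter, Finset.mem_product]
    refine ⟨⟨b1, c1⟩, prod_dvd hv, ?_, DmE_mono (by linarith) b2, DmE_mono (by linarith) c2, ?_⟩
    · have e : (n : ℤ) - -(h : ℤ) = ((n + h : ℕ) : ℤ) := by
        push_cast
        ring
      rw [e]
      exact Int.natCast_dvd_natCast.2 (prod_dvd hw)
    · rcases hlt with hlt | hlt
      · left
        exact mixed hL hX1 (pos_of_mem hv) (pos_of_mem hw) htv htw (by linarith) b3 c3 hij hlt
      · right
        exact mixed hL hX1 (pos_of_mem hw) (pos_of_mem hv) htw htv (by linarith) c3 b3 hij hlt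
  · intro p hp p' hp' hpp
    rw [Finset.mem_coe, Finset.mem_filter, Finset.mem_product] at hp hp'
    rw [Prod.mk.injEq] at hpp
    exact Prod.ext (inj hp.1.1 hp'.1.1 hpp.1) (inj hp.1.2 hp'.1.2 hpp.2)

end Pool.Agent.Work.MP_122e00_nt.WR
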