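import Pool.Agent.Work.MP_122e00_nt.Core.All
import Pool.Agent.Work.MP_122e00_nt.Bd.B44
import Pool.Agent.Work.MP_122e00_nt.Gen.Main
import Pool.Agent.Work.MP_122e00_nt.Bd.B40
import Pool.Agent.Work.MP_122e00_nt.WR.AllK
import Pool.Agent.Work.MP_122e00_nt.WR.AllV
import Pool.Agent.Work.MP_122e00_nt.WR.I_R1
import Pool.Agent.Work.MP_122e00_nt.WR.I_R2
import Pool.Agent.Work.MP_122e00_nt.WR.I_R3
import Pool.Agent.Work.MP_122e00_nt.WR.I_R4
import Pool.Agent.Work.MP_122e00_nt.WR.I_R5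
import Pool.Agent.Work.MP_122e00_nt.WR.I_R6
import Pool.Agent.Work.MP_122e00_nt.WR.I_R7
import Pool.Agent.Work.MP_122e00_nt.WR.I_R8
import Pool.Agent.Work.MP_122e00_nt.WR.I_R9
import Pool.Agent.Work.MP_122e00_nt.WR.I_R10
import Pool.Agent.Work.MP_122e00_nt.WR.I_R11
import Pool.Agent.Work.MP_122e00_nt.WR.I_R12
import Pool.Agent.Work.MP_122e00_nt.WR.I_R13
import Pool.Agent.Work.MP_122e00_nt.WR.I_R14
import Pool.Agent.Work.MP_122e00_nt.WR.I_R15
import Pool.Agent.Work.MP_122e00_nt.WR.I_R16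

set_option autoImplicit false

/-!
# The Weil region, part R assembled: the main theorem with a margin, without hypotheses
-/

namespace Pool.Agent.Work.MP_122e00_nt.WR

open Two Gen Pool.Agent.Work.MP_122e00_nt.Core

theorem mCell : StCell := pr_R1 WRK.stBox
theorem mUp : StUp := pr_R3 mCell pr_R2
theorem mLo : StLo := pr_R5 mCell pr_R4
theorem mR7 : ConR7 := pr_R7 pr_R6
theorem mR10 : ConR10 := pr_R10 Gen.prfB3
theorem mR11 : ConR11 := pr_R11 Two.prfL6
theorem mR15 : ConR15 := pr_R15 Two.prfL6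
theorem mG : StG := pr_R13 Gen.prfB3 Gen.mFinal mUp mLo mR7 pr_R9 mR10 mR11 pr_R12

/-- The main theorem with a margin `δ > 0`. -/
theorem main : StMain := pr_R14 Core.mC9 pr_R8 mG

/-- The sharp theorem from the strip estimate. -/
theorem sharp_of (hStrip : StStrip) : StSharp := pr_R16 main hStrip mR15

theorem vol3 : StV3 := all_V3
theorem vol4 : StV4 := all_V4

end Pool.Agent.Work.MP_122e00_nt.WR
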