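import Pool.Agent.Work.MP_122e00_nt.WR.StmtsR

set_option autoImplicit false

/-!
# R16: the sharp theorem
-/

namespace Pool.Agent.Work.MP_122e00_nt.WR

open Finset Filter Topology MeasureTheory

open scoped ArithmeticFunction.zeta

open Two Gen Pool.Agent.Work.MP_122e00_nt.Core

namespace IR16

theorem isCore_mono {s : ℕ} {δ δ' X : ℝ} (hX : 1 ≤ X) (h : δ ≤ δ') {v w : Fin (s + 1) → ℕ}
    (H : IsCore s δ X v w) : IsCore s δ' X v w := by
  obtain ⟨h1, h2, h3⟩ := H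
  have hm : X ^ (3 + δ) ≤ X ^ (3 + δ') := Real.rpow_le_rpow_of_exponent_le hX (by linarith)
  exact ⟨h1, h2, fun i j k hij => ⟨(h3 i j k hij).1.trans hm, (h3 i j k hij).2.trans hm⟩⟩

theorem coreS_mono {s h : ℕ} {δ δ' X : ℝ} (hX : 1 ≤ X) (hd : δ ≤ δ') :
    coreS s h δ X ≤ coreS s h δ' X := by
  classical
  unfold coreS
  refine Finset.sum_le_sum fun n _ => ?_
  norm_cast
  refine Finset.card_le_card fun p hp => ?_
  rw [Finset.mem_filter] at hp ⊢
  exact ⟨hp.1, isCore_mono hX hd hp.2⟩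

end IR16

open IR16

theorem pr_R16 : StR16 := by
  intro hM hS hK s h i0 hh
  have hs : 1 ≤ s := Nat.one_le_iff_ne_zero.mpr (by rintro rfl; exact i0.elim0)
  rw [Metric.tendsto_atTop]
  intro ε hε
  obtain ⟨δ₁, hδ₁, hst⟩ := hS s h (ε / 4) hs hh (by positivity)
  set Cs : ℝ := Csing s h / (s.factorial : ℝ) ^ 2 with hCs
  obtain ⟨δ₀, hδ₀, hk⟩ := hK s i0 (ε / (4 * (|Cs| + 1))) (by positivity)
  set δ := min δ₁ δ₀ with hδ
  have hδpos : 0 < δ := lt_min hδ₁ hδ₀
  obtain ⟨hk1, hk2⟩ := hk δ hδpos (min_le_right _ _)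
  have hmain := hM s h i0 δ hh hδpos
  rw [Metric.tendsto_atTop] at hmain
  obtain ⟨N, hN⟩ := hmain (ε / 4) (by positivity)
  obtain ⟨N', hN'⟩ := Filter.eventually_atTop.mp hst
  refine ⟨max (max N N') 3, fun X hX => ?_⟩
  have hX1 : N ≤ X := le_trans (le_trans (le_max_left _ _) (le_max_left _ _)) hX
  have hX2 : N' ≤ X := le_trans (le_trans (le_max_right _ _) (le_max_left _ _)) hX
  have hX3 : (3 : ℝ) ≤ X := le_trans (le_max_right _ _) hX
  have hlog : 0 < Real.log X := Real.log_pos (by linarith)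
  have hY : 0 < X * (Real.log X) ^ (2 * s) := by positivity
  have e1 := hN X hX1
  have e2 := hN' X hX2
  rw [Real.dist_eq] at e1 ⊢
  have m1 : coreS s h 0 X ≤ coreS s h δ X := coreS_mono (by linarith) hδpos.le
  have m2 : coreS s h δ X ≤ coreS s h δ₁ X := coreS_mono (by linarith) (min_le_left _ _)
  have d1 : 0 ≤ (coreS s h δ X - coreS s h 0 X) / (X * (Real.log X) ^ (2 * s)) :=
    div_nonneg (by linarith) hY.le
  have d2 : (coreS s h δ X - coreS s h 0 X) / (X * (Real.log X) ^ (2 * s)) ≤ ε / 4 := by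
    rw [div_le_iff₀ hY]
    linarith
  have hsplit : (DS s h 0 ⌊X⌋₊ - coreS s h 0 X) / (X * (Real.log X) ^ (2 * s)) =
      (DS s h 0 ⌊X⌋₊ - coreS s h δ X) / (X * (Real.log X) ^ (2 * s)) +
        (coreS s h δ X - coreS s h 0 X) / (X * (Real.log X) ^ (2 * s)) := by
    rw [← add_div]
    congr 1
    ring
  have hkd : |kap s i0 δ * Cs - kap s i0 0 * Cs| ≤ ε / 4 := by
    rw [← sub_mul, abs_mul]
    have h1 : |kap s i0 δ - kap s i0 0| ≤ ε / (4 * (|Cs| + 1)) := by
      rw [abs_le]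
      constructor <;> linarith [show (0 : ℝ) < ε / (4 * (|Cs| + 1)) by positivity]
    calc |kap s i0 δ - kap s i0 0| * |Cs| ≤ ε / (4 * (|Cs| + 1)) * |Cs| :=
          mul_le_mul_of_nonneg_right h1 (abs_nonneg _)
      _ ≤ ε / (4 * (|Cs| + 1)) * (|Cs| + 1) :=
          mul_le_mul_of_nonneg_left (by linarith) (by positivity)
      _ = ε / 4 := by
          field_simp
  rw [hsplit]
  rw [abs_lt] at e1 ⊢
  rw [abs_le] at hkd
  constructor
  · linarith [e1.1, hkd.1]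
  · linarith [e1.2, hkd.2]

end Pool.Agent.Work.MP_122e00_nt.WR
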