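import Pool.Agent.Work.MP_122e00_nt.WR.StmtsR
import Pool.Agent.Work.MP_122e00_nt.WR.I_R3

set_option autoImplicit false

/-!
# The Weil region, item R5: lower bound for open sets
-/

namespace Pool.Agent.Work.MP_122e00_nt.WR

open Finset Filter Topology MeasureTheory

open scoped ArithmeticFunction.zeta

open Two Gen Pool.Agent.Work.MP_122e00_nt.Core

namespace IR5

/-- A grid cell is determined by each of its points (one direction). -/
theorem half_aux {s N : ℕ} (hN : 1 ≤ N) {m m' : Fin s → ℕ} {y : Fin s → ℝ}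
    (h : y ∈ hb (clo N m) (cup N m)) (h' : y ∈ hb (clo N m') (cup N m')) (i : Fin s) :
    m i ≤ m' i := by
  have hN0 : (0 : ℝ) < N := by exact_mod_cast hN
  have h1 : ((m i : ℝ) - 1) / N < (m' i : ℝ) / N := lt_of_lt_of_le (h i).1 (h' i).2
  rw [div_lt_div_iff_of_pos_right hN0] at h1
  have h2 : (m i : ℝ) < (m' i : ℝ) + 1 := by linarith
  have h3 : m i < m' i + 1 := by exact_mod_cast h2
  omega

/-- A grid cell is determined by each of its points. -/
theorem half_eq {s N : ℕ} (hN : 1 ≤ N) {m m' : Fin s → ℕ} {y : Fin s → ℝ}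
    (h : y ∈ hb (clo N m) (cup N m)) (h' : y ∈ hb (clo N m') (cup N m')) : m = m' :=
  funext fun i => le_antisymm (half_aux hN h h' i) (half_aux hN h' h i)

theorem cell_eq {s N : ℕ} (hN : 1 ≤ N) {m m' : (Fin s → ℕ) × (Fin s → ℕ)}
    {p : (Fin s → ℝ) × (Fin s → ℝ)} (h : p ∈ cellP N m) (h' : p ∈ cellP N m') : m = m' :=
  Prod.ext (half_eq hN h.1 h'.1) (half_eq hN h.2 h'.2)

/-- `PC` is superadditive for sets such that every point lies in at most one of them. -/
theorem sum_le_PC {ι : Type} (s : ℕ) (X : ℝ) (z : ℤ) (U : Set ((Fin s → ℝ) × (Fin s → ℝ)))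
    (M : Finset ι) (c : ι → Set ((Fin s → ℝ) × (Fin s → ℝ))) (hU : ∀ m ∈ M, c m ⊆ U)
    (hd : ∀ m ∈ M, ∀ m' ∈ M, ∀ p, p ∈ c m → p ∈ c m' → m = m') :
    ∑ m ∈ M, PC s X z (c m) ≤ PC s X z U := by
  classical
  unfold PC
  rw [Finset.sum_comm]
  refine Finset.sum_le_sum fun n _ => ?_
  rw [← Nat.cast_sum]
  refine Nat.cast_le.2 ?_
  rw [← Finset.card_biUnion]
  · refine Finset.card_le_card ?_
    intro p hp
    rw [Finset.mem_biUnion] at hp
    obtain ⟨m, hm, hp⟩ := hp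
    rw [Finset.mem_filter] at hp ⊢
    exact ⟨hp.1, hp.2.1, hp.2.2.1, hU m hm hp.2.2.2⟩
  · intro m hm m' hm' hne
    rw [Function.onFun, Finset.disjoint_left]
    intro p hp hp'
    rw [Finset.mem_filter] at hp hp'
    exact hne (hd m hm m' hm' _ hp.2.2.2 hp'.2.2.2)

end IR5

/-- **R5.** Lower bound for open sets. -/
theorem pr_R5 : StR5 := by
  intro hCell hR4 s h i0 U ε hh hU hUp hε
  have hC0 : 0 ≤ Csing s h := IR3.Csing_nonneg hCell s h i0 hh
  obtain ⟨N, hN, M, hM, hvol⟩ := hR4 s i0 U (ε / (2 * (Csing s h + 1))) hU hUp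
    (by positivity)
  have h1 : Tendsto (fun X : ℝ => ∑ m ∈ M, PC s X (-(h : ℤ)) (cellP N m) /
      (X * (Real.log X) ^ (2 * s))) atTop (𝓝 (∑ m ∈ M, Csing s h * cvol N m)) := by
    refine tendsto_finsetSum M fun m hm => ?_
    exact hCell s h i0 (clo N m.1) (cup N m.1) (clo N m.2) (cup N m.2) hh
      (fun i => ⟨IR3.cup_nonneg N m.1 i, IR3.clo_le N m.1 i⟩)
      (fun i => ⟨IR3.cup_nonneg N m.2 i, IR3.clo_le N m.2 i⟩) (hM m hm).2.1
  have h2 : Csing s h * volume.real U - ε < ∑ m ∈ M, Csing s h * cvol N m := by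
    rw [← Finset.mul_sum]
    have h3 : Csing s h * (volume.real U - ε / (2 * (Csing s h + 1))) ≤
        Csing s h * ∑ m ∈ M, cvol N m :=
      mul_le_mul_of_nonneg_left hvol hC0
    have h4 : Csing s h * (ε / (2 * (Csing s h + 1))) ≤ ε / 2 := by
      rw [mul_div_assoc', div_le_div_iff₀ (by positivity) (by norm_num)]
      nlinarith
    nlinarith
  filter_upwards [h1.eventually (lt_mem_nhds h2), eventually_gt_atTop (1 : ℝ)] with X hX hX1
  have h5 : 0 < X * (Real.log X) ^ (2 * s) :=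
    mul_pos (by linarith) (pow_pos (Real.log_pos hX1) _)
  rw [← Finset.sum_div, lt_div_iff₀ h5] at hX
  exact hX.le.trans (IR5.sum_le_PC s X (-(h : ℤ)) U M (fun m => cellP N m)
    (fun m hm => (hM m hm).1) (fun m _ m' _ p hp hp' => IR5.cell_eq hN hp hp'))

end Pool.Agent.Work.MP_122e00_nt.WR
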