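import Pool.Agent.Work.MP_122e00_nt.WR.StmtsV

set_option autoImplicit false

/-!
# The Weil region, part V: change of coordinates (item Va)
-/

namespace Pool.Agent.Work.MP_122e00_nt.WR

open Finset MeasureTheory
open scoped ENNReal

namespace IVa

/-- The coordinates `(σ, z)`. -/
noncomputable def F {n : ℕ} (i0 : Fin (n + 1)) (x : Fin (n + 1) → ℝ) : ℝ × (Fin n → ℝ) :=
  (∑ i, x i, fun j => x (i0.succAbove j))

theorem mp {n : ℕ} (i0 : Fin (n + 1)) : MeasurePreserving (F i0) volume volume := by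
  have h1 : MeasurePreserving (MeasurableEquiv.piFinSuccAbove (fun _ : Fin (n + 1) => ℝ) i0)
      volume (volume.prod volume) := volume_preserving_piFinSuccAbove (fun _ => ℝ) i0
  have h2 : MeasurePreserving (Prod.swap : ℝ × (Fin n → ℝ) → (Fin n → ℝ) × ℝ)
      (volume.prod volume) (volume.prod volume) := Measure.measurePreserving_swap
  have h3 : MeasurePreserving (fun p : (Fin n → ℝ) × ℝ => (id p.1, p.2 + ∑ j, p.1 j))
      (volume.prod volume) (volume.prod volume) := by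
    refine MeasurePreserving.skew_product (MeasurePreserving.id _)
      (g := fun (z : Fin n → ℝ) (u : ℝ) => u + ∑ j, z j) ?_ ?_
    · have hc : Continuous (fun p : (Fin n → ℝ) × ℝ => p.2 + ∑ j, p.1 j) := by fun_prop
      exact hc.measurable
    · refine Filter.Eventually.of_forall fun z => ?_
      exact (measurePreserving_add_right volume (∑ j, z j)).map_eq
  have h4 : MeasurePreserving (Prod.swap : (Fin n → ℝ) × ℝ → ℝ × (Fin n → ℝ))
      (volume.prod volume) (volume.prod volume) := Measure.measurePreserving_swap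
  have h5 := h4.comp (h3.comp (h2.comp h1))
  have h6 : F i0 = (Prod.swap ∘ (fun p : (Fin n → ℝ) × ℝ => (id p.1, p.2 + ∑ j, p.1 j)) ∘
      Prod.swap ∘ (MeasurableEquiv.piFinSuccAbove (fun _ : Fin (n + 1) => ℝ) i0)) := by
    funext x
    have h7 : ∑ i, x i = x i0 + ∑ j, x (i0.succAbove j) := Fin.sum_univ_succAbove x i0
    show (∑ i, x i, fun j => x (i0.succAbove j)) =
      (x i0 + ∑ j, x (i0.succAbove j), fun j => x (i0.succAbove j))
    rw [h7]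
  rw [h6]
  exact h5

theorem mem_iff {n : ℕ} (i0 : Fin (n + 1)) (x : Fin (n + 1) → ℝ) :
    x ∈ Dm i0 ↔ F i0 x ∈ DD n := by
  have h7 : ∑ i, x i = x i0 + ∑ j, x (i0.succAbove j) := Fin.sum_univ_succAbove x i0
  show ((∀ i, 0 ≤ x i) ∧ (∀ i, x i ≤ x i0) ∧ x i0 ≤ 1 - ∑ i, x i ∧ 1 - ∑ i, x i ≤ 1 / 2) ↔
    (1 / 2 ≤ ∑ i, x i ∧ (∀ j, 0 ≤ x (i0.succAbove j)) ∧
      (∀ j, x (i0.succAbove j) ≤ ∑ i, x i - ∑ j, x (i0.succAbove j)) ∧
      2 * ∑ i, x i - 1 ≤ ∑ j, x (i0.succAbove j) ∧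
      ∑ j, x (i0.succAbove j) ≤ ∑ i, x i)
  rw [Fin.forall_iff_succAbove i0 (P := fun i => 0 ≤ x i),
    Fin.forall_iff_succAbove i0 (P := fun i => x i ≤ x i0)]
  have h8 : ∑ i, x i - ∑ j, x (i0.succAbove j) = x i0 := by rw [h7]; ring
  rw [h8]
  constructor
  · rintro ⟨⟨h1, h2⟩, ⟨-, h3⟩, h4, h5⟩
    exact ⟨by linarith, h2, h3, by linarith, by linarith⟩
  · rintro ⟨h1, h2, h3, h4, h5⟩
    exact ⟨⟨by linarith, h2⟩, ⟨le_rfl, h3⟩, by linarith, by linarith⟩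

theorem wd_iff {n : ℕ} (i0 : Fin (n + 1)) (x y : Fin (n + 1) → ℝ) :
    WD i0 0 x y ↔ ∑ j, (F i0 y).2 j ≤ tt (F i0 x).1 := by
  have h7 : ∑ i, y i = y i0 + ∑ j, y (i0.succAbove j) := Fin.sum_univ_succAbove y i0
  show (3 * ∑ i, x i + 2 * (∑ i, y i - y i0) ≤ 2 - 0) ↔
    ∑ j, y (i0.succAbove j) ≤ 1 - 3 / 2 * ∑ i, x i
  rw [h7]
  constructor
  · intro h; linarith
  · intro h; linarith

theorem closedDD (n : ℕ) : IsClosed (DD n) := by
  have h1 : IsClosed {p : ℝ × (Fin n → ℝ) | 1 / 2 ≤ p.1} := isClosed_le (by fun_prop) (by fun_prop)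
  have h2 : IsClosed {p : ℝ × (Fin n → ℝ) | ∀ j, 0 ≤ p.2 j} := by
    rw [Set.ofPred_forall]
    exact isClosed_iInter fun j => isClosed_le (by fun_prop) (by fun_prop)
  have h3 : IsClosed {p : ℝ × (Fin n → ℝ) | ∀ j, p.2 j ≤ p.1 - ∑ j, p.2 j} := by
    rw [Set.ofPred_forall]
    exact isClosed_iInter fun j => isClosed_le (by fun_prop) (by fun_prop)
  have h4 : IsClosed {p : ℝ × (Fin n → ℝ) | 2 * p.1 - 1 ≤ ∑ j, p.2 j} :=
    isClosed_le (by fun_prop) (by fun_prop)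
  have h5 : IsClosed {p : ℝ × (Fin n → ℝ) | ∑ j, p.2 j ≤ p.1} :=
    isClosed_le (by fun_prop) (by fun_prop)
  exact h1.inter (h2.inter (h3.inter (h4.inter h5)))

theorem closedTA (n : ℕ) : IsClosed (TA n) := by
  have h1 : IsClosed {q : (ℝ × (Fin n → ℝ)) × (ℝ × (Fin n → ℝ)) | q.1 ∈ DD n} :=
    (closedDD n).preimage continuous_fst
  have h2 : IsClosed {q : (ℝ × (Fin n → ℝ)) × (ℝ × (Fin n → ℝ)) | q.2 ∈ DD n} :=
    (closedDD n).preimage continuous_snd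
  have h3 : IsClosed {q : (ℝ × (Fin n → ℝ)) × (ℝ × (Fin n → ℝ)) | ∑ j, q.2.2 j ≤ tt q.1.1} :=
    isClosed_le (by fun_prop) (by unfold tt; fun_prop)
  exact h1.inter (h2.inter h3)

theorem closedTB (n : ℕ) : IsClosed (TB n) := by
  have h1 : IsClosed {q : (ℝ × (Fin n → ℝ)) × (ℝ × (Fin n → ℝ)) | q.1 ∈ DD n} :=
    (closedDD n).preimage continuous_fst
  have h2 : IsClosed {q : (ℝ × (Fin n → ℝ)) × (ℝ × (Fin n → ℝ)) | q.2 ∈ DD n} :=
    (closedDD n).preimage continuous_snd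
  have h3 : IsClosed {q : (ℝ × (Fin n → ℝ)) × (ℝ × (Fin n → ℝ)) | ∑ j, q.1.2 j ≤ tt q.2.1} :=
    isClosed_le (by fun_prop) (by unfold tt; fun_prop)
  exact h1.inter (h2.inter h3)

theorem pre_eq {n : ℕ} (i0 : Fin (n + 1)) :
    TD i0 0 = Prod.map (F i0) (F i0) ⁻¹' (TA n ∪ TB n) := by
  ext p
  show (p.1 ∈ Dm i0 ∧ p.2 ∈ Dm i0 ∧ (WD i0 0 p.1 p.2 ∨ WD i0 0 p.2 p.1)) ↔
    ((F i0 p.1 ∈ DD n ∧ F i0 p.2 ∈ DD n ∧ ∑ j, (F i0 p.2).2 j ≤ tt (F i0 p.1).1) ∨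
      (F i0 p.1 ∈ DD n ∧ F i0 p.2 ∈ DD n ∧ ∑ j, (F i0 p.1).2 j ≤ tt (F i0 p.2).1))
  rw [mem_iff, mem_iff, wd_iff, wd_iff]
  tauto

end IVa

theorem pr_Va : StVa := by
  intro n i0
  rw [IVa.pre_eq i0]
  have h1 : MeasurePreserving (Prod.map (IVa.F i0) (IVa.F i0)) (volume.prod volume)
      (volume.prod volume) := (IVa.mp i0).prod (IVa.mp i0)
  exact h1.measure_preimage
    ((IVa.closedTA n).union (IVa.closedTB n)).measurableSet.nullMeasurableSet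

end Pool.Agent.Work.MP_122e00_nt.WR
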