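import Pool.Agent.Work.MP_122e00_nt.WR.StmtsV

set_option autoImplicit false

/-!
# The Weil region, item Vj: a double integral over the region of the intersection
-/

namespace Pool.Agent.Work.MP_122e00_nt.WR

open Finset MeasureTheory
open scoped ENNReal

namespace IVj

theorem ioc (q : ℝ → ℝ) (a b : ℝ) (hab : a ≤ b) (hq : Continuous q)
    (h0 : ∀ y, a ≤ y → y ≤ b → 0 ≤ q y) :
    ∫⁻ y in Set.Ioc a b, ENNReal.ofReal (q y) = ENNReal.ofReal (∫ y in a..b, q y) := by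
  rw [intervalIntegral.integral_of_le hab]
  symm
  apply ofReal_integral_eq_lintegral_ofReal
  · exact (hq.integrableOn_Icc).mono_set Set.Ioc_subset_Icc_self
  · rw [Filter.EventuallyLE, ae_restrict_iff' measurableSet_Ioc]
    exact Filter.Eventually.of_forall fun y hy => h0 y hy.1.le hy.2

theorem supp (F : ℝ → ℝ≥0∞) (a b : ℝ) (h2 : ∀ y, ¬ (a ≤ y ∧ y ≤ b) → F y = 0) :
    ∫⁻ y, F y = ∫⁻ y in Set.Ioc a b, F y := by
  have h3 : F = (Set.Icc a b).indicator F := by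
    funext y
    by_cases h : y ∈ Set.Icc a b
    · rw [Set.indicator_of_mem h]
    · rw [Set.indicator_of_notMem h]
      exact h2 y h
  calc ∫⁻ y, F y = ∫⁻ y, (Set.Icc a b).indicator F y := by rw [← h3]
    _ = ∫⁻ y in Set.Icc a b, F y := lintegral_indicator measurableSet_Icc F
    _ = _ := setLIntegral_congr Ioc_ae_eq_Icc.symm

theorem lin (q : ℝ → ℝ) (F : ℝ → ℝ≥0∞) (a b : ℝ) (hab : a ≤ b) (hq : Continuous q)
    (h0 : ∀ y, a ≤ y → y ≤ b → 0 ≤ q y) (h1 : ∀ y, a ≤ y → y ≤ b → F y = ENNReal.ofReal (q y))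
    (h2 : ∀ y, ¬ (a ≤ y ∧ y ≤ b) → F y = 0) :
    ∫⁻ y, F y = ENNReal.ofReal (∫ y in a..b, q y) := by
  rw [supp F a b h2, ← ioc q a b hab hq h0]
  exact setLIntegral_congr_fun measurableSet_Ioc fun y hy => h1 y hy.1.le hy.2

end IVj

theorem pr_Vj : StVj := by
  intro Q f hQ hQ0 hf hf0
  have hc : ∀ x, Continuous fun y => Q x y := fun x =>
    hQ.comp (Continuous.prodMk continuous_const continuous_id)
  set g1 : ℝ → ℝ := fun x => ∫ y in (1 / 2 : ℝ)..(1 - 3 / 4 * x), Q x y with hg1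
  set g2 : ℝ → ℝ := fun x => ∫ y in (1 / 2 : ℝ)..(4 / 3 * (1 - x)), Q x y with hg2
  have hg1c : Continuous g1 :=
    intervalIntegral.continuous_parametric_intervalIntegral_of_continuous hQ (by fun_prop)
  have hg2c : Continuous g2 :=
    intervalIntegral.continuous_parametric_intervalIntegral_of_continuous hQ (by fun_prop)
  have hg10 : ∀ x, 1 / 2 ≤ x → x ≤ 4 / 7 → 0 ≤ g1 x := by
    intro x hx1 hx2
    refine intervalIntegral.integral_nonneg (by linarith) fun y hy => ?_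
    exact hQ0 x y hx1 hy.1 hy.2 (by linarith [hy.2])
  have hg20 : ∀ x, 4 / 7 ≤ x → x ≤ 5 / 8 → 0 ≤ g2 x := by
    intro x hx1 hx2
    refine intervalIntegral.integral_nonneg (by linarith) fun y hy => ?_
    exact hQ0 x y (by linarith) hy.1 (by linarith [hy.2]) hy.2
  have hG1 : ∀ x, 1 / 2 ≤ x → x ≤ 4 / 7 → ∫⁻ y, f x y = ENNReal.ofReal (g1 x) := by
    intro x hx1 hx2
    refine IVj.lin (fun y => Q x y) (fun y => f x y) _ _ (by linarith) (hc x) ?_ ?_ ?_
    · intro y h1 h2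
      exact hQ0 x y hx1 h1 h2 (by linarith)
    · intro y h1 h2
      exact hf x y hx1 h1 h2 (by linarith)
    · intro y h
      exact hf0 x y fun h' => h ⟨h'.2.1, h'.2.2.1⟩
  have hG2 : ∀ x, 4 / 7 ≤ x → x ≤ 5 / 8 → ∫⁻ y, f x y = ENNReal.ofReal (g2 x) := by
    intro x hx1 hx2
    refine IVj.lin (fun y => Q x y) (fun y => f x y) _ _ (by linarith) (hc x) ?_ ?_ ?_
    · intro y h1 h2
      exact hQ0 x y (by linarith) h1 (by linarith) h2
    · intro y h1 h2
      exact hf x y (by linarith) h1 (by linarith) h2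
    · intro y h
      exact hf0 x y fun h' => h ⟨h'.2.1, h'.2.2.2⟩
  have hG0 : ∀ x, ¬ (1 / 2 ≤ x ∧ x ≤ 5 / 8) → ∫⁻ y, f x y = 0 := by
    intro x hx
    have h1 : ∀ y, f x y = 0 := by
      intro y
      refine hf0 x y fun h' => hx ⟨h'.1, ?_⟩
      linarith [h'.2.1, h'.2.2.2]
    simp [h1]
  rw [IVj.supp (fun x => ∫⁻ y, f x y) (1 / 2) (5 / 8) hG0,
    ← Set.Ioc_union_Ioc_eq_Ioc (b := (4 / 7 : ℝ)) (by norm_num) (by norm_num),
    lintegral_union measurableSet_Ioc (Set.Ioc_disjoint_Ioc_of_le le_rfl),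
    ENNReal.ofReal_add
      (intervalIntegral.integral_nonneg (by norm_num) fun x hx => hg10 x hx.1 hx.2)
      (intervalIntegral.integral_nonneg (by norm_num) fun x hx => hg20 x hx.1 hx.2),
    ← IVj.ioc g1 _ _ (by norm_num) hg1c hg10, ← IVj.ioc g2 _ _ (by norm_num) hg2c hg20]
  congr 1
  · exact setLIntegral_congr_fun measurableSet_Ioc fun x hx => hG1 x hx.1.le hx.2
  · exact setLIntegral_congr_fun measurableSet_Ioc fun x hx => hG2 x hx.1.le hx.2

end Pool.Agent.Work.MP_122e00_nt.WR
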