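import Pool.Agent.Work.MP_122e00_nt.WR.StmtsC

set_option autoImplicit false

/-!
# The Weil region, part C, item C5: the bad moduli, main term, and the size of the main term
-/

namespace Pool.Agent.Work.MP_122e00_nt.WRK

open Finset Filter Topology

namespace C5

lemma harm (q : ℕ) : ∑ t ∈ Finset.Icc 1 q, 1 / (t : ℝ) ≤ 1 + Real.log q := by
  have h := harmonic_le_one_add_log q
  rw [harmonic_eq_sum_Icc] at h
  push_cast at h
  simpa only [one_div] using h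

lemma L_nonneg (q : ℕ) : 0 ≤ 1 + Real.log q := by
  have := Real.log_natCast_nonneg q
  linarith

lemma mult_sum (Q d : ℕ) (hd : 1 ≤ d) :
    ∑ q ∈ (Finset.Icc 1 Q).filter (fun q => d ∣ q), 1 / (q : ℝ) ≤
      1 / (d : ℝ) * (1 + Real.log Q) := by
  have hsub : (Finset.Icc 1 Q).filter (fun q => d ∣ q) ⊆
      (Finset.Icc 1 Q).image (fun k => d * k) := by
    intro q hq
    obtain ⟨h1, k, rfl⟩ := Finset.mem_filter.1 hq
    obtain ⟨h2, h3⟩ := Finset.mem_Icc.1 h1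
    refine Finset.mem_image.2 ⟨k, Finset.mem_Icc.2 ⟨?_, ?_⟩, rfl⟩
    · exact Nat.pos_of_mul_pos_left h2
    · exact le_trans (Nat.le_mul_of_pos_left k hd) h3
  calc ∑ q ∈ (Finset.Icc 1 Q).filter (fun q => d ∣ q), 1 / (q : ℝ)
      ≤ ∑ q ∈ (Finset.Icc 1 Q).image (fun k => d * k), 1 / (q : ℝ) :=
        Finset.sum_le_sum_of_subset_of_nonneg hsub (fun _ _ _ => by positivity)
    _ = ∑ k ∈ Finset.Icc 1 Q, 1 / ((d * k : ℕ) : ℝ) := by
        refine Finset.sum_image ?_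
        intro a _ b _ hab
        exact Nat.eq_of_mul_eq_mul_left hd hab
    _ = 1 / (d : ℝ) * ∑ k ∈ Finset.Icc 1 Q, 1 / (k : ℝ) := by
        rw [Finset.mul_sum]
        refine Finset.sum_congr rfl fun k _ => ?_
        rw [Nat.cast_mul, one_div_mul_one_div]
    _ ≤ 1 / (d : ℝ) * (1 + Real.log Q) :=
        mul_le_mul_of_nonneg_left (harm Q) (by positivity)

lemma sq_sum (Q R : ℕ) (hR : 1 ≤ R) :
    ∑ r ∈ Finset.Ioc R Q, 1 / ((r * r : ℕ) : ℝ) ≤ 1 / (R : ℝ) := by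
  rcases Nat.lt_or_ge Q R with h | h
  · rw [Finset.Ioc_eq_empty (by omega), Finset.sum_empty]
    positivity
  · have h1 := sum_Ioc_inv_sq_le_sub (α := ℝ) (by omega : R ≠ 0) h
    have h2 : ∑ r ∈ Finset.Ioc R Q, 1 / ((r * r : ℕ) : ℝ) =
        ∑ r ∈ Finset.Ioc R Q, ((r : ℝ) ^ 2)⁻¹ := by
      refine Finset.sum_congr rfl fun r _ => ?_
      rw [Nat.cast_mul, one_div, sq]
    rw [h2, one_div]
    have h3 : (0 : ℝ) ≤ (Q : ℝ)⁻¹ := by positivity
    linarith

open Classical in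
lemma bad_sum (Q R : ℕ) (hR : 1 ≤ R) :
    ∑ q ∈ (Finset.Icc 1 Q).filter (Bad R), 1 / (q : ℝ) ≤ (1 + Real.log Q) / R := by
  have h1 : ∑ q ∈ (Finset.Icc 1 Q).filter (Bad R), 1 / (q : ℝ) ≤
      ∑ q ∈ Finset.Icc 1 Q, ∑ r ∈ Finset.Ioc R Q, if r * r ∣ q then 1 / (q : ℝ) else 0 := by
    rw [Finset.sum_filter]
    refine Finset.sum_le_sum fun q hq => ?_
    obtain ⟨hq1, hq2⟩ := Finset.mem_Icc.1 hq
    have hnn : ∀ r ∈ Finset.Ioc R Q, (0 : ℝ) ≤ if r * r ∣ q then 1 / (q : ℝ) else 0 := by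
      intro r _
      split_ifs
      · positivity
      · exact le_rfl
    by_cases hb : Bad R q
    · rw [if_pos hb]
      obtain ⟨r, hr1, hr2⟩ := hb
      have hrQ : r ∈ Finset.Ioc R Q := by
        refine Finset.mem_Ioc.2 ⟨hr1, ?_⟩
        have h2 := Nat.le_of_dvd hq1 hr2
        have h3 : r ≤ r * r := Nat.le_mul_self r
        omega
      have h2 := Finset.single_le_sum hnn hrQ
      rw [if_pos hr2] at h2
      exact h2
    · rw [if_neg hb]
      exact Finset.sum_nonneg hnn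
  refine h1.trans ?_
  rw [Finset.sum_comm]
  calc ∑ r ∈ Finset.Ioc R Q, ∑ q ∈ Finset.Icc 1 Q, (if r * r ∣ q then 1 / (q : ℝ) else 0)
      ≤ ∑ r ∈ Finset.Ioc R Q, 1 / ((r * r : ℕ) : ℝ) * (1 + Real.log Q) := by
        refine Finset.sum_le_sum fun r hr => ?_
        rw [← Finset.sum_filter]
        refine mult_sum Q (r * r) ?_
        have := (Finset.mem_Ioc.1 hr).1
        exact Nat.mul_pos (by omega) (by omega)
    _ = (∑ r ∈ Finset.Ioc R Q, 1 / ((r * r : ℕ) : ℝ)) * (1 + Real.log Q) := by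
        rw [Finset.sum_mul]
    _ ≤ 1 / (R : ℝ) * (1 + Real.log Q) :=
        mul_le_mul_of_nonneg_right (sq_sum Q R hR) (L_nonneg Q)
    _ = (1 + Real.log Q) / R := by ring

lemma mt_le (h q m A B : ℕ) (hh : h ≠ 0) :
    mt h q m A B ≤ h * (1 / (q : ℝ)) * (1 + Real.log B) * (1 / (m : ℝ)) := by
  unfold mt
  have h1 : ∑ x ∈ Finset.Ioc A B, Fh h (Nat.gcd q (m * x)) / ((q : ℝ) * m * x) ≤
      ∑ x ∈ Finset.Ioc A B, h * (1 / (q : ℝ)) * (1 / (m : ℝ)) * (1 / (x : ℝ)) := by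
    refine Finset.sum_le_sum fun x _ => ?_
    calc Fh h (Nat.gcd q (m * x)) / ((q : ℝ) * m * x)
        ≤ (h : ℝ) / ((q : ℝ) * m * x) :=
          div_le_div_of_nonneg_right (Fh_le h _ hh) (by positivity)
      _ = h * (1 / (q : ℝ)) * (1 / (m : ℝ)) * (1 / (x : ℝ)) := by
          rw [one_div, one_div, one_div, div_eq_mul_inv, mul_inv, mul_inv]
          ring
  refine h1.trans ?_
  rw [← Finset.mul_sum]
  have h2 : ∑ x ∈ Finset.Ioc A B, 1 / (x : ℝ) ≤ 1 + Real.log B := by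
    refine le_trans (Finset.sum_le_sum_of_subset_of_nonneg ?_ (fun _ _ _ => by positivity))
      (harm B)
    intro x hx
    have := Finset.mem_Ioc.1 hx
    exact Finset.mem_Icc.2 ⟨by omega, by omega⟩
  calc h * (1 / (q : ℝ)) * (1 / (m : ℝ)) * ∑ x ∈ Finset.Ioc A B, 1 / (x : ℝ)
      ≤ h * (1 / (q : ℝ)) * (1 / (m : ℝ)) * (1 + Real.log B) :=
        mul_le_mul_of_nonneg_left h2 (by positivity)
    _ = h * (1 / (q : ℝ)) * (1 + Real.log B) * (1 / (m : ℝ)) := by ring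

lemma inner (h q M A B : ℕ) (hh : h ≠ 0) :
    ∑ m ∈ Finset.Icc 1 M, mt h q m A B ≤
      1 / (q : ℝ) * (h * ((1 + Real.log M) * (1 + Real.log B))) := by
  calc ∑ m ∈ Finset.Icc 1 M, mt h q m A B
      ≤ ∑ m ∈ Finset.Icc 1 M, h * (1 / (q : ℝ)) * (1 + Real.log B) * (1 / (m : ℝ)) :=
        Finset.sum_le_sum fun m _ => mt_le h q m A B hh
    _ = h * (1 / (q : ℝ)) * (1 + Real.log B) * ∑ m ∈ Finset.Icc 1 M, 1 / (m : ℝ) := by
        rw [Finset.mul_sum]
    _ ≤ h * (1 / (q : ℝ)) * (1 + Real.log B) * (1 + Real.log M) := by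
        refine mul_le_mul_of_nonneg_left (harm M) ?_
        have := L_nonneg B
        positivity
    _ = 1 / (q : ℝ) * (h * ((1 + Real.log M) * (1 + Real.log B))) := by ring

end C5

open C5 in
/-- C5. -/
theorem prfC5 : claimC5 := by
  classical
  intro h Q M A B R hh hR
  have hK : (0 : ℝ) ≤ h * ((1 + Real.log M) * (1 + Real.log B)) :=
    mul_nonneg (Nat.cast_nonneg h) (mul_nonneg (L_nonneg M) (L_nonneg B))
  constructor
  · calc ∑ q ∈ (Finset.Icc 1 Q).filter (Bad R), ∑ m ∈ Finset.Icc 1 M, mt h q m A B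
        ≤ ∑ q ∈ (Finset.Icc 1 Q).filter (Bad R),
            1 / (q : ℝ) * (h * ((1 + Real.log M) * (1 + Real.log B))) :=
          Finset.sum_le_sum fun q _ => inner h q M A B hh
      _ = (∑ q ∈ (Finset.Icc 1 Q).filter (Bad R), 1 / (q : ℝ)) *
            (h * ((1 + Real.log M) * (1 + Real.log B))) := by
          rw [Finset.sum_mul]
      _ ≤ (1 + Real.log Q) / R * (h * ((1 + Real.log M) * (1 + Real.log B))) :=
          mul_le_mul_of_nonneg_right (bad_sum Q R hR) hK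
      _ = h * ((1 + Real.log Q) * (1 + Real.log M) * (1 + Real.log B)) / R := by ring
  · calc ∑ q ∈ Finset.Icc 1 Q, ∑ m ∈ Finset.Icc 1 M, mt h q m A B
        ≤ ∑ q ∈ Finset.Icc 1 Q, 1 / (q : ℝ) * (h * ((1 + Real.log M) * (1 + Real.log B))) :=
          Finset.sum_le_sum fun q _ => inner h q M A B hh
      _ = (∑ q ∈ Finset.Icc 1 Q, 1 / (q : ℝ)) *
            (h * ((1 + Real.log M) * (1 + Real.log B))) := by
          rw [Finset.sum_mul]
      _ ≤ (1 + Real.log Q) * (h * ((1 + Real.log M) * (1 + Real.log B))) :=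
          mul_le_mul_of_nonneg_right (harm Q) hK
      _ = h * ((1 + Real.log Q) * (1 + Real.log M) * (1 + Real.log B)) := by ring

end Pool.Agent.Work.MP_122e00_nt.WRK
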