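import Pool.Agent.Work.MP_122e00_nt.WR.StmtsC

set_option autoImplicit false

namespace Pool.Agent.Work.MP_122e00_nt.WRK

open Finset Filter Topology

namespace IC9

/-- the abstract limit argument -/
lemma squeeze (b W D lg : ℝ → ℝ) (L : ℝ) (hW : Tendsto (fun X => W X / lg X) atTop (𝓝 L))
    (hD : ∀ᶠ X : ℝ in atTop, D X = X * lg X ∧ 1 ≤ lg X ∧ 0 < X)
    (h : ∀ lam : ℝ, 1 < lam → lam ≤ 2 → ∃ C κ : ℝ, 0 < κ ∧ ∀ᶠ X : ℝ in atTop,
      X / lam * W X - C * (X / X ^ κ) ≤ b X ∧ b X ≤ lam * X * W X + C * (X / X ^ κ)) :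
    Tendsto (fun X => b X / D X) atTop (𝓝 L) := by
  rw [Metric.tendsto_nhds]
  intro ε hε
  have hL : 0 < |L| + 1 := by positivity
  set δ : ℝ := min 1 (ε / (4 * (|L| + 1))) with hδ
  have hδ0 : 0 < δ := lt_min one_pos (by positivity)
  have hδ1 : δ ≤ 1 := min_le_left _ _
  have hδ2 : δ * (|L| + 1) ≤ ε / 4 := by
    have h1 : δ ≤ ε / (4 * (|L| + 1)) := min_le_right _ _
    calc δ * (|L| + 1) ≤ ε / (4 * (|L| + 1)) * (|L| + 1) := by gcongr
      _ = ε / 4 := by field_simp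
  obtain ⟨C, κ, hκ, hev⟩ := h (1 + δ) (by linarith) (by linarith)
  have he : Tendsto (fun X : ℝ => |C| * (X ^ κ)⁻¹) atTop (𝓝 0) := by
    have := ((tendsto_rpow_atTop hκ).inv_tendsto_atTop).const_mul |C|
    simpa using this
  have hη : 0 < min 1 (ε / 8) := lt_min one_pos (by positivity)
  filter_upwards [hev, hD, Metric.tendsto_nhds.1 hW _ hη,
    Metric.tendsto_nhds.1 he (ε / 4) (by positivity)] with X h1 h2 h3 h4
  obtain ⟨hlo, hup⟩ := h1
  obtain ⟨hDX, hlg, hX⟩ := h2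
  have hlg0 : 0 < lg X := by linarith
  have hXκ : 0 < X ^ κ := Real.rpow_pos_of_pos hX κ
  set w : ℝ := W X / lg X with hw
  have hWw : W X = w * lg X := by rw [hw]; field_simp
  rw [Real.dist_eq] at h3 h4 ⊢
  have h4' : |C| * (X ^ κ)⁻¹ < ε / 4 := by
    rw [sub_zero] at h4
    exact (abs_lt.1 h4).2
  have h31 : |w - L| < 1 := lt_of_lt_of_le h3 (min_le_left _ _)
  have h32 : |w - L| < ε / 8 := lt_of_lt_of_le h3 (min_le_right _ _)
  have hwb : |w| ≤ |L| + 1 := by
    have := abs_sub_abs_le_abs_sub w L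
    linarith
  -- the error term
  have hDpos : 0 < D X := by rw [hDX]; positivity
  have herr : |C * (X / X ^ κ) / D X| ≤ |C| * (X ^ κ)⁻¹ := by
    rw [hDX, show C * (X / X ^ κ) / (X * lg X) = C * (X ^ κ)⁻¹ * (lg X)⁻¹ by
      field_simp, abs_mul, abs_mul, abs_of_pos (inv_pos.2 hXκ), abs_of_pos (inv_pos.2 hlg0)]
    have : (lg X)⁻¹ ≤ 1 := inv_le_one_of_one_le₀ hlg
    have h0 : 0 ≤ |C| * (X ^ κ)⁻¹ := by positivity
    nlinarith
  have herr' := abs_le.1 herr
  -- divide by `D X`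
  have hup' : b X / D X ≤ (1 + δ) * w + C * (X / X ^ κ) / D X := by
    rw [div_le_iff₀ hDpos, add_mul, div_mul_cancel₀ _ hDpos.ne']
    refine hup.trans (le_of_eq ?_)
    rw [hDX, hWw]
    ring
  have hlo' : w / (1 + δ) - C * (X / X ^ κ) / D X ≤ b X / D X := by
    rw [le_div_iff₀ hDpos, sub_mul, div_mul_cancel₀ _ hDpos.ne']
    refine le_trans (le_of_eq ?_) hlo
    rw [hDX, hWw]
    field_simp
  have h5 : δ * |w| ≤ ε / 4 := le_trans (by gcongr) hδ2
  have h6 : |w / (1 + δ) - w| ≤ ε / 4 := by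
    have : w / (1 + δ) - w = -(δ / (1 + δ) * w) := by
      field_simp
      ring
    rw [this, abs_neg, abs_mul, abs_of_pos (div_pos hδ0 (by linarith))]
    have h7 : δ / (1 + δ) ≤ δ := div_le_self hδ0.le (by linarith)
    exact le_trans (by gcongr) h5
  have h6' := abs_le.1 h6
  have h8 : |δ * w| ≤ ε / 4 := by rw [abs_mul, abs_of_pos hδ0]; exact h5
  have h8' := abs_le.1 h8
  have h32' := abs_lt.1 h32
  rw [abs_lt]
  constructor
  · linarith [herr'.1, herr'.2]
  · nlinarith [herr'.1, herr'.2]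

end IC9

open IC9 in
theorem prfC9 : claimC9 := by
  intro hBox s h al be ga de z hh hal hab hga hgd h1 h2 hz
  have hbe : ∀ i, 0 ≤ be i := fun i => (hal i).trans (hab i)
  have hde : ∀ i, 0 ≤ de i := fun i => (hga i).trans (hgd i)
  have hSbe : ∀ i, be i ≤ ∑ i, be i := fun i =>
    Finset.single_le_sum (fun j _ => hbe j) (Finset.mem_univ i)
  have hSde : ∀ i, de i ≤ ∑ i, de i := fun i =>
    Finset.single_le_sum (fun j _ => hde j) (Finset.mem_univ i)
  have hS1 : 0 ≤ ∑ i : Fin s, de i.succ := Finset.sum_nonneg fun i _ => hde _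
  have hS2 : 0 ≤ ∑ i, be i := Finset.sum_nonneg fun i _ => hbe _
  have hb1 : ∀ i, be i ≤ 1 := fun i => by
    have := hSbe i
    linarith
  have hd1 : ∀ i, de i ≤ 1 := fun i => by
    have := hSde i
    linarith
  have hlim := tendsto_Wsum h hh al be ga de hal hab hb1 hga hgd hd1
  refine squeeze (fun X => (BC al be ga de X z : ℝ)) (fun X => Wsum h al be ga de X)
    (fun X => X * (Real.log X) ^ (2 * (s + 1))) (fun X => (Real.log X) ^ (2 * (s + 1))) _ hlim ?_ ?_
  · filter_upwards [eventually_ge_atTop (Real.exp 1)] with X hX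
    have hX0 : 0 < X := lt_of_lt_of_le (Real.exp_pos 1) hX
    have hlog : 1 ≤ Real.log X := by
      rw [Real.le_log_iff_exp_le hX0]
      exact hX
    exact ⟨rfl, one_le_pow₀ hlog, hX0⟩
  · intro lam hl1 hl2
    exact hBox s h al be ga de z lam hh hal hab hga hgd h1 h2 hz hl1 hl2

end Pool.Agent.Work.MP_122e00_nt.WRK
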