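import Pool.Agent.Work.MP_122e00_nt.WR.StmtsK

set_option autoImplicit false

/-!
# The Weil region, part K, item K9: sums over the frequencies
-/

namespace Pool.Agent.Work.MP_122e00_nt.WRK

open Finset Filter Topology

namespace K9

lemma harm (q : ℕ) : ∑ t ∈ Finset.Icc 1 q, 1 / (t : ℝ) ≤ 1 + Real.log q := by
  have h := harmonic_le_one_add_log q
  rw [harmonic_eq_sum_Icc] at h
  push_cast at h
  simpa only [one_div] using h

lemma refl_sum (q : ℕ) (w : ℕ → ℝ) (hw : ∀ μ ∈ Finset.Ico 1 q, w (q - μ) = w μ) :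
    ∑ μ ∈ Finset.Ico 1 q, (q : ℝ) / 2 * (1 / (μ : ℝ) + 1 / ((q : ℝ) - μ)) * w μ =
      q * ∑ μ ∈ Finset.Ico 1 q, 1 / (μ : ℝ) * w μ := by
  have h1 : ∑ μ ∈ Finset.Ico 1 q, 1 / ((q : ℝ) - μ) * w μ =
      ∑ μ ∈ Finset.Ico 1 q, 1 / (μ : ℝ) * w μ := by
    have h2 := Finset.sum_Ico_reflect (fun j : ℕ => 1 / (j : ℝ) * w j) 1 (m := q) (n := q)
      (by omega)
    have h3 : Finset.Ico (q + 1 - q) (q + 1 - 1) = Finset.Ico 1 q := by
      congr 1
      omega
    rw [h3] at h2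
    rw [← h2]
    apply Finset.sum_congr rfl
    intro μ hμ
    have hμ' := Finset.mem_Ico.1 hμ
    rw [hw μ hμ, Nat.cast_sub hμ'.2.le]
  have h4 : ∑ μ ∈ Finset.Ico 1 q, (q : ℝ) / 2 * (1 / (μ : ℝ) + 1 / ((q : ℝ) - μ)) * w μ =
      (q : ℝ) / 2 * (∑ μ ∈ Finset.Ico 1 q, 1 / (μ : ℝ) * w μ +
        ∑ μ ∈ Finset.Ico 1 q, 1 / ((q : ℝ) - μ) * w μ) := by
    rw [← Finset.sum_add_distrib, Finset.mul_sum]
    apply Finset.sum_congr rfl
    intro μ _
    ring
  rw [h4, h1]
  ring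

lemma one_div_sum (q d : ℕ) (hd : 1 ≤ d) :
    ∑ μ ∈ (Finset.Ico 1 q).filter (fun μ => d ∣ μ), (d : ℝ) / (μ : ℝ) ≤ 1 + Real.log q := by
  have hinj : Set.InjOn (fun μ : ℕ => μ / d)
      ((Finset.Ico 1 q).filter (fun μ => d ∣ μ) : Finset ℕ) := by
    intro x hx y hy hxy
    have hx' := (Finset.mem_filter.1 (Finset.mem_coe.1 hx)).2
    have hy' := (Finset.mem_filter.1 (Finset.mem_coe.1 hy)).2
    have h1 : x / d = y / d := hxy
    rw [← Nat.div_mul_cancel hx', ← Nat.div_mul_cancel hy', h1]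
  have h1 : ∑ μ ∈ (Finset.Ico 1 q).filter (fun μ => d ∣ μ), (d : ℝ) / (μ : ℝ) =
      ∑ t ∈ ((Finset.Ico 1 q).filter (fun μ => d ∣ μ)).image (fun μ : ℕ => μ / d),
        1 / (t : ℝ) := by
    rw [Finset.sum_image hinj]
    apply Finset.sum_congr rfl
    intro μ hμ
    have hμ' := Finset.mem_filter.1 hμ
    obtain ⟨e, he⟩ := hμ'.2
    have hd0 : (d : ℝ) ≠ 0 := by
      have : d ≠ 0 := by omega
      exact_mod_cast this
    have he0 : (e : ℝ) ≠ 0 := by
      have h2 := (Finset.mem_Ico.1 hμ'.1).1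
      have : e ≠ 0 := by
        rintro rfl
        rw [mul_zero] at he
        omega
      exact_mod_cast this
    subst he
    rw [Nat.mul_div_cancel_left _ (by omega : 0 < d)]
    push_cast
    field_simp
  rw [h1]
  refine le_trans (Finset.sum_le_sum_of_subset_of_nonneg ?_ ?_) (harm q)
  · intro t ht
    obtain ⟨μ, hμ, rfl⟩ := Finset.mem_image.1 ht
    have hμ' := Finset.mem_filter.1 hμ
    have hI := Finset.mem_Ico.1 hμ'.1
    rw [Finset.mem_Icc]
    constructor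
    · exact Nat.div_pos (Nat.le_of_dvd (by omega) hμ'.2) (by omega)
    · exact (Nat.div_le_self _ _).trans (by omega)
  · intro t _ _
    positivity

end K9

theorem prfK9 : claimK9 := by
  intro q hq
  have hq0 : (0 : ℝ) ≤ q := Nat.cast_nonneg _
  constructor
  · rw [K9.refl_sum q (fun μ => (Nat.gcd q μ : ℝ)) (by
      intro μ hμ
      have hμ' := Finset.mem_Ico.1 hμ
      rw [Nat.gcd_self_sub_right hμ'.2.le]), mul_assoc]
    refine mul_le_mul_of_nonneg_left ?_ hq0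
    have h1 : ∀ μ ∈ Finset.Ico 1 q, 1 / (μ : ℝ) * (Nat.gcd q μ : ℝ) ≤
        ∑ d ∈ q.divisors, if d ∣ μ then (d : ℝ) / (μ : ℝ) else 0 := by
      intro μ hμ
      have hμ' := Finset.mem_Ico.1 hμ
      have h2 : Nat.gcd q μ ∈ q.divisors := by
        rw [Nat.mem_divisors]
        exact ⟨Nat.gcd_dvd_left _ _, by omega⟩
      refine le_trans (le_of_eq ?_) (Finset.single_le_sum
        (f := fun d : ℕ => if d ∣ μ then (d : ℝ) / (μ : ℝ) else 0) ?_ h2)
      · rw [if_pos (Nat.gcd_dvd_right _ _)]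
        ring
      · intro d _
        split_ifs
        · positivity
        · exact le_refl _
    refine (Finset.sum_le_sum h1).trans ?_
    rw [Finset.sum_comm]
    have h3 : ∀ d ∈ q.divisors, (∑ μ ∈ Finset.Ico 1 q, if d ∣ μ then (d : ℝ) / (μ : ℝ) else 0) ≤
        1 + Real.log q := by
      intro d hd
      rw [← Finset.sum_filter]
      exact K9.one_div_sum q d (Nat.pos_of_mem_divisors hd)
    refine (Finset.sum_le_sum h3).trans ?_
    rw [Finset.sum_const, nsmul_eq_mul]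
  · have h1 := K9.refl_sum q (fun _ => 1) (fun _ _ => rfl)
    simp only [mul_one] at h1
    rw [h1]
    refine mul_le_mul_of_nonneg_left ?_ hq0
    refine le_trans (Finset.sum_le_sum_of_subset_of_nonneg ?_ ?_) (K9.harm q)
    · intro t ht
      have := Finset.mem_Ico.1 ht
      rw [Finset.mem_Icc]
      omega
    · intro t _ _
      positivity

end Pool.Agent.Work.MP_122e00_nt.WRK
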