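import Pool.Agent.Work.MP_122e00_nt.WR.Defs

set_option autoImplicit false

/-!
# The Weil region, part R: cells, fundamental domain, assembly

All spaces `Fin s → ℝ` and `(Fin s → ℝ) × (Fin s → ℝ)` carry the sup metric and Lebesgue measure.
-/

namespace Pool.Agent.Work.MP_122e00_nt.WR

open Finset Filter Topology MeasureTheory

open scoped ArithmeticFunction.zeta

open Two Gen Pool.Agent.Work.MP_122e00_nt.Core

/-- Lower corner of the grid cell `m` (for `m i = 0` it is negative). -/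
noncomputable def clo {s : ℕ} (N : ℕ) (m : Fin s → ℕ) : Fin s → ℝ := fun i => ((m i : ℝ) - 1) / N
/-- Upper corner of the grid cell `m`. -/
noncomputable def cup {s : ℕ} (N : ℕ) (m : Fin s → ℕ) : Fin s → ℝ := fun i => (m i : ℝ) / N
/-- The half open grid cell. -/
noncomputable def cellP {s : ℕ} (N : ℕ) (m : (Fin s → ℕ) × (Fin s → ℕ)) :
    Set ((Fin s → ℝ) × (Fin s → ℝ)) := hb (clo N m.1) (cup N m.1) ×ˢ hb (clo N m.2) (cup N m.2)
/-- Its volume inside the region of nonnegative coordinates. -/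
noncomputable def cvol {s : ℕ} (N : ℕ) (m : (Fin s → ℕ) × (Fin s → ℕ)) : ℝ :=
  (∏ i, (cup N m.1 i - max (clo N m.1 i) 0)) * ∏ i, (cup N m.2 i - max (clo N m.2 i) 0)

/-- The set where the box theorem applies (in one of the two directions). -/
def OW {s : ℕ} (i0 : Fin s) (p : (Fin s → ℝ) × (Fin s → ℝ)) : Prop :=
  LW i0 p.1 p.2 ∨ LW i0 p.2 p.1

/-- The limit for boxes, `z = - h` (`∏ a ∣ n`, `∏ b ∣ n + h`), both directions. -/
def StCell : Prop := ∀ (s h : ℕ) (i0 : Fin s) (α β γ δ : Fin s → ℝ), h ≠ 0 →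
  (∀ i, 0 ≤ β i ∧ α i ≤ β i) → (∀ i, 0 ≤ δ i ∧ γ i ≤ δ i) → OW i0 (β, δ) →
  Tendsto (fun X : ℝ => PC s X (-(h : ℤ)) (hb α β ×ˢ hb γ δ) / (X * (Real.log X) ^ (2 * s))) atTop
    (𝓝 (Csing s h * ((∏ i, (β i - max (α i) 0)) * ∏ i, (δ i - max (γ i) 0))))

/-- R1 [MEDIUM]. Exchange of the roles of `n` and `n + h`.
PROOF. If `LW i0 β δ`: `StBox` with `z = -h`. Let `LW i0 δ β`; `StBox` with `z = h` and the boxes
exchanged gives the limit of `PC s X h (hb γ δ ×ˢ hb α β)` (the two products commute). Put `N = ⌊X⌋₊`,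
`D m = #{(b, a) : b, a ∈ tup s X, ∏ b ∣ m, (∏ a : ℤ) ∣ m - h, positions in hb γ δ, hb α β}`. Then
`PC s X h (hb γ δ ×ˢ hb α β) = ∑_{m ∈ Icc 1 N} D m` and `PC s X (-h) (hb α β ×ˢ hb γ δ) =
∑_{m ∈ Icc (1+h) (N+h)} D m` (`m = n + h`; swap the pairs). The difference of the two is at most
`∑_{m ∈ Icc 1 h} D m + ∑_{m ∈ Ioc N (N+h)} D m`. For `1 ≤ m ≤ h`: every `b i ≤ h` and, if `m < h`, every
`a i ≤ h`, so `D m ≤ h ^ (2 s)`; if `m = h`, the condition on `a` is empty, the number of `a` is at most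
`∏ X ^ (β i) = X ^ (∑ β)` (position `lg X a i ≤ β i` means `a i ≤ X ^ (β i)`), and `∑ β < 1` because
`LW i0 δ β` contains `1/2 ∑ δ + ∑ β < 1`, `δ ≥ 0`: `D h ≤ h ^ s X ^ (∑ β)`. For `N < m ≤ N + h` (`X` large,
so `h ≤ N`): `D m ≤ τ(m) ^ s τ(m - h) ^ s ≤ X ^ (1/2)` by the divisor bound (`divisor_bound`, file
DivBound.lean). All this is `o(X (log X) ^ (2 s))`. -/
def StR1 : Prop := StBox → StCell

/-- Covering of a compact set by cells. -/
def ConR2 : Prop := ∀ (s : ℕ) (i0 : Fin s) (T : Set ((Fin s → ℝ) × (Fin s → ℝ))) (ε : ℝ),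
  IsCompact T → (∀ p ∈ T, (∀ i, 0 ≤ p.1 i ∧ 0 ≤ p.2 i) ∧ OW i0 p) → 0 < ε →
  ∃ N : ℕ, 1 ≤ N ∧ ∃ M : Finset ((Fin s → ℕ) × (Fin s → ℕ)), T ⊆ ⋃ m ∈ M, cellP N m ∧
    (∀ m ∈ M, OW i0 (cup N m.1, cup N m.2)) ∧ ∑ m ∈ M, cvol N m ≤ volume.real T + ε

/-- R2 [MEDIUM]. PROOF. Let `T ⊆ [0, K] ^ (2 s)` (`K` integer). For `N ≥ 1` let `M` be the set of the
`m` with all entries in `{0, .., K N}` such that `cellP N m` meets `T`. Every point `p ∈ T` lies in the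
cell with `m i = ⌈N p i⌉₊`, so `T ⊆ ⋃ cellP`. All points of the closed cell have distance `≤ 1 / N` from
each other (sup metric), so the closed cells of `M`, in particular the corners `(cup, cup)`, lie in
`Metric.cthickening (1 / N) T`. The set `{p | OW i0 p}` is open (strict inequalities between continuous
functions) and contains `T`, so for `N` large it contains `cthickening (1 / N) T`
(`IsCompact.exists_cthickening_subset_open`). Volume: `cvol N m` is `N ^ (-2 s)` if all entries of `m`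
are `≥ 1` and `0` if some entry is `0` (`s ≥ 1` because of `i0`); the cells are pairwise disjoint, each
of the first kind has volume `N ^ (-2 s)` (`Real.volume_pi_Ioc`-like, product measure), so
`∑ cvol ≤ volume.real (cthickening (1/N) T) → volume.real T` as `N → ∞`
(`tendsto_measure_cthickening_of_isCompact`). -/
def StR2 : Prop := ConR2

/-- Upper bound for compact sets. -/
def StUp : Prop := ∀ (s h : ℕ) (i0 : Fin s) (T : Set ((Fin s → ℝ) × (Fin s → ℝ))) (ε : ℝ), h ≠ 0 →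
  IsCompact T → (∀ p ∈ T, (∀ i, 0 ≤ p.1 i ∧ 0 ≤ p.2 i) ∧ OW i0 p) → 0 < ε →
  ∀ᶠ X : ℝ in atTop, PC s X (-(h : ℤ)) T ≤
    (Csing s h * volume.real T + ε) * (X * (Real.log X) ^ (2 * s))

/-- R3 [EASY-MEDIUM]. PROOF. `PC s X z` is monotone in the set and subadditive for finite unions
(cardinalities of filters), so `PC T ≤ ∑_{m ∈ M} PC (cellP N m)` with `M`, `N` of `ConR2` for
`ε / (2 (Csing + 1))` (`Csing_nonneg`). By `StCell` (with `α = clo`, `β = cup ≥ 0`, and `clo ≤ cup`) the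
finite sum divided by `X (log X) ^ (2 s)` tends to `Csing * ∑ cvol ≤ Csing (volume.real T) + ε / 2`. -/
def StR3 : Prop := StCell → ConR2 → StUp

/-- Cells inside an open set. -/
def ConR4 : Prop := ∀ (s : ℕ) (i0 : Fin s) (U : Set ((Fin s → ℝ) × (Fin s → ℝ))) (ε : ℝ),
  IsOpen U → (∀ p ∈ U, (∀ i, 0 < p.1 i ∧ 0 < p.2 i) ∧ OW i0 p) → 0 < ε →
  ∃ N : ℕ, 1 ≤ N ∧ ∃ M : Finset ((Fin s → ℕ) × (Fin s → ℕ)),
    (∀ m ∈ M, cellP N m ⊆ U ∧ OW i0 (cup N m.1, cup N m.2) ∧ ∀ i, 1 ≤ m.1 i ∧ 1 ≤ m.2 i) ∧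
    volume.real U - ε ≤ ∑ m ∈ M, cvol N m

/-- R4 [MEDIUM]. PROOF. `U` is contained in `[0, 1] ^ (2 s)`: `LW i0 x y` and `x, y ≥ 0` imply `∑ x < 1`,
`∑ y < 1`. For `N = 2 ^ k` let `M_k` be the set of the `m`, entries in `{1, .., N}`, whose CLOSED cell is
contained in `U`, and `U_k` the union of the half open cells. `U_k` increases with `k` (a dyadic cell
of level `k` is a union of cells of level `k + 1`) and `⋃ U_k = U`: if `p ∈ U`, a ball of radius `2 / N`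
around `p` is in `U` for `k` large, and `p` lies in the half open cell `m i = ⌈N p i⌉₊ ≥ 1`. So
`volume.real U_k → volume.real U` (`tendsto_measure_iUnion_atTop`, finite measure), and
`volume.real U_k = card M_k * N ^ (-2 s) = ∑ cvol` (disjoint cells, `cvol = N ^ (-2 s)` as
`clo ≥ 0`). The corner `(cup, cup)` is in the closed cell, so in `U`, so `OW` holds. (Compare
`exists_grid` in Region.lean.) -/
def StR4 : Prop := ConR4

/-- Lower bound for open sets. -/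
def StLo : Prop := ∀ (s h : ℕ) (i0 : Fin s) (U : Set ((Fin s → ℝ) × (Fin s → ℝ))) (ε : ℝ), h ≠ 0 →
  IsOpen U → (∀ p ∈ U, (∀ i, 0 < p.1 i ∧ 0 < p.2 i) ∧ OW i0 p) → 0 < ε →
  ∀ᶠ X : ℝ in atTop, (Csing s h * volume.real U - ε) * (X * (Real.log X) ^ (2 * s)) ≤
    PC s X (-(h : ℤ)) U

/-- R5 [EASY-MEDIUM]. PROOF. The cells `cellP N m`, `m ∈ M`, of `ConR4` are pairwise disjoint
(`m i = ⌈N y i⌉`), so `PC U ≥ PC (⋃ cells) = ∑ PC (cellP N m)`; then `StCell` as in R3. -/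
def StR5 : Prop := StCell → ConR4 → StLo

/-- `v (castSucc i0)` is the largest of the first `s` entries and at most the last one. -/
def topP {s : ℕ} (i0 : Fin s) (v : Fin (s + 1) → ℕ) : Prop :=
  (∀ i : Fin s, v i.castSucc ≤ v i0.castSucc) ∧ v i0.castSucc ≤ v (Fin.last s)

/-- The strict form. -/
def topS {s : ℕ} (i0 : Fin s) (v : Fin (s + 1) → ℕ) : Prop :=
  (∀ i : Fin s, i ≠ i0 → v i.castSucc < v i0.castSucc) ∧ v i0.castSucc < v (Fin.last s)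

open Classical in
/-- Symmetric sums over factorisations and the fundamental domain. -/
def ConR6 : Prop := ∀ (s n : ℕ) (i0 : Fin s) (f : (Fin (s + 1) → ℕ) → ℝ), (∀ v, 0 ≤ f v) →
  (∀ (σ : Equiv.Perm (Fin (s + 1))) (v : Fin (s + 1) → ℕ), f (fun i => v (σ i)) = f v) →
  ∑ v ∈ Nat.finMulAntidiag (s + 1) n, f v ≤
    ((s : ℝ) + 1) * s * ∑ v ∈ (Nat.finMulAntidiag (s + 1) n).filter (topP i0), f v ∧
  ((s : ℝ) + 1) * s * ∑ v ∈ (Nat.finMulAntidiag (s + 1) n).filter (topS i0), f v ≤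
    ∑ v ∈ Nat.finMulAntidiag (s + 1) n, f v

/-- R6 [MEDIUM]. PROOF. For each ordered pair `(j, i)` of different elements of `Fin (s + 1)` choose a
permutation `σ = σ_{j i}` with `σ (last) = j` and `σ (castSucc i0) = i` (exists since `last ≠ castSucc i0`:
compose two swaps). `v ↦ v ∘ σ` is a bijection of `finMulAntidiag (s + 1) n` (`Nat.mem_finMulAntidiag`,
`Equiv.prod_comp`) which preserves `f`. Upper bound: given `v`, let `j` be an index with `v j` maximal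
and `i ≠ j` with `v i` maximal among the indices `≠ j` (exists, `s ≥ 1`): then `v ∘ σ_{j i}` is in
`topP`. So `∑_v f v ≤ ∑_{(j,i)} ∑_v [v ∘ σ_{ji} ∈ topP] f v = ∑_{(j,i)} ∑_{v'} [v' ∈ topP] f v'`. Lower
bound: if `v ∘ σ_{ji} ∈ topS` then `v j` is the strict maximum and `v i` the strict maximum of the
others, so `(j, i)` is determined by `v`; hence `∑_{(j,i)} ∑_{v'} [v' ∈ topS] f v' = ∑_v f v #{(j,i) :
v ∘ σ_{ji} ∈ topS} ≤ ∑_v f v`. The number of pairs is `(s + 1) s` (`Finset.card_offDiag` or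
`Fintype.card`). -/
def StR6 : Prop := ConR6

/-- The pairs outside the core, all factors below `X ^ (1/2)`. -/
def GG (s : ℕ) (δ X : ℝ) (v w : Fin (s + 1) → ℕ) : Prop :=
  (∀ i, (v i : ℝ) ^ 2 < X) ∧ (∀ i, (w i : ℝ) ^ 2 < X) ∧ ∃ i j k, i ≠ j ∧
    (X ^ (3 + δ) < ((w i : ℝ) * w j) ^ 2 * (v k : ℝ) ^ 3 ∨
     X ^ (3 + δ) < ((v i : ℝ) * v j) ^ 2 * (w k : ℝ) ^ 3)

open Classical in
/-- The number of pairs of factorisations of `n`, `n + h` in `GG` with `P v`, `P w`. -/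
noncomputable def gcnt (s h : ℕ) (δ X : ℝ) (P : (Fin (s + 1) → ℕ) → Prop) (n : ℕ) : ℕ :=
  ((Nat.finMulAntidiag (s + 1) n ×ˢ Nat.finMulAntidiag (s + 1) (n + h)).filter
    (fun p => GG s δ X p.1 p.2 ∧ P p.1 ∧ P p.2)).card

/-- R7 [EASY-MEDIUM]. PROOF. `GG s δ X v w` is invariant under `v ↦ v ∘ σ` and under `w ↦ w ∘ σ`
(`i, j, k` range over all indices, `i ≠ j ↔ σ i ≠ σ j`). Apply ConR6 to `f v = #{w : GG v w}` and then,
for each fixed `v` in `topP` (`topS`), to `f w = if GG v w then 1 else 0`. -/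
def ConR7 : Prop := ∀ (s h n : ℕ) (i0 : Fin s) (δ X : ℝ),
  ((gcnt s h δ X (fun _ => True) n : ℕ) : ℝ) ≤
    (((s : ℝ) + 1) * s) ^ 2 * ((gcnt s h δ X (topP i0) n : ℕ) : ℝ) ∧
  (((s : ℝ) + 1) * s) ^ 2 * ((gcnt s h δ X (topS i0) n : ℕ) : ℝ) ≤
    ((gcnt s h δ X (fun _ => True) n : ℕ) : ℝ)
def StR7 : Prop := ConR6 → ConR7

/-- R8 [EASY]. PROOF. `mc s X n * mc s X (n + h)` is the number of pairs `(v, w)` with all squares
`< X` (`Finset.card_product`, `Finset.filter_product`); these are the pairs in `IsCore` and those in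
`GG` (`not_le`, De Morgan), disjoint. -/
def ConR8 : Prop := ∀ (s h : ℕ) (δ X : ℝ),
  ∑ n ∈ Finset.Icc 1 ⌊X⌋₊, mc s X n * mc s X (n + h) - coreS s h δ X =
    ∑ n ∈ Finset.Icc 1 ⌊X⌋₊, ((gcnt s h δ X (fun _ => True) n : ℕ) : ℝ)
def StR8 : Prop := ConR8

/-- The fundamental domain, enlarged. -/
def DmE {s : ℕ} (i0 : Fin s) (ε : ℝ) : Set (Fin s → ℝ) :=
  {x | (∀ i, 0 ≤ x i) ∧ (∀ i, x i ≤ x i0) ∧ x i0 ≤ 1 - ∑ i, x i + ε ∧ 1 - ∑ i, x i ≤ 1 / 2 + ε}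
/-- The region, enlarged (compact). -/
def TE {s : ℕ} (i0 : Fin s) (δ ε : ℝ) : Set ((Fin s → ℝ) × (Fin s → ℝ)) :=
  {p | p.1 ∈ DmE i0 ε ∧ p.2 ∈ DmE i0 ε ∧ (WD i0 (δ - ε) p.1 p.2 ∨ WD i0 (δ - ε) p.2 p.1)}
/-- The fundamental domain, made smaller (open). -/
def DmO {s : ℕ} (i0 : Fin s) (ε : ℝ) : Set (Fin s → ℝ) :=
  {x | (∀ i, 0 < x i) ∧ (∀ i, i ≠ i0 → x i < x i0) ∧ x i0 + ε < 1 - ∑ i, x i ∧
    1 - ∑ i, x i + ε < 1 / 2}
/-- The strict mixed condition. -/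
def WO {s : ℕ} (i0 : Fin s) (δ : ℝ) (x y : Fin s → ℝ) : Prop :=
  3 * ∑ i, x i + 2 * (∑ i, y i - y i0) < 2 - δ
/-- The region, made smaller (open). -/
def TO {s : ℕ} (i0 : Fin s) (δ ε : ℝ) : Set ((Fin s → ℝ) × (Fin s → ℝ)) :=
  {p | p.1 ∈ DmO i0 ε ∧ p.2 ∈ DmO i0 ε ∧ (WO i0 (δ + ε) p.1 p.2 ∨ WO i0 (δ + ε) p.2 p.1)}

/-- R9 [MEDIUM]. From factorisations to positions, upper bound.
PROOF. Put `L = log X`, `ε1 = ε / 10`. For `X` large and `η X < n + something`: for every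
`n ∈ Ioc ⌊η X⌋₊ ⌊X⌋₊` we have `n > η X - 1`... precisely `n ≥ ⌊η X⌋₊ + 1 > η X`, so
`1 - ε1 ≤ log n / L ≤ 1` and `1 - ε1 ≤ log (n + h) / L ≤ 1 + ε1` (as `log (1 / η) ≤ ε1 L` and
`log (1 + h / X) ≤ ε1 L` for `X` large). The map `(v, w) ↦ (v ∘ castSucc, w ∘ castSucc)` is injective on
`finMulAntidiag (s+1) n × finMulAntidiag (s+1) (n+h)` (the last entry is determined by the product
`n ≥ 1`), its values `(a, b)` satisfy `∏ a ∣ n`, `∏ b ∣ n + h = n - (-h)`, `1 ≤ a i, b i ≤ X` (squares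
`< X`, `X ≥ 1`): in `tup s X`. Let `x = lg X a`, `y = lg X b`, `u = log (v last) / L = log n / L - ∑ x`,
`u' = log (w last) / L = log (n+h) / L - ∑ y`: `1 - ∑ x - ε1 ≤ u ≤ 1 - ∑ x`,
`1 - ∑ y - ε1 ≤ u' ≤ 1 - ∑ y + ε1`. `topP`: `x i ≤ x i0 ≤ u`, `y i ≤ y i0 ≤ u'`; squares: `u, u' < 1/2`; so
`x, y ∈ DmE i0 ε`. Mixed condition: if `X ^ (3+δ) < (w_i w_j) ^ 2 v_k ^ 3`, `i ≠ j`, then by `topP` also
with `w_{i0} w_last` and `v_last` (the product of two entries with different indices is at most the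
product of the two largest ones); taking logarithms `3 + δ < 2 (y i0 + u') + 3 u ≤ 2 (y i0 + 1 - ∑ y +
ε1) + 3 (1 - ∑ x + ε1)`, i.e. `3 ∑ x + 2 (∑ y - y i0) < 2 - δ + 5 ε1 ≤ 2 - (δ - ε)`: `WD i0 (δ - ε) x y`. The
other case is the same with the roles exchanged. So the pairs counted by `gcnt (topP)` for this `n`
inject into the pairs counted by `PC` for this `n` (`Finset.card_le_card_of_injOn`), and
`Ioc ⌊η X⌋₊ ⌊X⌋₊ ⊆ Icc 1 ⌊X⌋₊`. -/
def ConR9 : Prop := ∀ (s h : ℕ) (i0 : Fin s) (δ ε η : ℝ), 0 < ε → 0 < η → η ≤ 1 →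
  ∀ᶠ X : ℝ in atTop, ∑ n ∈ Finset.Ioc ⌊η * X⌋₊ ⌊X⌋₊, ((gcnt s h δ X (topP i0) n : ℕ) : ℝ) ≤
    PC s X (-(h : ℤ)) (TE i0 δ ε)
def StR9 : Prop := ConR9

/-- R10 [MEDIUM]. From positions to factorisations, lower bound.
PROOF. Same notation as in R9. For `n ∈ Ioc ⌊η X⌋₊ ⌊X⌋₊` send `(a, b)` (with `∏ a ∣ n`, `∏ b ∣ n + h`,
position in `TO`) to `v = (a, n / ∏ a)`, `w = (b, (n+h) / ∏ b)` (`Fin.snoc`): injective, in
`finMulAntidiag`. `x i0 + ε < 1 - ∑ x ≤ u + ε1` gives `v i0 < v last` (compare logarithms, `L > 0`), and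
`x i < x i0` gives `v i < v i0`: `topS`; `u ≤ 1 - ∑ x < 1/2 - ε` and `u' ≤ 1 - ∑ y + ε1 < 1/2`: all
squares are `< X` (the other entries are smaller). Mixed: `2 (y i0 + u') + 3 u ≥ 2 (y i0 + 1 - ∑ y - ε1)
+ 3 (1 - ∑ x - ε1) = 5 - 3 ∑ x - 2 (∑ y - y i0) - 5 ε1 > 3 + (δ + ε) - 5 ε1 ≥ 3 + δ`, i.e.
`X ^ (3+δ) < (w_{i0} w_last) ^ 2 v_last ^ 3` (`i0.castSucc ≠ last`). So these `n` contribute to `PC` at most
`gcnt (topS) n`. For `n ∈ Icc 1 ⌊η X⌋₊` the number of `(a, b)` is at most `card (finMulAntidiag (s+1) n) *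
card (finMulAntidiag (s+1) (n+h))` (same injection) `= d_{s+1}(n) d_{s+1}(n+h)` (claimB3, second
part, `Gen/ItemB3.lean`, or `Nat.card_finMulAntidiag`-like lemmas; `TS L s 0 n 1` is the cardinality by
definition), and their sum is `DS s h 0 ⌊η X⌋₊`. -/
def ConR10 : Prop := ∀ (s h : ℕ) (i0 : Fin s) (δ ε η : ℝ), 0 < ε → 0 < η → η ≤ 1 →
  ∀ᶠ X : ℝ in atTop, PC s X (-(h : ℤ)) (TO i0 δ ε) ≤
    ∑ n ∈ Finset.Ioc ⌊η * X⌋₊ ⌊X⌋₊, ((gcnt s h δ X (topS i0) n : ℕ) : ℝ) + DS s h 0 ⌊η * X⌋₊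
def StR10 : Prop := claimB3 → ConR10

/-- R11 [MEDIUM]. The volumes.
PROOF. `TE` is closed (nonstrict inequalities between continuous functions) and bounded (`0 ≤ x i`,
`∑ x ≤ 1 + ε` from `0 ≤ x i0 ≤ 1 - ∑ x + ε`), so compact; `TO` is open. (i) `TE i0 δ ε` decreases as
`ε ↓ 0` and `⋂_n TE i0 δ (1/(n+1)) = TD i0 δ`: `tendsto_measure_iInter_atTop` (for the disjunction: if
for every `n` one of the two WD holds, then one of them holds for infinitely many `n`, hence for all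
`n` by monotonicity, hence in the limit). (ii) `TO i0 δ ε` increases as `ε ↓ 0` with union `TO i0 δ 0`:
`tendsto_measure_iUnion_atTop`; and `TD i0 δ \ TO i0 δ 0` is contained in the finite union of the
hyperplanes `x i = 0`, `x i = x i0` (`i ≠ i0`), `x i0 = 1 - ∑ x`, `1 - ∑ x = 1/2`, the same for `y`,
`3 ∑ x + 2 (∑ y - y i0) = 2 - δ` and the one with `x, y` exchanged. Each has measure `0`: it is the
zero set of a nonconstant affine function (`Measure.addHaar_affineSubspace`, or Fubini and claimL6: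
for the equations in `x` only it is `null × univ`; for the mixed ones, for every fixed `y` the equation
`3 ∑ x = const` is a null set). (Volumes are finite because the sets are bounded.) -/
def ConR11 : Prop := ∀ (s : ℕ) (i0 : Fin s) (δ : ℝ),
  (∀ ε, 0 < ε → IsCompact (TE i0 δ ε) ∧ IsOpen (TO i0 δ ε)) ∧
  (∀ ε', 0 < ε' → ∃ ε₀, 0 < ε₀ ∧ ∀ ε, 0 < ε → ε ≤ ε₀ →
    volume.real (TE i0 δ ε) ≤ volume.real (TD i0 δ) + ε' ∧
    volume.real (TD i0 δ) - ε' ≤ volume.real (TO i0 δ ε))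
def StR11 : Prop := claimL6 → ConR11

/-- R12 [EASY]. PROOF. `WD i0 (δ - ε) x y` gives `3/2 ∑ x + (∑ y - y i0) ≤ 1 - (δ - ε)/2 < 1`; with
`y i0 ≤ 1 - ∑ y + ε`: `4 (1 - ∑ y) + 2 ε ≥ 2 (1 - ∑ y + y i0) ≥ 3 ∑ x + δ - ε`, so `1 - ∑ y ≥ 3/4 ∑ x +
(δ - 3 ε)/4 > 1/2 ∑ x` (`∑ x ≥ 0`, `3 ε < δ`). The other case is the same. `TO`: the same with
`y i0 ≤ 1 - ∑ y` and `WO i0 (δ + ε)`, `δ ≥ 0`, `ε > 0`. -/
def ConR12 : Prop := ∀ (s : ℕ) (i0 : Fin s) (δ ε : ℝ), 0 < ε → 0 ≤ δ →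
  (4 * ε ≤ δ → ∀ p ∈ TE i0 δ ε, (∀ i, 0 ≤ p.1 i ∧ 0 ≤ p.2 i) ∧ OW i0 p) ∧
  (∀ p ∈ TO i0 δ ε, (∀ i, 0 < p.1 i ∧ 0 < p.2 i) ∧ OW i0 p)
def StR12 : Prop := ConR12

/-- The asymptotic formula for the pairs outside the core with all factors below `X ^ (1/2)`. -/
def StG : Prop := ∀ (s h : ℕ) (i0 : Fin s) (δ : ℝ), h ≠ 0 → 0 < δ →
  Tendsto (fun X : ℝ => (∑ n ∈ Finset.Icc 1 ⌊X⌋₊, ((gcnt s h δ X (fun _ => True) n : ℕ) : ℝ)) /
    (X * (Real.log X) ^ (2 * s))) atTop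
    (𝓝 ((((s : ℝ) + 1) * s) ^ 2 * (Csing s h * volume.real (TD i0 δ))))

/-- R13 [EASY-MEDIUM]. PROOF. `K = ((s+1) s) ^ 2`, `Y = X (log X) ^ (2 s)`. By claimFinal there is `C`
(any admissible one, positive) with `DS s h 0 ⌊X⌋₊ ≤ C Y` for `X` large, so for `0 < η ≤ 1`:
`DS s h 0 ⌊η X⌋₊ ≤ C η Y` for `X` large. UPPER: `∑_{Icc 1 ⌊X⌋} gcnt ≤ ∑_{n ≤ ⌊η X⌋} + K ∑_{Ioc} gcnt (topP)`
(ConR7); the first sum is `≤ DS s h 0 ⌊η X⌋₊` (`gcnt ≤ card * card = d d`, claimB3 second part), the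
second `≤ K PC (TE i0 δ ε)` (ConR9) `≤ K (Csing vol (TE) + ε'') Y` (StUp, ConR11, ConR12 with
`ε ≤ δ / 4` small). LOWER: `∑_{Icc 1 ⌊X⌋} gcnt ≥ K ∑_{Ioc} gcnt (topS) ≥ K (PC (TO i0 δ ε) - DS s h 0 ⌊η X⌋₊)`
(ConR10) and StLo. Given a target error choose `η`, then `ε`, then `ε''`. -/
def StR13 : Prop := claimB3 → claimFinal → StUp → StLo → ConR7 → ConR9 → ConR10 → ConR11 → ConR12 →
  StG

/-- R14 [EASY]. PROOF. `DS - coreS = (DS - ∑ mc mc) + ∑ gcnt` (ConR8); claimC9 says that the first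
divided by `X (log X) ^ (2 s)` tends to `Csing / (s!) ^ 2 (1 - (1 - (s+1)/2^s) ^ 2)` (`s ≥ 1` because of
`i0`), StG gives the second; the sum is `kap s i0 δ * (Csing / (s!) ^ 2)` (`s! ≠ 0`). -/
def StR14 : Prop := claimC9 → ConR8 → StG → StMain

/-- R15 [EASY-MEDIUM]. `kap` is right continuous at `0`.
PROOF. `TD i0 δ` increases as `δ ↓ 0`; `⋃_{n} TD i0 (1/(n+1))` is the set of the points of the domain
with `3 ∑ x + 2 (∑ y - y i0) < 2` or the exchanged inequality, which differs from `TD i0 0` by a subset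
of two hyperplanes (null sets, see R11). `tendsto_measure_iUnion_atTop`, monotonicity. -/
def ConR15 : Prop := ∀ (s : ℕ) (i0 : Fin s) (ε : ℝ), 0 < ε → ∃ δ₀, 0 < δ₀ ∧ ∀ δ, 0 < δ → δ ≤ δ₀ →
  kap s i0 δ ≤ kap s i0 0 ∧ kap s i0 0 - ε ≤ kap s i0 δ
def StR15 : Prop := claimL6 → ConR15

/-- R16 [EASY]. The sharp theorem.
PROOF. For `X ≥ 1` and `δ > 0`: `coreS s h 0 X ≤ coreS s h δ X` (`X ^ 3 ≤ X ^ (3 + δ)`), so
`(DS - coreS 0) / Y` lies between `(DS - coreS δ) / Y` and the same plus `ε` (StStrip, for a suitable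
`δ`, and also for every smaller `δ > 0` by monotonicity of `coreS` in `δ`); StMain and ConR15. -/
def StR16 : Prop := StMain → StStrip → ConR15 → StSharp

end Pool.Agent.Work.MP_122e00_nt.WR
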